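import Pool.Agent.Helper11.MT.Kernel

namespace Pool.Agent.Helper11.MT

open Finset Real Filter Topology

/-- `∑ n^{-3/2}`. -/
noncomputable def K32 : ℝ := ∑' n : ℕ, (n : ℝ) ^ (-(3 / 2) : ℝ)

lemma K32_nonneg : 0 ≤ K32 := tsum_nonneg fun n => by positivity

lemma sum_range_le_K32 (N : ℕ) : ∑ n ∈ range N, (n : ℝ) ^ (-(3 / 2) : ℝ) ≤ K32 :=
  summable_rpow_neg_three_half.sum_le_tsum _ fun n _ => by positivity

lemma w_div_le (i : ℕ) (n : ℕ) : w i n / n ≤ (2 / 3 : ℝ) ^ i * (n : ℝ) ^ (-(3 / 2) : ℝ) := by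
  rcases Nat.eq_zero_or_pos n with rfl | hn
  · simp only [Nat.cast_zero, div_zero]; positivity
  have hn' : (0 : ℝ) < n := by exact_mod_cast hn
  rw [div_le_iff₀ hn']
  refine (w_le_two_thirds i hn).trans_eq ?_
  rw [mul_assoc, ← Real.rpow_add_one hn'.ne']
  norm_num

lemma one_le_mul_cast {c n : ℕ} (hc : 1 ≤ c) (hn : 1 ≤ n) : 1 ≤ c * n := Nat.one_le_iff_ne_zero.mpr
  (Nat.mul_ne_zero (by omega) (by omega))

lemma w_scaled_le {c : ℕ} (hc : 1 ≤ c) (i n : ℕ) :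
    w i (c * n) / n ≤ (2 / 3 : ℝ) ^ i * (n : ℝ) ^ (-(3 / 2) : ℝ) := by
  rcases Nat.eq_zero_or_pos n with rfl | hn
  · simp only [Nat.cast_zero, div_zero]; positivity
  have hn' : (0 : ℝ) < n := by exact_mod_cast hn
  have hc' : (1 : ℝ) ≤ c := by exact_mod_cast hc
  have h1 := w_le_two_thirds i (one_le_mul_cast hc hn)
  have h2 : ((c * n : ℕ) : ℝ) ^ (-(1 / 2) : ℝ) ≤ (n : ℝ) ^ (-(1 / 2) : ℝ) := by
    apply Real.rpow_le_rpow_of_nonpos hn' _ (by norm_num)
    push_cast; nlinarith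
  rw [div_le_iff₀ hn']
  calc w i (c * n) ≤ (2 / 3 : ℝ) ^ i * ((c * n : ℕ) : ℝ) ^ (-(1 / 2) : ℝ) := h1
    _ ≤ (2 / 3 : ℝ) ^ i * (n : ℝ) ^ (-(1 / 2) : ℝ) := by gcongr
    _ = _ := by
      rw [mul_assoc, ← Real.rpow_add_one hn'.ne']
      norm_num

lemma w_le_w_of_scaled (i : ℕ) {c : ℕ} (hc : 1 ≤ c) (n : ℕ) :
    w i (c * n) ≤ 2 ^ i * (n : ℝ) ^ (-(3 / 2) : ℝ) := by
  rcases Nat.eq_zero_or_pos n with rfl | hn
  · simp only [mul_zero, w_zero_right]; positivity
  have hn' : (0 : ℝ) < n := by exact_mod_cast hn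
  have hc' : (1 : ℝ) ≤ c := by exact_mod_cast hc
  refine (w_le_summable i (one_le_mul_cast hc hn)).trans ?_
  gcongr 2 ^ i * ?_
  apply Real.rpow_le_rpow_of_nonpos hn' _ (by norm_num)
  push_cast; nlinarith

lemma summable_w_scaled (i : ℕ) {c : ℕ} (hc : 1 ≤ c) : Summable fun n => w i (c * n) :=
  Summable.of_nonneg_of_le (fun n => w_nonneg i _) (fun n => w_le_w_of_scaled i hc n)
    (summable_rpow_neg_three_half.mul_left (2 ^ i))

/-- The monotone numerators. -/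
lemma log_pow_mono {c n : ℕ} (hc : 1 ≤ c) (hn : 1 ≤ n) (i : ℕ) :
    (Real.log ((c * n : ℕ) : ℝ)) ^ i / i.factorial ≤
      (Real.log ((c * (n + 1) : ℕ) : ℝ)) ^ i / i.factorial := by
  have h1 : (0 : ℝ) < ((c * n : ℕ) : ℝ) := by exact_mod_cast one_le_mul_cast hc hn
  have h2 : ((c * n : ℕ) : ℝ) ≤ ((c * (n + 1) : ℕ) : ℝ) := by
    exact_mod_cast Nat.mul_le_mul_left c (Nat.le_succ n)
  have := Real.log_le_log h1 h2
  have h3 := log_nat_nonneg (c * n)
  gcongr

lemma w_scaled_eq_trunc (i : ℕ) {c : ℕ} (hc : 1 ≤ c) (n : ℕ) :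
    w i (c * n) = trunc 1 (fun n => (Real.log ((c * n : ℕ) : ℝ)) ^ i / i.factorial / (c : ℝ) ^ 2) n := by
  unfold trunc
  rcases Nat.eq_zero_or_pos n with rfl | hn
  · simp [w_zero_right]
  · rw [if_neg (by omega)]
    unfold w
    push_cast
    have : (c : ℝ) ≠ 0 := by positivity
    field_simp

lemma norm_tsum_psi_w_scaled {ψ : ℕ → ℂ} {Q : ℝ} (hψ : ∀ N, ‖∑ n ∈ range N, ψ n‖ ≤ Q)
    (hψ1 : ∀ n, ‖ψ n‖ ≤ 1) (J : ℕ) {c : ℕ} (hc : 1 ≤ c) :
    ‖∑' m, ψ m * (w J (c * m) : ℂ)‖ ≤ 4 * Q * ((2 / 3) ^ J * K32) := by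
  have hsum := summable_w_scaled J hc
  simp_rw [w_scaled_eq_trunc J hc] at hsum ⊢
  refine norm_tsum_mul_trunc_le hψ le_rfl ?_ ?_ ?_ ?_ ?_
  · intro n _
    have := log_nat_nonneg (c * n)
    positivity
  · intro n hn
    have := log_pow_mono hc hn J
    gcongr
  · exact hsum.tendsto_atTop_zero
  · refine Summable.of_norm_bounded hsum fun n => ?_
    rw [norm_mul, Complex.norm_real]
    have h0 : 0 ≤ trunc 1 (fun n => (Real.log ((c * n : ℕ) : ℝ)) ^ J / J.factorial / (c : ℝ) ^ 2) n := by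
      rw [← w_scaled_eq_trunc J hc]; exact w_nonneg _ _
    rw [Real.norm_of_nonneg h0]
    exact mul_le_of_le_one_left h0 (hψ1 n)
  · intro N
    calc _ ≤ ∑ n ∈ range N, (2 / 3 : ℝ) ^ J * (n : ℝ) ^ (-(3 / 2) : ℝ) := by
          refine Finset.sum_le_sum fun n _ => ?_
          rw [← w_scaled_eq_trunc J hc]
          exact w_scaled_le hc J n
      _ ≤ _ := by
          rw [← Finset.mul_sum]
          exact mul_le_mul_of_nonneg_left (sum_range_le_K32 N) (by positivity)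

lemma norm_tsum_psi_w {ψ : ℕ → ℂ} {Q : ℝ} (hψ : ∀ N, ‖∑ n ∈ range N, ψ n‖ ≤ Q)
    (hψ1 : ∀ n, ‖ψ n‖ ≤ 1) (J : ℕ) :
    ‖∑' m, ψ m * (w J m : ℂ)‖ ≤ 4 * Q * ((2 / 3) ^ J * K32) := by
  simpa using norm_tsum_psi_w_scaled hψ hψ1 J (c := 1) le_rfl

/-- `log m * w J (b m) ≤ (J+1) w (J+1) (b m)`. -/
lemma log_mul_w_le (J : ℕ) {b : ℕ} (hb : 1 ≤ b) (m : ℕ) :
    Real.log m * w J (b * m) ≤ (J + 1) * w (J + 1) (b * m) := by
  rcases Nat.eq_zero_or_pos m with rfl | hm
  · simp [w_zero_right]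
  have hm' : (0 : ℝ) < m := by exact_mod_cast hm
  have h1 : Real.log m ≤ Real.log ((b * m : ℕ) : ℝ) := by
    apply Real.log_le_log hm'
    have hb' : (1 : ℝ) ≤ b := by exact_mod_cast hb
    push_cast; nlinarith
  have h2 : (J + 1 : ℝ) * w (J + 1) (b * m) = Real.log ((b * m : ℕ) : ℝ) * w J (b * m) := by
    unfold w
    rw [Nat.factorial_succ]
    have : ((b * m : ℕ) : ℝ) ≠ 0 := by
      have := one_le_mul_cast hb hm
      positivity
    push_cast
    field_simp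
    ring
  rw [h2]
  exact mul_le_mul_of_nonneg_right h1 (w_nonneg _ _)

lemma log_mul_w_eq_trunc (i : ℕ) {c : ℕ} (hc : 1 ≤ c) (n : ℕ) :
    Real.log n * w i (c * n) = trunc 1 (fun n => Real.log n *
      ((Real.log ((c * n : ℕ) : ℝ)) ^ i / i.factorial / (c : ℝ) ^ 2)) n := by
  rw [w_scaled_eq_trunc i hc]
  unfold trunc
  split_ifs <;> ring

lemma norm_tsum_psi_log_w_scaled {ψ : ℕ → ℂ} {Q : ℝ} (hψ : ∀ N, ‖∑ n ∈ range N, ψ n‖ ≤ Q)
    (hψ1 : ∀ n, ‖ψ n‖ ≤ 1) (J : ℕ) {c : ℕ} (hc : 1 ≤ c) :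
    ‖∑' m, ψ m * ((Real.log m * w J (c * m) : ℝ) : ℂ)‖
      ≤ 4 * Q * ((J + 1) * ((2 / 3) ^ (J + 1) * K32)) := by
  have hsum : Summable fun m : ℕ => Real.log m * w J (c * m) :=
    Summable.of_nonneg_of_le (fun m => mul_nonneg (log_nat_nonneg m) (w_nonneg _ _))
      (fun m => log_mul_w_le J hc m) ((summable_w_scaled (J + 1) hc).mul_left _)
  have h0 : ∀ n : ℕ, 0 ≤ Real.log n * w J (c * n) := fun m =>
    mul_nonneg (log_nat_nonneg m) (w_nonneg _ _)
  simp_rw [log_mul_w_eq_trunc J hc] at hsum h0 ⊢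
  refine norm_tsum_mul_trunc_le hψ le_rfl ?_ ?_ ?_ ?_ ?_
  · intro n _
    have := log_nat_nonneg (c * n)
    have := log_nat_nonneg n
    positivity
  · intro n hn
    have h1 := log_pow_mono hc hn J
    have h2 := log_nat_nonneg n
    have h3 := log_nat_nonneg (c * n)
    have h4 : Real.log (n : ℝ) ≤ Real.log ((n + 1 : ℕ) : ℝ) := by
      apply Real.log_le_log (by exact_mod_cast hn); push_cast; linarith
    have h5 : 0 ≤ (Real.log ((c * n : ℕ) : ℝ)) ^ J / J.factorial / (c : ℝ) ^ 2 := by positivity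
    have h6 : (Real.log ((c * n : ℕ) : ℝ)) ^ J / J.factorial / (c : ℝ) ^ 2 ≤
      (Real.log ((c * (n + 1) : ℕ) : ℝ)) ^ J / J.factorial / (c : ℝ) ^ 2 := by gcongr
    exact mul_le_mul h4 h6 h5 (log_nat_nonneg _)
  · exact hsum.tendsto_atTop_zero
  · refine Summable.of_norm_bounded hsum fun n => ?_
    rw [norm_mul, Complex.norm_real, Real.norm_of_nonneg (h0 n)]
    exact mul_le_of_le_one_left (h0 n) (hψ1 n)
  · intro N
    calc _ ≤ ∑ n ∈ range N, (J + 1) * ((2 / 3 : ℝ) ^ (J + 1) * (n : ℝ) ^ (-(3 / 2) : ℝ)) := by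
          refine Finset.sum_le_sum fun n _ => ?_
          rw [← log_mul_w_eq_trunc J hc]
          have h1 := log_mul_w_le J hc n
          have h2 := w_scaled_le hc (J + 1) n
          calc Real.log n * w J (c * n) / n ≤ (J + 1) * w (J + 1) (c * n) / n := by gcongr
            _ = (J + 1) * (w (J + 1) (c * n) / n) := by ring
            _ ≤ _ := by gcongr
      _ = (J + 1) * ((2 / 3) ^ (J + 1) * ∑ n ∈ range N, (n : ℝ) ^ (-(3 / 2) : ℝ)) := by
          rw [← Finset.mul_sum, ← Finset.mul_sum]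
      _ ≤ _ := by
          have := sum_range_le_K32 N
          gcongr

/-- The kernel truncated to `n > U`. -/
noncomputable def wU (U i n : ℕ) : ℝ := if n ≤ U then 0 else w i n

lemma wU_nonneg (U i n : ℕ) : 0 ≤ wU U i n := by
  unfold wU; split_ifs
  · exact le_rfl
  · exact w_nonneg _ _

lemma wU_le (U i n : ℕ) : wU U i n ≤ w i n := by
  unfold wU; split_ifs
  · exact w_nonneg _ _
  · exact le_rfl

lemma summable_wU (U i : ℕ) : Summable (wU U i) :=
  Summable.of_nonneg_of_le (wU_nonneg U i) (wU_le U i) (summable_w i)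

lemma wU_eq_trunc (U i n : ℕ) :
    wU U i n = trunc (U + 1) (fun n => (Real.log (n : ℝ)) ^ i / i.factorial) n := by
  unfold wU trunc
  by_cases h : n ≤ U
  · rw [if_pos h, if_pos (by omega)]
  · rw [if_neg h, if_neg (by omega)]
    unfold w; rw [div_div]

lemma norm_tsum_psi_wU {ψ : ℕ → ℂ} {Q : ℝ} (hψ : ∀ N, ‖∑ n ∈ range N, ψ n‖ ≤ Q)
    (hψ1 : ∀ n, ‖ψ n‖ ≤ 1) (U i : ℕ) :
    ‖∑' m, ψ m * (wU U i m : ℂ)‖ ≤ 4 * Q * (2 / (U + 1)) := by
  have hsum := summable_wU U i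
  have h0 := wU_nonneg U i
  have hb : ∀ n, wU U i n / n ≤ if U < n then ((n : ℝ) ^ 2)⁻¹ else 0 := by
    intro n
    unfold wU
    by_cases h : n ≤ U
    · simp only [if_pos h, zero_div]; split_ifs <;> positivity
    · have hn : 1 ≤ n := by omega
      have hn' : (0 : ℝ) < n := by exact_mod_cast hn
      rw [if_neg h, if_pos (by omega), div_le_iff₀ hn']
      refine (w_le_one_div i hn).trans_eq ?_
      field_simp
  have hpart : ∀ N, ∑ n ∈ range N, wU U i n / n ≤ 2 / (U + 1) := by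
    intro N
    refine (Finset.sum_le_sum fun n _ => hb n).trans ?_
    rw [← Finset.sum_filter]
    refine le_trans (le_of_eq ?_) (sum_Ioo_inv_sq_le (α := ℝ) U N)
    apply Finset.sum_congr _ fun _ _ => rfl
    ext n
    simp only [mem_filter, mem_range, mem_Ioo]
    tauto
  have e : ∀ n, wU U i n = trunc (U + 1) (fun n => (Real.log (n : ℝ)) ^ i / i.factorial) n :=
    wU_eq_trunc U i
  have hsum' : Summable (trunc (U + 1) (fun n => (Real.log (n : ℝ)) ^ i / i.factorial)) := by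
    convert hsum using 1; ext n; rw [e]
  simp_rw [e] at hpart h0 ⊢
  refine norm_tsum_mul_trunc_le hψ (by omega) ?_ ?_ ?_ ?_ hpart
  · intro n _
    have := log_nat_nonneg n
    positivity
  · intro n hn
    have h2 := log_nat_nonneg n
    have h4 : Real.log (n : ℝ) ≤ Real.log ((n + 1 : ℕ) : ℝ) := by
      apply Real.log_le_log (by exact_mod_cast (by omega : 0 < n)); push_cast; linarith
    gcongr
  · exact hsum'.tendsto_atTop_zero
  · refine Summable.of_norm_bounded hsum' fun n => ?_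
    rw [norm_mul, Complex.norm_real, Real.norm_of_nonneg (h0 n)]
    exact mul_le_of_le_one_left (h0 n) (hψ1 n)

/-- Sums of the kernel over residue classes. -/
lemma abs_tsum_w_modEq_sub (J : ℕ) {q : ℕ} (hq : 0 < q) (a : ℕ) :
    |(∑' n, if n ≡ a [MOD q] then w J n else 0) - (∑' n, w J n) / q|
      ≤ 4 * ((2 / 3) ^ J * K32) := by
  set ψ : ℕ → ℂ := fun n => (if n ≡ a [MOD q] then 1 else 0) - 1 / q with hψdef
  have hq' : (0 : ℝ) < q := by exact_mod_cast hq
  have hq1 : (1 : ℝ) ≤ q := by exact_mod_cast hq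
  have hψ : ∀ N, ‖∑ n ∈ range N, ψ n‖ ≤ 1 := by
    intro N
    have h1 : ∑ n ∈ range N, ψ n = (((N.count (· ≡ a [MOD q]) : ℕ) : ℝ) - N / q : ℝ) := by
      rw [hψdef, Finset.sum_sub_distrib, Finset.sum_ite]
      simp only [Finset.sum_const_zero, add_zero, Finset.sum_const, card_range, nsmul_eq_mul,
        mul_one]
      rw [Nat.count_eq_card_filter_range]
      push_cast
      ring
    rw [h1, Complex.norm_real, Real.norm_eq_abs]
    have h2 := Nat.count_modEq_card N hq a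
    have h3 : ((N.count (· ≡ a [MOD q]) : ℕ) : ℝ) = ((N / q : ℕ) : ℝ) +
        (if a % q < N % q then 1 else 0) := by
      rw [h2]; push_cast; split_ifs <;> simp
    rw [h3]
    have h4 : (N : ℝ) / q = ((N / q : ℕ) : ℝ) + ((N % q : ℕ) : ℝ) / q := by
      have := Nat.div_add_mod N q
      have h5 : (N : ℝ) = q * ((N / q : ℕ) : ℝ) + ((N % q : ℕ) : ℝ) := by exact_mod_cast this.symm
      rw [h5]
      field_simp
    rw [h4]
    have h6 : ((N % q : ℕ) : ℝ) / q ≤ 1 := by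
      rw [div_le_one hq']
      exact_mod_cast (Nat.mod_lt N hq).le
    have h7 : 0 ≤ ((N % q : ℕ) : ℝ) / q := by positivity
    rw [abs_le]
    split_ifs <;> constructor <;> linarith
  have hψ1 : ∀ n, ‖ψ n‖ ≤ 1 := by
    intro n
    have : ψ n = (((if n ≡ a [MOD q] then 1 else 0) - 1 / q : ℝ) : ℂ) := by
      rw [hψdef]; push_cast; split_ifs <;> simp
    rw [this, Complex.norm_real, Real.norm_eq_abs, abs_le]
    have h1 : 1 / (q : ℝ) ≤ 1 := by rw [div_le_one hq']; exact hq1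
    have h2 : 0 ≤ 1 / (q : ℝ) := by positivity
    split_ifs <;> constructor <;> linarith
  have h := norm_tsum_psi_w hψ hψ1 J
  have hs1 : Summable fun n => if n ≡ a [MOD q] then w J n else 0 := by
    refine Summable.of_nonneg_of_le (fun n => ?_) (fun n => ?_) (summable_w J)
    · split_ifs; exacts [w_nonneg _ _, le_rfl]
    · split_ifs; exacts [le_rfl, w_nonneg _ _]
  have e : ∑' m, ψ m * (w J m : ℂ) =
      (((∑' n, if n ≡ a [MOD q] then w J n else 0) - (∑' n, w J n) / q : ℝ) : ℂ) := by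
    rw [← tsum_div_const, ← hs1.tsum_sub ((summable_w J).div_const _), Complex.ofReal_tsum]
    refine tsum_congr fun n => ?_
    rw [hψdef]
    push_cast
    split_ifs
    · ring
    · simp only [Complex.ofReal_zero]; ring
  rw [e, Complex.norm_real, Real.norm_eq_abs] at h
  simpa using h

end Pool.Agent.Helper11.MT
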