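import Mathlib
import Pool.Agent.Helper11.MT.Kernel2

/-!
Dirichlet convolution and the kernels `w`.
-/

open Finset

namespace Pool.Agent.Helper11.MT

lemma hasSum_of_forall_eq {α K : Type*} [AddCommMonoid K] [TopologicalSpace K] {f g : α → K}
    {S : K} (h : ∀ x, f x = g x) (hg : HasSum g S) : HasSum f S := by
  rwa [funext h]

lemma hasSum_conv {K : Type*} [NormedField K] [CompleteSpace K] {G H Φ : ℕ → K} (hG : G 0 = 0)
    (hH : H 0 = 0) {S : K}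
    (hs : HasSum (fun p : ℕ × ℕ => G p.1 * H p.2 * Φ (p.1 * p.2)) S) :
    HasSum (fun n => (∑ p ∈ n.divisorsAntidiagonal, G p.1 * H p.2) * Φ n) S := by
  have h1 := hs.tsum_fiberwise (fun p => p.1 * p.2)
  refine hasSum_of_forall_eq (fun n => ?_) h1
  rcases eq_or_ne n 0 with rfl | hn
  · have hS : (fun p : ℕ × ℕ => p.1 * p.2) ⁻¹' {0} = {0} ×ˢ Set.univ ∪ Set.univ ×ˢ {0} := by
      ext
      simp
    have h2 : ∀ p : (fun p : ℕ × ℕ => p.1 * p.2) ⁻¹' {0},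
        G p.val.1 * H p.val.2 * Φ (p.val.1 * p.val.2) = 0 := by
      rintro ⟨⟨_, _⟩, hp⟩
      rcases hS ▸ hp with ⟨rfl, -⟩ | ⟨-, rfl⟩ <;> simp [hG, hH]
    simp [h2]
  · rw [show (fun p : ℕ × ℕ => p.1 * p.2) ⁻¹' {n} = n.divisorsAntidiagonal by ext; simp [hn],
      Finset.tsum_subtype' n.divisorsAntidiagonal fun p => G p.1 * H p.2 * Φ (p.1 * p.2),
      Finset.sum_mul]
    refine Finset.sum_congr rfl fun p hp => ?_
    rw [(Nat.mem_divisorsAntidiagonal.mp hp).1]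

/-- Absolutely summable against `n^(-3/2)`. -/
def Good (f : ℕ → ℝ) : Prop := Summable fun n : ℕ => |f n| * (n : ℝ) ^ (-(3 / 2) : ℝ)

/-- The transform. -/
noncomputable def MM (ξ : ℕ → ℂ) (J : ℕ) (f : ℕ → ℝ) : ℂ := ∑' n : ℕ, (f n : ℂ) * ξ n * (w J n : ℂ)

lemma w_le' (i n : ℕ) : w i n ≤ 2 ^ i * (n : ℝ) ^ (-(3 / 2) : ℝ) := by
  rcases Nat.eq_zero_or_pos n with rfl | hn
  · rw [w_zero_right]
    positivity
  · exact w_le_summable i hn

lemma Good.summable_w {f : ℕ → ℝ} (hf : Good f) (i : ℕ) : Summable fun n => |f n| * w i n := by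
  refine Summable.of_nonneg_of_le (fun n => mul_nonneg (abs_nonneg _) (w_nonneg _ _)) (fun n => ?_)
    (Summable.mul_left (2 ^ i) hf)
  calc |f n| * w i n ≤ |f n| * (2 ^ i * (n : ℝ) ^ (-(3 / 2) : ℝ)) :=
        mul_le_mul_of_nonneg_left (w_le' i n) (abs_nonneg _)
    _ = _ := by ring

lemma Good.summable_MM {ξ : ℕ → ℂ} (hξ : ∀ n, ‖ξ n‖ ≤ 1) {f : ℕ → ℝ} (hf : Good f) (i : ℕ) :
    Summable fun n => ‖(f n : ℂ) * ξ n * (w i n : ℂ)‖ := by
  refine Summable.of_nonneg_of_le (fun n => norm_nonneg _) (fun n => ?_) (hf.summable_w i)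
  rw [norm_mul, norm_mul, Complex.norm_real, Complex.norm_real, Real.norm_eq_abs, Real.norm_eq_abs,
    abs_of_nonneg (w_nonneg i n)]
  refine mul_le_mul_of_nonneg_right ?_ (w_nonneg i n)
  exact mul_le_of_le_one_right (abs_nonneg _) (hξ n)

lemma hasSum_mul_pair {F G : ℕ → ℂ} (hF : Summable fun n => ‖F n‖) (hG : Summable fun n => ‖G n‖) :
    HasSum (fun p : ℕ × ℕ => F p.1 * G p.2) ((∑' n, F n) * ∑' n, G n) :=
  hF.of_norm.hasSum.mul hG.of_norm.hasSum (summable_mul_of_summable_norm hF hG)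

lemma summable_mul_pair {F G : ℕ → ℝ} (hF : Summable F) (hG : Summable G) (hF0 : ∀ n, 0 ≤ F n)
    (hG0 : ∀ n, 0 ≤ G n) : Summable (fun p : ℕ × ℕ => F p.1 * G p.2) := by
  refine summable_mul_of_summable_norm (f := F) (g := G) ?_ ?_
  · exact hF.norm
  · exact hG.norm

/-- Type II: exact convolution identity. -/
lemma MM_conv {ξ : ℕ → ℂ} (hξ : ∀ n, ‖ξ n‖ ≤ 1) (hmul : ∀ a b, ξ (a * b) = ξ a * ξ b)
    {f g : ArithmeticFunction ℝ} (hf : Good f) (hg : Good g) (J : ℕ) :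
    MM ξ J (f * g : ArithmeticFunction ℝ) =
      ∑ ij ∈ antidiagonal J, MM ξ ij.1 f * MM ξ ij.2 g := by
  have h1 : ∀ ij ∈ antidiagonal J, HasSum (fun p : ℕ × ℕ =>
      ((f p.1 : ℂ) * ξ p.1 * (w ij.1 p.1 : ℂ)) * ((g p.2 : ℂ) * ξ p.2 * (w ij.2 p.2 : ℂ)))
      (MM ξ ij.1 f * MM ξ ij.2 g) := by
    intro ij _
    have h := hasSum_mul_pair (F := fun n => (f n : ℂ) * ξ n * (w ij.1 n : ℂ))
      (G := fun n => (g n : ℂ) * ξ n * (w ij.2 n : ℂ)) (hf.summable_MM hξ ij.1)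
      (hg.summable_MM hξ ij.2)
    exact h
  have h2 := hasSum_sum h1
  have h3 : HasSum (fun p : ℕ × ℕ => ((f p.1 : ℂ) * ξ p.1) * ((g p.2 : ℂ) * ξ p.2) *
      (fun n => (w J n : ℂ)) (p.1 * p.2))
      (∑ ij ∈ antidiagonal J, MM ξ ij.1 f * MM ξ ij.2 g) := by
    refine hasSum_of_forall_eq (fun p => ?_) h2
    simp only
    rw [w_mul]
    push_cast
    rw [Finset.mul_sum]
    refine Finset.sum_congr rfl fun ij _ => ?_
    ring
  have h4 := hasSum_conv (G := fun n => (f n : ℂ) * ξ n) (H := fun n => (g n : ℂ) * ξ n)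
    (Φ := fun n => (w J n : ℂ)) (by simp) (by simp) h3
  rw [← h4.tsum_eq]
  unfold MM
  refine tsum_congr fun n => ?_
  congr 1
  rw [ArithmeticFunction.mul_apply]
  push_cast
  rw [Finset.sum_mul]
  refine Finset.sum_congr rfl fun p hp => ?_
  rw [← (Nat.mem_divisorsAntidiagonal.mp hp).1, hmul]
  ring

/-- Type I: convolution with a finitely supported function. -/
lemma MM_conv_fin {ξ : ℕ → ℂ} (hξ : ∀ n, ‖ξ n‖ ≤ 1) (hmul : ∀ a b, ξ (a * b) = ξ a * ξ b)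
    {f g : ArithmeticFunction ℝ} {D : ℕ} (hf : ∀ n, D < n → f n = 0) (hg : Good g) (J : ℕ) :
    MM ξ J (f * g : ArithmeticFunction ℝ) =
      ∑ a ∈ Icc 1 D, (f a : ℂ) * ξ a * ∑' b : ℕ, (g b : ℂ) * ξ b * (w J (a * b) : ℂ) := by
  have hsum : ∀ a ∈ Icc 1 D, Summable fun b : ℕ => (g b : ℂ) * ξ b * (w J (a * b) : ℂ) := by
    intro a ha
    rw [Finset.mem_Icc] at ha
    refine Summable.of_norm_bounded (g := fun b => 2 ^ J * (|g b| * (b : ℝ) ^ (-(3 / 2) : ℝ)))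
      (Summable.mul_left _ hg) (fun b => ?_)
    rw [norm_mul, norm_mul, Complex.norm_real, Complex.norm_real, Real.norm_eq_abs,
      Real.norm_eq_abs, abs_of_nonneg (w_nonneg _ _)]
    calc |g b| * ‖ξ b‖ * w J (a * b) ≤ |g b| * (2 ^ J * (b : ℝ) ^ (-(3 / 2) : ℝ)) := by
          refine mul_le_mul ?_ (w_le_w_of_scaled J ha.1 b) (w_nonneg _ _) (abs_nonneg _)
          exact mul_le_of_le_one_right (abs_nonneg _) (hξ b)
      _ = _ := by ring
  have h1 : ∀ a ∈ Icc 1 D, HasSum (fun p : ℕ × ℕ => if p.1 = a then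
      ((f p.1 : ℂ) * ξ p.1) * ((g p.2 : ℂ) * ξ p.2) * (w J (p.1 * p.2) : ℂ) else 0)
      ((f a : ℂ) * ξ a * ∑' b : ℕ, (g b : ℂ) * ξ b * (w J (a * b) : ℂ)) := by
    intro a ha
    have hinj : Function.Injective (fun b : ℕ => ((a, b) : ℕ × ℕ)) := by
      intro b b' h
      exact (Prod.ext_iff.mp h).2
    rw [← hinj.hasSum_iff]
    · have := ((hsum a ha).hasSum).mul_left ((f a : ℂ) * ξ a)
      refine hasSum_of_forall_eq (fun b => ?_) this
      simp only [Function.comp_apply, if_true]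
      ring
    · rintro ⟨x, y⟩ hxy
      simp only
      rw [if_neg]
      rintro rfl
      exact hxy ⟨y, rfl⟩
  have h2 := hasSum_sum h1
  have h3 : HasSum (fun p : ℕ × ℕ => ((f p.1 : ℂ) * ξ p.1) * ((g p.2 : ℂ) * ξ p.2) *
      (fun n => (w J n : ℂ)) (p.1 * p.2))
      (∑ a ∈ Icc 1 D, (f a : ℂ) * ξ a * ∑' b : ℕ, (g b : ℂ) * ξ b * (w J (a * b) : ℂ)) := by
    refine hasSum_of_forall_eq (fun p => ?_) h2
    simp only
    rw [Finset.sum_ite_eq]
    split_ifs with hp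
    · rfl
    · rw [Finset.mem_Icc, not_and_or] at hp
      rcases hp with hp | hp
      · have : p.1 = 0 := by omega
        rw [this]; simp
      · rw [hf p.1 (by omega)]; simp
  have h4 := hasSum_conv (G := fun n => (f n : ℂ) * ξ n) (H := fun n => (g n : ℂ) * ξ n)
    (Φ := fun n => (w J n : ℂ)) (by simp) (by simp) h3
  rw [← h4.tsum_eq]
  unfold MM
  refine tsum_congr fun n => ?_
  congr 1
  rw [ArithmeticFunction.mul_apply]
  push_cast
  rw [Finset.sum_mul]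
  refine Finset.sum_congr rfl fun p hp => ?_
  rw [← (Nat.mem_divisorsAntidiagonal.mp hp).1, hmul]
  ring

/-- Goodness is preserved by convolution. -/
lemma Good.conv {f g : ArithmeticFunction ℝ} (hf : Good f) (hg : Good g) :
    Good (f * g : ArithmeticFunction ℝ) := by
  have h0 : Summable fun p : ℕ × ℕ => (|f p.1| * (p.1 : ℝ) ^ (-(3 / 2) : ℝ)) *
      (|g p.2| * (p.2 : ℝ) ^ (-(3 / 2) : ℝ)) :=
    summable_mul_pair (F := fun n : ℕ => |f n| * (n : ℝ) ^ (-(3 / 2) : ℝ))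
      (G := fun n : ℕ => |g n| * (n : ℝ) ^ (-(3 / 2) : ℝ)) hf hg
      (fun n => by positivity) (fun n => by positivity)
  have h1 : HasSum (fun p : ℕ × ℕ => (fun n => |f n|) p.1 * (fun n => |g n|) p.2 *
      (fun n : ℕ => (n : ℝ) ^ (-(3 / 2) : ℝ)) (p.1 * p.2))
      (∑' p : ℕ × ℕ, (|f p.1| * (p.1 : ℝ) ^ (-(3 / 2) : ℝ)) *
      (|g p.2| * (p.2 : ℝ) ^ (-(3 / 2) : ℝ))) := by
    refine hasSum_of_forall_eq (fun p => ?_) h0.hasSum
    simp only
    have e : ((p.1 * p.2 : ℕ) : ℝ) ^ (-(3 / 2) : ℝ) =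
        (p.1 : ℝ) ^ (-(3 / 2) : ℝ) * (p.2 : ℝ) ^ (-(3 / 2) : ℝ) := by
      rw [Nat.cast_mul, Real.mul_rpow (Nat.cast_nonneg _) (Nat.cast_nonneg _)]
    rw [e]
    ring
  have h3 : Summable fun n : ℕ => (∑ p ∈ n.divisorsAntidiagonal, |f p.1| * |g p.2|) *
      (n : ℝ) ^ (-(3 / 2) : ℝ) :=
    (hasSum_conv (G := fun n => |f n|) (H := fun n => |g n|)
      (Φ := fun n : ℕ => (n : ℝ) ^ (-(3 / 2) : ℝ)) (by simp) (by simp) h1).summable
  refine Summable.of_nonneg_of_le (fun n => by positivity) (fun n => ?_) h3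
  refine mul_le_mul_of_nonneg_right ?_ (by positivity)
  rw [ArithmeticFunction.mul_apply]
  refine (Finset.abs_sum_le_sum_abs _ _).trans (Finset.sum_le_sum fun p _ => ?_)
  rw [abs_mul]

lemma Good.mono {f g : ℕ → ℝ} (hg : Good g) (h : ∀ n, |f n| ≤ |g n|) : Good f :=
  Summable.of_nonneg_of_le (fun n => by positivity)
    (fun n => mul_le_mul_of_nonneg_right (h n) (by positivity)) hg

lemma good_of_le_log {f : ℕ → ℝ} (h : ∀ n : ℕ, |f n| ≤ 1 + Real.log n) : Good f := by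
  have h1 : ∀ n : ℕ, |f n| * (n : ℝ) ^ (-(3 / 2) : ℝ) ≤ 5 * (n : ℝ) ^ (-(5 / 4) : ℝ) := by
    intro n
    rcases Nat.eq_zero_or_pos n with rfl | hn
    · rw [Nat.cast_zero, Real.zero_rpow (by norm_num), Real.zero_rpow (by norm_num)]
      simp
    · have hn' : (1 : ℝ) ≤ n := by exact_mod_cast hn
      have h2 : Real.log n ≤ (n : ℝ) ^ (1 / 4 : ℝ) / (1 / 4) :=
        Real.log_le_rpow_div (by positivity) (by norm_num)
      have h3 : (1 : ℝ) ≤ (n : ℝ) ^ (1 / 4 : ℝ) := Real.one_le_rpow hn' (by norm_num)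
      have h4 : |f n| ≤ 5 * (n : ℝ) ^ (1 / 4 : ℝ) := by
        have := h n
        linarith
      calc |f n| * (n : ℝ) ^ (-(3 / 2) : ℝ) ≤
          5 * (n : ℝ) ^ (1 / 4 : ℝ) * (n : ℝ) ^ (-(3 / 2) : ℝ) :=
            mul_le_mul_of_nonneg_right h4 (by positivity)
        _ = 5 * (n : ℝ) ^ (-(5 / 4) : ℝ) := by
          rw [mul_assoc, ← Real.rpow_add (by linarith)]
          norm_num
  refine Summable.of_nonneg_of_le (fun n => by positivity) h1 (Summable.mul_left _ ?_)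
  exact Real.summable_nat_rpow.mpr (by norm_num)

end Pool.Agent.Helper11.MT
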