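import Pool.Agent.Helper11.MT.Zeta

namespace Pool.Agent.Helper11.MT

open Finset Filter Topology Complex DirichletCharacter
open ArithmeticFunction (vonMangoldt)

lemma sum_range_char_shift {N : ℕ} [NeZero N] {χ : DirichletCharacter ℂ N} (hχ : χ ≠ 1) (m : ℕ) :
    ∑ k ∈ range N, χ ((m + k : ℕ) : ZMod N) = 0 := by
  have h1 : ∑ k ∈ range N, χ ((m + k : ℕ) : ZMod N) = ∑ a : ZMod N, χ ((m : ZMod N) + a) := by
    refine Finset.sum_nbij (fun k => (k : ZMod N)) (fun k _ => mem_univ _) ?_ ?_ ?_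
    · intro a ha b hb hab
      simp only [coe_range, Set.mem_Iio] at ha hb
      have := (ZMod.natCast_eq_natCast_iff' a b N).mp hab
      rwa [Nat.mod_eq_of_lt ha, Nat.mod_eq_of_lt hb] at this
    · intro a _
      refine ⟨a.val, ?_, ?_⟩
      · simpa using ZMod.val_lt a
      · simp
    · intro k _
      push_cast; rfl
  have h2 := Equiv.sum_comp (Equiv.addLeft (m : ZMod N)) (fun a => χ a)
  simp only [Equiv.coe_addLeft] at h2
  rw [h1, h2]
  exact MulChar.sum_eq_zero_of_ne_one hχ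

lemma norm_sum_range_char_le {N : ℕ} [NeZero N] {χ : DirichletCharacter ℂ N} (hχ : χ ≠ 1) (M : ℕ) :
    ‖∑ n ∈ range M, χ (n : ZMod N)‖ ≤ N := by
  induction M using Nat.strong_induction_on with
  | _ M ih =>
    rcases lt_or_ge M N with h | h
    · refine (norm_sum_le _ _).trans ?_
      calc ∑ n ∈ range M, ‖χ (n : ZMod N)‖ ≤ ∑ n ∈ range M, 1 :=
            Finset.sum_le_sum fun n _ => χ.norm_le_one _
        _ = M := by simp
        _ ≤ N := by exact_mod_cast h.le
    · have hN : 0 < N := Nat.pos_of_ne_zero (NeZero.ne N)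
      obtain ⟨m, rfl⟩ := Nat.exists_eq_add_of_le' h
      rw [Finset.sum_range_add, sum_range_char_shift hχ m, add_zero]
      exact ih m (by omega)

/-- `w i n * n^{-iτ}` as a complex function. -/
noncomputable def wτ (τ : ℝ) (i n : ℕ) : ℂ := (n : ℂ) ^ (-(τ * I)) * (w i n : ℂ)

lemma norm_cpow_I {n : ℕ} (hn : 1 ≤ n) (τ : ℝ) : ‖(n : ℂ) ^ (-(τ * I))‖ = 1 := by
  have h := Complex.norm_natCast_cpow_of_pos (by omega : 0 < n) (-(τ * I))
  rw [h]; simp

lemma norm_wτ (τ : ℝ) (i n : ℕ) : ‖wτ τ i n‖ = w i n := by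
  unfold wτ
  rcases Nat.eq_zero_or_pos n with rfl | hn
  · simp [w_zero_right]
  · rw [norm_mul, norm_cpow_I hn, one_mul, Complex.norm_real, Real.norm_of_nonneg (w_nonneg _ _)]

lemma norm_exp_sub_exp_le (x y : ℝ) : ‖Complex.exp (x * I) - Complex.exp (y * I)‖ ≤ |x - y| := by
  have h : Complex.exp (x * I) - Complex.exp (y * I) =
      Complex.exp (y * I) * (Complex.exp (I * ((x - y : ℝ) : ℂ)) - 1) := by
    rw [mul_sub, ← Complex.exp_add, mul_one]
    congr 2
    push_cast; ring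
  rw [h, norm_mul, Complex.norm_exp_ofReal_mul_I, one_mul]
  have := Real.norm_exp_I_mul_ofReal_sub_one_le (x := x - y)
  simpa using this

lemma norm_cpow_I_sub_le {n : ℕ} (hn : 1 ≤ n) (τ : ℝ) :
    ‖((n + 1 : ℕ) : ℂ) ^ (-(τ * I)) - (n : ℂ) ^ (-(τ * I))‖ ≤ |τ| / n := by
  have hn' : (0 : ℝ) < n := by exact_mod_cast hn
  have hc : ∀ m : ℕ, 1 ≤ m → (m : ℂ) ^ (-(τ * I)) = Complex.exp (((-(τ * Real.log m) : ℝ) : ℂ) * I) := by
    intro m hm
    have hm' : (m : ℂ) ≠ 0 := by exact_mod_cast (by omega : m ≠ 0)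
    rw [Complex.cpow_def_of_ne_zero hm', ← Complex.natCast_log]
    congr 1; push_cast; ring
  rw [hc _ (by omega), hc _ hn]
  refine (norm_exp_sub_exp_le _ _).trans ?_
  have h1 : -(τ * Real.log ((n + 1 : ℕ) : ℝ)) - -(τ * Real.log n) =
      -τ * (Real.log ((n + 1 : ℕ) : ℝ) - Real.log n) := by ring
  rw [h1, abs_mul, abs_neg, div_eq_mul_inv]
  gcongr
  rw [← Real.log_div (by positivity) hn'.ne']
  have h2 : ((n + 1 : ℕ) : ℝ) / n = 1 + (n : ℝ)⁻¹ := by push_cast; field_simp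
  rw [h2, abs_of_nonneg (Real.log_nonneg (by linarith [inv_pos.mpr hn']))]
  have := Real.log_le_sub_one_of_pos (x := 1 + (n : ℝ)⁻¹) (by positivity)
  linarith

lemma w_eq_trunc (i n : ℕ) :
    w i n = trunc 1 (fun n => (Real.log (n : ℝ)) ^ i / i.factorial) n := by
  unfold trunc
  rcases Nat.eq_zero_or_pos n with rfl | hn
  · simp [w_zero_right]
  · rw [if_neg (by omega)]
    unfold w; rw [div_div]

lemma abs_w_sub_le (i n : ℕ) : |w i (n + 1) - w i n| ≤ (w i (n + 1) - w i n) + 4 * (w i n / n) := by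
  rw [w_eq_trunc, w_eq_trunc]
  refine abs_trunc_sub_le le_rfl ?_ ?_ n
  · intro n _
    have := log_nat_nonneg n
    positivity
  · intro n hn
    have h2 := log_nat_nonneg n
    have h4 : Real.log (n : ℝ) ≤ Real.log ((n + 1 : ℕ) : ℝ) := by
      apply Real.log_le_log (by exact_mod_cast hn); push_cast; linarith
    gcongr

/-- bound for the twisted coefficients. -/
lemma norm_tsum_char_wτ_le {N : ℕ} [NeZero N] {χ : DirichletCharacter ℂ N} (hχ : χ ≠ 1)
    (τ : ℝ) (i : ℕ) :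
    ‖∑' n : ℕ, χ n * wτ τ i n‖ ≤ N * ((4 + |τ|) * ((2 / 3) ^ i * K32)) := by
  have hsum : Summable fun n : ℕ => χ n * wτ τ i n := by
    refine Summable.of_norm_bounded (summable_w i) fun n => ?_
    rw [norm_mul, norm_wτ]
    exact mul_le_of_le_one_left (w_nonneg _ _) (χ.norm_le_one _)
  have hpart : ∀ M, ‖∑ n ∈ range M, χ (n : ZMod N) * wτ τ i n‖
      ≤ N * (2 * w i M + (4 + |τ|) * ((2 / 3) ^ i * K32)) := by
    intro M
    refine (norm_sum_mul_le (norm_sum_range_char_le hχ) _ M).trans ?_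
    refine mul_le_mul_of_nonneg_left ?_ (by positivity)
    rw [norm_wτ]
    have h2 : ∑ n ∈ range M, ‖wτ τ i (n + 1) - wτ τ i n‖
        ≤ w i M + (4 + |τ|) * ((2 / 3) ^ i * K32) := by
      have : ∀ n ∈ range M, ‖wτ τ i (n + 1) - wτ τ i n‖
          ≤ (w i (n + 1) - w i n) + (4 + |τ|) * (w i n / n) := by
        intro n _
        rcases Nat.eq_zero_or_pos n with rfl | hn
        · simp only [zero_add]
          have h0 : wτ τ i 0 = 0 := by simp [wτ, w_zero_right]
          rw [h0, sub_zero, norm_wτ, w_zero_right]; simp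
        · have e : wτ τ i (n + 1) - wτ τ i n =
              ((n + 1 : ℕ) : ℂ) ^ (-(τ * I)) * ((w i (n + 1) - w i n : ℝ) : ℂ) +
              (((n + 1 : ℕ) : ℂ) ^ (-(τ * I)) - (n : ℂ) ^ (-(τ * I))) * (w i n : ℂ) := by
            unfold wτ; push_cast; ring
          rw [e]
          refine (norm_add_le _ _).trans ?_
          rw [norm_mul, norm_mul, norm_cpow_I (by omega : 1 ≤ n + 1), one_mul, Complex.norm_real,
            Complex.norm_real, Real.norm_of_nonneg (w_nonneg i n), Real.norm_eq_abs]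
          have h3 := abs_w_sub_le i n
          have h4 := norm_cpow_I_sub_le hn τ
          have h5 : ‖((n + 1 : ℕ) : ℂ) ^ (-(τ * I)) - (n : ℂ) ^ (-(τ * I))‖ * w i n ≤
              |τ| / n * w i n := mul_le_mul_of_nonneg_right h4 (w_nonneg _ _)
          have h6 : |τ| / n * w i n = |τ| * (w i n / n) := by ring
          linarith
      refine (Finset.sum_le_sum this).trans ?_
      rw [Finset.sum_add_distrib, Finset.sum_range_sub (fun n => w i n), ← Finset.mul_sum,
        w_zero_right, sub_zero]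
      have h7 : ∑ n ∈ range M, w i n / n ≤ (2 / 3) ^ i * K32 := by
        calc _ ≤ ∑ n ∈ range M, (2 / 3 : ℝ) ^ i * (n : ℝ) ^ (-(3 / 2) : ℝ) :=
              Finset.sum_le_sum fun n _ => w_div_le i n
          _ ≤ _ := by
              rw [← Finset.mul_sum]
              exact mul_le_mul_of_nonneg_left (sum_range_le_K32 M) (by positivity)
      have h8 : 0 ≤ 4 + |τ| := by positivity
      have := mul_le_mul_of_nonneg_left h7 h8
      linarith
    linarith
  have hlim : Tendsto (w i) atTop (𝓝 0) := (summable_w i).tendsto_atTop_zero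
  have hlim2 : Tendsto (fun M => (N : ℝ) * (2 * w i M + (4 + |τ|) * ((2 / 3) ^ i * K32))) atTop
      (𝓝 (N * (2 * 0 + (4 + |τ|) * ((2 / 3) ^ i * K32)))) :=
    ((hlim.const_mul 2).add_const _).const_mul _
  have hlim3 := (hsum.hasSum.tendsto_sum_nat).norm
  have := le_of_tendsto_of_tendsto' hlim3 hlim2 hpart
  simpa using this

/-- a uniform bound for the masses. -/
lemma exists_Omega_bound : ∃ B : ℝ, 1 ≤ B ∧ ∀ i : ℕ, ∑' n, w i n ≤ B := by
  obtain ⟨B, hB⟩ := tendsto_Omega.bddAbove_range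
  refine ⟨max B 1, le_max_right _ _, fun i => ?_⟩
  exact (hB ⟨i, rfl⟩).trans (le_max_left _ _)

lemma norm_tsum_char_wτ_le' {N : ℕ} [NeZero N] {χ : DirichletCharacter ℂ N} {B : ℝ}
    (hB : ∀ i : ℕ, ∑' n, w i n ≤ B) (τ : ℝ) (i : ℕ) :
    ‖∑' n : ℕ, χ n * wτ τ i n‖ ≤ B := by
  refine le_trans ?_ (hB i)
  refine tsum_of_norm_bounded (summable_w i).hasSum fun n => ?_
  rw [norm_mul, norm_wτ]
  exact mul_le_of_le_one_left (w_nonneg _ _) (χ.norm_le_one _)

end Pool.Agent.Helper11.MT
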