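import Mathlib

/-!
Families of Dirichlet characters modulo `W * ∏ T` which are nontrivial at each prime of `T`.
-/

open Finset ComplexConjugate

namespace Pool.Agent.Helper11.MT

open DirichletCharacter

lemma exists_mul_char {a b : ℕ} (χ : DirichletCharacter ℂ a) (ψ : DirichletCharacter ℂ b) :
    ∃ θ : DirichletCharacter ℂ (a * b), ∀ n : ℕ, θ n = χ n * ψ n := by
  refine ⟨changeLevel (dvd_mul_right a b) χ * changeLevel (dvd_mul_left b a) ψ, fun n => ?_⟩
  rw [MulChar.mul_apply]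
  by_cases h : n.Coprime (a * b)
  · have h1 : IsCoprime (n : ℤ) ((a * b : ℕ) : ℤ) := Nat.isCoprime_iff_coprime.mpr h
    have h2 := changeLevel_eq_cast_of_dvd' χ (dvd_mul_right a b) h1
    have h3 := changeLevel_eq_cast_of_dvd' ψ (dvd_mul_left b a) h1
    simp only [Int.cast_natCast] at h2 h3
    rw [h2, h3]
  · have hn : ¬ IsUnit ((n : ℕ) : ZMod (a * b)) := by
      rwa [ZMod.isUnit_iff_coprime]
    rw [MulChar.map_nonunit _ hn, zero_mul]
    rw [Nat.coprime_mul_iff_right, not_and_or] at h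
    rcases h with h | h
    · have : ¬ IsUnit ((n : ℕ) : ZMod a) := by rwa [ZMod.isUnit_iff_coprime]
      rw [MulChar.map_nonunit _ this, zero_mul]
    · have : ¬ IsUnit ((n : ℕ) : ZMod b) := by rwa [ZMod.isUnit_iff_coprime]
      rw [MulChar.map_nonunit _ this, mul_zero]

lemma exists_prod_char {W : ℕ} (χ : DirichletCharacter ℂ W) (S : Finset ℕ)
    (y : (p : ℕ) → DirichletCharacter ℂ p) :
    ∃ ψ : DirichletCharacter ℂ (W * ∏ p ∈ S, p), ∀ n : ℕ, ψ n = χ n * ∏ p ∈ S, y p n := by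
  induction S using Finset.induction_on with
  | empty =>
    rw [Finset.prod_empty, mul_one]
    exact ⟨χ, fun n => by rw [Finset.prod_empty, mul_one]⟩
  | insert a S ha ih =>
    obtain ⟨ψ, hψ⟩ := ih
    obtain ⟨θ, hθ⟩ := exists_mul_char ψ (y a)
    have e : W * ∏ p ∈ insert a S, p = (W * ∏ p ∈ S, p) * a := by
      rw [Finset.prod_insert ha]; ring
    rw [e]
    refine ⟨θ, fun n => ?_⟩
    rw [hθ, hψ, Finset.prod_insert ha]
    ring

lemma ne_one_of_mul {a b N : ℕ} [NeZero a] (hab : Nat.Coprime a b) {α : DirichletCharacter ℂ a}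
    (hα : α ≠ 1) (β : DirichletCharacter ℂ b) {ψ : DirichletCharacter ℂ N}
    (h : ∀ n : ℕ, ψ n = α n * β n) : ψ ≠ 1 := by
  obtain ⟨u, hu⟩ := MulChar.ne_one_iff.mp hα
  intro h1
  obtain ⟨n, hn1, hn2⟩ := Nat.chineseRemainder hab (u : ZMod a).val 1
  have e1 : (n : ZMod a) = u := by
    have := (ZMod.natCast_eq_natCast_iff n (u : ZMod a).val a).mpr hn1
    rw [this, ZMod.natCast_val, ZMod.cast_id]
  have e2 : (n : ZMod b) = 1 := by
    have := (ZMod.natCast_eq_natCast_iff n 1 b).mpr hn2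
    rw [this, Nat.cast_one]
  have e3 := h n
  rw [e1, e2, map_one, mul_one, h1] at e3
  by_cases hun : IsUnit (n : ZMod N)
  · rw [MulChar.one_apply hun] at e3
    exact hu e3.symm
  · rw [MulChar.map_nonunit _ hun] at e3
    exact (u.isUnit.map α).ne_zero e3.symm

lemma prod_char_ne_one {W : ℕ} [NeZero W] {χ : DirichletCharacter ℂ W} {S : Finset ℕ}
    (hS : ∀ p ∈ S, p.Prime) (hSW : ∀ p ∈ S, ¬ p ∣ W)
    {y : (p : ℕ) → DirichletCharacter ℂ p} {N : ℕ} {ψ : DirichletCharacter ℂ N}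
    (hψ : ∀ n : ℕ, ψ n = χ n * ∏ p ∈ S, y p n) (h : χ ≠ 1 ∨ ∃ p ∈ S, y p ≠ 1) : ψ ≠ 1 := by
  rcases h with h | ⟨p, hp, h⟩
  · obtain ⟨θ, hθ⟩ := exists_prod_char (W := 1) 1 S y
    refine ne_one_of_mul ?_ h θ (fun n => ?_)
    · rw [one_mul]
      exact Nat.Coprime.prod_right fun p hp =>
        (((hS p hp).coprime_iff_not_dvd).mpr (hSW p hp)).symm
    · rw [hψ, hθ]
      have : (1 : DirichletCharacter ℂ 1) (n : ZMod 1) = 1 := by
        rw [Subsingleton.elim (n : ZMod 1) 1, map_one]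
      rw [this, one_mul]
  · obtain ⟨θ, hθ⟩ := exists_prod_char χ (S.erase p) y
    have : NeZero p := ⟨(hS p hp).ne_zero⟩
    refine ne_one_of_mul ?_ h θ (fun n => ?_)
    · refine Nat.Coprime.mul_right (((hS p hp).coprime_iff_not_dvd).mpr (hSW p hp)) ?_
      refine Nat.Coprime.prod_right fun q hq => ?_
      rw [Finset.mem_erase] at hq
      exact (Nat.coprime_primes (hS p hp) (hS q hq.2)).mpr (Ne.symm hq.1)
    · rw [hψ, hθ, ← Finset.mul_prod_erase S _ hp]
      ring

/-- The character data: one character mod `W` and one nontrivial character mod each `p ∈ T`. -/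
abbrev CF (W : ℕ) (T : Finset ℕ) : Type :=
  DirichletCharacter ℂ W × ((p : T) → {χ : DirichletCharacter ℂ (p : ℕ) // χ ≠ 1})

noncomputable instance instDecEqDC (p : ℕ) : DecidableEq (DirichletCharacter ℂ p) :=
  Classical.decEq _

/-- The associated function. -/
noncomputable def xi {W : ℕ} {T : Finset ℕ} (c : CF W T) (n : ℕ) : ℂ :=
  c.1 n * ∏ p : T, (c.2 p).1 n

/-- Extension by the trivial character. -/
noncomputable def tot {W : ℕ} {T : Finset ℕ} (c : CF W T) (p : ℕ) : DirichletCharacter ℂ p :=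
  if h : p ∈ T then (c.2 ⟨p, h⟩).1 else 1

lemma tot_of_mem {W : ℕ} {T : Finset ℕ} (c : CF W T) {p : ℕ} (h : p ∈ T) :
    tot c p = (c.2 ⟨p, h⟩).1 := dif_pos h

lemma tot_of_notMem {W : ℕ} {T : Finset ℕ} (c : CF W T) {p : ℕ} (h : p ∉ T) :
    tot c p = 1 := dif_neg h

lemma tot_ne_one {W : ℕ} {T : Finset ℕ} (c : CF W T) {p : ℕ} (h : p ∈ T) :
    tot c p ≠ 1 := by
  rw [tot_of_mem c h]
  exact (c.2 ⟨p, h⟩).2

lemma xi_eq {W : ℕ} {T : Finset ℕ} (c : CF W T) (n : ℕ) :
    xi c n = c.1 n * ∏ p ∈ T, tot c p n := by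
  unfold xi
  rw [← Finset.prod_coe_sort T (fun p => tot c p n)]
  congr 1
  refine Finset.prod_congr rfl fun p _ => ?_
  rw [tot_of_mem c p.2]

lemma norm_xi_le {W : ℕ} {T : Finset ℕ} (c : CF W T) (n : ℕ) : ‖xi c n‖ ≤ 1 := by
  unfold xi
  rw [norm_mul, norm_prod]
  refine mul_le_one₀ (DirichletCharacter.norm_le_one _ _) (Finset.prod_nonneg fun _ _ => norm_nonneg _) ?_
  exact Finset.prod_le_one (fun _ _ => norm_nonneg _) fun p _ => DirichletCharacter.norm_le_one _ _

/-- The character mod `W * ∏ T`. -/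
lemma exists_xi_char {W : ℕ} [NeZero W] {T : Finset ℕ} (hT : ∀ p ∈ T, p.Prime)
    (hTW : ∀ p ∈ T, ¬ p ∣ W) (c : CF W T) :
    ∃ ψ : DirichletCharacter ℂ (W * ∏ p ∈ T, p), (∀ n : ℕ, ψ n = xi c n) ∧
      (T.Nonempty ∨ c.1 ≠ 1 → ψ ≠ 1) ∧
      (¬ (c.1 ^ 2 = 1 ∧ ∀ p, (c.2 p).1 ^ 2 = 1) → ψ ^ 2 ≠ 1) := by
  obtain ⟨ψ, hψ⟩ := exists_prod_char c.1 T (tot c)
  refine ⟨ψ, fun n => by rw [hψ, xi_eq], fun h => ?_, fun h => ?_⟩
  · refine prod_char_ne_one hT hTW hψ ?_
    rcases h with ⟨p, hp⟩ | h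
    · exact Or.inr ⟨p, hp, tot_ne_one c hp⟩
    · exact Or.inl h
  · have h2 : ∀ n : ℕ, (ψ ^ 2) n = (c.1 ^ 2) n * ∏ p ∈ T, ((fun p => (tot c p) ^ 2) p) n := by
      intro n
      simp only [pow_two, MulChar.mul_apply, hψ, Finset.prod_mul_distrib]
      ring
    refine prod_char_ne_one (y := fun p => (tot c p) ^ 2) hT hTW h2 ?_
    by_contra hcon
    push Not at hcon
    apply h
    refine ⟨hcon.1, fun p => ?_⟩
    have := hcon.2 p p.2
    rwa [tot_of_mem c p.2] at this

/-- Near-orthogonality data. -/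
lemma exists_pair_char {W : ℕ} [NeZero W] {T T' : Finset ℕ} (hT : ∀ p ∈ T, p.Prime)
    (hTW : ∀ p ∈ T, ¬ p ∣ W) (hT' : ∀ p ∈ T', p.Prime) (hTW' : ∀ p ∈ T', ¬ p ∣ W)
    (c : CF W T) (c' : CF W T')
    (hne : (⟨T, c⟩ : Σ T : Finset ℕ, CF W T) ≠ ⟨T', c'⟩) :
    ∃ ψ : DirichletCharacter ℂ (W * ∏ p ∈ T ∪ T', p), ψ ≠ 1 ∧
      ∀ n : ℕ, ψ n = xi c n * conj (xi c' n) := by
  obtain ⟨ψ, hψ⟩ := exists_prod_char (c.1 * (c'.1)⁻¹) (T ∪ T') (fun p => tot c p * (tot c' p)⁻¹)
  refine ⟨ψ, ?_, fun n => ?_⟩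
  · refine prod_char_ne_one (fun p hp => ?_) (fun p hp => ?_) hψ ?_
    · rw [Finset.mem_union] at hp
      exact hp.elim (hT p) (hT' p)
    · rw [Finset.mem_union] at hp
      exact hp.elim (hTW p) (hTW' p)
    · by_contra hcon
      push Not at hcon
      obtain ⟨h1, h2⟩ := hcon
      have h1' : c.1 = c'.1 := by
        rwa [mul_inv_eq_one] at h1
      have h2' : ∀ p ∈ T ∪ T', tot c p = tot c' p := by
        intro p hp
        have := h2 p hp
        rwa [mul_inv_eq_one] at this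
      have hTT : T = T' := by
        ext p
        constructor
        · intro hp
          by_contra hp'
          have := h2' p (Finset.mem_union_left _ hp)
          rw [tot_of_notMem c' hp'] at this
          exact tot_ne_one c hp this
        · intro hp
          by_contra hp'
          have := h2' p (Finset.mem_union_right _ hp)
          rw [tot_of_notMem c hp'] at this
          exact tot_ne_one c' hp this.symm
      subst hTT
      apply hne
      have : c = c' := by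
        refine Prod.ext h1' ?_
        funext p
        apply Subtype.ext
        have := h2' p (Finset.mem_union_left _ p.2)
        rwa [tot_of_mem c p.2, tot_of_mem c' p.2] at this
      rw [this]
  · rw [hψ, xi_eq, xi_eq, MulChar.mul_apply, map_mul, map_prod]
    have e1 : (c'.1)⁻¹ (n : ZMod W) = conj (c'.1 n) := by
      rw [← MulChar.star_apply']; rfl
    have e2 : ∀ p, (tot c' p)⁻¹ (n : ZMod p) = conj (tot c' p n) := by
      intro p
      rw [← MulChar.star_apply']; rfl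
    have e3 : ∏ p ∈ T ∪ T', (tot c p * (tot c' p)⁻¹) (n : ZMod p) =
        (∏ p ∈ T, tot c p n) * ∏ p ∈ T', conj (tot c' p n) := by
      have e4 : ∀ p ∈ T ∪ T', (tot c p * (tot c' p)⁻¹) (n : ZMod p) =
          (if p ∈ T then tot c p n else 1) * (if p ∈ T' then conj (tot c' p n) else 1) := by
        intro p hp
        rw [MulChar.mul_apply, e2]
        rw [Finset.mem_union] at hp
        by_cases h1 : p ∈ T
        · by_cases h2 : p ∈ T'
          · rw [if_pos h1, if_pos h2]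
          · rw [if_pos h1, if_neg h2, mul_one, tot_of_notMem c' h2]
            by_cases hu : IsUnit (n : ZMod p)
            · rw [MulChar.one_apply hu, map_one, mul_one]
            · rw [MulChar.map_nonunit _ hu, zero_mul]
        · have h2 : p ∈ T' := hp.resolve_left h1
          rw [if_neg h1, if_pos h2, one_mul, tot_of_notMem c h1]
          by_cases hu : IsUnit (n : ZMod p)
          · rw [MulChar.one_apply hu, one_mul]
          · rw [MulChar.map_nonunit (tot c' p) hu, map_zero, mul_zero]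
      rw [Finset.prod_congr rfl e4, Finset.prod_mul_distrib, Finset.prod_ite_mem,
        Finset.prod_ite_mem, Finset.union_inter_cancel_left, Finset.union_inter_cancel_right]
    rw [e3, e1]
    ring

lemma card_DC (n : ℕ) [NeZero n] : Fintype.card (DirichletCharacter ℂ n) = n.totient := by
  rw [← Nat.card_eq_fintype_card]
  exact card_eq_totient_of_hasEnoughRootsOfUnity ℂ n

/-- Crude count of the family. -/
lemma card_CF_le {W : ℕ} [NeZero W] {T : Finset ℕ} (hT : ∀ p ∈ T, p.Prime) :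
    Fintype.card (CF W T) ≤ W * ∏ p ∈ T, p := by
  rw [Fintype.card_prod, Fintype.card_pi]
  refine Nat.mul_le_mul ?_ ?_
  · rw [card_DC]; exact Nat.totient_le W
  · rw [← Finset.prod_coe_sort T (fun p => p)]
    refine Finset.prod_le_prod' fun p _ => ?_
    have : NeZero (p : ℕ) := ⟨(hT p p.2).ne_zero⟩
    refine (Fintype.card_subtype_le _).trans ?_
    rw [card_DC]
    exact Nat.totient_le _

/-- The nontrivial quadratic character mod a prime is unique. -/
lemma quad_unique {p : ℕ} (hp : p.Prime) {χ ψ : DirichletCharacter ℂ p} (hχ : χ ≠ 1) (hψ : ψ ≠ 1)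
    (hχ2 : χ ^ 2 = 1) (hψ2 : ψ ^ 2 = 1) : χ = ψ := by
  have : Fact p.Prime := ⟨hp⟩
  obtain ⟨g, hg⟩ := IsCyclic.exists_generator (α := (ZMod p)ˣ)
  have key : ∀ θ : DirichletCharacter ℂ p, θ ≠ 1 → θ ^ 2 = 1 → θ g = -1 := by
    intro θ h1 h2
    have h3 : θ g * θ g = 1 := by
      have := congrArg (fun θ : DirichletCharacter ℂ p => θ g) h2
      simp only [pow_two, MulChar.mul_apply] at this
      rw [this, MulChar.one_apply_coe]
    rcases mul_self_eq_one_iff.mp h3 with h4 | h4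
    · exfalso
      apply h1
      rw [MulChar.eq_iff hg, h4, MulChar.one_apply_coe]
    · exact h4
  rw [MulChar.eq_iff hg, key χ hχ hχ2, key ψ hψ hψ2]

/-- Data with all components quadratic. -/
def IsRealCF {W : ℕ} {T : Finset ℕ} (c : CF W T) : Prop :=
  c.1 ^ 2 = 1 ∧ ∀ p, (c.2 p).1 ^ 2 = 1

noncomputable instance instDecRealCF {W : ℕ} {T : Finset ℕ} :
    DecidablePred (IsRealCF (W := W) (T := T)) := Classical.decPred _

lemma card_real_le {W : ℕ} [NeZero W] {T : Finset ℕ} (hT : ∀ p ∈ T, p.Prime) :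
    #(univ.filter (fun c : CF W T => IsRealCF c)) ≤ W := by
  have h1 : #(univ.filter (fun c : CF W T => IsRealCF c)) ≤
      #(univ : Finset (DirichletCharacter ℂ W)) := by
    refine Finset.card_le_card_of_injOn (fun c => c.1) (fun c _ => Finset.mem_univ _) ?_
    intro c hc c' hc' h
    simp only [Finset.coe_filter, Finset.mem_univ, true_and, Set.mem_ofPred_eq] at hc hc'
    refine Prod.ext h ?_
    funext p
    apply Subtype.ext
    exact quad_unique (hT p p.2) (c.2 p).2 (c'.2 p).2 (hc.2 p) (hc'.2 p)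
  refine h1.trans ?_
  rw [Finset.card_univ, card_DC]
  exact Nat.totient_le W

/-- Detecting a residue class modulo a prime, without the principal character. -/
lemma indicator_sub_eq {p : ℕ} [NeZero p] {a : ZMod p} (ha : IsUnit a) {n : ℕ}
    (hn : n.Coprime p) :
    (if a = (n : ZMod p) then (1 : ℂ) else 0) - 1 / p.totient =
      1 / p.totient * ∑ χ : {χ : DirichletCharacter ℂ p // χ ≠ 1}, χ.1 a⁻¹ * χ.1 n := by
  have h1 := sum_char_inv_mul_char_eq ℂ ha (n : ZMod p)
  have h2 : (p.totient : ℂ) ≠ 0 := by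
    have := Nat.totient_pos.mpr (NeZero.pos p)
    exact_mod_cast this.ne'
  have hn' : IsUnit (n : ZMod p) := by rwa [ZMod.isUnit_iff_coprime]
  have ha' : IsUnit (a⁻¹ : ZMod p) := by
    have := ha
    rw [isUnit_iff_exists] at this ⊢
    exact ⟨a, ZMod.inv_mul_of_unit a ha, ZMod.mul_inv_of_unit a ha⟩
  have h3 : ∑ χ : DirichletCharacter ℂ p, χ a⁻¹ * χ n =
      1 + ∑ χ : {χ : DirichletCharacter ℂ p // χ ≠ 1}, χ.1 a⁻¹ * χ.1 n := by
    rw [← Finset.add_sum_erase univ _ (Finset.mem_univ (1 : DirichletCharacter ℂ p))]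
    rw [MulChar.one_apply ha', MulChar.one_apply hn', one_mul]
    congr 1
    refine Finset.sum_subtype _ (fun χ => ?_) _
    simp
  rw [h3] at h1
  have h4 : ∑ χ : {χ : DirichletCharacter ℂ p // χ ≠ 1}, χ.1 a⁻¹ * χ.1 n =
      (if a = (n : ZMod p) then (p.totient : ℂ) else 0) - 1 := by
    rw [← h1]; ring
  rw [h4]
  split_ifs
  · field_simp
  · field_simp
    ring

lemma indicator_eq {W : ℕ} [NeZero W] {a : ZMod W} (ha : IsUnit a) (n : ℕ) :
    (if a = (n : ZMod W) then (1 : ℂ) else 0) =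
      1 / W.totient * ∑ χ : DirichletCharacter ℂ W, χ a⁻¹ * χ n := by
  have h1 := sum_char_inv_mul_char_eq ℂ ha (n : ZMod W)
  have h2 : (W.totient : ℂ) ≠ 0 := by
    have := Nat.totient_pos.mpr (NeZero.pos W)
    exact_mod_cast this.ne'
  rw [h1]
  split_ifs
  · field_simp
  · rw [mul_zero]

/-- The expansion of the product of the residue class conditions. -/
lemma expand_CF {W : ℕ} [NeZero W] {T : Finset ℕ} (hT : ∀ p ∈ T, p.Prime)
    {a : ZMod W} (ha : IsUnit a) (b : (p : T) → ZMod (p : ℕ)) (hb : ∀ p, IsUnit (b p)) {n : ℕ}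
    (hn : ∀ p ∈ T, n.Coprime p) :
    (if a = (n : ZMod W) then (1 : ℂ) else 0) *
      ∏ p : T, ((if b p = (n : ZMod (p : ℕ)) then (1 : ℂ) else 0) - 1 / (p : ℕ).totient) =
    (1 / W.totient * ∏ p : T, (1 / ((p : ℕ).totient : ℂ))) *
      ∑ c : CF W T, (c.1 a⁻¹ * ∏ p : T, (c.2 p).1 (b p)⁻¹) * xi c n := by
  have h1 : ∀ p : T, ((if b p = (n : ZMod (p : ℕ)) then (1 : ℂ) else 0) - 1 / (p : ℕ).totient) =
      1 / ((p : ℕ).totient : ℂ) *
        ∑ χ : {χ : DirichletCharacter ℂ (p : ℕ) // χ ≠ 1}, χ.1 (b p)⁻¹ * χ.1 n := by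
    intro p
    have : NeZero (p : ℕ) := ⟨(hT p p.2).ne_zero⟩
    exact indicator_sub_eq (hb p) (hn p p.2)
  rw [Finset.prod_congr rfl (fun p _ => h1 p), Finset.prod_mul_distrib, indicator_eq ha,
    Fintype.prod_sum, Fintype.sum_prod_type]
  rw [mul_mul_mul_comm]
  congr 1
  rw [Finset.sum_mul_sum]
  refine Finset.sum_congr rfl fun χ _ => Finset.sum_congr rfl fun x _ => ?_
  unfold xi
  rw [Finset.prod_mul_distrib]
  ring

end Pool.Agent.Helper11.MT
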