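import Mathlib

/-!
The duality principle used for all mean value estimates over characters.
-/

open Finset ComplexConjugate

namespace Pool.Agent.Helper11.MT

section

variable {𝒳 : Type*} (X : Finset 𝒳) (ξ : 𝒳 → ℕ → ℂ) (f : ℕ → ℝ)

/-- The Gram matrix. -/
noncomputable def gram (x x' : 𝒳) : ℂ := ∑' n, (f n : ℂ) * (ξ x n * conj (ξ x' n))

lemma gram_conj (x x' : 𝒳) : conj (gram ξ f x x') = gram ξ f x' x := by
  unfold gram
  rw [Complex.conj_tsum]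
  refine tsum_congr fun n => ?_
  simp only [map_mul, Complex.conj_ofReal, Complex.conj_conj]
  ring

lemma norm_gram_symm (x x' : 𝒳) : ‖gram ξ f x x'‖ = ‖gram ξ f x' x‖ := by
  rw [← gram_conj, RCLike.norm_conj]

lemma gram_form_le {M : ℝ} (h : ∀ x ∈ X, ∑ x' ∈ X, ‖gram ξ f x x'‖ ≤ M) (P : 𝒳 → ℂ) :
    ‖∑ x ∈ X, ∑ x' ∈ X, conj (P x) * P x' * gram ξ f x x'‖ ≤ M * ∑ x ∈ X, ‖P x‖ ^ 2 := by
  have h1 : ‖∑ x ∈ X, ∑ x' ∈ X, conj (P x) * P x' * gram ξ f x x'‖ ≤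
      ∑ x ∈ X, ∑ x' ∈ X, (‖P x‖ ^ 2 * ‖gram ξ f x x'‖ + ‖P x'‖ ^ 2 * ‖gram ξ f x' x‖) / 2 := by
    refine (norm_sum_le _ _).trans (Finset.sum_le_sum fun x _ => ?_)
    refine (norm_sum_le _ _).trans (Finset.sum_le_sum fun x' _ => ?_)
    rw [norm_mul, norm_mul, RCLike.norm_conj, norm_gram_symm ξ f x' x]
    nlinarith [norm_nonneg (gram ξ f x x'), sq_nonneg (‖P x‖ - ‖P x'‖), norm_nonneg (P x),
      norm_nonneg (P x'), mul_nonneg (norm_nonneg (gram ξ f x x')) (sq_nonneg (‖P x‖ - ‖P x'‖))]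
  have h2 : ∑ x ∈ X, ∑ x' ∈ X, (‖P x‖ ^ 2 * ‖gram ξ f x x'‖ + ‖P x'‖ ^ 2 * ‖gram ξ f x' x‖) / 2 =
      ∑ x ∈ X, ‖P x‖ ^ 2 * ∑ x' ∈ X, ‖gram ξ f x x'‖ := by
    have e1 : ∑ x ∈ X, ∑ x' ∈ X, ‖P x'‖ ^ 2 * ‖gram ξ f x' x‖ =
        ∑ x ∈ X, ∑ x' ∈ X, ‖P x‖ ^ 2 * ‖gram ξ f x x'‖ := Finset.sum_comm
    simp only [add_div, Finset.sum_add_distrib]
    simp only [← Finset.sum_div]
    rw [e1]
    simp only [Finset.mul_sum]
    ring
  rw [h2] at h1
  refine h1.trans ?_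
  rw [Finset.mul_sum]
  refine Finset.sum_le_sum fun x hx => ?_
  rw [mul_comm]
  exact mul_le_mul_of_nonneg_right (h x hx) (by positivity)

end

theorem duality {𝒳 : Type*} (X : Finset 𝒳) (ξ : 𝒳 → ℕ → ℂ) (hξ : ∀ x ∈ X, ∀ n, ‖ξ x n‖ ≤ 1)
    (a : ℕ → ℂ) (f ρ : ℕ → ℝ) (hf : ∀ n, 0 ≤ f n) (hρ0 : ∀ n, 0 ≤ ρ n)
    (hρ : ∀ n, a n ≠ 0 → 1 ≤ ρ n)
    (hs1 : Summable fun n => ‖a n‖ ^ 2 * f n) (hs2 : Summable fun n => f n * ρ n)
    {M : ℝ} (hM : 0 < M)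
    (h : ∀ x ∈ X, ∑ x' ∈ X, ‖gram ξ (fun n => f n * ρ n) x x'‖ ≤ M) :
    ∑ x ∈ X, ‖∑' n, a n * f n * ξ x n‖ ^ 2 ≤ M * ∑' n, ‖a n‖ ^ 2 * f n := by
  classical
  set P : 𝒳 → ℂ := fun x => ∑' n, a n * f n * ξ x n with hP
  set G : ℕ → ℂ := fun n => ∑ x ∈ X, conj (P x) * ξ x n with hG
  set S : ℝ := ∑ x ∈ X, ‖P x‖ ^ 2 with hS
  have hS0 : 0 ≤ S := Finset.sum_nonneg fun x _ => by positivity
  -- absolute summability of a f
  have haf : Summable fun n => ‖a n‖ * f n := by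
    refine Summable.of_nonneg_of_le (fun n => mul_nonneg (norm_nonneg _) (hf n)) (fun n => ?_)
      (hs1.add hs2)
    by_cases h0 : a n = 0
    · rw [h0]
      have := mul_nonneg (hf n) (hρ0 n)
      simp only [norm_zero, zero_mul, ne_eq, OfNat.ofNat_ne_zero, not_false_eq_true, zero_pow,
        zero_add]
      exact this
    · have h1 := hρ n h0
      have h2 := hf n
      have h3 : ‖a n‖ ≤ ‖a n‖ ^ 2 + 1 := by nlinarith [sq_nonneg (‖a n‖ - 1), norm_nonneg (a n)]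
      nlinarith [mul_le_mul_of_nonneg_right h3 h2, mul_le_mul_of_nonneg_left h1 h2]
  have hsum : ∀ x ∈ X, Summable fun n => a n * f n * ξ x n := by
    intro x hx
    refine Summable.of_norm_bounded haf (fun n => ?_)
    rw [norm_mul, norm_mul, Complex.norm_real, Real.norm_eq_abs, abs_of_nonneg (hf n)]
    exact mul_le_of_le_one_right (mul_nonneg (norm_nonneg _) (hf n)) (hξ x hx n)
  -- S as a tsum
  have hS1 : (S : ℂ) = ∑' n, a n * f n * G n := by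
    have e1 : ∀ n, a n * f n * G n = ∑ x ∈ X, conj (P x) * (a n * f n * ξ x n) := by
      intro n
      rw [hG]
      simp only [Finset.mul_sum]
      refine Finset.sum_congr rfl fun x _ => ?_
      ring
    simp_rw [e1]
    rw [Summable.tsum_finsetSum (fun x hx => (hsum x hx).mul_left _)]
    rw [hS]
    push_cast
    refine Finset.sum_congr rfl fun x _ => ?_
    rw [tsum_mul_left, ← Complex.conj_mul']
  -- the bound for |G|^2
  have hGb : ∀ n, ‖G n‖ ≤ ∑ x ∈ X, ‖P x‖ := by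
    intro n
    rw [hG]
    refine (norm_sum_le _ _).trans (Finset.sum_le_sum fun x hx => ?_)
    rw [norm_mul, RCLike.norm_conj]
    exact mul_le_of_le_one_right (norm_nonneg _) (hξ x hx n)
  have hGs : Summable fun n => f n * ρ n * ‖G n‖ ^ 2 := by
    refine Summable.of_nonneg_of_le (fun n => mul_nonneg (mul_nonneg (hf n) (hρ0 n)) (by positivity))
      (fun n => ?_) (hs2.mul_right ((∑ x ∈ X, ‖P x‖) ^ 2))
    refine mul_le_mul_of_nonneg_left ?_ (mul_nonneg (hf n) (hρ0 n))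
    exact pow_le_pow_left₀ (norm_nonneg _) (hGb n) 2
  have hpair : ∀ x ∈ X, ∀ x' ∈ X, Summable fun n =>
      ((f n * ρ n : ℝ) : ℂ) * (ξ x n * conj (ξ x' n)) := by
    intro x hx x' hx'
    refine Summable.of_norm_bounded hs2 (fun n => ?_)
    rw [norm_mul, Complex.norm_real, Real.norm_eq_abs, abs_of_nonneg (mul_nonneg (hf n) (hρ0 n)),
      norm_mul, RCLike.norm_conj]
    refine mul_le_of_le_one_right (mul_nonneg (hf n) (hρ0 n)) ?_
    exact mul_le_one₀ (hξ x hx n) (norm_nonneg _) (hξ x' hx' n)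
  have hGtot : ((∑' n, f n * ρ n * ‖G n‖ ^ 2 : ℝ) : ℂ) =
      ∑ x ∈ X, ∑ x' ∈ X, conj (P x) * P x' * gram ξ (fun n => f n * ρ n) x x' := by
    rw [Complex.ofReal_tsum]
    have e1 : ∀ n, ((f n * ρ n * ‖G n‖ ^ 2 : ℝ) : ℂ) = ∑ x ∈ X, ∑ x' ∈ X,
        conj (P x) * P x' * (((f n * ρ n : ℝ) : ℂ) * (ξ x n * conj (ξ x' n))) := by
      intro n
      have e2 : ((‖G n‖ ^ 2 : ℝ) : ℂ) = G n * conj (G n) := by
        rw [Complex.mul_conj']
        push_cast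
        rfl
      rw [Complex.ofReal_mul, e2, hG]
      simp only [map_sum, map_mul, Complex.conj_conj, Finset.sum_mul, Finset.mul_sum]
      rw [Finset.sum_comm]
      refine Finset.sum_congr rfl fun x _ => Finset.sum_congr rfl fun x' _ => ?_
      ring
    simp_rw [e1]
    rw [Summable.tsum_finsetSum (fun x hx => summable_sum fun x' hx' => (hpair x hx x' hx').mul_left _)]
    refine Finset.sum_congr rfl fun x hx => ?_
    rw [Summable.tsum_finsetSum (fun x' hx' => (hpair x hx x' hx').mul_left _)]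
    refine Finset.sum_congr rfl fun x' hx' => ?_
    rw [tsum_mul_left]
    rfl
  have hGle : ∑' n, f n * ρ n * ‖G n‖ ^ 2 ≤ M * S := by
    have h1 := gram_form_le X ξ (fun n => f n * ρ n) h P
    rw [← hGtot, Complex.norm_real, Real.norm_eq_abs] at h1
    exact (le_abs_self _).trans h1
  -- Cauchy-Schwarz in AM-GM form
  have hpt : ∀ n, ‖a n * f n * G n‖ ≤ M / 2 * (‖a n‖ ^ 2 * f n) +
      1 / (2 * M) * (f n * ρ n * ‖G n‖ ^ 2) := by
    intro n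
    by_cases h0 : a n = 0
    · rw [h0]
      have h1 : 0 ≤ 1 / (2 * M) * (f n * ρ n * ‖G n‖ ^ 2) :=
        mul_nonneg (by positivity) (mul_nonneg (mul_nonneg (hf n) (hρ0 n)) (sq_nonneg ‖G n‖))
      simpa using h1
    · have h1 := hρ n h0
      have h2 := hf n
      rw [norm_mul, norm_mul, Complex.norm_real, Real.norm_eq_abs, abs_of_nonneg h2]
      have h3 : ‖a n‖ * ‖G n‖ ≤ M / 2 * ‖a n‖ ^ 2 + 1 / (2 * M) * ‖G n‖ ^ 2 := by
        have h4 : 0 ≤ (M * ‖a n‖ - ‖G n‖) ^ 2 / (2 * M) := by positivity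
        have h5 : (M * ‖a n‖ - ‖G n‖) ^ 2 / (2 * M) =
            M / 2 * ‖a n‖ ^ 2 + 1 / (2 * M) * ‖G n‖ ^ 2 - ‖a n‖ * ‖G n‖ := by
          field_simp
          ring
        linarith
      have h6 : 1 / (2 * M) * (f n * ‖G n‖ ^ 2) ≤ 1 / (2 * M) * (f n * ρ n * ‖G n‖ ^ 2) := by
        refine mul_le_mul_of_nonneg_left ?_ (by positivity)
        refine mul_le_mul_of_nonneg_right ?_ (by positivity)
        exact le_mul_of_one_le_right h2 h1
      have h7 : f n * (‖a n‖ * ‖G n‖) ≤ f n * (M / 2 * ‖a n‖ ^ 2 + 1 / (2 * M) * ‖G n‖ ^ 2) :=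
        mul_le_mul_of_nonneg_left h3 h2
      calc ‖a n‖ * f n * ‖G n‖ = f n * (‖a n‖ * ‖G n‖) := by ring
        _ ≤ f n * (M / 2 * ‖a n‖ ^ 2 + 1 / (2 * M) * ‖G n‖ ^ 2) := h7
        _ = M / 2 * (‖a n‖ ^ 2 * f n) + 1 / (2 * M) * (f n * ‖G n‖ ^ 2) := by ring
        _ ≤ _ := by linarith
  have hrs : Summable fun n => M / 2 * (‖a n‖ ^ 2 * f n) +
      1 / (2 * M) * (f n * ρ n * ‖G n‖ ^ 2) := (hs1.mul_left _).add (hGs.mul_left _)
  have hfin : S ≤ M / 2 * (∑' n, ‖a n‖ ^ 2 * f n) + 1 / (2 * M) * (∑' n, f n * ρ n * ‖G n‖ ^ 2) := by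
    have h1 : S = ‖∑' n, a n * f n * G n‖ := by
      rw [← hS1, Complex.norm_real, Real.norm_eq_abs, abs_of_nonneg hS0]
    rw [h1]
    refine (tsum_of_norm_bounded hrs.hasSum hpt).trans ?_
    rw [Summable.tsum_add (hs1.mul_left _) (hGs.mul_left _), tsum_mul_left, tsum_mul_left]
  have h8 : 1 / (2 * M) * (∑' n, f n * ρ n * ‖G n‖ ^ 2) ≤ 1 / (2 * M) * (M * S) :=
    mul_le_mul_of_nonneg_left hGle (by positivity)
  have h9 : 1 / (2 * M) * (M * S) = S / 2 := by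
    field_simp
  rw [h9] at h8
  linarith

end Pool.Agent.Helper11.MT
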