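import Mathlib

/-!
Shared statements for the Maynard-Tao formalization of helper11.
-/

open Finset

namespace Pool.Agent.Helper11.MT

/-- The form of the Maynard-Tao theorem that we prove. -/
def MTStatement : Prop :=
  ∀ M : ℕ, ∃ k : ℕ, ∀ h : Fin k → ℕ, Function.Injective h →
    ∃ D0 : ℕ, ∀ W : ℕ, 0 < W → (∀ p : ℕ, p.Prime → p ≤ D0 → p ∣ W) →
      ∀ v : ℕ, (∀ i, Nat.Coprime (v + h i) W) →
        ∀ N : ℕ, ∃ m : ℕ, N ≤ m ∧ m ≡ v [MOD W] ∧
          M ≤ (univ.filter (fun i => (m + h i).Prime)).card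

/-- The `i`-th prime, indexing from `1`. -/
noncomputable def pr (i : ℕ) : ℕ := Nat.nth Nat.Prime (i - 1)

/-- `S i = p_i + p_{i+1}` (indices from `1`). -/
noncomputable def SS (i : ℕ) : ℕ := pr i + pr (i + 1)

/-- The target of the application to MP_78140d. -/
def AppStatement : Prop :=
  ∀ C : ℕ, ∃ n : ℕ, 1 ≤ n ∧ ∃ a : ℕ, IsLeast {k : ℕ | n < k ∧ SS n ∣ SS k} a ∧ C * SS n < SS a

/-! ### The optimisation problem -/

/-- Primes `≤ R` not dividing `W`. -/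
def PR (W R : ℕ) : Finset ℕ := (range (R + 1)).filter (fun p => p.Prime ∧ ¬ p ∣ W)

/-- The type of these primes. -/
abbrev QT (W R : ℕ) : Type := {p : ℕ // p ∈ PR W R}

/-- The product of the primes (first components) over a finite set of pairs. -/
def nn {W R : ℕ} {ι : Type} (U : Finset (QT W R × ι)) : ℕ := ∏ τ ∈ U, (τ.1 : ℕ)

/-- The product of `p - k` over a finite set of pairs. -/
noncomputable def gg (k : ℕ) {W R : ℕ} {ι : Type} (U : Finset (QT W R × ι)) : ℝ :=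
  ∏ τ ∈ U, (((τ.1 : ℕ) : ℝ) - k)

/-- The quadratic form of the denominator. -/
noncomputable def EE (k : ℕ) {W R : ℕ} (y : Finset (QT W R × Fin k) → ℝ) : ℝ :=
  ∑ U : Finset (QT W R × Fin k), (y U) ^ 2 / gg k U

/-- The vector `y^{(j)}`. -/
noncomputable def yj (k : ℕ) {W R : ℕ} (y : Finset (QT W R × Fin k) → ℝ) (j : Fin k)
    (U : Finset (QT W R × Fin k)) : ℝ :=
  ∑ V ∈ (univ.filter (fun τ : QT W R × Fin k => τ.2 = j)).powerset, y (U ∪ V) / gg k V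

/-- The quadratic forms of the numerator. -/
noncomputable def EEj (k : ℕ) {W R : ℕ} (y : Finset (QT W R × Fin k) → ℝ) (j : Fin k) : ℝ :=
  ∑ U ∈ (univ.filter (fun τ : QT W R × Fin k => τ.2 ≠ j)).powerset, (yj k y j U) ^ 2 / gg k U

/-- The optimisation statement. -/
def OptimStatement : Prop :=
  ∀ k : ℕ, 2 ^ 16 ≤ k → ∀ W : ℕ, 0 < W → (∀ p : ℕ, p.Prime → p ≤ 2 * k → p ∣ W) →
    ∃ R0 : ℕ, ∀ R : ℕ, R0 ≤ R → ∃ y : Finset (QT W R × Fin k) → ℝ,
      (∀ U, 0 ≤ y U) ∧ (∀ U, y U ≤ 1) ∧ (∀ U V, U ⊆ V → y V ≤ y U) ∧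
      (∀ U, R < nn U → y U = 0) ∧ 0 < EE k y ∧
      ((Nat.totient W : ℝ) / W * Real.log R * (Nat.log 2 k / 640)) * EE k y ≤
        ∑ j : Fin k, EEj k y j

end Pool.Agent.Helper11.MT
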