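import Mathlib
import Pool.Agent.Helper11.MT.Statement
import Pool.Agent.Helper11.MT.Chars
import Pool.Agent.Helper11.MT.Duality
import Pool.Agent.Helper11.MT.CharSum

/-!
The family of all characters `xi c`, `c : CF W T`, with `∏ T ≤ R ^ 2`, and its Gram matrices.
-/

open Finset ComplexConjugate

namespace Pool.Agent.Helper11.MT

lemma mem_PR {W R p : ℕ} : p ∈ PR W R ↔ p ≤ R ∧ p.Prime ∧ ¬ p ∣ W := by
  unfold PR
  rw [Finset.mem_filter, Finset.mem_range]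
  constructor
  · rintro ⟨h1, h2, h3⟩; exact ⟨by omega, h2, h3⟩
  · rintro ⟨h1, h2, h3⟩; exact ⟨by omega, h2, h3⟩

/-- The admissible sets of primes. -/
def TS (W R : ℕ) : Finset (Finset ℕ) := (PR W R).powerset.filter (fun T => ∏ p ∈ T, p ≤ R ^ 2)

lemma mem_TS {W R : ℕ} {T : Finset ℕ} : T ∈ TS W R ↔ T ⊆ PR W R ∧ ∏ p ∈ T, p ≤ R ^ 2 := by
  unfold TS
  rw [Finset.mem_filter, Finset.mem_powerset]

lemma prime_of_TS {W R : ℕ} {T : Finset ℕ} (h : T ∈ TS W R) : ∀ p ∈ T, p.Prime :=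
  fun _ hp => (mem_PR.mp ((mem_TS.mp h).1 hp)).2.1

lemma not_dvd_of_TS {W R : ℕ} {T : Finset ℕ} (h : T ∈ TS W R) : ∀ p ∈ T, ¬ p ∣ W :=
  fun _ hp => (mem_PR.mp ((mem_TS.mp h).1 hp)).2.2

lemma prod_inj {T T' : Finset ℕ} (hT : ∀ p ∈ T, p.Prime) (hT' : ∀ p ∈ T', p.Prime)
    (h : ∏ p ∈ T, p = ∏ p ∈ T', p) : T = T' := by
  rw [← Nat.primeFactors_prod hT, ← Nat.primeFactors_prod hT', h]

lemma card_TS_le (W R : ℕ) : #(TS W R) ≤ R ^ 2 := by
  have h1 : #(TS W R) ≤ #(Icc 1 (R ^ 2)) := by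
    refine Finset.card_le_card_of_injOn (fun T => ∏ p ∈ T, p) (fun T hT => ?_) ?_
    · simp only [Finset.coe_Icc, Set.mem_Icc]
      refine ⟨Finset.one_le_prod' fun p hp => (prime_of_TS hT p hp).one_le, (mem_TS.mp hT).2⟩
    · intro T hT T' hT' h
      exact prod_inj (prime_of_TS hT) (prime_of_TS hT') h
  simpa using h1

/-- The family. -/
noncomputable def FX (W R : ℕ) : Finset (Σ T : Finset ℕ, CF W T) :=
  (TS W R).sigma (fun _ => univ)

/-- The function attached to an element of the family. -/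
noncomputable def xs {W : ℕ} (x : Σ T : Finset ℕ, CF W T) (n : ℕ) : ℂ := xi x.2 n

lemma mem_FX {W R : ℕ} {x : Σ T : Finset ℕ, CF W T} : x ∈ FX W R ↔ x.1 ∈ TS W R := by
  unfold FX
  rw [Finset.mem_sigma]
  simp

lemma card_FX_le (W R : ℕ) [NeZero W] : #(FX W R) ≤ W * R ^ 4 := by
  unfold FX
  rw [Finset.card_sigma]
  calc ∑ T ∈ TS W R, #(univ : Finset (CF W T)) ≤ ∑ T ∈ TS W R, W * R ^ 2 := by
        refine Finset.sum_le_sum fun T hT => ?_
        rw [Finset.card_univ]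
        exact (card_CF_le (prime_of_TS hT)).trans (Nat.mul_le_mul_left _ (mem_TS.mp hT).2)
    _ = #(TS W R) * (W * R ^ 2) := by rw [Finset.sum_const, smul_eq_mul]
    _ ≤ R ^ 2 * (W * R ^ 2) := Nat.mul_le_mul_right _ (card_TS_le W R)
    _ = W * R ^ 4 := by ring

lemma norm_xs_le {W : ℕ} (x : Σ T : Finset ℕ, CF W T) (n : ℕ) : ‖xs x n‖ ≤ 1 := norm_xi_le _ n

lemma prod_union_le {T T' : Finset ℕ} (hT : ∀ p ∈ T, p.Prime) :
    ∏ p ∈ T ∪ T', p ≤ (∏ p ∈ T, p) * ∏ p ∈ T', p := by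
  rw [← Finset.prod_union_inter]
  refine Nat.le_mul_of_pos_right _ ?_
  refine Finset.prod_pos fun p hp => ?_
  rw [Finset.mem_inter] at hp
  exact (hT p hp.1).pos

/-- The values of `xs` are those of a character, with bounded partial sums. -/
lemma xs_char {W R : ℕ} [NeZero W] {x : Σ T : Finset ℕ, CF W T} (hx : x ∈ FX W R)
    (hne : x.1.Nonempty) :
    (∀ a b, xs x (a * b) = xs x a * xs x b) ∧
      ∀ N, ‖∑ n ∈ range N, xs x n‖ ≤ ((W * ∏ p ∈ x.1, p : ℕ) : ℝ) := by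
  have hT := prime_of_TS (mem_FX.mp hx)
  obtain ⟨ψ, h1, h2, -⟩ := exists_xi_char hT (not_dvd_of_TS (mem_FX.mp hx)) x.2
  have h3 : ∀ n : ℕ, xs x n = ψ n := fun n => (h1 n).symm
  constructor
  · intro a b
    rw [h3, h3, h3, Nat.cast_mul, map_mul]
  · intro N
    simp_rw [h3]
    have : NeZero (W * ∏ p ∈ x.1, p) := ⟨by
      refine mul_ne_zero (NeZero.ne W) (Finset.prod_ne_zero_iff.mpr fun p hp => (hT p hp).ne_zero)⟩
    exact norm_sum_range_char_le (h2 (Or.inl hne)) N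

/-- Off-diagonal data. -/
lemma xs_pair {W R : ℕ} [NeZero W] {x x' : Σ T : Finset ℕ, CF W T} (hx : x ∈ FX W R)
    (hx' : x' ∈ FX W R) (hne : x ≠ x') :
    ∃ ψ : ℕ → ℂ, (∀ n, ψ n = xs x n * conj (xs x' n)) ∧ (∀ n, ‖ψ n‖ ≤ 1) ∧
      (∀ a b, ψ (a * b) = ψ a * ψ b) ∧
      ∀ N, ‖∑ n ∈ range N, ψ n‖ ≤ ((W * ((∏ p ∈ x.1, p) * ∏ p ∈ x'.1, p) : ℕ) : ℝ) := by
  have hT := prime_of_TS (mem_FX.mp hx)
  have hT' := prime_of_TS (mem_FX.mp hx')
  obtain ⟨ψ, h1, h2⟩ := exists_pair_char hT (not_dvd_of_TS (mem_FX.mp hx)) hT'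
    (not_dvd_of_TS (mem_FX.mp hx')) x.2 x'.2 hne
  refine ⟨fun n => ψ n, h2, fun n => DirichletCharacter.norm_le_one _ _, fun a b => ?_,
    fun N => ?_⟩
  · simp only
    rw [Nat.cast_mul, map_mul]
  have : NeZero (W * ∏ p ∈ x.1 ∪ x'.1, p) := ⟨by
    refine mul_ne_zero (NeZero.ne W) (Finset.prod_ne_zero_iff.mpr fun p hp => ?_)
    rw [Finset.mem_union] at hp
    exact (hp.elim (hT p) (hT' p)).ne_zero⟩
  refine (norm_sum_range_char_le h1 N).trans ?_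
  exact_mod_cast Nat.mul_le_mul_left W (prod_union_le hT)

/-- The Gram matrix row sums with the truncated kernel. -/
lemma gram_wU_le {W R : ℕ} [NeZero W] {B : ℝ} (hB : ∀ i : ℕ, ∑' n, w i n ≤ B) {U : ℕ}
    (hU : 8 * W ^ 2 * R ^ 8 ≤ U) (i : ℕ) {x : Σ T : Finset ℕ, CF W T} (hx : x ∈ FX W R) :
    ∑ x' ∈ FX W R, ‖gram xs (wU U i) x x'‖ ≤ B + 1 := by
  rw [← Finset.add_sum_erase _ _ hx]
  refine add_le_add ?_ ?_
  · refine le_trans ?_ ((Summable.tsum_le_tsum (wU_le U i) (summable_wU U i) (summable_w i)).trans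
      (hB i))
    refine tsum_of_norm_bounded (summable_wU U i).hasSum fun n => ?_
    rw [norm_mul, norm_mul, Complex.norm_real, Real.norm_eq_abs, abs_of_nonneg (wU_nonneg U i n),
      RCLike.norm_conj]
    refine mul_le_of_le_one_right (wU_nonneg U i n) ?_
    exact mul_le_one₀ (norm_xs_le x n) (norm_nonneg _) (norm_xs_le x n)
  · have h1 : ∀ x' ∈ (FX W R).erase x, ‖gram xs (wU U i) x x'‖ ≤
        4 * (W * R ^ 4 : ℕ) * (2 / (U + 1)) := by
      intro x' hx'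
      rw [Finset.mem_erase] at hx'
      obtain ⟨ψ, h2, h3, -, h4⟩ := xs_pair hx hx'.2 (Ne.symm hx'.1)
      have h5 : gram xs (wU U i) x x' = ∑' n, ψ n * (wU U i n : ℂ) := by
        unfold gram
        refine tsum_congr fun n => ?_
        rw [h2]; ring
      rw [h5]
      have h6 : ∀ N, ‖∑ n ∈ range N, ψ n‖ ≤ ((W * R ^ 4 : ℕ) : ℝ) := by
        intro N
        refine (h4 N).trans ?_
        have h7 := (mem_TS.mp (mem_FX.mp hx)).2
        have h8 := (mem_TS.mp (mem_FX.mp hx'.2)).2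
        have : W * ((∏ p ∈ x.1, p) * ∏ p ∈ x'.1, p) ≤ W * R ^ 4 := by
          calc W * ((∏ p ∈ x.1, p) * ∏ p ∈ x'.1, p) ≤ W * (R ^ 2 * R ^ 2) :=
                Nat.mul_le_mul_left _ (Nat.mul_le_mul h7 h8)
            _ = W * R ^ 4 := by ring
        exact_mod_cast this
      exact norm_tsum_psi_wU h6 h3 U i
    refine (Finset.sum_le_sum h1).trans ?_
    rw [Finset.sum_const, nsmul_eq_mul]
    have h9 : (#((FX W R).erase x) : ℝ) ≤ ((W * R ^ 4 : ℕ) : ℝ) := by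
      have := (Finset.card_le_card (Finset.erase_subset x (FX W R))).trans (card_FX_le W R)
      exact_mod_cast this
    have h10 : (8 * (W : ℝ) ^ 2 * R ^ 8) ≤ U := by exact_mod_cast hU
    calc (#((FX W R).erase x) : ℝ) * (4 * ((W * R ^ 4 : ℕ) : ℝ) * (2 / (U + 1))) ≤
        ((W * R ^ 4 : ℕ) : ℝ) * (4 * ((W * R ^ 4 : ℕ) : ℝ) * (2 / (U + 1))) := by gcongr
      _ = (8 * (W : ℝ) ^ 2 * R ^ 8) / (U + 1) := by push_cast; ring
      _ ≤ 1 := by
        rw [div_le_one (by positivity)]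
        linarith

/-- Mean value estimate over the family, for coefficients supported on `n > U`. -/
lemma mean_value {W R : ℕ} [NeZero W] {B : ℝ} (hB1 : 1 ≤ B) (hB : ∀ i : ℕ, ∑' n, w i n ≤ B)
    {U : ℕ} (hU : 8 * W ^ 2 * R ^ 8 ≤ U) (i : ℕ) (a : ℕ → ℂ) (ha : ∀ n, n ≤ U → a n = 0)
    (hs : Summable fun n => ‖a n‖ ^ 2 * w i n) :
    ∑ x ∈ FX W R, ‖∑' n, a n * (w i n : ℂ) * xs x n‖ ^ 2 ≤
      (B + 1) * ∑' n, ‖a n‖ ^ 2 * w i n := by
  have e : (fun n => w i n * (if n ≤ U then (0 : ℝ) else 1)) = wU U i := by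
    funext n
    unfold wU
    split_ifs <;> simp
  refine duality (FX W R) xs (fun x _ n => norm_xs_le x n) a (w i)
    (fun n => if n ≤ U then 0 else 1) (w_nonneg i) (fun n => ?_) (fun n hn => ?_) hs ?_
    (by linarith) (fun x hx => ?_)
  · split_ifs <;> norm_num
  · rw [if_neg]
    intro h
    exact hn (ha n h)
  · rw [e]; exact summable_wU U i
  · have := gram_wU_le hB hU i hx
    rw [e]
    exact this

end Pool.Agent.Helper11.MT
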