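import Mathlib
import Pool.Agent.Helper11.MT.Family
import Pool.Agent.Helper11.MT.Conv

/-!
Statements for the equidistribution part.
-/

open Finset Filter Topology

namespace Pool.Agent.Helper11.MT

open ArithmeticFunction (vonMangoldt)

/-- The sieve level as a function of `J`. -/
noncomputable def RJ (J : ℕ) : ℕ := ⌊Real.exp ((J : ℝ) / 200)⌋₊

/-- `log n` at the primes `n > R`. -/
noncomputable def thetaR (R n : ℕ) : ℝ := if n.Prime ∧ R < n then Real.log n else 0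

/-- (P1) Prime powers and small primes are negligible. -/
def PPStatement : Prop :=
  ∃ C : ℝ, 0 ≤ C ∧ ∀ (J R : ℕ) (ξ : ℕ → ℂ), (∀ n, ‖ξ n‖ ≤ 1) →
    ‖MM ξ J vonMangoldt - MM ξ J (thetaR R)‖ ≤ C * (4 / 5) ^ J + (R : ℝ) ^ 2 / 2 ^ J

/-- (P2) Mean square over real characters of small modulus. -/
def RealStatement : Prop :=
  ∀ (W : ℕ) [NeZero W], ∃ C : ℝ, 0 < C ∧ ∀ᶠ J : ℕ in atTop,
    ∑ x ∈ (FX W (RJ J)).filter (fun x => IsRealCF x.2 ∧ ∏ p ∈ x.1, p ≤ J ^ 5),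
      ‖MM (xs x) J (thetaR (RJ J))‖ ^ 2 ≤ C

/-- (P2') Consequence for the weighted first moment. -/
def RealTailStatement : Prop :=
  ∀ (W : ℕ) [NeZero W], ∀ ε : ℝ, 0 < ε → ∃ D : ℕ, ∀ᶠ J : ℕ in atTop,
    ∑ x ∈ (FX W (RJ J)).filter (fun x => IsRealCF x.2 ∧ D < ∏ p ∈ x.1, p ∧ ∏ p ∈ x.1, p ≤ J ^ 5),
      ((∏ p ∈ x.1, p : ℕ) : ℝ) ^ (-(3 / 4) : ℝ) * ‖MM (xs x) J (thetaR (RJ J))‖ ≤ ε

/-- (P3) Complex characters of small modulus. -/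
def ComplexStatement : Prop :=
  ∀ (W : ℕ) [NeZero W], Tendsto (fun J : ℕ =>
    ∑ x ∈ (FX W (RJ J)).filter (fun x => x.1.Nonempty ∧ ¬ IsRealCF x.2 ∧ ∏ p ∈ x.1, p ≤ J ^ 5),
      ‖MM (xs x) J vonMangoldt‖) atTop (𝓝 0)

/-- (P4) Characters of bounded modulus. -/
def BoundedStatement : Prop :=
  ∀ (W : ℕ) [NeZero W] (D : ℕ), Tendsto (fun J : ℕ =>
    ∑ x ∈ (FX W (RJ J)).filter (fun x => x.1.Nonempty ∧ ∏ p ∈ x.1, p ≤ D),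
      ‖MM (xs x) J vonMangoldt‖) atTop (𝓝 0)

/-- (P5) Characters of large modulus. -/
def LargeStatement : Prop :=
  ∀ (W : ℕ) [NeZero W], Tendsto (fun J : ℕ =>
    ∑ x ∈ (FX W (RJ J)).filter (fun x => x.1.Nonempty ∧ J ^ 5 < ∏ p ∈ x.1, p),
      ((∏ p ∈ x.1, p : ℕ) : ℝ) ^ (-(3 / 4) : ℝ) * ‖MM (xs x) J vonMangoldt‖) atTop (𝓝 0)

/-- (EQ) The equidistribution theorem. -/
def EQStatement : Prop :=
  ∀ (W : ℕ) [NeZero W], Tendsto (fun J : ℕ =>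
    ∑ x ∈ (FX W (RJ J)).filter (fun x => x.1.Nonempty),
      ((∏ p ∈ x.1, p : ℕ) : ℝ) ^ (-(3 / 4) : ℝ) * ‖MM (xs x) J (thetaR (RJ J))‖) atTop (𝓝 0)

end Pool.Agent.Helper11.MT
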