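import Pool.Agent.Helper11.MT.Lattice

/-!
Upper and lower bounds of `LatticeDefs` (Boolean-lattice sieve).
-/

set_option linter.unusedSectionVars false

open Finset

namespace Pool.Agent.Helper11.MT

/-! ### Orthogonality -/

theorem orth {α : Type} [DecidableEq α] (w : α → ℝ) (hw : ∀ a, w a ≠ 0) (E : Finset α) :
    ∀ c : Finset α → ℝ,
    ∑ Y ∈ E.powerset, (∏ τ ∈ Y, 1 / w τ) *
      (∑ U ∈ E.powerset, c U * ∏ τ ∈ U, (if τ ∈ Y then -1 else 1 / w τ)) ^ 2 =
    (∏ τ ∈ E, (1 + 1 / w τ)) * ∑ U ∈ E.powerset, (c U) ^ 2 * ∏ τ ∈ U, 1 / w τ := by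
  induction E using Finset.induction_on with
  | empty =>
    intro c
    simp
  | insert a E ha ih =>
    intro c
    have hwa := hw a
    rw [Finset.sum_powerset_insert ha, Finset.sum_powerset_insert ha, Finset.prod_insert ha]
    -- the inner sum for `Y ⊆ E`
    have hY1 : ∀ Y ∈ E.powerset, (∏ τ ∈ Y, 1 / w τ) *
        (∑ U ∈ (insert a E).powerset, c U * ∏ τ ∈ U, (if τ ∈ Y then -1 else 1 / w τ)) ^ 2 =
        (∏ τ ∈ Y, 1 / w τ) * (∑ U ∈ E.powerset, (c U + c (insert a U) / w a) *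
          ∏ τ ∈ U, (if τ ∈ Y then -1 else 1 / w τ)) ^ 2 := by
      intro Y hY
      rw [Finset.mem_powerset] at hY
      have haY : a ∉ Y := fun h => ha (hY h)
      congr 2
      rw [Finset.sum_powerset_insert ha, ← Finset.sum_add_distrib]
      refine Finset.sum_congr rfl (fun U hU => ?_)
      rw [Finset.mem_powerset] at hU
      have haU : a ∉ U := fun h => ha (hU h)
      rw [Finset.prod_insert haU, if_neg haY]
      ring
    have hY2 : ∀ Y ∈ E.powerset, (∏ τ ∈ insert a Y, 1 / w τ) *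
        (∑ U ∈ (insert a E).powerset,
          c U * ∏ τ ∈ U, (if τ ∈ insert a Y then -1 else 1 / w τ)) ^ 2 =
        (1 / w a) * ((∏ τ ∈ Y, 1 / w τ) * (∑ U ∈ E.powerset, (c U - c (insert a U)) *
          ∏ τ ∈ U, (if τ ∈ Y then -1 else 1 / w τ)) ^ 2) := by
      intro Y hY
      rw [Finset.mem_powerset] at hY
      have haY : a ∉ Y := fun h => ha (hY h)
      rw [Finset.prod_insert haY, mul_assoc]
      congr 3
      rw [Finset.sum_powerset_insert ha, ← Finset.sum_add_distrib]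
      refine Finset.sum_congr rfl (fun U hU => ?_)
      rw [Finset.mem_powerset] at hU
      have haU : a ∉ U := fun h => ha (hU h)
      rw [Finset.prod_insert haU, if_pos (Finset.mem_insert_self a Y)]
      have h1 : ∏ τ ∈ U, (if τ ∈ insert a Y then -1 else 1 / w τ) =
          ∏ τ ∈ U, (if τ ∈ Y then -1 else 1 / w τ) := by
        refine Finset.prod_congr rfl (fun τ hτ => ?_)
        have : τ ≠ a := fun h => haU (h ▸ hτ)
        simp [Finset.mem_insert, this]
      rw [h1]
      ring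
    rw [Finset.sum_congr rfl hY1, Finset.sum_congr rfl hY2, ← Finset.mul_sum,
      ih (fun U => c U + c (insert a U) / w a), ih (fun U => c U - c (insert a U))]
    have hU2 : ∀ U ∈ E.powerset, (c (insert a U)) ^ 2 * ∏ τ ∈ insert a U, 1 / w τ =
        (1 / w a) * ((c (insert a U)) ^ 2 * ∏ τ ∈ U, 1 / w τ) := by
      intro U hU
      rw [Finset.mem_powerset] at hU
      have haU : a ∉ U := fun h => ha (hU h)
      rw [Finset.prod_insert haU]
      ring
    rw [Finset.sum_congr rfl hU2, Finset.mul_sum, Finset.mul_sum, Finset.mul_sum,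
      ← Finset.sum_add_distrib, ← Finset.sum_add_distrib, Finset.mul_sum]
    refine Finset.sum_congr rfl (fun U _ => ?_)
    field_simp
    ring

/-! ### Restriction -/

theorem sum_split {α : Type} [DecidableEq α] (A B : Finset α) (hAB : Disjoint A B)
    (F : Finset α → ℝ) :
    ∑ U ∈ (A ∪ B).powerset, F U = ∑ U ∈ A.powerset, ∑ V ∈ B.powerset, F (U ∪ V) := by
  rw [← Finset.sum_product']
  refine Finset.sum_nbij' (fun U => (U ∩ A, U ∩ B)) (fun p => p.1 ∪ p.2) ?_ ?_ ?_ ?_ ?_
  · intro U _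
    simp [Finset.inter_subset_right]
  · intro p hp
    rw [Finset.mem_product, Finset.mem_powerset, Finset.mem_powerset] at hp
    rw [Finset.mem_powerset]
    exact Finset.union_subset_union hp.1 hp.2
  · intro U hU
    rw [Finset.mem_powerset] at hU
    change U ∩ A ∪ U ∩ B = U
    rw [← Finset.inter_union_distrib_left]
    exact Finset.inter_eq_left.mpr hU
  · intro p hp
    rw [Finset.mem_product, Finset.mem_powerset, Finset.mem_powerset] at hp
    obtain ⟨p1, p2⟩ := p
    change ((p1 ∪ p2) ∩ A, (p1 ∪ p2) ∩ B) = (p1, p2)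
    have h1 : (p1 ∪ p2) ∩ A = p1 := by
      ext x
      simp only [Finset.mem_inter, Finset.mem_union]
      constructor
      · rintro ⟨h | h, h'⟩
        · exact h
        · exact absurd h' (Finset.disjoint_right.mp hAB (hp.2 h))
      · intro h
        exact ⟨Or.inl h, hp.1 h⟩
    have h2 : (p1 ∪ p2) ∩ B = p2 := by
      ext x
      simp only [Finset.mem_inter, Finset.mem_union]
      constructor
      · rintro ⟨h | h, h'⟩
        · exact absurd h' (Finset.disjoint_left.mp hAB (hp.1 h))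
        · exact h
      · intro h
        exact ⟨Or.inr h, hp.2 h⟩
    rw [h1, h2]
  · intro U hU
    rw [Finset.mem_powerset] at hU
    change F U = F (U ∩ A ∪ U ∩ B)
    rw [← Finset.inter_union_distrib_left, Finset.inter_eq_left.mpr hU]

section Bounds

variable {Q ι : Type} [Fintype Q] [DecidableEq Q] [Fintype ι] [DecidableEq ι]

theorem eU_union (g : Q → ℝ) (U V Y : Finset (Q × ι)) (h : Disjoint U V) :
    eU g (U ∪ V) Y = eU g U Y * eU g V Y := by
  unfold eU
  exact Finset.prod_union h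

theorem eU_disjoint (g : Q → ℝ) (U Y : Finset (Q × ι)) (h : Disjoint U Y) :
    eU g U Y = 1 / gU g U := by
  unfold eU gU
  rw [one_div, ← Finset.prod_inv_distrib]
  refine Finset.prod_congr rfl (fun τ hτ => ?_)
  rw [if_neg (Finset.disjoint_left.mp h hτ), one_div]

theorem eU_congr (g : Q → ℝ) (U Y Y' : Finset (Q × ι)) (h : ∀ τ ∈ U, τ ∈ Y ↔ τ ∈ Y') :
    eU g U Y = eU g U Y' := by
  unfold eU
  refine Finset.prod_congr rfl (fun τ hτ => ?_)
  simp only [h τ hτ]

theorem abs_eU_le (g : Q → ℝ) (hg : ∀ q, 1 ≤ g q) (U Y : Finset (Q × ι)) : |eU g U Y| ≤ 1 := by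
  unfold eU
  rw [Finset.abs_prod]
  refine Finset.prod_le_one (fun τ _ => abs_nonneg _) (fun τ _ => ?_)
  split_ifs
  · simp
  · have := hg τ.1
    rw [abs_of_nonneg (by positivity), div_le_one (by linarith)]
    exact this

/-- The coefficients after restriction. -/
noncomputable def cU (g : Q → ℝ) (y : Finset (Q × ι) → ℝ) (E0 a U0 : Finset (Q × ι)) : ℝ :=
  ∑ V ∈ (E0ᶜ).powerset, y (U0 ∪ V) * eU g V a

theorem AA_restrict (g : Q → ℝ) (y : Finset (Q × ι) → ℝ) (E0 a Y0 : Finset (Q × ι))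
    (hY : Y0 ⊆ E0) (ha : Disjoint a E0) :
    AA g y (Y0 ∪ a) = ∑ U0 ∈ E0.powerset, cU g y E0 a U0 * eU g U0 Y0 := by
  have h1 : (univ : Finset (Finset (Q × ι))) = (E0 ∪ E0ᶜ).powerset := by
    rw [Finset.union_compl, Finset.powerset_univ]
  unfold AA cU
  rw [h1, sum_split E0 E0ᶜ disjoint_compl_right]
  refine Finset.sum_congr rfl (fun U0 hU0 => ?_)
  rw [Finset.mem_powerset] at hU0
  rw [Finset.sum_mul]
  refine Finset.sum_congr rfl (fun V hV => ?_)
  rw [Finset.mem_powerset] at hV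
  have hd : Disjoint U0 V := by
    rw [Finset.disjoint_left]
    intro x hx hx'
    exact (Finset.mem_compl.mp (hV hx')) (hU0 hx)
  rw [eU_union g U0 V _ hd]
  have h2 : eU g U0 (Y0 ∪ a) = eU g U0 Y0 := by
    refine eU_congr g U0 _ _ (fun τ hτ => ?_)
    rw [Finset.mem_union]
    constructor
    · rintro (h | h)
      · exact h
      · exact absurd (hU0 hτ) (Finset.disjoint_left.mp ha h)
    · exact Or.inl
  have h3 : eU g V (Y0 ∪ a) = eU g V a := by
    refine eU_congr g V _ _ (fun τ hτ => ?_)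
    rw [Finset.mem_union]
    constructor
    · rintro (h | h)
      · exact absurd (hY h) (Finset.mem_compl.mp (hV hτ))
      · exact h
    · exact Or.inr
  rw [h2, h3]
  ring

theorem sum_AA_sq (g : Q → ℝ) (hg : ∀ q, 1 ≤ g q) (y : Finset (Q × ι) → ℝ)
    (E0 a : Finset (Q × ι)) (ha : Disjoint a E0) :
    ∑ Y0 ∈ E0.powerset, (1 / gU g Y0) * (AA g y (Y0 ∪ a)) ^ 2 =
      (∏ τ ∈ E0, (1 + 1 / g τ.1)) * ∑ U0 ∈ E0.powerset, (cU g y E0 a U0) ^ 2 / gU g U0 := by
  have h0 := orth (fun τ : Q × ι => g τ.1) (fun τ => by have := hg τ.1; linarith) E0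
    (cU g y E0 a)
  have h1 : ∀ Y0 ∈ E0.powerset, (1 / gU g Y0) * (AA g y (Y0 ∪ a)) ^ 2 =
      (∏ τ ∈ Y0, 1 / g τ.1) * (∑ U ∈ E0.powerset, cU g y E0 a U *
        ∏ τ ∈ U, (if τ ∈ Y0 then -1 else 1 / g τ.1)) ^ 2 := by
    intro Y0 hY0
    rw [Finset.mem_powerset] at hY0
    rw [AA_restrict g y E0 a Y0 hY0 ha]
    congr 1
    unfold gU
    simp [one_div]
  rw [Finset.sum_congr rfl h1, h0]
  congr 1
  refine Finset.sum_congr rfl (fun U _ => ?_)
  unfold gU
  simp [div_eq_mul_inv]

theorem yI_nonneg (g : Q → ℝ) (hg : ∀ q, 1 ≤ g q) (I : Finset ι) (y : Finset (Q × ι) → ℝ)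
    (hy : ∀ U, 0 ≤ y U) (U : Finset (Q × ι)) : 0 ≤ yI g I y U :=
  Finset.sum_nonneg (fun V _ => div_nonneg (hy _) (gU_pos g hg V).le)

theorem QI_nonneg (g : Q → ℝ) (hg : ∀ q, 1 ≤ g q) (I : Finset ι) (y : Finset (Q × ι) → ℝ) :
    0 ≤ QI g I y :=
  Finset.sum_nonneg (fun U _ => div_nonneg (sq_nonneg _) (gU_pos g hg U).le)

theorem abs_cU_le (g : Q → ℝ) (hg : ∀ q, 1 ≤ g q) (I : Finset ι) (y : Finset (Q × ι) → ℝ)
    (hy : ∀ U, 0 ≤ y U) (hanti : ∀ U V, U ⊆ V → y V ≤ y U)
    (E0 P a U0 : Finset (Q × ι)) (hP : P ⊆ E0ᶜ) (hP' : EI Q I \ E0 ⊆ P) (haP : a ⊆ P) :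
    |cU g y E0 a U0| ≤ 2 ^ (#P) * yI g I y U0 := by
  have h1 : E0ᶜ = P ∪ (E0ᶜ \ P) := (Finset.union_sdiff_of_subset hP).symm
  have hd : Disjoint P (E0ᶜ \ P) := Finset.disjoint_sdiff
  unfold cU
  rw [h1, sum_split P (E0ᶜ \ P) hd]
  refine (Finset.abs_sum_le_sum_abs _ _).trans ?_
  have h2 : ∀ V1 ∈ P.powerset, |∑ V ∈ (E0ᶜ \ P).powerset, y (U0 ∪ (V1 ∪ V)) * eU g (V1 ∪ V) a| ≤
      yI g I y U0 := by
    intro V1 hV1
    rw [Finset.mem_powerset] at hV1
    refine (Finset.abs_sum_le_sum_abs _ _).trans ?_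
    unfold yI
    have hsub : (E0ᶜ \ P).powerset ⊆ (univ.filter (fun τ : Q × ι => τ.2 ∉ I)).powerset := by
      rw [Finset.powerset_mono]
      intro τ hτ
      rw [Finset.mem_sdiff, Finset.mem_compl] at hτ
      rw [Finset.mem_filter]
      refine ⟨Finset.mem_univ _, fun hI => hτ.2 (hP' ?_)⟩
      rw [Finset.mem_sdiff]
      exact ⟨by simp [EI, hI], hτ.1⟩
    refine le_trans ?_ (Finset.sum_le_sum_of_subset_of_nonneg hsub
      (fun V _ _ => div_nonneg (hy _) (gU_pos g hg V).le))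
    refine Finset.sum_le_sum (fun V hV => ?_)
    rw [Finset.mem_powerset] at hV
    have hd1 : Disjoint V1 V := Finset.disjoint_of_subset_left hV1
      (Finset.disjoint_of_subset_right hV hd)
    have hd2 : Disjoint V a := (Finset.disjoint_of_subset_left haP
      (Finset.disjoint_of_subset_right hV hd)).symm
    have h5 := gU_pos g hg V
    have h6 : |1 / gU g V| = 1 / gU g V := abs_of_pos (by positivity)
    rw [eU_union g V1 V a hd1, eU_disjoint g V a hd2, abs_mul, abs_mul,
      abs_of_nonneg (hy _), h6]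
    have h3 : y (U0 ∪ (V1 ∪ V)) ≤ y (U0 ∪ V) := by
      refine hanti _ _ (Finset.union_subset_union_right Finset.subset_union_right)
    have h4 := abs_eU_le g hg V1 a
    rw [div_eq_mul_one_div (y (U0 ∪ V))]
    calc y (U0 ∪ (V1 ∪ V)) * (|eU g V1 a| * (1 / gU g V)) ≤
        y (U0 ∪ V) * (1 * (1 / gU g V)) := by
          refine mul_le_mul h3 ?_ (by positivity) (hy _)
          exact mul_le_mul_of_nonneg_right h4 (by positivity)
      _ = y (U0 ∪ V) * (1 / gU g V) := by rw [one_mul]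
  refine (Finset.sum_le_sum h2).trans (le_of_eq ?_)
  rw [Finset.sum_const, Finset.card_powerset, nsmul_eq_mul]
  push_cast
  ring

theorem master (g : Q → ℝ) (hg : ∀ q, 1 ≤ g q) (I : Finset ι) (y : Finset (Q × ι) → ℝ)
    (hy : ∀ U, 0 ≤ y U) (hanti : ∀ U V, U ⊆ V → y V ≤ y U)
    (E0 P a : Finset (Q × ι)) (hE0 : E0 ⊆ EI Q I) (hP : P ⊆ E0ᶜ) (hP' : EI Q I \ E0 ⊆ P)
    (haP : a ⊆ P) :
    ∑ Y0 ∈ E0.powerset, (1 / gU g Y0) * (AA g y (Y0 ∪ a)) ^ 2 ≤
      (∏ τ ∈ E0, (1 + 1 / g τ.1)) * (4 ^ (#P) * QI g I y) := by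
  have ha : Disjoint a E0 := by
    rw [Finset.disjoint_left]
    intro x hx hx'
    exact (Finset.mem_compl.mp (hP (haP hx))) hx'
  rw [sum_AA_sq g hg y E0 a ha]
  have hprod : 0 ≤ ∏ τ ∈ E0, (1 + 1 / g τ.1) :=
    Finset.prod_nonneg (fun τ _ => by have := hg τ.1; positivity)
  refine mul_le_mul_of_nonneg_left ?_ hprod
  unfold QI
  rw [Finset.mul_sum]
  have hsub : E0.powerset ⊆ (EI Q I).powerset := Finset.powerset_mono.mpr hE0
  refine le_trans ?_ (Finset.sum_le_sum_of_subset_of_nonneg hsub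
    (fun V _ _ => by have := gU_pos g hg V; positivity))
  refine Finset.sum_le_sum (fun U0 _ => ?_)
  have h1 := abs_cU_le g hg I y hy hanti E0 P a U0 hP hP' haP
  have h2 := yI_nonneg g hg I y hy U0
  have h3 : (cU g y E0 a U0) ^ 2 ≤ (2 ^ (#P) * yI g I y U0) ^ 2 := by
    rw [← sq_abs]
    exact pow_le_pow_left₀ (abs_nonneg _) h1 2
  have h4 : ((2 : ℝ) ^ (#P) * yI g I y U0) ^ 2 = 4 ^ (#P) * (yI g I y U0) ^ 2 := by
    rw [mul_pow, ← pow_mul, mul_comm (#P) 2, pow_mul]
    norm_num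
  rw [h4] at h3
  rw [mul_div_assoc']
  exact div_le_div_of_nonneg_right h3 (gU_pos g hg U0).le

theorem master_eq (g : Q → ℝ) (hg : ∀ q, 1 ≤ g q) (I : Finset ι) (y : Finset (Q × ι) → ℝ) :
    ∑ Y0 ∈ (EI Q I).powerset, (1 / gU g Y0) * (AA g y Y0) ^ 2 =
      (∏ τ ∈ EI Q I, (1 + 1 / g τ.1)) * QI g I y := by
  have h := sum_AA_sq g hg y (EI Q I) ∅ (Finset.disjoint_empty_left _)
  simp only [Finset.union_empty] at h
  rw [h]
  congr 1
  unfold QI
  refine Finset.sum_congr rfl (fun U _ => ?_)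
  congr 2
  unfold cU yI
  have h1 : (EI Q I)ᶜ = univ.filter (fun τ : Q × ι => τ.2 ∉ I) := by
    ext τ
    simp [EI]
  rw [h1]
  refine Finset.sum_congr rfl (fun V _ => ?_)
  rw [eU_disjoint g V ∅ (Finset.disjoint_empty_right _)]
  ring

/-! ### The upper bound -/

theorem gr_injective : Function.Injective (gr : (Q → Option ι) → Finset (Q × ι)) := by
  intro f f' h
  funext q
  rcases hf : f q with _ | i
  · rcases hf' : f' q with _ | i
    · rfl
    · have h1 : (q, i) ∈ gr f' := (mem_gr f' (q, i)).mpr hf'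
      rw [← h, mem_gr] at h1
      simp [hf] at h1
  · have h1 : (q, i) ∈ gr f := (mem_gr f (q, i)).mpr hf
    rw [h, mem_gr] at h1
    exact h1.symm

theorem exp_ineq (x : ℝ) (hx : 0 ≤ x) : Real.exp x ≤ (1 + x) * Real.exp (x ^ 2) := by
  have h1 : 1 + (x ^ 2 - x) ≤ Real.exp (x ^ 2 - x) := by
    have := Real.add_one_le_exp (x ^ 2 - x)
    linarith
  have h2 : 1 ≤ (1 + x) * Real.exp (x ^ 2 - x) := by
    calc (1 : ℝ) ≤ (1 + x) * (1 + (x ^ 2 - x)) := by nlinarith [pow_nonneg hx 3]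
      _ ≤ (1 + x) * Real.exp (x ^ 2 - x) := by
        exact mul_le_mul_of_nonneg_left h1 (by linarith)
  calc Real.exp x = 1 * Real.exp x := (one_mul _).symm
    _ ≤ ((1 + x) * Real.exp (x ^ 2 - x)) * Real.exp x :=
        mul_le_mul_of_nonneg_right h2 (Real.exp_pos _).le
    _ = (1 + x) * Real.exp (x ^ 2) := by
        rw [mul_assoc, ← Real.exp_add]
        congr 2
        ring

theorem pow_ratio (x : ℝ) (hx : 0 ≤ x) (K : ℕ) :
    (1 + x) ^ K ≤ (1 + K * x) * Real.exp ((K : ℝ) ^ 2 * x ^ 2) := by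
  have h1 : (1 + x) ^ K ≤ Real.exp (K * x) := by
    rw [Real.exp_nat_mul]
    refine pow_le_pow_left₀ (by linarith) ?_ K
    have := Real.add_one_le_exp x
    linarith
  refine h1.trans ((exp_ineq (K * x) (by positivity)).trans (le_of_eq ?_))
  rw [mul_pow]

/-- The weight of a function, restricted to the complement of the exceptional set. -/
noncomputable def Wt (g : Q → ℝ) (I : Finset ι) (T : Finset Q) : ℝ :=
  ∏ q ∈ Tᶜ, (g q / (g q + #I))

theorem Wt_nonneg (g : Q → ℝ) (hg : ∀ q, 1 ≤ g q) (I : Finset ι) (T : Finset Q) :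
    0 ≤ Wt g I T :=
  Finset.prod_nonneg (fun q _ => by have := hg q; positivity)

/-- The set of pairs with first component outside `T` and second in `I`. -/
def E0T (I : Finset ι) (T : Finset Q) : Finset (Q × ι) :=
  univ.filter (fun τ => τ.1 ∉ T ∧ τ.2 ∈ I)

theorem prod_E0T (g : Q → ℝ) (I : Finset ι) (T : Finset Q) :
    ∏ τ ∈ E0T I T, (1 + 1 / g τ.1) = ∏ q ∈ Tᶜ, (1 + 1 / g q) ^ (#I) := by
  have h1 : E0T I T = Tᶜ ×ˢ I := by
    ext τ
    simp [E0T]
  rw [h1, Finset.prod_product]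
  refine Finset.prod_congr rfl (fun q _ => ?_)
  change ∏ _i ∈ I, (1 + 1 / g q) = _
  rw [Finset.prod_const]

theorem Wt_prod_le (g : Q → ℝ) (hg : ∀ q, 1 ≤ g q) (I : Finset ι) (T : Finset Q) :
    Wt g I T * ∏ τ ∈ E0T I T, (1 + 1 / g τ.1) ≤
      Real.exp ((#I : ℝ) ^ 2 * ∑ q, 1 / (g q) ^ 2) := by
  rw [prod_E0T]
  unfold Wt
  rw [← Finset.prod_mul_distrib]
  have h1 : ∀ q ∈ Tᶜ, g q / (g q + #I) * (1 + 1 / g q) ^ (#I) ≤
      Real.exp ((#I : ℝ) ^ 2 * (1 / (g q) ^ 2)) := by
    intro q _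
    have hq := hg q
    have hq0 : 0 < g q := by linarith
    have h2 := pow_ratio (1 / g q) (by positivity) (#I)
    have h3 : g q / (g q + #I) * (1 + #I * (1 / g q)) = 1 := by
      field_simp
    calc g q / (g q + #I) * (1 + 1 / g q) ^ (#I) ≤
        g q / (g q + #I) * ((1 + #I * (1 / g q)) * Real.exp ((#I : ℝ) ^ 2 * (1 / g q) ^ 2)) :=
          mul_le_mul_of_nonneg_left h2 (by positivity)
      _ = Real.exp ((#I : ℝ) ^ 2 * (1 / (g q) ^ 2)) := by
          rw [← mul_assoc, h3, one_mul]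
          congr 2
          rw [div_pow, one_pow]
  refine (Finset.prod_le_prod (fun q _ => ?_) h1).trans ?_
  · have := hg q
    positivity
  rw [← Real.exp_sum, ← Finset.mul_sum]
  refine Real.exp_le_exp.mpr (mul_le_mul_of_nonneg_left ?_ (by positivity))
  exact Finset.sum_le_sum_of_subset_of_nonneg (Finset.subset_univ _)
    (fun q _ _ => by positivity)

/-- The functions that contribute. -/
def SS0 (I : Finset ι) (s : Q → Option ι) : Finset (Q → Option ι) :=
  univ.filter (fun f => ∀ q, (q ∈ supp s → f q = none ∨ f q = s q) ∧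
    (q ∉ supp s → ∀ i, f q = some i → i ∈ I))

theorem kap_prod_le (g : Q → ℝ) (hg : ∀ q, 1 ≤ g q) (I : Finset ι) (s f : Q → Option ι) :
    |∏ q, kap g I q (s q) (f q)| ≤
      if f ∈ SS0 I s then Wt g I (supp s) * (1 / gU g (gr f ∩ E0T I (supp s))) else 0 := by
  rw [Finset.abs_prod]
  split_ifs with h
  · simp only [SS0, Finset.mem_filter, Finset.mem_univ, true_and] at h
    rw [← Finset.prod_compl_mul_prod (supp s)]
    have h1 : ∏ q ∈ supp s, |kap g I q (s q) (f q)| ≤ 1 := by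
      refine Finset.prod_le_one (fun q _ => abs_nonneg _) (fun q hq => ?_)
      have h2 : s q ≠ none := by simpa [supp] using hq
      obtain ⟨i, hi⟩ := Option.ne_none_iff_exists'.mp h2
      rw [hi]
      rcases (h q).1 hq with h3 | h3
      · rw [h3]
        simp [kap]
      · rw [h3, hi]
        simp [kap]
    have h4 : ∏ q ∈ (supp s)ᶜ, |kap g I q (s q) (f q)| =
        Wt g I (supp s) * (1 / gU g (gr f ∩ E0T I (supp s))) := by
      have h5 : ∀ q ∈ (supp s)ᶜ, |kap g I q (s q) (f q)| =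
          (g q / (g q + #I)) * ∏ i : ι, (if f q = some i then 1 / g q else 1) := by
        intro q hq
        rw [Finset.mem_compl] at hq
        have h6 : s q = none := by simpa [supp] using hq
        have hq1 := hg q
        have hq0 : 0 < g q := by linarith
        rw [h6]
        rcases h7 : f q with _ | i
        · simp only [kap]
          rw [abs_of_nonneg (by positivity)]
          simp
        · have hi : i ∈ I := (h q).2 hq i h7
          simp only [kap, alpha, if_pos hi]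
          rw [abs_of_nonneg (by positivity)]
          have h8 : ∏ j : ι, (if some i = some j then 1 / g q else 1) = 1 / g q := by
            have h9 : ∀ j : ι, (if some i = some j then 1 / g q else 1) =
                if i = j then 1 / g q else 1 := by
              intro j
              simp
            rw [Finset.prod_congr rfl (fun j _ => h9 j), Finset.prod_ite_eq univ i]
            simp
          rw [h8]
          field_simp
      rw [Finset.prod_congr rfl h5, Finset.prod_mul_distrib]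
      unfold Wt
      congr 1
      rw [← Finset.prod_product' (s := (supp s)ᶜ) (t := (univ : Finset ι))
        (f := fun q i => (if f q = some i then 1 / g q else 1))]
      unfold gU
      rw [one_div, ← Finset.prod_inv_distrib]
      rw [← Finset.prod_filter (s := (supp s)ᶜ ×ˢ (univ : Finset ι)) (p := fun x => f x.1 = some x.2)
        (f := fun x => 1 / g x.1)]
      have h10 : ((supp s)ᶜ ×ˢ (univ : Finset ι)).filter (fun x => f x.1 = some x.2) =
          gr f ∩ E0T I (supp s) := by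
        ext τ
        simp only [Finset.mem_filter, Finset.mem_product, Finset.mem_compl, Finset.mem_univ,
          and_true, Finset.mem_inter, mem_gr, E0T, true_and]
        constructor
        · rintro ⟨h11, h12⟩
          exact ⟨h12, h11, (h τ.1).2 h11 τ.2 h12⟩
        · rintro ⟨h11, h12, _⟩
          exact ⟨h12, h11⟩
      rw [h10]
      simp
    rw [h4]
    have h5 : 0 ≤ Wt g I (supp s) * (1 / gU g (gr f ∩ E0T I (supp s))) :=
      mul_nonneg (Wt_nonneg g hg I _) (by have := gU_pos g hg (gr f ∩ E0T I (supp s)); positivity)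
    calc _ ≤ Wt g I (supp s) * (1 / gU g (gr f ∩ E0T I (supp s))) * 1 :=
          mul_le_mul_of_nonneg_left h1 h5
      _ = _ := mul_one _
  · simp only [SS0, Finset.mem_filter, Finset.mem_univ, true_and, not_forall] at h
    obtain ⟨q, hq⟩ := h
    have h1 : |kap g I q (s q) (f q)| = 0 := by
      by_cases hs : q ∈ supp s
      · have h2 : s q ≠ none := by simpa [supp] using hs
        obtain ⟨i, hi⟩ := Option.ne_none_iff_exists'.mp h2
        have h3 : f q ≠ none ∧ f q ≠ s q := by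
          constructor
          · intro h4
            exact hq ⟨fun _ => Or.inl h4, fun h5 => absurd hs h5⟩
          · intro h4
            exact hq ⟨fun _ => Or.inr h4, fun h5 => absurd hs h5⟩
        rw [hi] at h3 ⊢
        simp [kap, h3.1, h3.2]
      · have h2 : s q = none := by simpa [supp] using hs
        have h3 : ∃ i, f q = some i ∧ i ∉ I := by
          by_contra h4
          push Not at h4
          exact hq ⟨fun h5 => absurd h5 hs, fun _ => h4⟩
        obtain ⟨i, hi, hi'⟩ := h3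
        rw [h2, hi]
        simp [kap, alpha, hi']
    exact le_of_eq (Finset.prod_eq_zero (Finset.mem_univ q) h1)

theorem upper : UpperStatement := by
  intro Q ι _ _ _ _ g hg I y hy hanti s
  set T := supp s with hT
  set E0 := E0T I T with hE0
  have h1 : |BB g I (fun Y => (AA g y Y) ^ 2) s| ≤
      ∑ f ∈ SS0 I s, Wt g I T * (1 / gU g (gr f ∩ E0) * (AA g y ((gr f ∩ E0) ∪ (gr f ∩ gr s))) ^ 2) := by
    unfold BB
    refine (Finset.abs_sum_le_sum_abs _ _).trans ?_
    rw [← Finset.sum_filter_add_sum_filter_not univ (fun f => f ∈ SS0 I s)]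
    have h2 : ∑ f ∈ univ.filter (fun f => ¬ f ∈ SS0 I s),
        |(∏ q, kap g I q (s q) (f q)) * (AA g y (gr f)) ^ 2| ≤ 0 := by
      refine Finset.sum_nonpos (fun f hf => ?_)
      rw [Finset.mem_filter] at hf
      have h3 := kap_prod_le g hg I s f
      rw [if_neg hf.2] at h3
      rw [abs_mul]
      have h4 : |∏ q, kap g I q (s q) (f q)| = 0 := le_antisymm h3 (abs_nonneg _)
      rw [h4, zero_mul]
    have h5 : univ.filter (fun f => f ∈ SS0 I s) = SS0 I s := by
      ext f
      simp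
    rw [h5]
    refine (add_le_add (Finset.sum_le_sum (fun f hf => ?_)) h2).trans (le_of_eq (add_zero _))
    have h3 := kap_prod_le g hg I s f
    rw [if_pos hf] at h3
    have h6 : (gr f ∩ E0) ∪ (gr f ∩ gr s) = gr f := by
      rw [← Finset.inter_union_distrib_left]
      refine Finset.inter_eq_left.mpr (fun τ hτ => ?_)
      rw [mem_gr] at hτ
      simp only [SS0, Finset.mem_filter, Finset.mem_univ, true_and] at hf
      rw [Finset.mem_union]
      by_cases hs : τ.1 ∈ supp s
      · right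
        rcases (hf τ.1).1 hs with h7 | h7
        · rw [h7] at hτ
          exact absurd hτ (by simp)
        · rw [mem_gr, ← h7, hτ]
      · left
        rw [hE0]
        simp only [E0T, Finset.mem_filter, Finset.mem_univ, true_and]
        exact ⟨hs, (hf τ.1).2 hs τ.2 hτ⟩
    rw [h6, abs_mul, abs_of_nonneg (sq_nonneg (AA g y (gr f))), ← mul_assoc]
    exact mul_le_mul_of_nonneg_right h3 (sq_nonneg _)
  refine h1.trans ?_
  rw [← Finset.mul_sum]
  -- compare with the sum over pairs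
  have h2 : ∑ f ∈ SS0 I s, (1 / gU g (gr f ∩ E0) *
      (AA g y ((gr f ∩ E0) ∪ (gr f ∩ gr s))) ^ 2) ≤
      ∑ a ∈ (gr s).powerset, ∑ Y0 ∈ E0.powerset, (1 / gU g Y0) * (AA g y (Y0 ∪ a)) ^ 2 := by
    rw [← Finset.sum_product']
    have h3 : Set.InjOn (fun f : Q → Option ι => (gr f ∩ gr s, gr f ∩ E0)) (SS0 I s) := by
      intro f hf f' hf' hff
      simp only [Prod.mk.injEq] at hff
      have h6 : ∀ f ∈ SS0 I s, (gr f ∩ E0) ∪ (gr f ∩ gr s) = gr f := by
        intro f hf
        rw [← Finset.inter_union_distrib_left]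
        refine Finset.inter_eq_left.mpr (fun τ hτ => ?_)
        rw [mem_gr] at hτ
        simp only [SS0, Finset.mem_filter, Finset.mem_univ, true_and] at hf
        rw [Finset.mem_union]
        by_cases hs : τ.1 ∈ supp s
        · right
          rcases (hf τ.1).1 hs with h7 | h7
          · rw [h7] at hτ
            exact absurd hτ (by simp)
          · rw [mem_gr, ← h7, hτ]
        · left
          rw [hE0]
          simp only [E0T, Finset.mem_filter, Finset.mem_univ, true_and]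
          exact ⟨hs, (hf τ.1).2 hs τ.2 hτ⟩
      apply gr_injective
      rw [← h6 f hf, ← h6 f' hf', hff.1, hff.2]
    rw [show ∑ f ∈ SS0 I s, (1 / gU g (gr f ∩ E0) *
      (AA g y ((gr f ∩ E0) ∪ (gr f ∩ gr s))) ^ 2) =
      ∑ p ∈ (SS0 I s).image (fun f : Q → Option ι => (gr f ∩ gr s, gr f ∩ E0)),
        (1 / gU g p.2) * (AA g y (p.2 ∪ p.1)) ^ 2 from
        (Finset.sum_image (f := fun p : Finset (Q × ι) × Finset (Q × ι) =>
          (1 / gU g p.2) * (AA g y (p.2 ∪ p.1)) ^ 2) h3).symm]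
    refine Finset.sum_le_sum_of_subset_of_nonneg ?_ (fun p _ _ => ?_)
    · intro p hp
      rw [Finset.mem_image] at hp
      obtain ⟨f, _, rfl⟩ := hp
      rw [Finset.mem_product, Finset.mem_powerset, Finset.mem_powerset]
      exact ⟨Finset.inter_subset_right, Finset.inter_subset_right⟩
    · have := gU_pos g hg p.2
      positivity
  have h3 : ∀ a ∈ (gr s).powerset, ∑ Y0 ∈ E0.powerset, (1 / gU g Y0) * (AA g y (Y0 ∪ a)) ^ 2 ≤
      (∏ τ ∈ E0, (1 + 1 / g τ.1)) * (4 ^ (#T * Fintype.card ι) * QI g I y) := by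
    intro a ha
    rw [Finset.mem_powerset] at ha
    have hcard : #(T ×ˢ (univ : Finset ι)) = #T * Fintype.card ι := by
      rw [Finset.card_product, Finset.card_univ]
    rw [← hcard]
    refine master g hg I y hy hanti E0 (T ×ˢ univ) a ?_ ?_ ?_ ?_
    · intro τ hτ
      rw [hE0] at hτ
      simp only [E0T, Finset.mem_filter, Finset.mem_univ, true_and] at hτ
      simp [EI, hτ.2]
    · intro τ hτ
      rw [Finset.mem_product] at hτ
      rw [hE0]
      simp [E0T, hτ.1]
    · intro τ hτ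
      rw [Finset.mem_sdiff, hE0] at hτ
      simp only [E0T, EI, Finset.mem_filter, Finset.mem_univ, true_and] at hτ
      rw [Finset.mem_product]
      refine ⟨?_, Finset.mem_univ _⟩
      by_contra h4
      exact hτ.2 ⟨h4, hτ.1⟩
    · intro τ hτ
      have h4 := ha hτ
      rw [mem_gr] at h4
      rw [Finset.mem_product]
      refine ⟨?_, Finset.mem_univ _⟩
      rw [hT]
      simp [supp, h4]
  have h4 : #(gr s) = #T := by
    rw [hT]
    have h5 : (gr s).image Prod.fst = supp s := by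
      ext q
      simp only [Finset.mem_image, mem_gr, supp, Finset.mem_filter, Finset.mem_univ, true_and]
      constructor
      · rintro ⟨τ, h6, rfl⟩
        rw [h6]
        simp
      · intro h6
        obtain ⟨i, hi⟩ := Option.ne_none_iff_exists'.mp h6
        exact ⟨(q, i), hi, rfl⟩
    rw [← h5, Finset.card_image_of_injOn]
    intro τ hτ τ' hτ' h6
    have h7 := (mem_gr s τ).mp hτ
    have h8 := (mem_gr s τ').mp hτ'
    rw [h6, h8] at h7
    exact Prod.ext h6 (Option.some.inj h7).symm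
  have hW := Wt_nonneg g hg I T
  have hQ := QI_nonneg g hg I y
  calc Wt g I T * ∑ f ∈ SS0 I s, (1 / gU g (gr f ∩ E0) *
      (AA g y ((gr f ∩ E0) ∪ (gr f ∩ gr s))) ^ 2) ≤
      Wt g I T * ∑ a ∈ (gr s).powerset, (∏ τ ∈ E0, (1 + 1 / g τ.1)) *
        (4 ^ (#T * Fintype.card ι) * QI g I y) :=
        mul_le_mul_of_nonneg_left (h2.trans (Finset.sum_le_sum h3)) hW
    _ = (Wt g I T * ∏ τ ∈ E0, (1 + 1 / g τ.1)) *
        ((2 * 4 ^ (Fintype.card ι)) ^ (#T) * QI g I y) := by
        rw [Finset.sum_const, Finset.card_powerset, h4, nsmul_eq_mul, mul_pow, ← pow_mul,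
          mul_comm (Fintype.card ι)]
        push_cast
        ring
    _ ≤ Real.exp ((#I : ℝ) ^ 2 * ∑ q, 1 / (g q) ^ 2) *
        ((2 * 4 ^ (Fintype.card ι)) ^ (#T) * QI g I y) := by
        refine mul_le_mul_of_nonneg_right ?_ (by positivity)
        exact Wt_prod_le g hg I T
    _ = _ := by ring

/-! ### The lower bound -/

theorem BB_none (g : Q → ℝ) (hg : ∀ q, 1 ≤ g q) (I : Finset ι) (y : Finset (Q × ι) → ℝ) :
    BB g I (fun Y => (AA g y Y) ^ 2) (fun _ => none) =
      Wt g I ∅ * ∑ f ∈ univ.filter (fun f : Q → Option ι => gr f ⊆ EI Q I),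
        (1 / gU g (gr f)) * (AA g y (gr f)) ^ 2 := by
  unfold BB
  rw [← Finset.sum_filter_add_sum_filter_not univ (fun f : Q → Option ι => gr f ⊆ EI Q I)]
  have h1 : ∑ f ∈ univ.filter (fun f : Q → Option ι => ¬ gr f ⊆ EI Q I),
      (∏ q, kap g I q none (f q)) * (AA g y (gr f)) ^ 2 = 0 := by
    refine Finset.sum_eq_zero (fun f hf => ?_)
    rw [Finset.mem_filter] at hf
    obtain ⟨τ, hτ, hτ'⟩ := Finset.not_subset.mp hf.2
    rw [mem_gr] at hτ
    have h2 : τ.2 ∉ I := by simpa [EI] using hτ'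
    rw [Finset.prod_eq_zero (Finset.mem_univ τ.1), zero_mul]
    rw [hτ]
    simp [kap, alpha, h2]
  rw [h1, add_zero, Finset.mul_sum]
  refine Finset.sum_congr rfl (fun f hf => ?_)
  rw [Finset.mem_filter] at hf
  rw [← mul_assoc]
  congr 1
  have h5 : ∀ q ∈ (univ : Finset Q), kap g I q none (f q) =
      (g q / (g q + #I)) * ∏ i : ι, (if f q = some i then 1 / g q else 1) := by
    intro q _
    have hq1 := hg q
    have hq0 : 0 < g q := by linarith
    rcases h7 : f q with _ | i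
    · simp [kap]
    · have hi : i ∈ I := by
        have : (q, i) ∈ EI Q I := hf.2 ((mem_gr f (q, i)).mpr h7)
        simpa [EI] using this
      simp only [kap, alpha, if_pos hi]
      have h8 : ∏ j : ι, (if some i = some j then 1 / g q else 1) = 1 / g q := by
        have h9 : ∀ j : ι, (if some i = some j then 1 / g q else 1) =
            if i = j then 1 / g q else 1 := by
          intro j
          simp
        rw [Finset.prod_congr rfl (fun j _ => h9 j), Finset.prod_ite_eq univ i]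
        simp
      rw [h8]
      field_simp
  rw [Finset.prod_congr rfl h5, Finset.prod_mul_distrib]
  unfold Wt
  rw [Finset.compl_empty]
  congr 1
  rw [← Finset.prod_product' (s := (univ : Finset Q)) (t := (univ : Finset ι))
    (f := fun q i => (if f q = some i then 1 / g q else 1))]
  unfold gU gr
  rw [one_div, ← Finset.prod_inv_distrib, Finset.univ_product_univ, Finset.prod_filter]
  simp

theorem not_image (I : Finset ι) (Y : Finset (Q × ι)) (hY : Y ⊆ EI Q I)
    (hno : ∀ f : Q → Option ι, gr f ≠ Y) :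
    ∃ q : Q, ∃ i ∈ I, ∃ j ∈ I, i ≠ j ∧ (q, i) ∈ Y ∧ (q, j) ∈ Y := by
  by_contra hcon
  push Not at hcon
  classical
  let f : Q → Option ι := fun q => if h : ∃ i, (q, i) ∈ Y then some h.choose else none
  apply hno f
  ext τ
  rw [mem_gr]
  constructor
  · intro h
    by_cases h1 : ∃ i, (τ.1, i) ∈ Y
    · simp only [f, dif_pos h1] at h
      have h2 := h1.choose_spec
      rw [Option.some.inj h] at h2
      exact h2
    · simp only [f, dif_neg h1] at h
      exact absurd h (by simp)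
  · intro h
    have h1 : ∃ i, (τ.1, i) ∈ Y := ⟨τ.2, h⟩
    simp only [f, dif_pos h1]
    have h2 := h1.choose_spec
    have h3 : h1.choose ∈ I := by simpa [EI] using hY h2
    have h4 : τ.2 ∈ I := by simpa [EI] using hY h
    by_contra h5
    refine hcon τ.1 h1.choose h3 τ.2 h4 ?_ h2 h
    intro h6
    exact h5 (by rw [h6])

theorem pair_bound (g : Q → ℝ) (hg : ∀ q, 1 ≤ g q) (I : Finset ι) (y : Finset (Q × ι) → ℝ)
    (hy : ∀ U, 0 ≤ y U) (hanti : ∀ U V, U ⊆ V → y V ≤ y U) (q : Q) (i j : ι)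
    (hi : i ∈ I) (hj : j ∈ I) (hij : i ≠ j) :
    ∑ Y ∈ (EI Q I).powerset.filter (fun Y => (q, i) ∈ Y ∧ (q, j) ∈ Y),
      (1 / gU g Y) * (AA g y Y) ^ 2 ≤
    (1 / (g q) ^ 2) * (16 * ((∏ τ ∈ EI Q I, (1 + 1 / g τ.1)) * QI g I y)) := by
  set a : Finset (Q × ι) := {(q, i), (q, j)} with ha
  have hne : (q, i) ≠ (q, j) := by
    intro h
    exact hij (Prod.mk.inj h).2
  have haE : a ⊆ EI Q I := by
    rw [ha]
    intro τ hτ
    simp only [Finset.mem_insert, Finset.mem_singleton] at hτ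
    rcases hτ with rfl | rfl <;> simp [EI, hi, hj]
  set E0 := EI Q I \ a with hE0
  have hdisj : Disjoint E0 a := Finset.sdiff_disjoint
  have hcard : #a = 2 := by
    rw [ha]
    exact Finset.card_pair hne
  have hga : gU g a = (g q) ^ 2 := by
    unfold gU
    rw [ha, Finset.prod_pair hne, sq]
  -- reparametrise
  have h1 : ∑ Y ∈ (EI Q I).powerset.filter (fun Y => (q, i) ∈ Y ∧ (q, j) ∈ Y),
      (1 / gU g Y) * (AA g y Y) ^ 2 =
      ∑ Y0 ∈ E0.powerset, (1 / gU g (Y0 ∪ a)) * (AA g y (Y0 ∪ a)) ^ 2 := by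
    refine Finset.sum_nbij' (fun Y => Y \ a) (fun Y0 => Y0 ∪ a) ?_ ?_ ?_ ?_ ?_
    · intro Y hY
      rw [Finset.mem_filter, Finset.mem_powerset] at hY
      rw [Finset.mem_powerset]
      exact Finset.sdiff_subset_sdiff hY.1 (Finset.Subset.refl a)
    · intro Y0 hY0
      rw [Finset.mem_powerset] at hY0
      rw [Finset.mem_filter, Finset.mem_powerset]
      refine ⟨Finset.union_subset (hY0.trans Finset.sdiff_subset) haE, ?_, ?_⟩
      · rw [Finset.mem_union]
        right
        rw [ha]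
        simp
      · rw [Finset.mem_union]
        right
        rw [ha]
        simp
    · intro Y hY
      rw [Finset.mem_filter, Finset.mem_powerset] at hY
      refine Finset.sdiff_union_of_subset ?_
      rw [ha]
      intro τ hτ
      simp only [Finset.mem_insert, Finset.mem_singleton] at hτ
      rcases hτ with rfl | rfl
      · exact hY.2.1
      · exact hY.2.2
    · intro Y0 hY0
      rw [Finset.mem_powerset] at hY0
      change (Y0 ∪ a) \ a = Y0
      rw [Finset.union_sdiff_right]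
      exact Finset.sdiff_eq_self_of_disjoint (Finset.disjoint_of_subset_left hY0 hdisj)
    · intro Y hY
      rw [Finset.mem_filter, Finset.mem_powerset] at hY
      have h2 : Y \ a ∪ a = Y := by
        refine Finset.sdiff_union_of_subset ?_
        rw [ha]
        intro τ hτ
        simp only [Finset.mem_insert, Finset.mem_singleton] at hτ
        rcases hτ with rfl | rfl
        · exact hY.2.1
        · exact hY.2.2
      rw [h2]
  have h2 : ∀ Y0 ∈ E0.powerset, (1 / gU g (Y0 ∪ a)) * (AA g y (Y0 ∪ a)) ^ 2 =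
      (1 / (g q) ^ 2) * ((1 / gU g Y0) * (AA g y (Y0 ∪ a)) ^ 2) := by
    intro Y0 hY0
    rw [Finset.mem_powerset] at hY0
    have h3 : gU g (Y0 ∪ a) = gU g Y0 * gU g a := by
      unfold gU
      exact Finset.prod_union (Finset.disjoint_of_subset_left hY0 hdisj)
    rw [h3, hga]
    have := gU_pos g hg Y0
    have hq := hg q
    field_simp
  rw [h1, Finset.sum_congr rfl h2, ← Finset.mul_sum]
  have hq := hg q
  have hq0 : 0 < g q := by linarith
  refine mul_le_mul_of_nonneg_left ?_ (by positivity)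
  have h3 := master g hg I y hy hanti E0 a a Finset.sdiff_subset
    (by
      intro τ hτ
      rw [Finset.mem_compl]
      exact fun h => (Finset.disjoint_left.mp hdisj h) hτ)
    (by
      intro τ hτ
      rw [Finset.mem_sdiff, hE0, Finset.mem_sdiff, not_and, not_not] at hτ
      exact hτ.2 hτ.1)
    (Finset.Subset.refl a)
  refine h3.trans ?_
  rw [hcard]
  have h4 : ∏ τ ∈ E0, (1 + 1 / g τ.1) ≤ ∏ τ ∈ EI Q I, (1 + 1 / g τ.1) := by
    have h41 : ∀ τ : Q × ι, 1 ≤ 1 + 1 / g τ.1 := by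
      intro τ
      have := hg τ.1
      have h5 : 0 ≤ 1 / g τ.1 := by positivity
      linarith
    have h42 : 0 ≤ ∏ τ ∈ E0, (1 + 1 / g τ.1) :=
      Finset.prod_nonneg (fun τ _ => zero_le_one.trans (h41 τ))
    have h43 : 1 ≤ ∏ τ ∈ EI Q I \ E0, (1 + 1 / g τ.1) := by
      calc (1 : ℝ) = ∏ τ ∈ EI Q I \ E0, (1 : ℝ) := by simp
        _ ≤ _ := Finset.prod_le_prod (fun _ _ => zero_le_one) (fun τ _ => h41 τ)
    rw [← Finset.prod_sdiff (s₁ := E0) (s₂ := EI Q I) Finset.sdiff_subset]
    calc ∏ τ ∈ E0, (1 + 1 / g τ.1) = 1 * ∏ τ ∈ E0, (1 + 1 / g τ.1) := (one_mul _).symm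
      _ ≤ _ := mul_le_mul_of_nonneg_right h43 h42
  have h5 := QI_nonneg g hg I y
  calc (∏ τ ∈ E0, (1 + 1 / g τ.1)) * (4 ^ 2 * QI g I y) ≤
      (∏ τ ∈ EI Q I, (1 + 1 / g τ.1)) * (4 ^ 2 * QI g I y) :=
        mul_le_mul_of_nonneg_right h4 (by positivity)
    _ = _ := by ring

theorem sum_biUnion_le' {α β : Type} [DecidableEq α] [DecidableEq β] (s : Finset β)
    (t : β → Finset α) (f : α → ℝ) (hf : ∀ x, 0 ≤ f x) :
    ∑ x ∈ s.biUnion t, f x ≤ ∑ b ∈ s, ∑ x ∈ t b, f x := by
  induction s using Finset.induction_on with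
  | empty => simp
  | insert a s ha ih =>
    rw [Finset.biUnion_insert, Finset.sum_insert ha]
    have h1 := Finset.sum_union_inter (s₁ := t a) (s₂ := s.biUnion t) (f := f)
    have h2 : 0 ≤ ∑ x ∈ t a ∩ s.biUnion t, f x := Finset.sum_nonneg (fun x _ => hf x)
    linarith

theorem lower : LowerStatement := by
  intro Q ι _ _ _ _ g hg I y hy hanti
  rw [BB_none g hg]
  have hQ := QI_nonneg g hg I y
  have hW := Wt_nonneg g hg I (∅ : Finset Q)
  by_cases hneg : 1 - 16 * (#I : ℝ) ^ 2 * ∑ q, 1 / (g q) ^ 2 ≤ 0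
  · refine (mul_nonpos_of_nonpos_of_nonneg hneg hQ).trans ?_
    refine mul_nonneg hW (Finset.sum_nonneg (fun f _ => ?_))
    have := gU_pos g hg (gr f)
    positivity
  push Not at hneg
  set Z : ℝ := ∏ τ ∈ EI Q I, (1 + 1 / g τ.1) with hZ
  -- the sum over all `Y`
  set S : Finset (Finset (Q × ι)) :=
    (univ.filter (fun f : Q → Option ι => gr f ⊆ EI Q I)).image gr with hS
  have h1 : ∑ f ∈ univ.filter (fun f : Q → Option ι => gr f ⊆ EI Q I),
      (1 / gU g (gr f)) * (AA g y (gr f)) ^ 2 =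
      ∑ Y ∈ S, (1 / gU g Y) * (AA g y Y) ^ 2 := by
    rw [hS]
    exact (Finset.sum_image (f := fun Y => (1 / gU g Y) * (AA g y Y) ^ 2)
      (fun f _ f' _ h => gr_injective h)).symm
  have hSsub : S ⊆ (EI Q I).powerset := by
    intro Y hY
    rw [hS, Finset.mem_image] at hY
    obtain ⟨f, hf, rfl⟩ := hY
    rw [Finset.mem_filter] at hf
    exact Finset.mem_powerset.mpr hf.2
  have hnn : ∀ Y : Finset (Q × ι), 0 ≤ (1 / gU g Y) * (AA g y Y) ^ 2 := by
    intro Y
    have := gU_pos g hg Y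
    positivity
  have h2 : ∑ Y ∈ (EI Q I).powerset \ S, (1 / gU g Y) * (AA g y Y) ^ 2 ≤
      ∑ q : Q, ∑ p ∈ (I ×ˢ I).filter (fun p => p.1 ≠ p.2),
        ∑ Y ∈ (EI Q I).powerset.filter (fun Y => (q, p.1) ∈ Y ∧ (q, p.2) ∈ Y),
          (1 / gU g Y) * (AA g y Y) ^ 2 := by
    have h3 : (EI Q I).powerset \ S ⊆ (univ : Finset Q).biUnion (fun q =>
        ((I ×ˢ I).filter (fun p => p.1 ≠ p.2)).biUnion (fun p =>
          (EI Q I).powerset.filter (fun Y => (q, p.1) ∈ Y ∧ (q, p.2) ∈ Y))) := by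
      intro Y hY
      rw [Finset.mem_sdiff, Finset.mem_powerset] at hY
      have h4 : ∀ f : Q → Option ι, gr f ≠ Y := by
        intro f hf
        apply hY.2
        rw [hS, Finset.mem_image]
        refine ⟨f, ?_, hf⟩
        rw [Finset.mem_filter]
        exact ⟨Finset.mem_univ _, by rw [hf]; exact hY.1⟩
      obtain ⟨q, i, hi, j, hj, hij, hqi, hqj⟩ := not_image I Y hY.1 h4
      rw [Finset.mem_biUnion]
      refine ⟨q, Finset.mem_univ _, ?_⟩
      rw [Finset.mem_biUnion]
      refine ⟨(i, j), ?_, ?_⟩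
      · rw [Finset.mem_filter, Finset.mem_product]
        exact ⟨⟨hi, hj⟩, hij⟩
      · rw [Finset.mem_filter, Finset.mem_powerset]
        exact ⟨hY.1, hqi, hqj⟩
    refine (Finset.sum_le_sum_of_subset_of_nonneg h3 (fun Y _ _ => hnn Y)).trans ?_
    refine (sum_biUnion_le' univ _ _ (fun Y => hnn Y)).trans ?_
    exact Finset.sum_le_sum (fun q _ =>
      sum_biUnion_le' _ _ _ (fun Y => hnn Y))
  have h3 : ∑ q : Q, ∑ p ∈ (I ×ˢ I).filter (fun p => p.1 ≠ p.2),
        ∑ Y ∈ (EI Q I).powerset.filter (fun Y => (q, p.1) ∈ Y ∧ (q, p.2) ∈ Y),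
          (1 / gU g Y) * (AA g y Y) ^ 2 ≤
      (16 * (#I : ℝ) ^ 2 * ∑ q, 1 / (g q) ^ 2) * (Z * QI g I y) := by
    have hZ0 : 0 ≤ Z := Finset.prod_nonneg (fun τ _ => by have := hg τ.1; positivity)
    calc ∑ q : Q, ∑ p ∈ (I ×ˢ I).filter (fun p => p.1 ≠ p.2),
        ∑ Y ∈ (EI Q I).powerset.filter (fun Y => (q, p.1) ∈ Y ∧ (q, p.2) ∈ Y),
          (1 / gU g Y) * (AA g y Y) ^ 2 ≤
        ∑ q : Q, ∑ p ∈ (I ×ˢ I).filter (fun p => p.1 ≠ p.2),
          (1 / (g q) ^ 2) * (16 * (Z * QI g I y)) := by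
          refine Finset.sum_le_sum (fun q _ => Finset.sum_le_sum (fun p hp => ?_))
          rw [Finset.mem_filter, Finset.mem_product] at hp
          exact pair_bound g hg I y hy hanti q p.1 p.2 hp.1.1 hp.1.2 hp.2
      _ ≤ ∑ q : Q, (#I : ℝ) ^ 2 * ((1 / (g q) ^ 2) * (16 * (Z * QI g I y))) := by
          refine Finset.sum_le_sum (fun q _ => ?_)
          rw [Finset.sum_const, nsmul_eq_mul]
          have hq := hg q
          have hq0 : 0 < g q := by linarith
          refine mul_le_mul_of_nonneg_right ?_ (by positivity)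
          calc ((#((I ×ˢ I).filter (fun p => p.1 ≠ p.2)) : ℕ) : ℝ) ≤ (#(I ×ˢ I) : ℕ) := by
                exact_mod_cast Finset.card_filter_le _ _
            _ = (#I : ℝ) ^ 2 := by
                rw [Finset.card_product]
                push_cast
                ring
      _ = _ := by
          rw [Finset.mul_sum, Finset.sum_mul]
          refine Finset.sum_congr rfl (fun q _ => ?_)
          ring
  have h4 : ∑ Y ∈ S, (1 / gU g Y) * (AA g y Y) ^ 2 =
      Z * QI g I y - ∑ Y ∈ (EI Q I).powerset \ S, (1 / gU g Y) * (AA g y Y) ^ 2 := by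
    rw [hZ, ← master_eq g hg I y, ← Finset.sum_sdiff hSsub]
    ring
  have h5 : (1 - 16 * (#I : ℝ) ^ 2 * ∑ q, 1 / (g q) ^ 2) * (Z * QI g I y) ≤
      ∑ Y ∈ S, (1 / gU g Y) * (AA g y Y) ^ 2 := by
    rw [h4]
    linarith [h2.trans h3]
  -- the normalising constants
  have h6 : 1 ≤ Wt g I (∅ : Finset Q) * Z := by
    have h7 : Z = ∏ q : Q, (1 + 1 / g q) ^ (#I) := by
      have h8 : EI Q I = E0T I (∅ : Finset Q) := by
        ext τ
        simp [EI, E0T]
      rw [hZ, h8, prod_E0T, Finset.compl_empty]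
    rw [h7]
    unfold Wt
    rw [Finset.compl_empty, ← Finset.prod_mul_distrib]
    calc (1 : ℝ) = ∏ q : Q, (1 : ℝ) := by simp
      _ ≤ _ := by
        refine Finset.prod_le_prod (fun _ _ => zero_le_one) (fun q _ => ?_)
        have hq := hg q
        have hq0 : 0 < g q := by linarith
        have h9 : 1 + (#I : ℝ) * (1 / g q) ≤ (1 + 1 / g q) ^ (#I) :=
          one_add_mul_le_pow (by have : 0 ≤ 1 / g q := by positivity
                                 linarith) _
        calc (1 : ℝ) = g q / (g q + #I) * (1 + #I * (1 / g q)) := by field_simp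
          _ ≤ _ := mul_le_mul_of_nonneg_left h9 (by positivity)
  rw [h1]
  calc (1 - 16 * (#I : ℝ) ^ 2 * ∑ q, 1 / (g q) ^ 2) * QI g I y =
      1 * ((1 - 16 * (#I : ℝ) ^ 2 * ∑ q, 1 / (g q) ^ 2) * QI g I y) := (one_mul _).symm
    _ ≤ (Wt g I (∅ : Finset Q) * Z) *
        ((1 - 16 * (#I : ℝ) ^ 2 * ∑ q, 1 / (g q) ^ 2) * QI g I y) :=
        mul_le_mul_of_nonneg_right h6 (mul_nonneg hneg.le hQ)
    _ = Wt g I (∅ : Finset Q) *
        ((1 - 16 * (#I : ℝ) ^ 2 * ∑ q, 1 / (g q) ^ 2) * (Z * QI g I y)) := by ring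
    _ ≤ _ := mul_le_mul_of_nonneg_left h5 hW

end Bounds

end Pool.Agent.Helper11.MT
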