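import Mathlib

/-!
Definitions for the Boolean-lattice sieve.  `Q` is the finite type of sifting primes,
`ι` the finite type of linear forms, `g : Q → ℝ` the weights.
-/

open Finset

namespace Pool.Agent.Helper11.MT

variable {Q ι : Type} [Fintype Q] [DecidableEq Q] [Fintype ι] [DecidableEq ι]

/-- The graph of a partial function. -/
def gr (f : Q → Option ι) : Finset (Q × ι) := univ.filter (fun τ => f τ.1 = some τ.2)

/-- The product of the weights. -/
noncomputable def gU (g : Q → ℝ) (U : Finset (Q × ι)) : ℝ := ∏ τ ∈ U, g τ.1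

/-- The orthogonal functions. -/
noncomputable def eU (g : Q → ℝ) (U Y : Finset (Q × ι)) : ℝ :=
  ∏ τ ∈ U, (if τ ∈ Y then -1 else 1 / g τ.1)

/-- The sieve function with coefficients `y`. -/
noncomputable def AA (g : Q → ℝ) (y : Finset (Q × ι) → ℝ) (Y : Finset (Q × ι)) : ℝ :=
  ∑ U : Finset (Q × ι), y U * eU g U Y

/-- The pairs with second component in `I`. -/
def EI (Q : Type) [Fintype Q] (I : Finset ι) : Finset (Q × ι) := univ.filter (fun τ => τ.2 ∈ I)

/-- The coefficients of the restriction to `EI Q I`. -/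
noncomputable def yI (g : Q → ℝ) (I : Finset ι) (y : Finset (Q × ι) → ℝ) (U : Finset (Q × ι)) : ℝ :=
  ∑ V ∈ (univ.filter (fun τ : Q × ι => τ.2 ∉ I)).powerset, y (U ∪ V) / gU g V

/-- The quadratic form. -/
noncomputable def QI (g : Q → ℝ) (I : Finset ι) (y : Finset (Q × ι) → ℝ) : ℝ :=
  ∑ U ∈ (EI Q I).powerset, (yI g I y U) ^ 2 / gU g U

/-- The exact probabilities. -/
noncomputable def alpha (g : Q → ℝ) (I : Finset ι) (q : Q) (i : ι) : ℝ :=
  if i ∈ I then 1 / (g q + #I) else 0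

/-- The coefficient kernel. -/
noncomputable def kap (g : Q → ℝ) (I : Finset ι) (q : Q) : Option ι → Option ι → ℝ
  | none, none => g q / (g q + #I)
  | none, some i => alpha g I q i
  | some i, o => (if o = some i then 1 else 0) - (if o = none then 1 else 0)

/-- The basis functions. -/
noncomputable def bas (g : Q → ℝ) (I : Finset ι) (q : Q) : Option ι → Option ι → ℝ
  | none, _ => 1
  | some i, o => (if o = some i then 1 else 0) - alpha g I q i

/-- The coefficients in the expansion of `G ∘ gr`. -/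
noncomputable def BB (g : Q → ℝ) (I : Finset ι) (G : Finset (Q × ι) → ℝ) (s : Q → Option ι) : ℝ :=
  ∑ f : Q → Option ι, (∏ q, kap g I q (s q) (f q)) * G (gr f)

/-- The support of a partial function. -/
def supp (s : Q → Option ι) : Finset Q := univ.filter (fun q => s q ≠ none)

/-- Expansion of a function of the graph. -/
def ExpansionStatement : Prop :=
  ∀ (Q ι : Type) [Fintype Q] [DecidableEq Q] [Fintype ι] [DecidableEq ι]
    (g : Q → ℝ), (∀ q, 1 ≤ g q) → ∀ (I : Finset ι) (G : Finset (Q × ι) → ℝ) (f : Q → Option ι),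
    G (gr f) = ∑ s : Q → Option ι, BB g I G s * ∏ q, bas g I q (s q) (f q)

/-- Upper bound for the coefficients, `y` nonnegative and antitone. -/
def UpperStatement : Prop :=
  ∀ (Q ι : Type) [Fintype Q] [DecidableEq Q] [Fintype ι] [DecidableEq ι]
    (g : Q → ℝ), (∀ q, 1 ≤ g q) → ∀ (I : Finset ι) (y : Finset (Q × ι) → ℝ),
    (∀ U, 0 ≤ y U) → (∀ U V, U ⊆ V → y V ≤ y U) → ∀ (s : Q → Option ι),
    |BB g I (fun Y => (AA g y Y) ^ 2) s| ≤
      Real.exp ((#I : ℝ) ^ 2 * ∑ q, 1 / (g q) ^ 2) *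
        (2 * 4 ^ (Fintype.card ι)) ^ (#(supp s)) * QI g I y

/-- Lower bound for the main coefficient, `y` nonnegative and antitone. -/
def LowerStatement : Prop :=
  ∀ (Q ι : Type) [Fintype Q] [DecidableEq Q] [Fintype ι] [DecidableEq ι]
    (g : Q → ℝ), (∀ q, 1 ≤ g q) → ∀ (I : Finset ι) (y : Finset (Q × ι) → ℝ),
    (∀ U, 0 ≤ y U) → (∀ U V, U ⊆ V → y V ≤ y U) →
    (1 - 16 * (#I : ℝ) ^ 2 * ∑ q, 1 / (g q) ^ 2) * QI g I y ≤
      BB g I (fun Y => (AA g y Y) ^ 2) (fun _ => none)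

/-- Support of the coefficients. -/
def SupportStatement : Prop :=
  ∀ (Q ι : Type) [Fintype Q] [DecidableEq Q] [Fintype ι] [DecidableEq ι]
    (g : Q → ℝ), (∀ q, 1 ≤ g q) → ∀ (I : Finset ι) (y : Finset (Q × ι) → ℝ)
    (pr : Q → ℕ), (∀ q, 1 ≤ pr q) → ∀ R : ℕ, (∀ U, R < ∏ τ ∈ U, pr τ.1 → y U = 0) →
    ∀ (s : Q → Option ι), R ^ 2 < ∏ q ∈ supp s, pr q →
      BB g I (fun Y => (AA g y Y) ^ 2) s = 0

/-- Divisor-sum form with crude bounds. -/
def LambdaStatement : Prop :=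
  ∀ (Q ι : Type) [Fintype Q] [DecidableEq Q] [Fintype ι] [DecidableEq ι]
    (g : Q → ℝ), (∀ q, 1 ≤ g q) → ∀ (y : Finset (Q × ι) → ℝ) (pr : Q → ℕ),
    (∀ q, g q + 1 ≤ pr q) → ∀ R : ℕ, (∀ U, |y U| ≤ 1) → (∀ U, R < ∏ τ ∈ U, pr τ.1 → y U = 0) →
    ∃ lam : Finset (Q × ι) → ℝ, (∀ Y, AA g y Y = ∑ D ∈ Y.powerset, lam D) ∧
      (∀ D, R < ∏ τ ∈ D, pr τ.1 → lam D = 0) ∧
      ∑ D, |lam D| ≤ (R : ℝ) ^ 5 *
        Real.exp (2 * Fintype.card ι * ∑ q, 1 / (pr q : ℝ) ^ 2)

end Pool.Agent.Helper11.MT
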