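import Mathlib
import Pool.Agent.Helper11.MT.Statement
import Pool.Agent.Helper11.MT.LatticeDefs
import Pool.Agent.Helper11.MT.Kernel2
import Pool.Agent.Helper11.MT.Family

/-!
The first sieve sum.
-/

open Finset

namespace Pool.Agent.Helper11.MT

section abstract

variable {Q ι : Type} [Fintype Q] [DecidableEq Q] [Fintype ι] [DecidableEq ι]

/-- No two elements with the same first component. -/
def IsPar (C : Finset (Q × ι)) : Prop := ∀ τ ∈ C, ∀ σ ∈ C, τ.1 = σ.1 → τ = σ

instance instDecIsPar (C : Finset (Q × ι)) : Decidable (IsPar C) := by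
  unfold IsPar; infer_instance

lemma sum_kap_none (g : Q → ℝ) (hg : ∀ q, 1 ≤ g q) (I : Finset ι) (q : Q) :
    ∑ o, kap g I q none o = 1 := by
  have h0 : 0 < g q + #I := by have := hg q; positivity
  rw [Fintype.sum_option]
  have h1 : ∑ i : ι, kap g I q none (some i) = #I * (1 / (g q + #I)) := by
    simp only [kap, alpha]
    rw [← Finset.sum_filter, Finset.sum_const, nsmul_eq_mul, Finset.filter_mem_eq_inter,
      Finset.univ_inter]
  rw [h1]
  simp only [kap]
  field_simp

/-- The probability that `C` is contained in the random graph. -/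
lemma prob_subset (g : Q → ℝ) (hg : ∀ q, 1 ≤ g q) (C : Finset (Q × ι)) :
    ∑ f : Q → Option ι, (∏ q, kap g univ q none (f q)) * (if C ⊆ gr f then (1 : ℝ) else 0) =
      if IsPar C then ∏ τ ∈ C, 1 / (g τ.1 + Fintype.card ι) else 0 := by
  classical
  have h1 : ∀ f : Q → Option ι, (∏ q, kap g univ q none (f q)) * (if C ⊆ gr f then (1 : ℝ) else 0) =
      ∏ q, (kap g univ q none (f q) * (if ∀ i, (q, i) ∈ C → f q = some i then (1 : ℝ) else 0)) := by
    intro f
    rw [Finset.prod_mul_distrib]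
    congr 1
    by_cases hC : C ⊆ gr f
    · rw [if_pos hC]
      symm
      refine Finset.prod_eq_one fun q _ => ?_
      rw [if_pos]
      intro i hi
      have := hC hi
      unfold gr at this
      rw [Finset.mem_filter] at this
      exact this.2
    · rw [if_neg hC]
      symm
      rw [Finset.not_subset] at hC
      obtain ⟨τ, hτ, hτ2⟩ := hC
      refine Finset.prod_eq_zero (Finset.mem_univ τ.1) ?_
      rw [if_neg]
      intro hcon
      apply hτ2
      unfold gr
      rw [Finset.mem_filter]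
      exact ⟨Finset.mem_univ _, hcon τ.2 hτ⟩
  rw [Finset.sum_congr rfl (fun f _ => h1 f)]
  refine (Fintype.prod_sum (fun (q : Q) (o : Option ι) => kap g univ q none o *
    (if ∀ i, (q, i) ∈ C → o = some i then (1 : ℝ) else 0))).symm.trans ?_
  split_ifs with hpar
  · have h2 : ∀ q : Q, ∑ o, kap g univ q none o *
        (if ∀ i, (q, i) ∈ C → o = some i then (1 : ℝ) else 0) =
        ∏ τ ∈ C.filter (fun τ => τ.1 = q), 1 / (g τ.1 + Fintype.card ι) := by
      intro q
      by_cases hq : ∃ i, (q, i) ∈ C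
      · obtain ⟨i, hi⟩ := hq
        have h3 : C.filter (fun τ => τ.1 = q) = {(q, i)} := by
          ext τ
          rw [Finset.mem_filter, Finset.mem_singleton]
          constructor
          · rintro ⟨h4, h5⟩
            exact hpar τ h4 (q, i) hi h5
          · rintro rfl
            exact ⟨hi, rfl⟩
        rw [h3, Finset.prod_singleton, Finset.sum_eq_single (some i)]
        · rw [if_pos, mul_one]
          · simp [kap, alpha]
          · intro j hj
            have := hpar (q, j) hj (q, i) hi rfl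
            rw [Prod.mk.injEq] at this
            rw [this.2]
        · intro o _ ho
          rw [if_neg, mul_zero]
          intro hcon
          exact ho (hcon i hi)
        · intro hcon
          exact absurd (Finset.mem_univ _) hcon
      · push Not at hq
        have h3 : C.filter (fun τ => τ.1 = q) = ∅ := by
          rw [Finset.filter_eq_empty_iff]
          intro τ hτ h4
          apply hq τ.2
          rw [← h4]
          exact hτ
        rw [h3, Finset.prod_empty]
        refine Eq.trans ?_ (sum_kap_none g hg (univ : Finset ι) q)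
        refine Finset.sum_congr rfl fun o _ => ?_
        rw [if_pos, mul_one]
        intro i hi
        exact absurd hi (hq i)
    rw [Finset.prod_congr rfl (fun q _ => h2 q)]
    exact Finset.prod_fiberwise C (fun τ : Q × ι => τ.1)
      (fun τ : Q × ι => 1 / (g τ.1 + (Fintype.card ι : ℝ)))
  · unfold IsPar at hpar
    push Not at hpar
    obtain ⟨τ, hτ, σ, hσ, h1, h2⟩ := hpar
    refine Finset.prod_eq_zero (Finset.mem_univ τ.1) ?_
    refine Finset.sum_eq_zero fun o _ => ?_
    rw [if_neg, mul_zero]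
    intro hcon
    have h3 := hcon τ.2 hτ
    have h4 := hcon σ.2 (by rw [h1]; exact hσ)
    rw [h3] at h4
    exact h2 (Prod.ext h1 (Option.some.inj h4))

end abstract

/-- The pairs `(q, i)` with `q ∣ m + h i`. -/
def Ymap {W R k : ℕ} (h : Fin k → ℕ) (m : ℕ) : Finset (QT W R × Fin k) :=
  univ.filter (fun τ => (τ.1 : ℕ) ∣ m + h τ.2)

lemma mem_Ymap {W R k : ℕ} {h : Fin k → ℕ} {m : ℕ} {τ : QT W R × Fin k} :
    τ ∈ Ymap h m ↔ (τ.1 : ℕ) ∣ m + h τ.2 := by
  unfold Ymap
  rw [Finset.mem_filter]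
  exact ⟨fun h => h.2, fun h => ⟨Finset.mem_univ _, h⟩⟩

/-- The shifts are distinct modulo all sifting primes. -/
def Distinct (W R : ℕ) {k : ℕ} (h : Fin k → ℕ) : Prop :=
  ∀ p ∈ PR W R, ∀ i j : Fin k, i ≠ j → ¬ h i ≡ h j [MOD p]

lemma isPar_of_subset_Ymap {W R k : ℕ} {h : Fin k → ℕ} (hd : Distinct W R h) {m : ℕ}
    {C : Finset (QT W R × Fin k)} (hC : C ⊆ Ymap h m) : IsPar C := by
  intro τ hτ σ hσ heq
  have h1 := mem_Ymap.mp (hC hτ)
  have h2 := mem_Ymap.mp (hC hσ)
  rw [← heq] at h2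
  by_contra hne
  have hij : τ.2 ≠ σ.2 := fun h => hne (Prod.ext heq h)
  apply hd τ.1 τ.1.2 τ.2 σ.2 hij
  have h3 : m + h τ.2 ≡ m + h σ.2 [MOD (τ.1 : ℕ)] :=
    ((Nat.modEq_zero_iff_dvd).mpr h1).trans ((Nat.modEq_zero_iff_dvd).mpr h2).symm
  exact Nat.ModEq.add_left_cancel' m h3

lemma qt_prime {W R : ℕ} (q : QT W R) : (q : ℕ).Prime := (mem_PR.mp q.2).2.1

lemma qt_not_dvd {W R : ℕ} (q : QT W R) : ¬ (q : ℕ) ∣ W := (mem_PR.mp q.2).2.2

lemma coprime_nn {W R k : ℕ} {C : Finset (QT W R × Fin k)} {q : QT W R}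
    (hq : ∀ τ ∈ C, τ.1 ≠ q) : Nat.Coprime (W * nn C) q := by
  refine Nat.Coprime.mul_left ?_ ?_
  · exact (((qt_prime q).coprime_iff_not_dvd).mpr (qt_not_dvd q)).symm
  · unfold nn
    refine Nat.Coprime.prod_left fun τ hτ => ?_
    refine (Nat.coprime_primes (qt_prime τ.1) (qt_prime q)).mpr fun h => ?_
    exact hq τ hτ (Subtype.ext h)

/-- The joint congruence conditions form one residue class. -/
lemma exists_class {W R k : ℕ} (h : Fin k → ℕ) (v : ℕ) (C : Finset (QT W R × Fin k))
    (hC : IsPar C) : ∃ a, ∀ m, (m ≡ v [MOD W] ∧ C ⊆ Ymap h m) ↔ m ≡ a [MOD (W * nn C)] := by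
  induction C using Finset.induction_on with
  | empty =>
    refine ⟨v, fun m => ?_⟩
    simp [nn]
  | insert τ C hτ ih =>
    obtain ⟨a0, ha0⟩ := ih (fun σ hσ ρ hρ => hC σ (Finset.mem_insert_of_mem hσ) ρ
      (Finset.mem_insert_of_mem hρ))
    have hcop : Nat.Coprime (W * nn C) τ.1 := by
      refine coprime_nn fun σ hσ heq => ?_
      have := hC σ (Finset.mem_insert_of_mem hσ) τ (Finset.mem_insert_self _ _) heq
      rw [this] at hσ
      exact hτ hσ
    obtain ⟨a, ha1, ha2⟩ := Nat.chineseRemainder hcop a0 (((τ.1 : ℕ) - 1) * h τ.2)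
    refine ⟨a, fun m => ?_⟩
    have e1 : W * nn (insert τ C) = (W * nn C) * τ.1 := by
      unfold nn
      rw [Finset.prod_insert hτ]
      ring
    rw [e1, ← Nat.modEq_and_modEq_iff_modEq_mul hcop, Finset.insert_subset_iff, mem_Ymap]
    have h2 : (τ.1 : ℕ) ∣ m + h τ.2 ↔ m ≡ a [MOD (τ.1 : ℕ)] := by
      have h3 : (((τ.1 : ℕ) - 1) * h τ.2) + h τ.2 ≡ 0 [MOD (τ.1 : ℕ)] := by
        rw [Nat.modEq_zero_iff_dvd]
        have : (((τ.1 : ℕ) - 1) * h τ.2) + h τ.2 = (τ.1 : ℕ) * h τ.2 := by
          have := (qt_prime τ.1).one_le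
          obtain ⟨c, hc⟩ := Nat.exists_eq_add_of_le this
          rw [hc, Nat.add_sub_cancel_left]
          ring
        rw [this]
        exact dvd_mul_right _ _
      rw [← Nat.modEq_zero_iff_dvd]
      constructor
      · intro h4
        have h5 : m + h τ.2 ≡ (((τ.1 : ℕ) - 1) * h τ.2) + h τ.2 [MOD (τ.1 : ℕ)] := h4.trans h3.symm
        exact (Nat.ModEq.add_right_cancel' _ h5).trans ha2.symm
      · intro h4
        exact ((h4.trans ha2).add_right _).trans h3
    rw [h2]
    constructor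
    · rintro ⟨h3, h4, h5⟩
      exact ⟨((ha0 m).mp ⟨h3, h5⟩).trans ha1.symm, h4⟩
    · rintro ⟨h3, h4⟩
      have := (ha0 m).mpr (h3.trans ha1)
      exact ⟨this.1, h4, this.2⟩

/-- One residue class condition, asymptotically. -/
lemma tsum_class {W R k : ℕ} [NeZero W] {h : Fin k → ℕ} (hd : Distinct W R h) (v : ℕ)
    (C : Finset (QT W R × Fin k)) (J : ℕ) :
    |(∑' m, if m ≡ v [MOD W] ∧ C ⊆ Ymap h m then w J m else 0) -
      (∑' m, w J m) / W * (if IsPar C then 1 / (nn C : ℝ) else 0)| ≤ 4 * ((2 / 3) ^ J * K32) := by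
  split_ifs with hC
  · obtain ⟨a, ha⟩ := exists_class h v C hC
    have hpos : 0 < W * nn C := by
      refine Nat.mul_pos (NeZero.pos W) ?_
      unfold nn
      exact Finset.prod_pos fun τ _ => (qt_prime τ.1).pos
    have h1 := abs_tsum_w_modEq_sub J hpos a
    have e1 : (∑' m, if m ≡ v [MOD W] ∧ C ⊆ Ymap h m then w J m else 0) =
        ∑' m, if m ≡ a [MOD (W * nn C)] then w J m else 0 := by
      refine tsum_congr fun m => ?_
      by_cases h2 : m ≡ a [MOD (W * nn C)]
      · rw [if_pos h2, if_pos ((ha m).mpr h2)]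
      · rw [if_neg h2, if_neg (fun h => h2 ((ha m).mp h))]
    rw [e1]
    have e2 : (∑' m, w J m) / W * (1 / (nn C : ℝ)) = (∑' m, w J m) / ((W * nn C : ℕ) : ℝ) := by
      push_cast
      rw [div_mul_div_comm, mul_one]
    rw [e2]
    exact h1
  · have e1 : (∑' m, if m ≡ v [MOD W] ∧ C ⊆ Ymap h m then w J m else 0) = 0 := by
      rw [tsum_congr (fun m => if_neg (fun h2 => hC (isPar_of_subset_Ymap hd h2.2)))]
      exact tsum_zero
    rw [e1, mul_zero, sub_zero, abs_zero]
    have := K32_nonneg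
    positivity

/-- The sieve weights at the sifting primes. -/
noncomputable def gk (k : ℕ) {W R : ℕ} (q : QT W R) : ℝ := ((q : ℕ) : ℝ) - k

lemma prod_gk {W R k : ℕ} (C : Finset (QT W R × Fin k)) :
    ∏ τ ∈ C, 1 / (gk k τ.1 + Fintype.card (Fin k)) = 1 / (nn C : ℝ) := by
  unfold nn gk
  push_cast
  rw [one_div, ← Finset.prod_inv_distrib]
  refine Finset.prod_congr rfl fun τ _ => ?_
  rw [Fintype.card_fin, sub_add_cancel, one_div]

/-- The squares of divisor sums, expanded. -/
lemma sq_expand {Q ι : Type} [Fintype Q] [DecidableEq Q] [Fintype ι] [DecidableEq ι]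
    {G : Finset (Q × ι) → ℝ} {lam : Finset (Q × ι) → ℝ}
    (hG : ∀ Y, G Y = ∑ D ∈ Y.powerset, lam D) (Y : Finset (Q × ι)) :
    (G Y) ^ 2 = ∑ D, ∑ D', lam D * lam D' * (if D ∪ D' ⊆ Y then 1 else 0) := by
  have h1 : G Y = ∑ D, lam D * (if D ⊆ Y then 1 else 0) := by
    rw [hG]
    simp only [mul_ite, mul_one, mul_zero]
    rw [← Finset.sum_filter]
    refine Finset.sum_congr ?_ fun _ _ => rfl
    ext D
    simp
  rw [pow_two, h1, Finset.sum_mul_sum]
  refine Finset.sum_congr rfl fun D _ => Finset.sum_congr rfl fun D' _ => ?_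
  by_cases h2 : D ⊆ Y
  · by_cases h3 : D' ⊆ Y
    · rw [if_pos h2, if_pos h3, if_pos (Finset.union_subset h2 h3)]
      ring
    · rw [if_neg h3, if_neg (fun h => h3 (Finset.union_subset_iff.mp h).2)]
      ring
  · rw [if_neg h2, if_neg (fun h => h2 (Finset.union_subset_iff.mp h).1)]
    ring

/-- Asymptotic evaluation of the first sieve sum. -/
theorem S1_asymp {W R k : ℕ} [NeZero W] {h : Fin k → ℕ} (hd : Distinct W R h)
    (hk : ∀ q : QT W R, 1 ≤ gk k q) (v : ℕ)
    {G : Finset (QT W R × Fin k) → ℝ} {lam : Finset (QT W R × Fin k) → ℝ}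
    (hG : ∀ Y, G Y = ∑ D ∈ Y.powerset, lam D) (J : ℕ) :
    |(∑' m, if m ≡ v [MOD W] then w J m * (G (Ymap h m)) ^ 2 else 0) -
      (∑' m, w J m) / W * BB (gk k) univ (fun Y => (G Y) ^ 2) (fun _ => none)| ≤
      (∑ D, |lam D|) ^ 2 * (4 * ((2 / 3) ^ J * K32)) := by
  have e1 : (∑' m, if m ≡ v [MOD W] then w J m * (G (Ymap h m)) ^ 2 else 0) =
      ∑ D, ∑ D', lam D * lam D' *
        ∑' m, if m ≡ v [MOD W] ∧ D ∪ D' ⊆ Ymap h m then w J m else 0 := by
    have hs : ∀ D D' : Finset (QT W R × Fin k), Summable fun m => lam D * lam D' *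
        (if m ≡ v [MOD W] ∧ D ∪ D' ⊆ Ymap h m then w J m else 0) := by
      intro D D'
      refine Summable.mul_left _ ?_
      refine Summable.of_nonneg_of_le (fun m => ?_) (fun m => ?_) (summable_w J)
      · split_ifs
        · exact w_nonneg _ _
        · exact le_rfl
      · split_ifs
        · exact le_rfl
        · exact w_nonneg _ _
    have h2 : ∀ m, (if m ≡ v [MOD W] then w J m * (G (Ymap h m)) ^ 2 else 0) =
        ∑ D, ∑ D', lam D * lam D' *
        (if m ≡ v [MOD W] ∧ D ∪ D' ⊆ Ymap h m then w J m else 0) := by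
      intro m
      by_cases hm : m ≡ v [MOD W]
      · rw [if_pos hm, sq_expand hG, Finset.mul_sum]
        refine Finset.sum_congr rfl fun D _ => ?_
        rw [Finset.mul_sum]
        refine Finset.sum_congr rfl fun D' _ => ?_
        by_cases h3 : D ∪ D' ⊆ Ymap h m
        · rw [if_pos h3, if_pos ⟨hm, h3⟩]; ring
        · rw [if_neg h3, if_neg (fun h => h3 h.2)]; ring
      · rw [if_neg hm]
        symm
        refine Finset.sum_eq_zero fun D _ => Finset.sum_eq_zero fun D' _ => ?_
        rw [if_neg (fun h => hm h.1), mul_zero]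
    rw [tsum_congr h2, Summable.tsum_finsetSum (fun D _ => summable_sum fun D' _ => hs D D')]
    refine Finset.sum_congr rfl fun D _ => ?_
    rw [Summable.tsum_finsetSum (fun D' _ => hs D D')]
    refine Finset.sum_congr rfl fun D' _ => ?_
    rw [tsum_mul_left]
  have e2 : BB (gk k) univ (fun Y => (G Y) ^ 2) (fun _ : QT W R => (none : Option (Fin k))) =
      ∑ D, ∑ D', lam D * lam D' *
        (if IsPar (D ∪ D') then 1 / (nn (D ∪ D') : ℝ) else 0) := by
    have h2 : ∀ D D' : Finset (QT W R × Fin k), (if IsPar (D ∪ D') then 1 / (nn (D ∪ D') : ℝ) else 0) =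
        ∑ f : QT W R → Option (Fin k), (∏ q, kap (gk k) univ q none (f q)) *
          (if (D ∪ D') ⊆ gr f then (1 : ℝ) else 0) := by
      intro D D'
      rw [prob_subset (gk k) hk (D ∪ D')]
      split_ifs
      · rw [prod_gk]
      · rfl
    unfold BB
    simp_rw [h2, sq_expand hG, Finset.mul_sum]
    rw [Finset.sum_comm]
    refine Finset.sum_congr rfl fun D _ => ?_
    rw [Finset.sum_comm]
    refine Finset.sum_congr rfl fun D' _ => Finset.sum_congr rfl fun f _ => ?_
    ring
  rw [e1, e2, Finset.mul_sum, ← Finset.sum_sub_distrib]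
  have e3 : (∑ D, |lam D|) ^ 2 * (4 * ((2 / 3) ^ J * K32)) =
      ∑ D, ∑ D', |lam D| * |lam D'| * (4 * ((2 / 3) ^ J * K32)) := by
    rw [pow_two, Finset.sum_mul_sum, Finset.sum_mul]
    refine Finset.sum_congr rfl fun D _ => ?_
    rw [Finset.sum_mul]
  rw [e3]
  refine (Finset.abs_sum_le_sum_abs _ _).trans (Finset.sum_le_sum fun D _ => ?_)
  rw [Finset.mul_sum, ← Finset.sum_sub_distrib]
  refine (Finset.abs_sum_le_sum_abs _ _).trans (Finset.sum_le_sum fun D' _ => ?_)
  have h5 := tsum_class hd v (D ∪ D') J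
  have e4 : lam D * lam D' * (∑' m, if m ≡ v [MOD W] ∧ D ∪ D' ⊆ Ymap h m then w J m else 0) -
      (∑' m, w J m) / W * (lam D * lam D' *
        (if IsPar (D ∪ D') then 1 / (nn (D ∪ D') : ℝ) else 0)) =
      lam D * lam D' * ((∑' m, if m ≡ v [MOD W] ∧ D ∪ D' ⊆ Ymap h m then w J m else 0) -
      (∑' m, w J m) / W * (if IsPar (D ∪ D') then 1 / (nn (D ∪ D') : ℝ) else 0)) := by ring
  rw [e4, abs_mul, abs_mul]
  exact mul_le_mul_of_nonneg_left h5 (by positivity)

end Pool.Agent.Helper11.MT
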