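import Mathlib
import Pool.Agent.Helper11.MT.Sieve1
import Pool.Agent.Helper11.MT.Lattice2
import Pool.Agent.Helper11.MT.EQDefs

/-!
The second sieve sum.
-/

open Finset

namespace Pool.Agent.Helper11.MT

lemma exists_gr {Q ι : Type} [Fintype Q] [DecidableEq Q] [Fintype ι] [DecidableEq ι]
    {Y : Finset (Q × ι)} (hY : IsPar Y) : ∃ f : Q → Option ι, gr f = Y := by
  classical
  refine ⟨fun q => if h : ∃ i, (q, i) ∈ Y then some h.choose else none, ?_⟩
  ext τ
  unfold gr
  rw [Finset.mem_filter]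
  constructor
  · rintro ⟨-, h⟩
    dsimp only at h
    by_cases hq : ∃ i, (τ.1, i) ∈ Y
    · rw [dif_pos hq] at h
      have := hq.choose_spec
      rw [Option.some.inj h] at this
      exact this
    · rw [dif_neg hq] at h
      exact absurd h (by simp)
  · intro h
    refine ⟨Finset.mem_univ _, ?_⟩
    have hq : ∃ i, (τ.1, i) ∈ Y := ⟨τ.2, h⟩
    dsimp only
    rw [dif_pos hq]
    have := hY _ hq.choose_spec τ h rfl
    exact congrArg some (congrArg Prod.snd this)

section

variable {W R k : ℕ}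

/-- The set of primes in the support of `s`. -/
def Tn (s : QT W R → Option (Fin k)) : Finset ℕ := (supp s).map (Function.Embedding.subtype _)

lemma mem_Tn {s : QT W R → Option (Fin k)} {p : ℕ} :
    p ∈ Tn s ↔ ∃ hp : p ∈ PR W R, s ⟨p, hp⟩ ≠ none := by
  unfold Tn supp
  simp

/-- The residues attached to `s`. -/
noncomputable def bb (h : Fin k → ℕ) (j : Fin k) (s : QT W R → Option (Fin k)) (p : ℕ) : ZMod p :=
  if hp : p ∈ PR W R then (s ⟨p, hp⟩).elim 1 (fun i => (h j : ZMod p) - (h i : ZMod p)) else 1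

/-- The local factor at `p`. -/
noncomputable def loc (h : Fin k → ℕ) (j : Fin k) (s : QT W R → Option (Fin k)) (n p : ℕ) : ℂ :=
  (if bb h j s p = (n : ZMod p) then (1 : ℂ) else 0) - 1 / p.totient

/-- The function to be summed over primes. -/
noncomputable def Phi (h : Fin k → ℕ) (v : ℕ) (j : Fin k) (s : QT W R → Option (Fin k)) (n : ℕ) : ℂ :=
  (if ((v + h j : ℕ) : ZMod W) = (n : ZMod W) then (1 : ℂ) else 0) * ∏ p : Tn s, loc h j s n p

lemma bb_some (h : Fin k → ℕ) (j : Fin k) {s : QT W R → Option (Fin k)} {q : QT W R} {i : Fin k}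
    (hs : s q = some i) : bb h j s q = (h j : ZMod (q : ℕ)) - (h i : ZMod (q : ℕ)) := by
  unfold bb
  rw [dif_pos q.2]
  have hq : (⟨(q : ℕ), q.2⟩ : QT W R) = q := rfl
  rw [hq, hs]
  rfl

lemma bb_isUnit {h : Fin k → ℕ} (hd : Distinct W R h) {j : Fin k}
    {s : QT W R → Option (Fin k)} (hs : ∀ q, s q ≠ some j) {p : ℕ} (hp : p ∈ PR W R) :
    IsUnit (bb h j s p) := by
  have hpr : p.Prime := (mem_PR.mp hp).2.1
  have : Fact p.Prime := ⟨hpr⟩
  unfold bb
  rw [dif_pos hp]
  cases hsq : s ⟨p, hp⟩ with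
  | none => exact isUnit_one
  | some i =>
    simp only [Option.elim]
    rw [isUnit_iff_ne_zero, sub_ne_zero]
    intro heq
    have hij : j ≠ i := by
      rintro rfl
      exact hs _ hsq
    exact hd p hp j i hij ((ZMod.natCast_eq_natCast_iff _ _ _).mp heq)

lemma fmap_iff {h : Fin k → ℕ} {m : ℕ} {f : QT W R → Option (Fin k)} (hf : gr f = Ymap h m)
    (q : QT W R) (i : Fin k) : f q = some i ↔ (q : ℕ) ∣ m + h i := by
  have : (q, i) ∈ gr f ↔ f q = some i := by
    unfold gr
    rw [Finset.mem_filter]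
    exact ⟨fun h => h.2, fun h => ⟨Finset.mem_univ _, h⟩⟩
  rw [← this, hf, mem_Ymap]

lemma bas_eq_loc {h : Fin k → ℕ} {j : Fin k} {m : ℕ} {f : QT W R → Option (Fin k)}
    (hf : gr f = Ymap h m) {s : QT W R → Option (Fin k)} (hk : 0 < k) {q : QT W R} {i : Fin k}
    (hs : s q = some i) (hij : i ≠ j) :
    ((bas (gk k) (univ.erase j) q (s q) (f q) : ℝ) : ℂ) = loc h j s (m + h j) q := by
  unfold loc
  rw [bb_some h j hs, hs]
  simp only [bas]
  have h1 : alpha (gk k) (univ.erase j) q i = 1 / ((q : ℕ).totient : ℝ) := by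
    unfold alpha gk
    rw [if_pos (Finset.mem_erase.mpr ⟨hij, Finset.mem_univ _⟩), Finset.card_erase_of_mem
      (Finset.mem_univ _), Finset.card_univ, Fintype.card_fin, Nat.totient_prime (qt_prime q),
      Nat.cast_sub (qt_prime q).one_le, Nat.cast_sub hk]
    congr 1
    ring
  rw [h1]
  have h2 : f q = some i ↔ (h j : ZMod (q : ℕ)) - (h i : ZMod (q : ℕ)) = ((m + h j : ℕ) : ZMod (q : ℕ)) := by
    rw [fmap_iff hf]
    rw [← ZMod.natCast_eq_zero_iff]
    push_cast
    constructor
    · intro h3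
      have : (m : ZMod (q : ℕ)) = - (h i : ZMod (q : ℕ)) := eq_neg_of_add_eq_zero_left h3
      rw [this]; ring
    · intro h3
      have : (m : ZMod (q : ℕ)) + (h i : ZMod (q : ℕ)) =
          ((m : ZMod (q : ℕ)) + (h j : ZMod (q : ℕ))) - ((h j : ZMod (q : ℕ)) - (h i : ZMod (q : ℕ))) := by
        ring
      rw [this, h3, sub_self]
  by_cases h3 : f q = some i
  · rw [if_pos h3, if_pos (h2.mp h3)]
    push_cast
    rfl
  · rw [if_neg h3, if_neg (fun h4 => h3 (h2.mpr h4))]
    push_cast
    rfl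

/-- The product of the basis functions at a prime `m + h j`. -/
lemma prod_bas {h : Fin k → ℕ} {j : Fin k} {m : ℕ} (hn : (m + h j).Prime)
    (hR : R < m + h j) {f : QT W R → Option (Fin k)} (hf : gr f = Ymap h m) (hk : 0 < k)
    (s : QT W R → Option (Fin k)) :
    ((∏ q, bas (gk k) (univ.erase j) q (s q) (f q) : ℝ) : ℂ) =
      if ∀ q, s q ≠ some j then ∏ p : Tn s, loc h j s (m + h j) p else 0 := by
  split_ifs with hs
  · have h1 : ∏ q, bas (gk k) (univ.erase j) q (s q) (f q) =
        ∏ q ∈ supp s, bas (gk k) (univ.erase j) q (s q) (f q) := by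
      symm
      refine Finset.prod_subset (Finset.subset_univ _) fun q _ hq => ?_
      have : s q = none := by
        by_contra hne
        apply hq
        unfold supp
        rw [Finset.mem_filter]
        exact ⟨Finset.mem_univ _, hne⟩
      rw [this]
      rfl
    rw [h1]
    push_cast
    rw [Finset.prod_coe_sort (Tn s) (fun p => loc h j s (m + h j) p)]
    unfold Tn
    rw [Finset.prod_map]
    refine Finset.prod_congr rfl fun q hq => ?_
    unfold supp at hq
    rw [Finset.mem_filter] at hq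
    obtain ⟨i, hi⟩ := Option.ne_none_iff_exists'.mp hq.2
    have hij : i ≠ j := by
      rintro rfl
      exact hs q hi
    exact bas_eq_loc hf hk hi hij
  · push Not at hs
    obtain ⟨q, hq⟩ := hs
    rw [Finset.prod_eq_zero (Finset.mem_univ q)]
    · simp
    · rw [hq]
      simp only [bas, alpha]
      rw [if_neg, if_neg (by simp), sub_zero]
      rw [fmap_iff hf]
      intro hdvd
      have := (Nat.prime_dvd_prime_iff_eq (qt_prime q) hn).mp hdvd
      have h2 := (mem_PR.mp q.2).1
      omega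

/-- The second sieve sum. -/
noncomputable def S2 (h : Fin k → ℕ) (v : ℕ) (G : Finset (QT W R × Fin k) → ℝ) (j : Fin k)
    (J : ℕ) : ℝ :=
  ∑' m, if m ≡ v [MOD W] then thetaR R (m + h j) * w J (m + h j) * (G (Ymap h m)) ^ 2 else 0

lemma thetaR_nonneg (R n : ℕ) : 0 ≤ thetaR R n := by
  unfold thetaR
  split_ifs
  · exact log_nat_nonneg n
  · exact le_rfl

lemma thetaR_le_vM (R n : ℕ) : thetaR R n ≤ ArithmeticFunction.vonMangoldt n := by
  unfold thetaR
  split_ifs with h
  · rw [ArithmeticFunction.vonMangoldt_apply_prime h.1]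
  · exact ArithmeticFunction.vonMangoldt_nonneg

lemma summable_thetaR_w (R J : ℕ) : Summable fun n => thetaR R n * w J n := by
  refine Summable.of_nonneg_of_le (fun n => mul_nonneg (thetaR_nonneg _ _) (w_nonneg _ _))
    (fun n => mul_le_mul_of_nonneg_right (thetaR_le_vM R n) (w_nonneg _ _)) ?_
  refine (Good.summable_w (f := ArithmeticFunction.vonMangoldt) ?_ J).congr fun n => ?_
  · refine good_of_le_log fun n => ?_
    rw [abs_of_nonneg ArithmeticFunction.vonMangoldt_nonneg]
    linarith [ArithmeticFunction.vonMangoldt_le_log (n := n)]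
  · rw [abs_of_nonneg ArithmeticFunction.vonMangoldt_nonneg]

lemma norm_loc_le (h : Fin k → ℕ) (j : Fin k) (s : QT W R → Option (Fin k)) (n : ℕ) {p : ℕ}
    (hp : p.Prime) : ‖loc h j s n p‖ ≤ 1 := by
  unfold loc
  have h1 : (1 : ℝ) ≤ p.totient := by
    have := Nat.totient_pos.mpr hp.pos
    exact_mod_cast this
  have h2 : (1 : ℂ) / p.totient = ((1 / (p.totient : ℝ) : ℝ) : ℂ) := by push_cast; rfl
  have h3 : (if bb h j s p = (n : ZMod p) then (1 : ℂ) else 0) =
      ((if bb h j s p = (n : ZMod p) then (1 : ℝ) else 0 : ℝ) : ℂ) := by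
    split_ifs <;> simp
  rw [h2, h3, ← Complex.ofReal_sub, Complex.norm_real, Real.norm_eq_abs, abs_le]
  have h4 : 0 < 1 / (p.totient : ℝ) := by positivity
  have h5 : 1 / (p.totient : ℝ) ≤ 1 := by
    rw [div_le_one (by positivity)]; exact h1
  split_ifs
  · constructor <;> linarith
  · constructor <;> linarith

lemma norm_Phi_le (h : Fin k → ℕ) (v : ℕ) (j : Fin k) (s : QT W R → Option (Fin k)) (n : ℕ) :
    ‖Phi h v j s n‖ ≤ 1 := by
  unfold Phi
  rw [norm_mul, norm_prod]
  refine mul_le_one₀ ?_ (Finset.prod_nonneg fun _ _ => norm_nonneg _) ?_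
  · split_ifs <;> simp
  · refine Finset.prod_le_one (fun _ _ => norm_nonneg _) fun p _ => norm_loc_le h j s n ?_
    obtain ⟨hp, -⟩ := mem_Tn.mp p.2
    exact (mem_PR.mp hp).2.1

/-- The sum of `Phi` over primes. -/
noncomputable def Psi (h : Fin k → ℕ) (v : ℕ) (j : Fin k) (J : ℕ) (s : QT W R → Option (Fin k)) : ℂ :=
  ∑' n, ((thetaR R n * w J n : ℝ) : ℂ) * Phi h v j s n

lemma summable_theta_Phi (h : Fin k → ℕ) (v : ℕ) (j : Fin k) (J : ℕ)
    (s : QT W R → Option (Fin k)) :
    Summable fun n => ((thetaR R n * w J n : ℝ) : ℂ) * Phi h v j s n := by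
  refine Summable.of_norm_bounded (summable_thetaR_w R J) fun n => ?_
  rw [norm_mul, Complex.norm_real, Real.norm_eq_abs,
    abs_of_nonneg (mul_nonneg (thetaR_nonneg _ _) (w_nonneg _ _))]
  exact mul_le_of_le_one_right (mul_nonneg (thetaR_nonneg _ _) (w_nonneg _ _))
    (norm_Phi_le h v j s n)

/-- Exact expansion of the second sieve sum. -/
lemma S2_expand {h : Fin k → ℕ} (hd : Distinct W R h) (hg : ∀ q : QT W R, 1 ≤ gk k q) (v : ℕ)
    (G : Finset (QT W R × Fin k) → ℝ) (j : Fin k) (hj : h j ≤ R) (J : ℕ) :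
    ((S2 h v G j J : ℝ) : ℂ) = ∑ s : QT W R → Option (Fin k),
      if ∀ q, s q ≠ some j then
        ((BB (gk k) (univ.erase j) (fun Y => (G Y) ^ 2) s : ℝ) : ℂ) * Psi h v j J s else 0 := by
  have hk : 0 < k := Fin.pos j
  -- pointwise
  have h1 : ∀ m, (((if m ≡ v [MOD W] then thetaR R (m + h j) * w J (m + h j) *
      (G (Ymap h m)) ^ 2 else 0 : ℝ)) : ℂ) =
      ∑ s : QT W R → Option (Fin k), if ∀ q, s q ≠ some j then
        ((BB (gk k) (univ.erase j) (fun Y => (G Y) ^ 2) s : ℝ) : ℂ) *
        (((thetaR R (m + h j) * w J (m + h j) : ℝ) : ℂ) * Phi h v j s (m + h j)) else 0 := by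
    intro m
    by_cases hn : (m + h j).Prime ∧ R < m + h j
    · obtain ⟨f, hf⟩ := exists_gr (Y := Ymap (W := W) (R := R) h m)
        (isPar_of_subset_Ymap hd (Finset.Subset.refl _))
      have h2 := expansion (QT W R) (Fin k) (gk k) hg (univ.erase j) (fun Y => (G Y) ^ 2) f
      have h3 : m ≡ v [MOD W] ↔ ((v + h j : ℕ) : ZMod W) = ((m + h j : ℕ) : ZMod W) := by
        rw [ZMod.natCast_eq_natCast_iff]
        constructor
        · intro h4
          exact (h4.add_right _).symm
        · intro h4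
          exact (Nat.ModEq.add_right_cancel' _ h4).symm
      by_cases hm : m ≡ v [MOD W]
      · rw [if_pos hm, ← hf, h2]
        rw [Complex.ofReal_mul, Complex.ofReal_sum, Finset.mul_sum]
        refine Finset.sum_congr rfl fun s _ => ?_
        have hpb := prod_bas hn.1 hn.2 hf hk s
        rw [Complex.ofReal_mul (BB (gk k) (univ.erase j) (fun Y => (G Y) ^ 2) s), hpb]
        split_ifs with hs
        · unfold Phi
          rw [if_pos (h3.mp hm)]
          ring
        · ring
      · rw [if_neg hm, Complex.ofReal_zero]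
        symm
        refine Finset.sum_eq_zero fun s _ => ?_
        split_ifs
        · unfold Phi
          rw [if_neg (fun h4 => hm (h3.mpr h4))]
          ring
        · rfl
    · have h2 : thetaR R (m + h j) = 0 := by unfold thetaR; rw [if_neg hn]
      rw [h2]
      simp
  have h5 : ((S2 h v G j J : ℝ) : ℂ) = ∑' m, (((if m ≡ v [MOD W] then
      thetaR R (m + h j) * w J (m + h j) * (G (Ymap h m)) ^ 2 else 0 : ℝ)) : ℂ) := by
    unfold S2
    rw [Complex.ofReal_tsum]
  rw [h5, tsum_congr h1]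
  have h6 : ∀ s : QT W R → Option (Fin k), Summable fun m =>
      if ∀ q, s q ≠ some j then
        ((BB (gk k) (univ.erase j) (fun Y => (G Y) ^ 2) s : ℝ) : ℂ) *
        (((thetaR R (m + h j) * w J (m + h j) : ℝ) : ℂ) * Phi h v j s (m + h j)) else 0 := by
    intro s
    split_ifs
    · refine Summable.mul_left _ ?_
      have h7 := (summable_nat_add_iff (h j)).mpr (summable_theta_Phi h v j J s)
      exact h7
    · exact summable_zero
  rw [Summable.tsum_finsetSum (fun s _ => h6 s)]
  refine Finset.sum_congr rfl fun s _ => ?_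
  split_ifs
  · rw [tsum_mul_left]
    congr 1
    unfold Psi
    rw [← (summable_theta_Phi h v j J s).sum_add_tsum_nat_add (h j)]
    rw [Finset.sum_eq_zero, zero_add]
    intro n hn
    rw [Finset.mem_range] at hn
    have : thetaR R n = 0 := by
      unfold thetaR
      rw [if_neg]
      rintro ⟨-, h7⟩
      omega
    rw [this]
    simp
  · exact tsum_zero

end

end Pool.Agent.Helper11.MT
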