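import Mathlib
import Pool.Agent.Helper11.MT.Sieve2

/-!
Estimates for the second sieve sum.
-/

open Finset Filter Topology

namespace Pool.Agent.Helper11.MT

section

variable {W R k : ℕ}

lemma Tn_prime {s : QT W R → Option (Fin k)} : ∀ p ∈ Tn s, p.Prime := by
  intro p hp
  obtain ⟨hp, -⟩ := mem_Tn.mp hp
  exact (mem_PR.mp hp).2.1

lemma Tn_subset (s : QT W R → Option (Fin k)) : Tn s ⊆ PR W R := by
  intro p hp
  obtain ⟨hp, -⟩ := mem_Tn.mp hp
  exact hp

lemma MM_summable_theta (R J : ℕ) {ξ : ℕ → ℂ} (hξ : ∀ n, ‖ξ n‖ ≤ 1) :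
    Summable fun n => ((thetaR R n : ℝ) : ℂ) * ξ n * (w J n : ℂ) := by
  refine Summable.of_norm_bounded (summable_thetaR_w R J) fun n => ?_
  rw [norm_mul, norm_mul, Complex.norm_real, Complex.norm_real, Real.norm_eq_abs, Real.norm_eq_abs,
    abs_of_nonneg (w_nonneg _ _), abs_of_nonneg (thetaR_nonneg _ _)]
  refine mul_le_mul_of_nonneg_right ?_ (w_nonneg _ _)
  exact mul_le_of_le_one_right (thetaR_nonneg _ _) (hξ n)

/-- Bound for `Psi` in terms of the character sums. -/
lemma norm_Psi_le [NeZero W] {h : Fin k → ℕ} (hd : Distinct W R h) (v : ℕ) {j : Fin k}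
    (hv : Nat.Coprime (v + h j) W) (J : ℕ) {s : QT W R → Option (Fin k)}
    (hs : ∀ q, s q ≠ some j) :
    ‖Psi h v j J s‖ ≤ (1 / W.totient * ∏ p ∈ Tn s, (1 / (p.totient : ℝ))) *
      ∑ c : CF W (Tn s), ‖MM (xi c) J (thetaR R)‖ := by
  have ha : IsUnit ((v + h j : ℕ) : ZMod W) := by rwa [ZMod.isUnit_iff_coprime]
  have hb : ∀ p : Tn s, IsUnit (bb h j s p) := fun p => bb_isUnit hd hs (Tn_subset s p.2)
  have h1 : ∀ n, ((thetaR R n * w J n : ℝ) : ℂ) * Phi h v j s n =
      ∑ c : CF W (Tn s), ((1 / W.totient * ∏ p : Tn s, (1 / ((p : ℕ).totient : ℂ))) *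
        (c.1 ((v + h j : ℕ) : ZMod W)⁻¹ * ∏ p : Tn s, (c.2 p).1 (bb h j s p)⁻¹)) *
        (((thetaR R n : ℝ) : ℂ) * xi c n * (w J n : ℂ)) := by
    intro n
    by_cases hn : n.Prime ∧ R < n
    · have hcop : ∀ p ∈ Tn s, n.Coprime p := by
        intro p hp
        refine (Nat.coprime_primes hn.1 (Tn_prime p hp)).mpr ?_
        have := (mem_PR.mp (Tn_subset s hp)).1
        omega
      have h2 := expand_CF (T := Tn s) Tn_prime ha (fun p => bb h j s p) hb hcop
      unfold Phi loc
      rw [h2, Finset.mul_sum, Finset.mul_sum]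
      refine Finset.sum_congr rfl fun c _ => ?_
      push_cast
      ring
    · have h2 : thetaR R n = 0 := by unfold thetaR; rw [if_neg hn]
      rw [h2]
      simp
  unfold Psi
  rw [tsum_congr h1, Summable.tsum_finsetSum]
  · refine (norm_sum_le _ _).trans ?_
    rw [Finset.mul_sum]
    refine Finset.sum_le_sum fun c _ => ?_
    rw [tsum_mul_left, norm_mul, norm_mul]
    have h3 : ‖(1 / (W.totient : ℂ) * ∏ p : Tn s, (1 / ((p : ℕ).totient : ℂ)))‖ =
        1 / W.totient * ∏ p ∈ Tn s, (1 / (p.totient : ℝ)) := by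
      rw [norm_mul, norm_prod, ← Finset.prod_coe_sort (Tn s)]
      simp
    rw [h3]
    have h4 : ‖c.1 ((v + h j : ℕ) : ZMod W)⁻¹ * ∏ p : Tn s, (c.2 p).1 (bb h j s p)⁻¹‖ ≤ 1 := by
      rw [norm_mul, norm_prod]
      refine mul_le_one₀ (DirichletCharacter.norm_le_one _ _)
        (Finset.prod_nonneg fun _ _ => norm_nonneg _) ?_
      exact Finset.prod_le_one (fun _ _ => norm_nonneg _)
        fun p _ => DirichletCharacter.norm_le_one _ _
    have h5 : (0 : ℝ) ≤ 1 / W.totient * ∏ p ∈ Tn s, (1 / (p.totient : ℝ)) :=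
      mul_nonneg (one_div_nonneg.mpr (Nat.cast_nonneg _))
        (Finset.prod_nonneg fun _ _ => one_div_nonneg.mpr (Nat.cast_nonneg _))
    have h6 : ‖MM (xi c) J (thetaR R)‖ = ‖∑' n, ((thetaR R n : ℝ) : ℂ) * xi c n * (w J n : ℂ)‖ := rfl
    rw [← h6]
    refine mul_le_mul_of_nonneg_right ?_ (norm_nonneg _)
    exact mul_le_of_le_one_right h5 h4
  · intro c _
    exact (MM_summable_theta R J (norm_xi_le c)).mul_left _

/-- The number of partial functions with a given support. -/
lemma card_supp_le (S : Finset (QT W R)) :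
    #(univ.filter (fun s : QT W R → Option (Fin k) => supp s = S)) ≤ k ^ #S := by
  classical
  have h1 : univ.filter (fun s : QT W R → Option (Fin k) => supp s = S) ⊆
      Fintype.piFinset (fun q => if q ∈ S then univ.erase none else {none}) := by
    intro s hs
    rw [Finset.mem_filter] at hs
    rw [Fintype.mem_piFinset]
    intro q
    split_ifs with hq
    · rw [← hs.2] at hq
      unfold supp at hq
      rw [Finset.mem_filter] at hq
      exact Finset.mem_erase.mpr ⟨hq.2, Finset.mem_univ _⟩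
    · rw [Finset.mem_singleton]
      by_contra hne
      apply hq
      rw [← hs.2]
      unfold supp
      rw [Finset.mem_filter]
      exact ⟨Finset.mem_univ _, hne⟩
  refine (Finset.card_le_card h1).trans ?_
  rw [Fintype.card_piFinset]
  have h2 : ∀ q : QT W R, #(if q ∈ S then (univ : Finset (Option (Fin k))).erase none else {none}) =
      if q ∈ S then k else 1 := by
    intro q
    split_ifs
    · rw [Finset.card_erase_of_mem (Finset.mem_univ _), Finset.card_univ, Fintype.card_option,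
        Fintype.card_fin, Nat.add_sub_cancel]
    · rw [Finset.card_singleton]
  rw [Finset.prod_congr rfl (fun q _ => h2 q), Finset.prod_ite_mem, Finset.univ_inter,
    Finset.prod_const]

lemma card_Tn (s : QT W R → Option (Fin k)) : #(Tn s) = #(supp s) := by
  unfold Tn
  rw [Finset.card_map]

lemma prod_Tn (s : QT W R → Option (Fin k)) : ∏ p ∈ Tn s, p = ∏ q ∈ supp s, (q : ℕ) := by
  unfold Tn
  rw [Finset.prod_map]
  rfl

lemma card_Tn_fiber_le (T : Finset ℕ) :
    #(univ.filter (fun s : QT W R → Option (Fin k) => Tn s = T)) ≤ k ^ #T := by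
  classical
  by_cases hT : ∃ s0 : QT W R → Option (Fin k), Tn s0 = T
  · obtain ⟨s0, rfl⟩ := hT
    have h1 : univ.filter (fun s : QT W R → Option (Fin k) => Tn s = Tn s0) =
        univ.filter (fun s : QT W R → Option (Fin k) => supp s = supp s0) := by
      refine Finset.filter_congr fun s _ => ?_
      unfold Tn
      rw [Finset.map_inj]
    rw [h1, card_Tn]
    exact card_supp_le _
  · have h1 : univ.filter (fun s : QT W R → Option (Fin k) => Tn s = T) = ∅ := by
      rw [Finset.filter_eq_empty_iff]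
      intro s _ hs
      exact hT ⟨s, hs⟩
    rw [h1]
    simp

lemma Tn_empty_iff {s : QT W R → Option (Fin k)} : Tn s = ∅ ↔ s = fun _ => none := by
  constructor
  · intro h
    funext q
    by_contra hne
    have : (q : ℕ) ∈ Tn s := mem_Tn.mpr ⟨q.2, hne⟩
    rw [h] at this
    exact absurd this (Finset.notMem_empty _)
  · rintro rfl
    ext p
    rw [mem_Tn]
    simp

/-- The weighted error over the family. -/
noncomputable def Err (W R J : ℕ) : ℝ :=
  ∑ x ∈ (FX W R).filter (fun x => x.1.Nonempty),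
    ((∏ p ∈ x.1, p : ℕ) : ℝ) ^ (-(3 / 4) : ℝ) * ‖MM (xs x) J (thetaR R)‖

lemma two4_nn (k : ℕ) : (0 : ℝ) ≤ 2 * 4 ^ k := mul_nonneg zero_le_two (pow_nonneg zero_le_four k)

/-- Error bound for the second sieve sum. -/
theorem S2_error [NeZero W] {h : Fin k → ℕ} (hd : Distinct W R h)
    (hg : ∀ q : QT W R, 1 ≤ gk k q) (v : ℕ) {j : Fin k} (hv : Nat.Coprime (v + h j) W)
    (hj : h j ≤ R) {y : Finset (QT W R × Fin k) → ℝ} (hy0 : ∀ U, 0 ≤ y U)
    (hya : ∀ U V, U ⊆ V → y V ≤ y U) (hys : ∀ U, R < nn U → y U = 0)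
    (hbig : ∀ p ∈ PR W R, (k : ℝ) * (2 * 4 ^ k) * (1 / p.totient) ≤ (p : ℝ) ^ (-(3 / 4) : ℝ))
    (J : ℕ) :
    ‖((S2 h v (AA (gk k) y) j J : ℝ) : ℂ) -
      ((BB (gk k) (univ.erase j) (fun Y => (AA (gk k) y Y) ^ 2) (fun _ => none) : ℝ) : ℂ) *
        Psi h v j J (fun _ : QT W R => none)‖ ≤
      Real.exp ((#(univ.erase j) : ℝ) ^ 2 * ∑ q : QT W R, 1 / (gk k q) ^ 2) *
        QI (gk k) (univ.erase j) y * (1 / W.totient) * Err W R J := by
  classical
  set C0 := Real.exp ((#(univ.erase j) : ℝ) ^ 2 * ∑ q : QT W R, 1 / (gk k q) ^ 2) with hC0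
  set QQ := QI (gk k) (univ.erase j) y with hQQ
  have hQQ0 : 0 ≤ QQ := by
    rw [hQQ]
    unfold QI
    refine Finset.sum_nonneg fun U _ => div_nonneg (sq_nonneg _) ?_
    unfold gU
    exact Finset.prod_nonneg fun τ _ => (zero_le_one.trans (hg τ.1))
  have hC00 : 0 ≤ C0 := (Real.exp_pos _).le
  set F : Finset ℕ → ℝ := fun T => if T.Nonempty then
    C0 * QQ * (1 / W.totient) * ((2 * 4 ^ k) ^ #T * ∏ p ∈ T, (1 / (p.totient : ℝ))) *
      ∑ c : CF W T, ‖MM (xi c) J (thetaR R)‖ else 0 with hF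
  have hF0 : ∀ T, 0 ≤ F T := by
    intro T
    rw [hF]
    simp only
    split_ifs
    · refine mul_nonneg (mul_nonneg (mul_nonneg (mul_nonneg hC00 hQQ0)
        (one_div_nonneg.mpr (Nat.cast_nonneg _))) (mul_nonneg (pow_nonneg (two4_nn k) _)
        (Finset.prod_nonneg fun _ _ => one_div_nonneg.mpr (Nat.cast_nonneg _))))
        (Finset.sum_nonneg fun _ _ => norm_nonneg _)
    · exact le_rfl
  -- each term
  set t : (QT W R → Option (Fin k)) → ℂ := fun s => if ∀ q, s q ≠ some j then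
    ((BB (gk k) (univ.erase j) (fun Y => (AA (gk k) y Y) ^ 2) s : ℝ) : ℂ) * Psi h v j J s else 0
    with ht
  have hterm : ∀ s : QT W R → Option (Fin k), s ≠ (fun _ => none) →
      ‖t s‖ ≤ if Tn s ∈ TS W R then F (Tn s) else 0 := by
    intro s hs
    have hne : (Tn s).Nonempty := by
      rw [Finset.nonempty_iff_ne_empty]
      intro h1
      exact hs (Tn_empty_iff.mp h1)
    rw [ht]
    simp only
    by_cases hsj : ∀ q, s q ≠ some j
    · rw [if_pos hsj]
      by_cases hTS : Tn s ∈ TS W R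
      · rw [if_pos hTS, hF]
        simp only
        rw [if_pos hne, norm_mul, Complex.norm_real, Real.norm_eq_abs]
        have h1 := upper (QT W R) (Fin k) (gk k) hg (univ.erase j) y hy0 hya s
        rw [Fintype.card_fin, ← card_Tn] at h1
        have h2 := norm_Psi_le hd v hv J hsj
        calc |BB (gk k) (univ.erase j) (fun Y => (AA (gk k) y Y) ^ 2) s| * ‖Psi h v j J s‖ ≤
            (C0 * (2 * 4 ^ k) ^ #(Tn s) * QQ) *
            ((1 / W.totient * ∏ p ∈ Tn s, (1 / (p.totient : ℝ))) *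
              ∑ c : CF W (Tn s), ‖MM (xi c) J (thetaR R)‖) :=
              mul_le_mul h1 h2 (norm_nonneg _)
                (mul_nonneg (mul_nonneg hC00 (pow_nonneg (two4_nn k) _)) hQQ0)
          _ = _ := by ring
      · rw [if_neg hTS]
        have h1 : R ^ 2 < ∏ q ∈ supp s, (q : ℕ) := by
          rw [← prod_Tn]
          by_contra hcon
          push Not at hcon
          exact hTS (mem_TS.mpr ⟨Tn_subset s, hcon⟩)
        have h2 := support (QT W R) (Fin k) (gk k) hg (univ.erase j) y (fun q => (q : ℕ))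
          (fun q => (qt_prime q).one_le) R hys s h1
        rw [h2]
        simp
    · rw [if_neg hsj, norm_zero]
      split_ifs
      · exact hF0 _
      · exact le_rfl
  rw [S2_expand hd hg v (AA (gk k) y) j hj J]
  have hmain : t (fun _ => none) =
      ((BB (gk k) (univ.erase j) (fun Y => (AA (gk k) y Y) ^ 2) (fun _ => none) : ℝ) : ℂ) *
        Psi h v j J (fun _ : QT W R => none) := by
    rw [ht]
    simp only
    rw [if_pos]
    intro q
    simp
  rw [← hmain]
  have hsplit : ∑ s, t s - t (fun _ => none) = ∑ s ∈ univ.erase (fun _ => none), t s := by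
    rw [← Finset.add_sum_erase univ t (Finset.mem_univ (fun _ => none))]
    ring
  have hsplit' : (∑ s : QT W R → Option (Fin k), if ∀ q, s q ≠ some j then
      ((BB (gk k) (univ.erase j) (fun Y => (AA (gk k) y Y) ^ 2) s : ℝ) : ℂ) * Psi h v j J s else 0) -
      t (fun _ => none) = ∑ s ∈ univ.erase (fun _ => none), t s := hsplit
  rw [hsplit']
  refine (norm_sum_le _ _).trans ?_
  have h3 : ∑ s ∈ univ.erase (fun _ => none), ‖t s‖ ≤
      ∑ s : QT W R → Option (Fin k), if Tn s ∈ TS W R then F (Tn s) else 0 := by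
    refine (Finset.sum_le_sum fun s hs => hterm s (Finset.mem_erase.mp hs).1).trans ?_
    refine Finset.sum_le_sum_of_subset_of_nonneg (Finset.erase_subset _ _) fun s _ _ => ?_
    split_ifs
    · exact hF0 _
    · exact le_rfl
  refine h3.trans ?_
  rw [← Finset.sum_filter]
  rw [← Finset.sum_fiberwise_of_maps_to (s := univ.filter (fun s => Tn s ∈ TS W R)) (t := TS W R)
    (g := Tn) (fun s hs => (Finset.mem_filter.mp hs).2)]
  have h4 : ∀ T ∈ TS W R, ∑ s ∈ (univ.filter (fun s : QT W R → Option (Fin k) =>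
      Tn s ∈ TS W R)).filter (fun s => Tn s = T), F (Tn s) ≤ (k : ℝ) ^ #T * F T := by
    intro T _
    have h5 : ∀ s ∈ (univ.filter (fun s : QT W R → Option (Fin k) =>
      Tn s ∈ TS W R)).filter (fun s => Tn s = T), F (Tn s) = F T := by
      intro s hs
      rw [(Finset.mem_filter.mp hs).2]
    rw [Finset.sum_congr rfl h5, Finset.sum_const, nsmul_eq_mul]
    refine mul_le_mul_of_nonneg_right ?_ (hF0 T)
    have h6 : #((univ.filter (fun s : QT W R → Option (Fin k) =>
      Tn s ∈ TS W R)).filter (fun s => Tn s = T)) ≤ k ^ #T := by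
      refine (Finset.card_le_card ?_).trans (card_Tn_fiber_le T)
      intro s hs
      rw [Finset.mem_filter] at hs ⊢
      exact ⟨Finset.mem_univ _, hs.2⟩
    exact_mod_cast h6
  refine (Finset.sum_le_sum h4).trans ?_
  -- regroup the right-hand side
  have h7 : Err W R J = ∑ T ∈ TS W R, if T.Nonempty then
      ((∏ p ∈ T, p : ℕ) : ℝ) ^ (-(3 / 4) : ℝ) * ∑ c : CF W T, ‖MM (xi c) J (thetaR R)‖ else 0 := by
    unfold Err FX
    rw [Finset.sum_filter, Finset.sum_sigma]
    refine Finset.sum_congr rfl fun T _ => ?_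
    simp only
    split_ifs
    · rw [Finset.mul_sum]
      rfl
    · exact Finset.sum_const_zero
  rw [h7, Finset.mul_sum]
  refine Finset.sum_le_sum fun T hT => ?_
  rw [hF]
  simp only
  by_cases hne : T.Nonempty
  · rw [if_pos hne, if_pos hne]
    have h8 : (k : ℝ) ^ #T * ((2 * 4 ^ k) ^ #T * ∏ p ∈ T, (1 / (p.totient : ℝ))) ≤
        ((∏ p ∈ T, p : ℕ) : ℝ) ^ (-(3 / 4) : ℝ) := by
      rw [Nat.cast_prod, ← Real.finsetProd_rpow _ _ (fun p _ => Nat.cast_nonneg p)]
      rw [← Finset.prod_const, ← Finset.prod_const, ← Finset.prod_mul_distrib,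
        ← Finset.prod_mul_distrib]
      refine Finset.prod_le_prod (fun p _ => mul_nonneg (Nat.cast_nonneg _)
        (mul_nonneg (two4_nn k) (one_div_nonneg.mpr (Nat.cast_nonneg _)))) fun p hp => ?_
      rw [← mul_assoc]
      exact hbig p ((mem_TS.mp hT).1 hp)
    have h9 : 0 ≤ ∑ c : CF W T, ‖MM (xi c) J (thetaR R)‖ :=
      Finset.sum_nonneg fun _ _ => norm_nonneg _
    calc (k : ℝ) ^ #T * (C0 * QQ * (1 / W.totient) *
        ((2 * 4 ^ k) ^ #T * ∏ p ∈ T, (1 / (p.totient : ℝ))) *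
        ∑ c : CF W T, ‖MM (xi c) J (thetaR R)‖) =
        C0 * QQ * (1 / W.totient) * (((k : ℝ) ^ #T *
        ((2 * 4 ^ k) ^ #T * ∏ p ∈ T, (1 / (p.totient : ℝ)))) *
        ∑ c : CF W T, ‖MM (xi c) J (thetaR R)‖) := by ring
      _ ≤ C0 * QQ * (1 / W.totient) * (((∏ p ∈ T, p : ℕ) : ℝ) ^ (-(3 / 4) : ℝ) *
        ∑ c : CF W T, ‖MM (xi c) J (thetaR R)‖) :=
          mul_le_mul_of_nonneg_left (mul_le_mul_of_nonneg_right h8 h9)
            (mul_nonneg (mul_nonneg hC00 hQQ0) (one_div_nonneg.mpr (Nat.cast_nonneg _)))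
  · rw [if_neg hne, if_neg hne]
    simp

end

end Pool.Agent.Helper11.MT
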