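import Pool.Agent.Helper11.MT.Taylor

namespace Pool.Agent.Helper11.MT

open Finset Filter Topology Complex DirichletCharacter

open ArithmeticFunction (vonMangoldt)

lemma re_ge_one_of_mem {z : ℂ} (hz : z ∈ Metric.closedBall (2 : ℂ) 1) : 1 ≤ z.re := by
  rw [Metric.mem_closedBall, dist_eq_norm] at hz
  have h1 := Complex.abs_re_le_norm (z - 2)
  have h2 : |z.re - 2| ≤ 1 := by simpa using h1.trans hz
  have := abs_le.mp h2
  linarith [this.1]

lemma eventually_re_gt_one : ∀ᶠ s in 𝓝 (2 : ℂ), 1 < s.re := by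
  have : IsOpen {s : ℂ | 1 < s.re} := isOpen_lt continuous_const Complex.continuous_re
  exact this.mem_nhds (by simp)

lemma abscissa_twist_lt {N : ℕ} (χ : DirichletCharacter ℂ N) :
    LSeries.abscissaOfAbsConv (fun n : ℕ => χ n * (vonMangoldt n : ℂ)) < 2 := by
  have h : LSeries.abscissaOfAbsConv (fun n : ℕ => χ n * (vonMangoldt n : ℂ)) ≤ 1 := by
    apply LSeries.abscissaOfAbsConv_le_of_forall_lt_LSeriesSummable
    intro y hy
    have := LSeriesSummable_twist_vonMangoldt χ (s := (y : ℂ)) (by simpa using hy)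
    exact this
  exact lt_of_le_of_lt h (by norm_num)

/-- For a nonprincipal character the twisted sum tends to `0`. -/
lemma tendsto_twist_zero {N : ℕ} [NeZero N] {χ : DirichletCharacter ℂ N} (hχ : χ ≠ 1) :
    Tendsto (fun J : ℕ => ∑' n : ℕ, (χ n * (vonMangoldt n : ℂ)) * (w J n : ℂ)) atTop (𝓝 0) := by
  refine tendsto_tsum_mul_w (c := 0) (g := fun s => -deriv (LFunction χ) s / LFunction χ s)
    (abscissa_twist_lt χ) ?_ ?_
  · intro z hz
    have hz1 := re_ge_one_of_mem hz
    have hne := LFunction_ne_zero_of_one_le_re χ (.inl hχ) hz1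
    have hd := differentiable_LFunction hχ
    have ha : AnalyticAt ℂ (LFunction χ) z := hd.analyticAt z
    exact (ha.deriv.neg).div ha hne
  · filter_upwards [eventually_re_gt_one] with s hs
    rw [zero_mul, zero_add]
    have := LSeries_twist_vonMangoldt_eq χ hs
    rw [deriv_LFunction_eq_deriv_LSeries χ hs, LFunction_eq_LSeries χ hs, ← this]
    rfl

lemma LFunctionTrivChar₁_ne_zero {N : ℕ} [NeZero N] {z : ℂ} (hz : 1 ≤ z.re) :
    LFunctionTrivChar₁ N z ≠ 0 := by
  rcases eq_or_ne z 1 with rfl | h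
  · exact LFunctionTrivChar₁_apply_one_ne_zero N
  · rw [LFunctionTrivChar₁, Function.update_of_ne h]
    exact mul_ne_zero (sub_ne_zero_of_ne h) (LFunction_ne_zero_of_one_le_re _ (.inr h) hz)

/-- For the principal character the twisted sum tends to `1`. -/
lemma tendsto_twist_one (N : ℕ) [NeZero N] :
    Tendsto (fun J : ℕ => ∑' n : ℕ, ((1 : DirichletCharacter ℂ N) n * (vonMangoldt n : ℂ)) * (w J n : ℂ))
      atTop (𝓝 1) := by
  refine tendsto_tsum_mul_w (c := 1)
    (g := fun s => -deriv (LFunctionTrivChar₁ N) s / LFunctionTrivChar₁ N s)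
    (abscissa_twist_lt 1) ?_ ?_
  · intro z hz
    have hz1 := re_ge_one_of_mem hz
    have hne := LFunctionTrivChar₁_ne_zero (N := N) hz1
    have ha : AnalyticAt ℂ (LFunctionTrivChar₁ N) z :=
      (differentiable_LFunctionTrivChar₁ N).analyticAt z
    exact (ha.deriv.neg).div ha hne
  · filter_upwards [eventually_re_gt_one] with s hs
    have hs1 : s ≠ 1 := fun h => by rw [h] at hs; simp at hs
    have := LSeries_twist_vonMangoldt_eq (1 : DirichletCharacter ℂ N) hs
    rw [deriv_LFunctionTrivChar₁_apply_of_ne_one N hs1]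
    have hne : LFunctionTrivChar N s ≠ 0 := LFunction_ne_zero_of_one_le_re _ (.inr hs1) hs.le
    have e1 : LFunctionTrivChar₁ N s = (s - 1) * LFunctionTrivChar N s := by
      rw [LFunctionTrivChar₁, Function.update_of_ne hs1]
    have e2 : LSeries (fun n : ℕ => (1 : DirichletCharacter ℂ N) n * (vonMangoldt n : ℂ)) s
        = -deriv (LFunctionTrivChar N) s / LFunctionTrivChar N s := by
      rw [LFunctionTrivChar, deriv_LFunction_eq_deriv_LSeries _ hs, LFunction_eq_LSeries _ hs,
        ← this]
      rfl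
    rw [e1, e2]
    have h3 : s - 1 ≠ 0 := sub_ne_zero_of_ne hs1
    field_simp
    ring

/-- The total mass of the kernel tends to `1`. -/
lemma tendsto_Omega : Tendsto (fun J : ℕ => ∑' n, w J n) atTop (𝓝 1) := by
  have key : Tendsto (fun J : ℕ => ∑' n : ℕ, (1 : ℂ) * (w J n : ℂ)) atTop (𝓝 1) := by
    have hab : LSeries.abscissaOfAbsConv (fun _ : ℕ => (1 : ℂ)) < 2 := by
      have := LSeries.abscissaOfAbsConv_one
      have h2 : LSeries.abscissaOfAbsConv (fun _ : ℕ => (1 : ℂ)) = 1 := this
      rw [h2]; norm_num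
    refine tendsto_tsum_mul_w (a := fun _ => (1 : ℂ)) (c := 1)
      (g := dslope (LFunctionTrivChar₁ 1) 1) hab ?_ ?_
    · intro z _
      have h1 : DifferentiableOn ℂ (dslope (LFunctionTrivChar₁ 1) 1) Set.univ :=
        (Complex.differentiableOn_dslope Filter.univ_mem).mpr
          (differentiable_LFunctionTrivChar₁ 1).differentiableOn
      exact (differentiableOn_univ.mp h1).analyticAt z
    · filter_upwards [eventually_re_gt_one] with s hs
      have hs1 : s ≠ 1 := fun h => by rw [h] at hs; simp at hs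
      have h3 : s - 1 ≠ 0 := sub_ne_zero_of_ne hs1
      have hG1 : LFunctionTrivChar₁ 1 1 = 1 := by simp [LFunctionTrivChar₁]
      have hGs : LFunctionTrivChar₁ 1 s = (s - 1) * riemannZeta s := by
        rw [LFunctionTrivChar₁, Function.update_of_ne hs1, LFunctionTrivChar, LFunction_modOne_eq]
      have hL : LSeries (fun _ : ℕ => (1 : ℂ)) s = riemannZeta s := LSeries_one_eq_riemannZeta hs
      rw [hL, dslope_of_ne _ hs1, slope_def_field, hG1, hGs]
      field_simp
      ring
  have e : ∀ J : ℕ, ∑' n : ℕ, (1 : ℂ) * (w J n : ℂ) = ((∑' n, w J n : ℝ) : ℂ) := by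
    intro J
    simp only [one_mul]
    exact (Complex.ofReal_tsum _).symm
  simp_rw [e] at key
  have := (Complex.continuous_re.tendsto _).comp key
  simpa [Function.comp_def] using this

end Pool.Agent.Helper11.MT
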