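import Mathlib
import Pool.Agent.Helper11.MT.Sieve3
import Pool.Agent.Helper11.MT.Zeta

/-!
Clean bounds for the two sieve sums.
-/

open Finset Filter Topology

namespace Pool.Agent.Helper11.MT

section

variable {W R k : ℕ}

lemma gU_eq_gg (U : Finset (QT W R × Fin k)) : gU (gk k) U = gg k U := rfl

lemma QI_univ (y : Finset (QT W R × Fin k) → ℝ) : QI (gk k) univ y = EE k y := by
  unfold QI EE
  have h1 : EI (QT W R) (univ : Finset (Fin k)) = univ := by
    unfold EI
    simp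
  rw [h1, Finset.powerset_univ]
  refine Finset.sum_congr rfl fun U _ => ?_
  have h2 : yI (gk k) univ y U = y U := by
    unfold yI
    have h3 : (univ.filter (fun τ : QT W R × Fin k => τ.2 ∉ (univ : Finset (Fin k)))) = ∅ := by
      simp
    rw [h3, Finset.powerset_empty, Finset.sum_singleton, Finset.union_empty]
    unfold gU
    simp
  rw [h2]
  rfl

lemma QI_erase (y : Finset (QT W R × Fin k) → ℝ) (j : Fin k) :
    QI (gk k) (univ.erase j) y = EEj k y j := by
  unfold QI EEj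
  have h1 : EI (QT W R) (univ.erase j : Finset (Fin k)) =
      univ.filter (fun τ : QT W R × Fin k => τ.2 ≠ j) := by
    unfold EI
    refine Finset.filter_congr fun τ _ => ?_
    simp
  rw [h1]
  refine Finset.sum_congr rfl fun U _ => ?_
  have h2 : yI (gk k) (univ.erase j) y U = yj k y j U := by
    unfold yI yj
    have h3 : (univ.filter (fun τ : QT W R × Fin k => τ.2 ∉ (univ.erase j : Finset (Fin k)))) =
        univ.filter (fun τ : QT W R × Fin k => τ.2 = j) := by
      refine Finset.filter_congr fun τ _ => ?_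
      simp
    rw [h3]
    rfl
  rw [h2]
  rfl

/-- The main term of the second sum. -/
noncomputable def psi0 (W a R J : ℕ) : ℝ :=
  ∑' n, thetaR R n * w J n * (if ((a : ℕ) : ZMod W) = (n : ZMod W) then 1 else 0)

lemma Psi_none (h : Fin k → ℕ) (v : ℕ) (j : Fin k) (J : ℕ) :
    Psi h v j J (fun _ : QT W R => none) = ((psi0 W (v + h j) R J : ℝ) : ℂ) := by
  unfold Psi psi0
  rw [Complex.ofReal_tsum]
  refine tsum_congr fun n => ?_
  have h1 : Tn (fun _ : QT W R => (none : Option (Fin k))) = ∅ := Tn_empty_iff.mpr rfl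
  unfold Phi
  have h2 : ∏ p : Tn (fun _ : QT W R => (none : Option (Fin k))),
      loc h j (fun _ : QT W R => (none : Option (Fin k))) n p = 1 := by
    rw [Finset.prod_coe_sort (Tn (fun _ : QT W R => (none : Option (Fin k))))
      (fun p => loc h j (fun _ : QT W R => (none : Option (Fin k))) n p), h1, Finset.prod_empty]
  rw [h2, mul_one]
  split_ifs
  · push_cast; ring
  · push_cast; ring

/-- Lower bound for the second sieve sum. -/
theorem S2_ge [NeZero W] {h : Fin k → ℕ} (hd : Distinct W R h)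
    (hg : ∀ q : QT W R, 1 ≤ gk k q) (v : ℕ) {j : Fin k} (hv : Nat.Coprime (v + h j) W)
    (hj : h j ≤ R) {y : Finset (QT W R × Fin k) → ℝ} (hy0 : ∀ U, 0 ≤ y U)
    (hya : ∀ U V, U ⊆ V → y V ≤ y U) (hys : ∀ U, R < nn U → y U = 0)
    (hbig : ∀ p ∈ PR W R, (k : ℝ) * (2 * 4 ^ k) * (1 / p.totient) ≤ (p : ℝ) ^ (-(3 / 4) : ℝ))
    (hsum : (k : ℝ) ^ 2 * ∑ q : QT W R, 1 / (gk k q) ^ 2 ≤ 1 / 32) {J : ℕ}
    (hpsi : 3 / 4 / (W.totient : ℝ) ≤ psi0 W (v + h j) R J) (herr : Err W R J ≤ 1 / 16) :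
    EEj k y j / (4 * W.totient) ≤ S2 h v (AA (gk k) y) j J := by
  have hk : 0 < k := Fin.pos j
  have hφ : (0 : ℝ) < W.totient := by
    have := Nat.totient_pos.mpr (NeZero.pos W)
    exact_mod_cast this
  have hcard : (#(univ.erase j : Finset (Fin k)) : ℝ) ≤ k := by
    have : #(univ.erase j : Finset (Fin k)) ≤ k := by
      refine (Finset.card_erase_le).trans ?_
      rw [Finset.card_univ, Fintype.card_fin]
    exact_mod_cast this
  have hs0 : 0 ≤ ∑ q : QT W R, 1 / (gk k q) ^ 2 := Finset.sum_nonneg fun q _ => one_div_nonneg.mpr (sq_nonneg _)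
  have hcs : (#(univ.erase j : Finset (Fin k)) : ℝ) ^ 2 * ∑ q : QT W R, 1 / (gk k q) ^ 2 ≤ 1 / 32 := by
    refine le_trans ?_ hsum
    refine mul_le_mul_of_nonneg_right ?_ hs0
    exact pow_le_pow_left₀ (Nat.cast_nonneg _) hcard 2
  have h1 := S2_error hd hg v hv hj hy0 hya hys hbig J
  rw [QI_erase, Psi_none, ← Complex.ofReal_mul, ← Complex.ofReal_sub, Complex.norm_real,
    Real.norm_eq_abs] at h1
  have h2 := (abs_le.mp h1).1
  have h3 := lower (QT W R) (Fin k) (gk k) hg (univ.erase j) y hy0 hya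
  rw [QI_erase] at h3
  have hE0 : 0 ≤ EEj k y j := by
    unfold EEj
    refine Finset.sum_nonneg fun U _ => div_nonneg (sq_nonneg _) ?_
    unfold gg
    exact Finset.prod_nonneg fun τ _ => (zero_le_one.trans (hg τ.1))
  have h4 : (1 / 2 : ℝ) * EEj k y j ≤
      BB (gk k) (univ.erase j) (fun Y => (AA (gk k) y Y) ^ 2) (fun _ => none) := by
    refine le_trans ?_ h3
    refine mul_le_mul_of_nonneg_right ?_ hE0
    linarith
  have h5 : Real.exp ((#(univ.erase j : Finset (Fin k)) : ℝ) ^ 2 *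
      ∑ q : QT W R, 1 / (gk k q) ^ 2) ≤ 2 := by
    refine (Real.exp_le_exp.mpr hcs).trans ?_
    have := Real.exp_one_lt_d9
    have h6 : Real.exp (1 / 32 : ℝ) ≤ Real.exp (1 / 2) := Real.exp_le_exp.mpr (by norm_num)
    have h7 : Real.exp (1 / 2 : ℝ) ^ 2 = Real.exp 1 := by
      rw [← Real.exp_nat_mul]; norm_num
    nlinarith [Real.exp_pos (1 / 2 : ℝ)]
  have hE : 0 ≤ Err W R J := by
    unfold Err
    exact Finset.sum_nonneg fun x _ => mul_nonneg (Real.rpow_nonneg (Nat.cast_nonneg _) _) (norm_nonneg _)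
  have h8 : Real.exp ((#(univ.erase j : Finset (Fin k)) : ℝ) ^ 2 *
      ∑ q : QT W R, 1 / (gk k q) ^ 2) * EEj k y j * (1 / W.totient) * Err W R J ≤
      2 * EEj k y j * (1 / W.totient) * (1 / 16) := by
    have h9 : (0 : ℝ) ≤ 1 / W.totient := one_div_nonneg.mpr (Nat.cast_nonneg _)
    exact mul_le_mul (mul_le_mul_of_nonneg_right (mul_le_mul_of_nonneg_right h5 hE0) h9) herr hE
      (mul_nonneg (mul_nonneg zero_le_two hE0) h9)
  have h10 : (1 / 2 : ℝ) * EEj k y j * (3 / 4 / (W.totient : ℝ)) ≤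
      BB (gk k) (univ.erase j) (fun Y => (AA (gk k) y Y) ^ 2) (fun _ => none) *
        psi0 W (v + h j) R J := by
    exact mul_le_mul h4 hpsi (div_nonneg (by norm_num) (Nat.cast_nonneg _))
      (le_trans (mul_nonneg (by norm_num) hE0) h4)
  have h11 : (1 / 2 : ℝ) * EEj k y j * (3 / 4 / (W.totient : ℝ)) -
      2 * EEj k y j * (1 / W.totient) * (1 / 16) = EEj k y j / (4 * W.totient) := by
    field_simp
    ring
  linarith

/-- The first sieve sum. -/
noncomputable def S1 (h : Fin k → ℕ) (v : ℕ) (G : Finset (QT W R × Fin k) → ℝ) (J : ℕ) : ℝ :=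
  ∑' m, if m ≡ v [MOD W] then w J m * (G (Ymap h m)) ^ 2 else 0

/-- Upper bound for the first sieve sum. -/
theorem S1_le [NeZero W] {h : Fin k → ℕ} (hd : Distinct W R h)
    (hg : ∀ q : QT W R, 1 ≤ gk k q) (v : ℕ) {y : Finset (QT W R × Fin k) → ℝ} (hy0 : ∀ U, 0 ≤ y U)
    (hya : ∀ U V, U ⊆ V → y V ≤ y U)
    (hsum : (k : ℝ) ^ 2 * ∑ q : QT W R, 1 / (gk k q) ^ 2 ≤ 1 / 32) {J : ℕ}
    (hΩ : ∑' n, w J n ≤ 2) {lam : Finset (QT W R × Fin k) → ℝ}
    (hlam : ∀ Y, AA (gk k) y Y = ∑ D ∈ Y.powerset, lam D) :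
    S1 h v (AA (gk k) y) J ≤ 4 * EE k y / W + (∑ D, |lam D|) ^ 2 * (4 * ((2 / 3) ^ J * K32)) := by
  have h1 := S1_asymp hd hg v hlam J
  have h2 := (abs_le.mp h1).2
  have h3 := upper (QT W R) (Fin k) (gk k) hg univ y hy0 hya (fun _ => none)
  have hsupp : supp (fun _ : QT W R => (none : Option (Fin k))) = ∅ := by
    unfold supp; simp
  rw [QI_univ, hsupp, Finset.card_empty, pow_zero, mul_one, Finset.card_univ, Fintype.card_fin] at h3
  have h5 : Real.exp ((k : ℝ) ^ 2 * ∑ q : QT W R, 1 / (gk k q) ^ 2) ≤ 2 := by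
    refine (Real.exp_le_exp.mpr hsum).trans ?_
    have := Real.exp_one_lt_d9
    have h6 : Real.exp (1 / 32 : ℝ) ≤ Real.exp (1 / 2) := Real.exp_le_exp.mpr (by norm_num)
    have h7 : Real.exp (1 / 2 : ℝ) ^ 2 = Real.exp 1 := by
      rw [← Real.exp_nat_mul]; norm_num
    nlinarith [Real.exp_pos (1 / 2 : ℝ)]
  have hE0 : 0 ≤ EE k y := by
    unfold EE
    refine Finset.sum_nonneg fun U _ => div_nonneg (sq_nonneg _) ?_
    unfold gg
    exact Finset.prod_nonneg fun τ _ => (zero_le_one.trans (hg τ.1))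
  have hW : (0 : ℝ) < W := by exact_mod_cast NeZero.pos W
  have hΩ0 : 0 ≤ ∑' n, w J n := tsum_nonneg fun n => w_nonneg _ _
  have h4 : BB (gk k) univ (fun Y => (AA (gk k) y Y) ^ 2) (fun _ : QT W R => none) ≤ 2 * EE k y := by
    refine (le_abs_self _).trans (h3.trans ?_)
    exact mul_le_mul_of_nonneg_right h5 hE0
  have h6 : (∑' n, w J n) / W *
      BB (gk k) univ (fun Y => (AA (gk k) y Y) ^ 2) (fun _ : QT W R => none) ≤ 4 * EE k y / W := by
    calc (∑' n, w J n) / W *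
        BB (gk k) univ (fun Y => (AA (gk k) y Y) ^ 2) (fun _ : QT W R => none) ≤
        (∑' n, w J n) / W * (2 * EE k y) := by gcongr
      _ ≤ 2 / W * (2 * EE k y) := by gcongr
      _ = _ := by ring
  have h7 : S1 h v (AA (gk k) y) J ≤ (∑' n, w J n) / W *
      BB (gk k) univ (fun Y => (AA (gk k) y Y) ^ 2) (fun _ : QT W R => none) +
      (∑ D, |lam D|) ^ 2 * (4 * ((2 / 3) ^ J * K32)) := by
    unfold S1
    linarith
  linarith

end

end Pool.Agent.Helper11.MT
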