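import Mathlib
import Pool.Agent.Helper11.MT.Conv

/-!
Vaughan's identity with the kernels `w`.
-/

open Finset

namespace Pool.Agent.Helper11.MT

open ArithmeticFunction (vonMangoldt)

/-- Truncation to `n ≤ U`. -/
noncomputable def lowF (U : ℕ) (f : ArithmeticFunction ℝ) : ArithmeticFunction ℝ :=
  ⟨fun n => if n ≤ U then f n else 0, by simp⟩

/-- Truncation to `U < n`. -/
noncomputable def highF (U : ℕ) (f : ArithmeticFunction ℝ) : ArithmeticFunction ℝ :=
  ⟨fun n => if U < n then f n else 0, by simp⟩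

lemma lowF_apply (U : ℕ) (f : ArithmeticFunction ℝ) (n : ℕ) :
    lowF U f n = if n ≤ U then f n else 0 := rfl

lemma highF_apply (U : ℕ) (f : ArithmeticFunction ℝ) (n : ℕ) :
    highF U f n = if U < n then f n else 0 := rfl

lemma low_add_high (U : ℕ) (f : ArithmeticFunction ℝ) : lowF U f + highF U f = f := by
  ext n
  rw [ArithmeticFunction.add_apply, lowF_apply, highF_apply]
  by_cases h : n ≤ U
  · rw [if_pos h, if_neg (not_lt.mpr h), add_zero]
  · rw [if_neg h, if_pos (not_le.mp h), zero_add]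

/-- The Moebius function, real valued. -/
noncomputable abbrev muR : ArithmeticFunction ℝ := (ArithmeticFunction.moebius : ArithmeticFunction ℝ)

/-- The constant function one, real valued. -/
noncomputable abbrev zR : ArithmeticFunction ℝ :=
  ((ArithmeticFunction.zeta : ArithmeticFunction ℕ) : ArithmeticFunction ℝ)

lemma vaughan (U : ℕ) : (vonMangoldt : ArithmeticFunction ℝ) =
    lowF U muR * ArithmeticFunction.log + lowF U vonMangoldt
      - (lowF U muR * lowF U vonMangoldt) * zR + highF U vonMangoldt * (highF U muR * zR) := by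
  have h1 : (vonMangoldt : ArithmeticFunction ℝ) * zR = ArithmeticFunction.log :=
    ArithmeticFunction.vonMangoldt_mul_zeta
  have h2 : muR * zR = 1 := ArithmeticFunction.coe_moebius_mul_coe_zeta
  have h3 := low_add_high U vonMangoldt
  have h4 := low_add_high U muR
  have h5 : lowF U muR * ArithmeticFunction.log + lowF U vonMangoldt
      - (lowF U muR * lowF U vonMangoldt) * zR + highF U vonMangoldt * (highF U muR * zR) =
      lowF U vonMangoldt + highF U vonMangoldt * ((lowF U muR + highF U muR) * zR) +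
      (lowF U muR * ((vonMangoldt - (lowF U vonMangoldt + highF U vonMangoldt)) * zR)) := by
    rw [← h1]
    ring
  rw [h5, h4, h2, h3, sub_self, zero_mul, mul_zero, add_zero, mul_one, h3]

lemma abs_muR_le (n : ℕ) : |muR n| ≤ 1 := by
  rw [ArithmeticFunction.intCoe_apply]
  have := ArithmeticFunction.abs_moebius_le_one (n := n)
  exact_mod_cast this

lemma zR_apply (n : ℕ) : zR n = if n = 0 then 0 else 1 := by
  rw [ArithmeticFunction.natCoe_apply, ArithmeticFunction.zeta_apply]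
  split_ifs <;> simp

lemma good_zR : Good zR := by
  refine good_of_le_log fun n => ?_
  rw [zR_apply]
  have := log_nat_nonneg n
  split_ifs <;> simp <;> linarith

lemma good_muR : Good muR := by
  refine good_of_le_log fun n => ?_
  have := log_nat_nonneg n
  linarith [abs_muR_le n]

lemma good_log : Good (ArithmeticFunction.log : ArithmeticFunction ℝ) := by
  refine good_of_le_log fun n => ?_
  rw [ArithmeticFunction.log_apply, abs_of_nonneg (log_nat_nonneg n)]
  linarith

lemma good_vM : Good (vonMangoldt : ArithmeticFunction ℝ) := by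
  refine good_of_le_log fun n => ?_
  rw [abs_of_nonneg ArithmeticFunction.vonMangoldt_nonneg]
  linarith [ArithmeticFunction.vonMangoldt_le_log (n := n)]

lemma good_lowF {f : ArithmeticFunction ℝ} (hf : Good f) (U : ℕ) : Good (lowF U f) := by
  refine hf.mono fun n => ?_
  rw [lowF_apply]
  split_ifs
  · exact le_rfl
  · rw [abs_zero]; exact abs_nonneg _

lemma good_highF {f : ArithmeticFunction ℝ} (hf : Good f) (U : ℕ) : Good (highF U f) := by
  refine hf.mono fun n => ?_
  rw [highF_apply]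
  split_ifs
  · exact le_rfl
  · rw [abs_zero]; exact abs_nonneg _

section

variable {ξ : ℕ → ℂ}

lemma MM_add (hξ : ∀ n, ‖ξ n‖ ≤ 1) {f g : ArithmeticFunction ℝ} (hf : Good f) (hg : Good g)
    (J : ℕ) : MM ξ J (f + g : ArithmeticFunction ℝ) = MM ξ J f + MM ξ J g := by
  unfold MM
  rw [← Summable.tsum_add (hf.summable_MM hξ J).of_norm (hg.summable_MM hξ J).of_norm]
  refine tsum_congr fun n => ?_
  rw [ArithmeticFunction.add_apply]
  push_cast
  ring

lemma MM_neg {f : ArithmeticFunction ℝ} (J : ℕ) :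
    MM ξ J (-f : ArithmeticFunction ℝ) = - MM ξ J f := by
  unfold MM
  rw [← tsum_neg]
  refine tsum_congr fun n => ?_
  rw [ArithmeticFunction.neg_apply]
  push_cast
  ring

lemma good_neg {f : ArithmeticFunction ℝ} (hf : Good f) : Good (-f : ArithmeticFunction ℝ) := by
  refine hf.mono fun n => ?_
  rw [ArithmeticFunction.neg_apply, abs_neg]

lemma good_add {f g : ArithmeticFunction ℝ} (hf : Good f) (hg : Good g) :
    Good (f + g : ArithmeticFunction ℝ) := by
  refine Summable.of_nonneg_of_le (fun n => by positivity) (fun n => ?_)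
    (Summable.add (show Summable _ from hf) (show Summable _ from hg))
  rw [ArithmeticFunction.add_apply, ← add_mul]
  exact mul_le_mul_of_nonneg_right (abs_add_le _ _) (by positivity)

lemma norm_MM_low_le (hξ : ∀ n, ‖ξ n‖ ≤ 1) {f : ArithmeticFunction ℝ} {U : ℕ} {B : ℝ}
    (hf : ∀ n, n ≤ U → |f n| ≤ B) (hB : 0 ≤ B) (J : ℕ) :
    ‖MM ξ J (lowF U f)‖ ≤ U * (B * (1 / 2 ^ J)) := by
  have h1 : MM ξ J (lowF U f) = ∑ n ∈ Icc 1 U, ((lowF U f n : ℝ) : ℂ) * ξ n * (w J n : ℂ) := by
    unfold MM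
    refine tsum_eq_sum fun n hn => ?_
    rw [Finset.mem_Icc, not_and_or] at hn
    rcases hn with hn | hn
    · have : n = 0 := by omega
      rw [this]; simp
    · rw [lowF_apply, if_neg hn]; simp
  rw [h1]
  refine (norm_sum_le _ _).trans ?_
  have h2 : ∀ n ∈ Icc 1 U, ‖((lowF U f n : ℝ) : ℂ) * ξ n * (w J n : ℂ)‖ ≤ B * (1 / 2 ^ J) := by
    intro n hn
    rw [Finset.mem_Icc] at hn
    rw [norm_mul, norm_mul, Complex.norm_real, Complex.norm_real, Real.norm_eq_abs,
      Real.norm_eq_abs, abs_of_nonneg (w_nonneg _ _), lowF_apply, if_pos hn.2]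
    refine mul_le_mul ?_ (w_le_two_pow J n) (w_nonneg _ _) hB
    exact (mul_le_of_le_one_right (abs_nonneg _) (hξ n)).trans (hf n hn.2)
  refine (Finset.sum_le_sum h2).trans ?_
  rw [Finset.sum_const, Nat.card_Icc, nsmul_eq_mul]
  simp

lemma norm_MM_typeI_zR (hξ : ∀ n, ‖ξ n‖ ≤ 1) (hmul : ∀ a b, ξ (a * b) = ξ a * ξ b) {Q : ℝ}
    (hQ : ∀ N, ‖∑ n ∈ range N, ξ n‖ ≤ Q) {f : ArithmeticFunction ℝ} {D : ℕ}
    (hf : ∀ n, D < n → f n = 0) {B : ℝ} (hB : ∀ n, |f n| ≤ B) (J : ℕ) :
    ‖MM ξ J (f * zR : ArithmeticFunction ℝ)‖ ≤ D * (B * (4 * Q * ((2 / 3) ^ J * K32))) := by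
  rw [MM_conv_fin hξ hmul hf good_zR J]
  refine (norm_sum_le _ _).trans ?_
  have h2 : ∀ a ∈ Icc 1 D, ‖(f a : ℂ) * ξ a * ∑' b : ℕ, (zR b : ℂ) * ξ b * (w J (a * b) : ℂ)‖ ≤
      B * (4 * Q * ((2 / 3) ^ J * K32)) := by
    intro a ha
    rw [Finset.mem_Icc] at ha
    have e : ∑' b : ℕ, (zR b : ℂ) * ξ b * (w J (a * b) : ℂ) =
        ∑' b : ℕ, ξ b * (w J (a * b) : ℂ) := by
      refine tsum_congr fun b => ?_
      rw [zR_apply]
      split_ifs with hb
      · rw [hb, mul_zero, w_zero_right]; simp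
      · push_cast; ring
    rw [norm_mul, norm_mul, Complex.norm_real, Real.norm_eq_abs, e]
    have h3 := norm_tsum_psi_w_scaled hQ hξ J ha.1
    refine mul_le_mul ?_ h3 (norm_nonneg _) ((abs_nonneg _).trans (hB 0))
    exact (mul_le_of_le_one_right (abs_nonneg _) (hξ a)).trans (hB a)
  refine (Finset.sum_le_sum h2).trans ?_
  rw [Finset.sum_const, Nat.card_Icc, nsmul_eq_mul]
  simp

lemma norm_MM_typeI_log (hξ : ∀ n, ‖ξ n‖ ≤ 1) (hmul : ∀ a b, ξ (a * b) = ξ a * ξ b) {Q : ℝ}
    (hQ : ∀ N, ‖∑ n ∈ range N, ξ n‖ ≤ Q) {f : ArithmeticFunction ℝ} {D : ℕ}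
    (hf : ∀ n, D < n → f n = 0) {B : ℝ} (hB : ∀ n, |f n| ≤ B) (J : ℕ) :
    ‖MM ξ J (f * ArithmeticFunction.log : ArithmeticFunction ℝ)‖ ≤
      D * (B * (4 * Q * ((J + 1) * ((2 / 3) ^ (J + 1) * K32)))) := by
  rw [MM_conv_fin hξ hmul hf good_log J]
  refine (norm_sum_le _ _).trans ?_
  have h2 : ∀ a ∈ Icc 1 D, ‖(f a : ℂ) * ξ a *
      ∑' b : ℕ, ((ArithmeticFunction.log b : ℝ) : ℂ) * ξ b * (w J (a * b) : ℂ)‖ ≤
      B * (4 * Q * ((J + 1) * ((2 / 3) ^ (J + 1) * K32))) := by
    intro a ha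
    rw [Finset.mem_Icc] at ha
    have e : ∑' b : ℕ, ((ArithmeticFunction.log b : ℝ) : ℂ) * ξ b * (w J (a * b) : ℂ) =
        ∑' b : ℕ, ξ b * ((Real.log b * w J (a * b) : ℝ) : ℂ) := by
      refine tsum_congr fun b => ?_
      rw [ArithmeticFunction.log_apply]
      push_cast; ring
    rw [norm_mul, norm_mul, Complex.norm_real, Real.norm_eq_abs, e]
    have h3 := norm_tsum_psi_log_w_scaled hQ hξ J ha.1
    refine mul_le_mul ?_ h3 (norm_nonneg _) ((abs_nonneg _).trans (hB 0))
    exact (mul_le_of_le_one_right (abs_nonneg _) (hξ a)).trans (hB a)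
  refine (Finset.sum_le_sum h2).trans ?_
  rw [Finset.sum_const, Nat.card_Icc, nsmul_eq_mul]
  simp

/-- The coefficient of the type I sum in Vaughan's identity. -/
lemma low_mul_low_zero {U n : ℕ} (hn : U ^ 2 < n) :
    (lowF U muR * lowF U vonMangoldt : ArithmeticFunction ℝ) n = 0 := by
  rw [ArithmeticFunction.mul_apply]
  refine Finset.sum_eq_zero fun p hp => ?_
  rw [lowF_apply, lowF_apply]
  by_cases h1 : p.1 ≤ U
  · by_cases h2 : p.2 ≤ U
    · exfalso
      have h3 := (Nat.mem_divisorsAntidiagonal.mp hp).1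
      have h4 : p.1 * p.2 ≤ U * U := Nat.mul_le_mul h1 h2
      rw [h3] at h4
      rw [pow_two] at hn
      omega
    · rw [if_neg h2, mul_zero]
  · rw [if_neg h1, zero_mul]

lemma abs_low_mul_low_le (U n : ℕ) :
    |(lowF U muR * lowF U vonMangoldt : ArithmeticFunction ℝ) n| ≤ (U : ℝ) ^ 2 := by
  by_cases hn : U ^ 2 < n
  · rw [low_mul_low_zero hn, abs_zero]
    positivity
  · push Not at hn
    rw [ArithmeticFunction.mul_apply]
    refine (Finset.abs_sum_le_sum_abs _ _).trans ?_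
    have h1 : ∀ p ∈ n.divisorsAntidiagonal, |lowF U muR p.1 * lowF U vonMangoldt p.2| ≤
        vonMangoldt p.2 := by
      intro p _
      rw [abs_mul]
      have h2 : |lowF U muR p.1| ≤ 1 := by
        rw [lowF_apply]
        split_ifs
        · exact abs_muR_le _
        · simp
      have h3 : |lowF U vonMangoldt p.2| ≤ vonMangoldt p.2 := by
        rw [lowF_apply]
        split_ifs
        · rw [abs_of_nonneg ArithmeticFunction.vonMangoldt_nonneg]
        · rw [abs_zero]; exact ArithmeticFunction.vonMangoldt_nonneg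
      calc |lowF U muR p.1| * |lowF U vonMangoldt p.2| ≤ 1 * vonMangoldt p.2 :=
            mul_le_mul h2 h3 (abs_nonneg _) zero_le_one
        _ = _ := one_mul _
    refine (Finset.sum_le_sum h1).trans ?_
    rw [Nat.sum_divisorsAntidiagonal' (f := fun _ b => vonMangoldt b),
      ArithmeticFunction.vonMangoldt_sum]
    rcases Nat.eq_zero_or_pos n with rfl | hn0
    · simp
    · have h4 : Real.log n ≤ n := (Real.log_le_sub_one_of_pos (by exact_mod_cast hn0)).trans (by linarith)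
      refine h4.trans ?_
      exact_mod_cast hn

/-- Vaughan's identity as an inequality. -/
lemma norm_MM_vM_le (hξ : ∀ n, ‖ξ n‖ ≤ 1) (hmul : ∀ a b, ξ (a * b) = ξ a * ξ b) {Q : ℝ}
    (hQ1 : 1 ≤ Q) (hQ : ∀ N, ‖∑ n ∈ range N, ξ n‖ ≤ Q) {U : ℕ} (hU : 1 ≤ U) (J : ℕ) :
    ‖MM ξ J vonMangoldt‖ ≤ (8 * K32 + 1) * (Q * U ^ 4 * ((J + 1) * (2 / 3) ^ J)) +
      ∑ ij ∈ antidiagonal J, ‖MM ξ ij.1 (highF U vonMangoldt)‖ *
        ‖MM ξ ij.2 (highF U muR * zR : ArithmeticFunction ℝ)‖ := by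
  have hU' : (1 : ℝ) ≤ U := by exact_mod_cast hU
  have hK := K32_nonneg
  have g1 : Good (lowF U muR * ArithmeticFunction.log : ArithmeticFunction ℝ) :=
    (good_lowF good_muR U).conv good_log
  have g2 : Good (lowF U vonMangoldt) := good_lowF good_vM U
  have g3 : Good ((lowF U muR * lowF U vonMangoldt) * zR : ArithmeticFunction ℝ) :=
    ((good_lowF good_muR U).conv g2).conv good_zR
  have g4' : Good (highF U muR * zR : ArithmeticFunction ℝ) := (good_highF good_muR U).conv good_zR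
  have g4 : Good (highF U vonMangoldt * (highF U muR * zR) : ArithmeticFunction ℝ) :=
    (good_highF good_vM U).conv g4'
  have e1 : MM ξ J vonMangoldt = MM ξ J (lowF U muR * ArithmeticFunction.log : ArithmeticFunction ℝ)
      + MM ξ J (lowF U vonMangoldt)
      + -MM ξ J ((lowF U muR * lowF U vonMangoldt) * zR : ArithmeticFunction ℝ)
      + MM ξ J (highF U vonMangoldt * (highF U muR * zR) : ArithmeticFunction ℝ) := by
    conv_lhs => rw [vaughan U]
    rw [sub_eq_add_neg, MM_add hξ (good_add (good_add g1 g2) (good_neg g3)) g4,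
      MM_add hξ (good_add g1 g2) (good_neg g3), MM_add hξ g1 g2, MM_neg]
  have b1 : ‖MM ξ J (lowF U muR * ArithmeticFunction.log : ArithmeticFunction ℝ)‖ ≤
      4 * K32 * (Q * U ^ 4 * ((J + 1) * (2 / 3) ^ J)) := by
    refine (norm_MM_typeI_log hξ hmul hQ (D := U) (B := 1) (fun n hn => ?_) (fun n => ?_) J).trans ?_
    · rw [lowF_apply, if_neg (by omega)]
    · rw [lowF_apply]
      split_ifs
      · exact abs_muR_le _
      · simp
    · have h1 : (U : ℝ) ≤ U ^ 4 := by
        calc (U : ℝ) = U ^ 1 := (pow_one _).symm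
          _ ≤ U ^ 4 := pow_le_pow_right₀ hU' (by norm_num)
      have h2 : (2 / 3 : ℝ) ^ (J + 1) ≤ (2 / 3) ^ J := by
        rw [pow_succ]
        have : (0 : ℝ) < (2 / 3) ^ J := by positivity
        linarith
      calc (U : ℝ) * (1 * (4 * Q * ((J + 1) * ((2 / 3) ^ (J + 1) * K32)))) ≤
          U ^ 4 * (1 * (4 * Q * ((J + 1) * ((2 / 3) ^ J * K32)))) := by gcongr
        _ = _ := by ring
  have b2 : ‖MM ξ J (lowF U vonMangoldt)‖ ≤ 1 * (Q * U ^ 4 * ((J + 1) * (2 / 3) ^ J)) := by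
    refine (norm_MM_low_le hξ (B := U) (fun n hn => ?_) (by positivity) J).trans ?_
    · rw [abs_of_nonneg ArithmeticFunction.vonMangoldt_nonneg]
      refine (ArithmeticFunction.vonMangoldt_le_log (n := n)).trans ?_
      rcases Nat.eq_zero_or_pos n with rfl | hn0
      · simp
      · have h4 : Real.log n ≤ n :=
          (Real.log_le_sub_one_of_pos (by exact_mod_cast hn0)).trans (by linarith)
        refine h4.trans ?_
        exact_mod_cast hn
    · have h1 : (U : ℝ) * U ≤ U ^ 4 := by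
        calc (U : ℝ) * U = U ^ 2 := by ring
          _ ≤ U ^ 4 := pow_le_pow_right₀ hU' (by norm_num)
      have h2 : 1 / (2 : ℝ) ^ J ≤ (2 / 3) ^ J := by
        rw [one_div, ← inv_pow]
        exact pow_le_pow_left₀ (by norm_num) (by norm_num) J
      calc (U : ℝ) * (U * (1 / 2 ^ J)) = (U * U) * (1 / 2 ^ J) := by ring
        _ ≤ U ^ 4 * ((2 / 3) ^ J) := by gcongr
        _ ≤ U ^ 4 * ((2 / 3) ^ J) * (Q * (J + 1)) := by
          refine le_mul_of_one_le_right (by positivity) ?_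
          have : (1 : ℝ) ≤ J + 1 := by linarith [Nat.cast_nonneg (α := ℝ) J]
          exact one_le_mul_of_one_le_of_one_le hQ1 this
        _ = _ := by ring
  have b3 : ‖MM ξ J ((lowF U muR * lowF U vonMangoldt) * zR : ArithmeticFunction ℝ)‖ ≤
      4 * K32 * (Q * U ^ 4 * ((J + 1) * (2 / 3) ^ J)) := by
    refine (norm_MM_typeI_zR hξ hmul hQ (D := U ^ 2) (B := (U : ℝ) ^ 2)
      (fun n hn => low_mul_low_zero hn) (fun n => abs_low_mul_low_le U n) J).trans ?_
    have : (1 : ℝ) ≤ J + 1 := by linarith [Nat.cast_nonneg (α := ℝ) J]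
    calc ((U ^ 2 : ℕ) : ℝ) * ((U : ℝ) ^ 2 * (4 * Q * ((2 / 3) ^ J * K32))) =
        4 * K32 * (Q * U ^ 4 * (2 / 3) ^ J) := by push_cast; ring
      _ ≤ 4 * K32 * (Q * U ^ 4 * (2 / 3) ^ J) * (J + 1) := by
        refine le_mul_of_one_le_right (by positivity) this
      _ = _ := by ring
  have b4 : ‖MM ξ J (highF U vonMangoldt * (highF U muR * zR) : ArithmeticFunction ℝ)‖ ≤
      ∑ ij ∈ antidiagonal J, ‖MM ξ ij.1 (highF U vonMangoldt)‖ *
        ‖MM ξ ij.2 (highF U muR * zR : ArithmeticFunction ℝ)‖ := by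
    rw [MM_conv hξ hmul (good_highF good_vM U) g4' J]
    refine (norm_sum_le _ _).trans (Finset.sum_le_sum fun ij _ => ?_)
    rw [norm_mul]
  rw [e1]
  refine (norm_add_le _ _).trans ?_
  refine (add_le_add ((norm_add_le _ _).trans (add_le_add (norm_add_le _ _) (norm_neg _).le)) b4).trans ?_
  have : (8 * K32 + 1) * (Q * U ^ 4 * ((J + 1) * (2 / 3) ^ J)) =
    4 * K32 * (Q * U ^ 4 * ((J + 1) * (2 / 3) ^ J)) + 1 * (Q * U ^ 4 * ((J + 1) * (2 / 3) ^ J)) +
    4 * K32 * (Q * U ^ 4 * ((J + 1) * (2 / 3) ^ J)) := by ring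
  rw [this]
  gcongr

end

end Pool.Agent.Helper11.MT
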