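import Mathlib
import Pool.Agent.Helper11.MT.Family
import Pool.Agent.Helper11.MT.Vaughan

/-!
The mean value of the von Mangoldt sums over the whole family, up to a power of `J`.
-/

open Finset Filter Topology

namespace Pool.Agent.Helper11.MT

open ArithmeticFunction (vonMangoldt)

lemma log_mul_w (i n : ℕ) : Real.log n * w i n = (i + 1) * w (i + 1) n := by
  unfold w
  rw [Nat.factorial_succ]
  push_cast
  have h1 : ((i : ℝ) + 1) ≠ 0 := by positivity
  have h2 : ((i.factorial : ℕ) : ℝ) ≠ 0 := by positivity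
  by_cases hn : (n : ℝ) = 0
  · simp [hn]
  · field_simp
    ring

/-- Uniform bound for the von Mangoldt masses. -/
lemma exists_Lambda_bound : ∃ B : ℝ, 1 ≤ B ∧ ∀ i : ℕ, ∑' n, vonMangoldt n * w i n ≤ B := by
  have h := tendsto_twist_one 1
  have h1 : ∀ J : ℕ, ∑' n : ℕ, ((1 : DirichletCharacter ℂ 1) n * (vonMangoldt n : ℂ)) * (w J n : ℂ)
      = ((∑' n, vonMangoldt n * w J n : ℝ) : ℂ) := by
    intro J
    rw [Complex.ofReal_tsum]
    refine tsum_congr fun n => ?_
    have : (1 : DirichletCharacter ℂ 1) (n : ZMod 1) = 1 := by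
      rw [Subsingleton.elim (n : ZMod 1) 1, map_one]
    rw [this, one_mul]
    push_cast
    rfl
  simp_rw [h1] at h
  have h2 : Tendsto (fun J : ℕ => ∑' n, vonMangoldt n * w J n) atTop (𝓝 1) := by
    have := (Complex.continuous_re.tendsto _).comp h
    simpa [Function.comp_def] using this
  obtain ⟨B, hB⟩ := h2.bddAbove_range
  refine ⟨max B 1, le_max_right _ _, fun i => ?_⟩
  exact (hB ⟨i, rfl⟩).trans (le_max_left _ _)

lemma summable_vM_w (i : ℕ) : Summable fun n => vonMangoldt n * w i n := by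
  refine (good_vM.summable_w i).congr fun n => ?_
  rw [abs_of_nonneg ArithmeticFunction.vonMangoldt_nonneg]

lemma vM_sq_mul_w_le (i n : ℕ) :
    (vonMangoldt n) ^ 2 * w i n ≤ (i + 1) * (vonMangoldt n * w (i + 1) n) := by
  have h1 : (0 : ℝ) ≤ vonMangoldt n := ArithmeticFunction.vonMangoldt_nonneg
  have h2 : vonMangoldt n ≤ Real.log n := ArithmeticFunction.vonMangoldt_le_log
  have h3 := w_nonneg i n
  calc (vonMangoldt n) ^ 2 * w i n = vonMangoldt n * (vonMangoldt n * w i n) := by ring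
    _ ≤ vonMangoldt n * (Real.log n * w i n) := by gcongr
    _ = _ := by rw [log_mul_w]; ring

lemma summable_highvM_sq (U i : ℕ) :
    Summable fun n => ‖((highF U vonMangoldt n : ℝ) : ℂ)‖ ^ 2 * w i n := by
  refine Summable.of_nonneg_of_le (fun n => mul_nonneg (by positivity) (w_nonneg _ _))
    (fun n => ?_) ((summable_vM_w (i + 1)).mul_left ((i : ℝ) + 1))
  refine le_trans ?_ (vM_sq_mul_w_le i n)
  rw [Complex.norm_real, Real.norm_eq_abs, sq_abs, highF_apply]
  refine mul_le_mul_of_nonneg_right ?_ (w_nonneg _ _)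
  split_ifs
  · exact le_rfl
  · rw [zero_pow two_ne_zero]; positivity

lemma tsum_highvM_sq_le {BL : ℝ} (hBL : ∀ i : ℕ, ∑' n, vonMangoldt n * w i n ≤ BL) (U i : ℕ) :
    ∑' n, ‖((highF U vonMangoldt n : ℝ) : ℂ)‖ ^ 2 * w i n ≤ (i + 1) * BL := by
  have h1 : ∑' n, ‖((highF U vonMangoldt n : ℝ) : ℂ)‖ ^ 2 * w i n ≤
      ∑' n, ((i : ℝ) + 1) * (vonMangoldt n * w (i + 1) n) := by
    refine Summable.tsum_le_tsum (fun n => ?_) (summable_highvM_sq U i)
      ((summable_vM_w (i + 1)).mul_left ((i : ℝ) + 1))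
    refine le_trans ?_ (vM_sq_mul_w_le i n)
    rw [Complex.norm_real, Real.norm_eq_abs, sq_abs, highF_apply]
    refine mul_le_mul_of_nonneg_right ?_ (w_nonneg _ _)
    split_ifs
    · exact le_rfl
    · rw [zero_pow two_ne_zero]; positivity
  refine h1.trans ?_
  rw [tsum_mul_left]
  exact mul_le_mul_of_nonneg_left (hBL (i + 1)) (by positivity)

/-- The divisor function, real valued. -/
noncomputable abbrev tauR : ArithmeticFunction ℝ := zR * zR

lemma tauR_apply (n : ℕ) : tauR n = (#n.divisors : ℝ) := by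
  rw [ArithmeticFunction.mul_apply]
  have h1 : ∀ p ∈ n.divisorsAntidiagonal, zR p.1 * zR p.2 = 1 := by
    intro p hp
    have := Nat.ne_zero_of_mem_divisorsAntidiagonal hp
    rw [zR_apply, zR_apply, if_neg this.1, if_neg this.2, one_mul]
  rw [Finset.sum_congr rfl h1, Finset.sum_const, nsmul_eq_mul, mul_one,
    ← Nat.map_div_right_divisors, Finset.card_map]

lemma tau_mul_le (a b : ℕ) : #(a * b).divisors ≤ #a.divisors * #b.divisors := by
  rw [Nat.divisors_mul]
  exact Finset.card_mul_le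

lemma tau_sq_le (n : ℕ) : (tauR n) ^ 2 ≤ (tauR * tauR : ArithmeticFunction ℝ) n := by
  have h1 : (tauR n) ^ 2 = ∑ p ∈ n.divisorsAntidiagonal, tauR n := by
    rw [Finset.sum_const, nsmul_eq_mul, ← Nat.map_div_right_divisors, Finset.card_map, pow_two,
      tauR_apply]
  have h0 := ArithmeticFunction.mul_apply (f := tauR) (g := tauR) (n := n)
  rw [h0, h1]
  refine Finset.sum_le_sum fun p hp => ?_
  have h2 := (Nat.mem_divisorsAntidiagonal.mp hp).1
  rw [tauR_apply, tauR_apply, tauR_apply, ← h2]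
  exact_mod_cast tau_mul_le p.1 p.2

lemma MM_one_real {f : ArithmeticFunction ℝ} (J : ℕ) :
    MM (fun _ => 1) J f = ((∑' n, f n * w J n : ℝ) : ℂ) := by
  unfold MM
  rw [Complex.ofReal_tsum]
  refine tsum_congr fun n => ?_
  push_cast
  ring

lemma tsum_conv_real {f g : ArithmeticFunction ℝ} (hf : Good f) (hg : Good g) (J : ℕ) :
    ∑' n, (f * g : ArithmeticFunction ℝ) n * w J n =
      ∑ ij ∈ antidiagonal J, (∑' n, f n * w ij.1 n) * ∑' n, g n * w ij.2 n := by
  have h := MM_conv (ξ := fun _ => 1) (fun _ => by simp) (fun _ _ => by simp) hf hg J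
  rw [MM_one_real] at h
  have h2 : ∑ ij ∈ antidiagonal J, MM (fun _ => 1) ij.1 f * MM (fun _ => 1) ij.2 g =
      ((∑ ij ∈ antidiagonal J, (∑' n, f n * w ij.1 n) * ∑' n, g n * w ij.2 n : ℝ) : ℂ) := by
    push_cast
    refine Finset.sum_congr rfl fun ij _ => ?_
    rw [MM_one_real, MM_one_real]
    push_cast
    rfl
  rw [h2] at h
  exact_mod_cast h

lemma tsum_zR_w (i : ℕ) : ∑' n, zR n * w i n = ∑' n, w i n := by
  refine tsum_congr fun n => ?_
  rw [zR_apply]
  split_ifs with h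
  · rw [h, w_zero_right, mul_zero]
  · rw [one_mul]

lemma zR_nonneg (n : ℕ) : 0 ≤ zR n := by
  rw [zR_apply]; split_ifs <;> norm_num

lemma tsum_tau_w_le {B : ℝ} (hB1 : 1 ≤ B) (hB : ∀ i : ℕ, ∑' n, w i n ≤ B) (i : ℕ) :
    ∑' n, tauR n * w i n ≤ (i + 1) * B ^ 2 := by
  rw [tsum_conv_real good_zR good_zR i]
  calc ∑ ij ∈ antidiagonal i, (∑' n, zR n * w ij.1 n) * ∑' n, zR n * w ij.2 n ≤
      ∑ ij ∈ antidiagonal i, B * B := by
        refine Finset.sum_le_sum fun ij _ => ?_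
        rw [tsum_zR_w, tsum_zR_w]
        exact mul_le_mul (hB _) (hB _) (tsum_nonneg fun n => w_nonneg _ _) (by linarith)
    _ = (i + 1) * B ^ 2 := by
      rw [Finset.sum_const, Finset.Nat.card_antidiagonal, nsmul_eq_mul]
      push_cast
      ring

lemma tauR_nonneg (n : ℕ) : 0 ≤ tauR n := by
  rw [tauR_apply]; positivity

lemma tsum_tau_tau_w_le {B : ℝ} (hB1 : 1 ≤ B) (hB : ∀ i : ℕ, ∑' n, w i n ≤ B) (i : ℕ) :
    ∑' n, (tauR * tauR : ArithmeticFunction ℝ) n * w i n ≤ (i + 1) ^ 3 * B ^ 4 := by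
  have hg : Good tauR := good_zR.conv good_zR
  rw [tsum_conv_real hg hg i]
  calc ∑ ij ∈ antidiagonal i, (∑' n, tauR n * w ij.1 n) * ∑' n, tauR n * w ij.2 n ≤
      ∑ ij ∈ antidiagonal i, (((i : ℝ) + 1) * B ^ 2) * (((i : ℝ) + 1) * B ^ 2) := by
        refine Finset.sum_le_sum fun ij hij => ?_
        rw [HasAntidiagonal.mem_antidiagonal] at hij
        have h1 : (ij.1 : ℝ) ≤ i := by exact_mod_cast (by omega : ij.1 ≤ i)
        have h2 : (ij.2 : ℝ) ≤ i := by exact_mod_cast (by omega : ij.2 ≤ i)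
        have h3 := tsum_tau_w_le hB1 hB ij.1
        have h4 := tsum_tau_w_le hB1 hB ij.2
        refine mul_le_mul (h3.trans ?_) (h4.trans ?_)
          (tsum_nonneg fun n => mul_nonneg (tauR_nonneg n) (w_nonneg _ _)) (by positivity)
        · gcongr
        · gcongr
    _ = (i + 1) ^ 3 * B ^ 4 := by
      rw [Finset.sum_const, Finset.Nat.card_antidiagonal, nsmul_eq_mul]
      push_cast
      ring

lemma abs_highmu_conv_le (U n : ℕ) :
    |(highF U muR * zR : ArithmeticFunction ℝ) n| ≤ tauR n := by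
  rw [ArithmeticFunction.mul_apply, ArithmeticFunction.mul_apply]
  refine (Finset.abs_sum_le_sum_abs _ _).trans (Finset.sum_le_sum fun p hp => ?_)
  have := Nat.ne_zero_of_mem_divisorsAntidiagonal hp
  rw [abs_mul, zR_apply, zR_apply, if_neg this.1, if_neg this.2, abs_one, mul_one, mul_one,
    highF_apply]
  split_ifs
  · exact abs_muR_le _
  · simp

lemma highmu_conv_zero {U n : ℕ} (hn : n ≤ U) :
    (highF U muR * zR : ArithmeticFunction ℝ) n = 0 := by
  rw [ArithmeticFunction.mul_apply]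
  refine Finset.sum_eq_zero fun p hp => ?_
  rw [highF_apply]
  obtain ⟨h1, h2⟩ := Nat.mem_divisorsAntidiagonal.mp hp
  have h3 : p.1 ≤ n := Nat.le_of_dvd (Nat.pos_of_ne_zero h2) ⟨p.2, h1.symm⟩
  rw [if_neg (by omega), zero_mul]

lemma highmu_sq_le (U i n : ℕ) :
    ‖(((highF U muR * zR : ArithmeticFunction ℝ) n : ℝ) : ℂ)‖ ^ 2 * w i n ≤
      (tauR * tauR : ArithmeticFunction ℝ) n * w i n := by
  refine mul_le_mul_of_nonneg_right ?_ (w_nonneg _ _)
  rw [Complex.norm_real, Real.norm_eq_abs]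
  refine le_trans ?_ (tau_sq_le n)
  exact pow_le_pow_left₀ (abs_nonneg _) (abs_highmu_conv_le U n) 2

lemma summable_tau_tau (i : ℕ) : Summable fun n => (tauR * tauR : ArithmeticFunction ℝ) n * w i n := by
  have hg : Good tauR := good_zR.conv good_zR
  refine ((hg.conv hg).summable_w i).congr fun n => ?_
  rw [abs_of_nonneg]
  exact (sq_nonneg _).trans (tau_sq_le n)

lemma summable_highmu_sq (U i : ℕ) :
    Summable fun n => ‖(((highF U muR * zR : ArithmeticFunction ℝ) n : ℝ) : ℂ)‖ ^ 2 * w i n :=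
  Summable.of_nonneg_of_le (fun n => mul_nonneg (by positivity) (w_nonneg _ _))
    (fun n => highmu_sq_le U i n) (summable_tau_tau i)

lemma tsum_highmu_sq_le {B : ℝ} (hB1 : 1 ≤ B) (hB : ∀ i : ℕ, ∑' n, w i n ≤ B) (U i : ℕ) :
    ∑' n, ‖(((highF U muR * zR : ArithmeticFunction ℝ) n : ℝ) : ℂ)‖ ^ 2 * w i n ≤
      (i + 1) ^ 3 * B ^ 4 :=
  (Summable.tsum_le_tsum (highmu_sq_le U i) (summable_highmu_sq U i) (summable_tau_tau i)).trans
    (tsum_tau_tau_w_le hB1 hB i)

/-- Mean values of the two factors of the type II sums. -/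
lemma mean_A {W R : ℕ} [NeZero W] {B BL : ℝ} (hB1 : 1 ≤ B) (hB : ∀ i : ℕ, ∑' n, w i n ≤ B)
    (hBL : ∀ i : ℕ, ∑' n, vonMangoldt n * w i n ≤ BL) {U : ℕ} (hU : 8 * W ^ 2 * R ^ 8 ≤ U)
    (i : ℕ) :
    ∑ x ∈ FX W R, ‖MM (xs x) i (highF U vonMangoldt)‖ ^ 2 ≤ (B + 1) * ((i + 1) * BL) := by
  have h1 := mean_value hB1 hB hU i (fun n => ((highF U vonMangoldt n : ℝ) : ℂ)) (fun n hn => by
    rw [highF_apply, if_neg (by omega)]; simp) (summable_highvM_sq U i)
  have h2 : ∀ x ∈ FX W R, ‖MM (xs x) i (highF U vonMangoldt)‖ ^ 2 =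
      ‖∑' n, ((highF U vonMangoldt n : ℝ) : ℂ) * (w i n : ℂ) * xs x n‖ ^ 2 := by
    intro x _
    unfold MM
    congr 2
    refine tsum_congr fun n => ?_
    ring
  rw [Finset.sum_congr rfl h2]
  refine h1.trans ?_
  exact mul_le_mul_of_nonneg_left (tsum_highvM_sq_le hBL U i) (by linarith)

lemma mean_B {W R : ℕ} [NeZero W] {B : ℝ} (hB1 : 1 ≤ B) (hB : ∀ i : ℕ, ∑' n, w i n ≤ B)
    {U : ℕ} (hU : 8 * W ^ 2 * R ^ 8 ≤ U) (i : ℕ) :
    ∑ x ∈ FX W R, ‖MM (xs x) i (highF U muR * zR : ArithmeticFunction ℝ)‖ ^ 2 ≤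
      (B + 1) * ((i + 1) ^ 3 * B ^ 4) := by
  have h1 := mean_value hB1 hB hU i
    (fun n => (((highF U muR * zR : ArithmeticFunction ℝ) n : ℝ) : ℂ)) (fun n hn => by
    rw [highmu_conv_zero hn]; simp) (summable_highmu_sq U i)
  have h2 : ∀ x ∈ FX W R, ‖MM (xs x) i (highF U muR * zR : ArithmeticFunction ℝ)‖ ^ 2 =
      ‖∑' n, (((highF U muR * zR : ArithmeticFunction ℝ) n : ℝ) : ℂ) * (w i n : ℂ) * xs x n‖ ^ 2 := by
    intro x _
    unfold MM
    congr 2
    refine tsum_congr fun n => ?_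
    ring
  rw [Finset.sum_congr rfl h2]
  refine h1.trans ?_
  exact mul_le_mul_of_nonneg_left (tsum_highmu_sq_le hB1 hB U i) (by linarith)

/-- The mean value of the von Mangoldt sums over the nontrivial part of the family. -/
theorem sum_family_le {W R : ℕ} [NeZero W] (hR : 1 ≤ R) {B BL : ℝ} (hB1 : 1 ≤ B)
    (hB : ∀ i : ℕ, ∑' n, w i n ≤ B) (hBL1 : 1 ≤ BL)
    (hBL : ∀ i : ℕ, ∑' n, vonMangoldt n * w i n ≤ BL) {U : ℕ} (hU : 8 * W ^ 2 * R ^ 8 ≤ U)
    (J : ℕ) :
    ∑ x ∈ (FX W R).filter (fun x => x.1.Nonempty), ‖MM (xs x) J vonMangoldt‖ ≤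
      (8 * K32 + 1) * (W ^ 2 * R ^ 6 * U ^ 4 * ((J + 1) * (2 / 3) ^ J)) +
        (B + 1) * (BL * B ^ 4) * (J + 1) ^ 3 := by
  have hU1 : 1 ≤ U := by
    refine le_trans ?_ hU
    have : 0 < W := NeZero.pos W
    have h0 : 0 < 8 * W ^ 2 * R ^ 8 := by positivity
    exact h0
  have hK := K32_nonneg
  have hJ : (1 : ℝ) ≤ J + 1 := by linarith [Nat.cast_nonneg (α := ℝ) J]
  have h1 : ∀ x ∈ (FX W R).filter (fun x => x.1.Nonempty), ‖MM (xs x) J vonMangoldt‖ ≤
      (8 * K32 + 1) * (((W * R ^ 2 : ℕ) : ℝ) * U ^ 4 * ((J + 1) * (2 / 3) ^ J)) +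
      ∑ ij ∈ antidiagonal J, ‖MM (xs x) ij.1 (highF U vonMangoldt)‖ *
        ‖MM (xs x) ij.2 (highF U muR * zR : ArithmeticFunction ℝ)‖ := by
    intro x hx
    rw [Finset.mem_filter] at hx
    obtain ⟨hm, hc⟩ := xs_char hx.1 hx.2
    refine norm_MM_vM_le (norm_xs_le x) hm ?_ (fun N => (hc N).trans ?_) hU1 J
    · have : 1 ≤ W * R ^ 2 := Nat.mul_pos (NeZero.pos W) (by positivity)
      exact_mod_cast this
    · have := Nat.mul_le_mul_left W (mem_TS.mp (mem_FX.mp hx.1)).2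
      exact_mod_cast this
  refine (Finset.sum_le_sum h1).trans ?_
  rw [Finset.sum_add_distrib]
  refine add_le_add ?_ ?_
  · rw [Finset.sum_const, nsmul_eq_mul]
    have h2 : (#((FX W R).filter (fun x => x.1.Nonempty)) : ℝ) ≤ ((W * R ^ 4 : ℕ) : ℝ) := by
      have := (Finset.card_le_card (Finset.filter_subset (fun x => x.1.Nonempty) (FX W R))).trans
        (card_FX_le W R)
      exact_mod_cast this
    calc (#((FX W R).filter (fun x => x.1.Nonempty)) : ℝ) *
        ((8 * K32 + 1) * (((W * R ^ 2 : ℕ) : ℝ) * U ^ 4 * ((J + 1) * (2 / 3) ^ J))) ≤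
        ((W * R ^ 4 : ℕ) : ℝ) *
        ((8 * K32 + 1) * (((W * R ^ 2 : ℕ) : ℝ) * U ^ 4 * ((J + 1) * (2 / 3) ^ J))) := by gcongr
      _ = _ := by push_cast; ring
  · rw [Finset.sum_comm]
    have h3 : ∀ ij ∈ antidiagonal J, ∑ x ∈ (FX W R).filter (fun x => x.1.Nonempty),
        ‖MM (xs x) ij.1 (highF U vonMangoldt)‖ *
        ‖MM (xs x) ij.2 (highF U muR * zR : ArithmeticFunction ℝ)‖ ≤
        (B + 1) * (BL * B ^ 4) * (J + 1) ^ 2 := by
      intro ij hij
      rw [HasAntidiagonal.mem_antidiagonal] at hij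
      have hi : (ij.1 : ℝ) ≤ J := by exact_mod_cast (by omega : ij.1 ≤ J)
      have hj : (ij.2 : ℝ) ≤ J := by exact_mod_cast (by omega : ij.2 ≤ J)
      have h4 : ∀ x ∈ (FX W R).filter (fun x => x.1.Nonempty),
          ‖MM (xs x) ij.1 (highF U vonMangoldt)‖ *
          ‖MM (xs x) ij.2 (highF U muR * zR : ArithmeticFunction ℝ)‖ ≤
          (J + 1) / 2 * ‖MM (xs x) ij.1 (highF U vonMangoldt)‖ ^ 2 +
          1 / (2 * (J + 1)) * ‖MM (xs x) ij.2 (highF U muR * zR : ArithmeticFunction ℝ)‖ ^ 2 := by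
        intro x _
        generalize ‖MM (xs x) ij.1 (highF U vonMangoldt)‖ = a
        generalize ‖MM (xs x) ij.2 (highF U muR * zR : ArithmeticFunction ℝ)‖ = b
        have h5 : 0 ≤ ((J + 1) * a - b) ^ 2 / (2 * ((J : ℝ) + 1)) := by positivity
        have h6 : ((J + 1) * a - b) ^ 2 / (2 * ((J : ℝ) + 1)) =
            (J + 1) / 2 * a ^ 2 + 1 / (2 * (J + 1)) * b ^ 2 - a * b := by
          field_simp
          ring
        linarith
      refine (Finset.sum_le_sum h4).trans ?_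
      rw [Finset.sum_add_distrib, ← Finset.mul_sum, ← Finset.mul_sum]
      have h7 : ∑ x ∈ (FX W R).filter (fun x => x.1.Nonempty),
          ‖MM (xs x) ij.1 (highF U vonMangoldt)‖ ^ 2 ≤ (B + 1) * ((J + 1) * BL) := by
        refine (Finset.sum_le_sum_of_subset_of_nonneg (Finset.filter_subset _ _)
          (fun _ _ _ => by positivity)).trans ((mean_A hB1 hB hBL hU ij.1).trans ?_)
        gcongr
      have h8 : ∑ x ∈ (FX W R).filter (fun x => x.1.Nonempty),
          ‖MM (xs x) ij.2 (highF U muR * zR : ArithmeticFunction ℝ)‖ ^ 2 ≤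
          (B + 1) * ((J + 1) ^ 3 * B ^ 4) := by
        refine (Finset.sum_le_sum_of_subset_of_nonneg (Finset.filter_subset _ _)
          (fun _ _ _ => by positivity)).trans ((mean_B hB1 hB hU ij.2).trans ?_)
        gcongr
      have h9 : (1 : ℝ) ≤ B ^ 4 := one_le_pow₀ hB1
      calc (J + 1) / 2 * ∑ x ∈ (FX W R).filter (fun x => x.1.Nonempty),
          ‖MM (xs x) ij.1 (highF U vonMangoldt)‖ ^ 2 +
          1 / (2 * (J + 1)) * ∑ x ∈ (FX W R).filter (fun x => x.1.Nonempty),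
          ‖MM (xs x) ij.2 (highF U muR * zR : ArithmeticFunction ℝ)‖ ^ 2 ≤
          (J + 1) / 2 * ((B + 1) * ((J + 1) * BL)) +
          1 / (2 * (J + 1)) * ((B + 1) * ((J + 1) ^ 3 * B ^ 4)) := by gcongr
        _ = (B + 1) * (J + 1) ^ 2 / 2 * (BL + B ^ 4) := by
          field_simp
        _ ≤ (B + 1) * (J + 1) ^ 2 / 2 * (BL * B ^ 4 + BL * B ^ 4) := by
          refine mul_le_mul_of_nonneg_left ?_ (by positivity)
          refine add_le_add (le_mul_of_one_le_right (by positivity) h9)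
            (le_mul_of_one_le_left (by positivity) hBL1)
        _ = _ := by ring
    refine (Finset.sum_le_sum h3).trans ?_
    rw [Finset.sum_const, Finset.Nat.card_antidiagonal, nsmul_eq_mul]
    push_cast
    apply le_of_eq
    ring

end Pool.Agent.Helper11.MT
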