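import Mathlib
import Pool.Agent.Helper11.MT.Final1
import Pool.Agent.Helper11.MT.LargeSieve

/-!
Comparison of the two sieve sums when there are few primes.
-/

open Finset Filter Topology

namespace Pool.Agent.Helper11.MT

lemma log_three_half : (1 / 3 : ℝ) ≤ Real.log (3 / 2) := by
  have := Real.one_sub_inv_le_log_of_pos (x := 3 / 2) (by norm_num)
  norm_num at this ⊢
  linarith

/-- The kernel varies slowly. -/
lemma w_shift_le {J m H h : ℕ} (hJ : 1 ≤ J) (hm : (3 / 2 : ℝ) ^ J ≤ m)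
    (hH : 8 * (H : ℝ) ≤ (3 / 2) ^ J) (hh : h ≤ H) : w J (m + h) ≤ 2 * w J m := by
  have hpow : (1 : ℝ) < (3 / 2) ^ J := one_lt_pow₀ (by norm_num) (by omega)
  have hm1 : (1 : ℝ) < m := lt_of_lt_of_le hpow hm
  have hm0 : (0 : ℝ) < m := by linarith
  have hJ' : (1 : ℝ) ≤ J := by exact_mod_cast hJ
  have hlog : (J : ℝ) / 3 ≤ Real.log m := by
    have h1 : Real.log ((3 / 2 : ℝ) ^ J) ≤ Real.log m := Real.log_le_log (by positivity) hm
    rw [Real.log_pow] at h1
    have := log_three_half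
    nlinarith
  have hlogpos : 0 < Real.log m := by
    have : 0 < (J : ℝ) / 3 := by positivity
    linarith
  have hh' : (h : ℝ) ≤ H := by exact_mod_cast hh
  have h0 : (0 : ℝ) ≤ h := Nat.cast_nonneg _
  -- log (m+h) <= log m * (1 + x)
  set x : ℝ := h / (m * Real.log m) with hx
  have hx0 : 0 ≤ x := by rw [hx]; positivity
  have h1 : Real.log ((m + h : ℕ) : ℝ) ≤ Real.log m * (1 + x) := by
    have e1 : ((m + h : ℕ) : ℝ) = m * (1 + h / m) := by
      push_cast
      field_simp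
    rw [e1, Real.log_mul hm0.ne' (by positivity)]
    have h2 : Real.log (1 + h / m) ≤ h / m := by
      have := Real.log_le_sub_one_of_pos (x := 1 + (h : ℝ) / m) (by positivity)
      linarith
    have e2 : Real.log m * (1 + x) = Real.log m + h / m := by
      rw [hx]
      field_simp
    rw [e2]
    linarith
  have h3 : (1 + x) ^ J ≤ 2 := by
    have h4 : (1 + x) ^ J ≤ Real.exp (J * x) := by
      rw [Real.exp_nat_mul]
      refine pow_le_pow_left₀ (by positivity) ?_ J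
      have := Real.add_one_le_exp x
      linarith
    have h5 : (J : ℝ) * x ≤ 3 / 8 := by
      rw [hx, ← mul_div_assoc, div_le_iff₀ (by positivity)]
      have h6 : (J : ℝ) ≤ 3 * Real.log m := by linarith
      have h7 : 8 * (h : ℝ) ≤ m := by linarith
      calc (J : ℝ) * h ≤ (3 * Real.log m) * (m / 8) := by
            refine mul_le_mul h6 (by linarith) h0 (by positivity)
        _ = 3 / 8 * (m * Real.log m) := by ring
    refine h4.trans ((Real.exp_le_exp.mpr h5).trans ?_)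
    have h8 := Real.exp_bound' (x := 3 / 8) (by norm_num) (by norm_num) (n := 3) (by norm_num)
    refine h8.trans ?_
    simp [Finset.sum_range_succ, Nat.factorial]
    norm_num
  unfold w
  have h9 : (Real.log ((m + h : ℕ) : ℝ)) ^ J ≤ (Real.log m) ^ J * 2 := by
    calc (Real.log ((m + h : ℕ) : ℝ)) ^ J ≤ (Real.log m * (1 + x)) ^ J :=
          pow_le_pow_left₀ (log_nat_nonneg _) h1 J
      _ = (Real.log m) ^ J * (1 + x) ^ J := mul_pow _ _ _
      _ ≤ (Real.log m) ^ J * 2 := by gcongr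
  have h10 : (m : ℝ) ^ 2 ≤ ((m + h : ℕ) : ℝ) ^ 2 := by
    push_cast
    gcongr
    linarith
  calc (Real.log ((m + h : ℕ) : ℝ)) ^ J / (J.factorial * ((m + h : ℕ) : ℝ) ^ 2) ≤
      ((Real.log m) ^ J * 2) / (J.factorial * (m : ℝ) ^ 2) := by
        refine div_le_div₀ (by positivity) h9 (by positivity) ?_
        gcongr
    _ = _ := by ring

lemma theta_w_le (R J n : ℕ) : thetaR R n * w J n ≤ (J + 1) * w (J + 1) n := by
  rw [← log_mul_w]
  refine mul_le_mul_of_nonneg_right ?_ (w_nonneg _ _)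
  unfold thetaR
  split_ifs
  · exact le_rfl
  · exact log_nat_nonneg n

/-- The constant in the upper tail. -/
noncomputable def K98 : ℝ := ∑' n : ℕ, (n : ℝ) ^ (-(9 / 8) : ℝ)

lemma summable_98 : Summable fun n : ℕ => (n : ℝ) ^ (-(9 / 8) : ℝ) :=
  Real.summable_nat_rpow.mpr (by norm_num)

lemma K98_nonneg : 0 ≤ K98 := tsum_nonneg fun n => by positivity

/-- Lower tail term. -/
noncomputable def tl (J m : ℕ) : ℝ := if (m : ℝ) < (3 / 2) ^ J then (J + 1) / 2 ^ (J + 1) else 0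

/-- Upper tail term. -/
noncomputable def tu (J m : ℕ) : ℝ := (J + 1) * (2 * (1 / 2) ^ J) * (m : ℝ) ^ (-(9 / 8) : ℝ)

lemma tl_nonneg (J m : ℕ) : 0 ≤ tl J m := by
  unfold tl; split_ifs <;> positivity

lemma tu_nonneg (J m : ℕ) : 0 ≤ tu J m := by
  unfold tu; positivity

lemma theta_low {R J m h : ℕ} (hm : (m : ℝ) < (3 / 2) ^ J) :
    thetaR R (m + h) * w J (m + h) ≤ tl J m := by
  unfold tl
  rw [if_pos hm]
  refine (theta_w_le R J (m + h)).trans ?_
  have := w_le_two_pow (J + 1) (m + h)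
  calc ((J : ℝ) + 1) * w (J + 1) (m + h) ≤ (J + 1) * (1 / 2 ^ (J + 1)) := by gcongr
    _ = _ := by ring

lemma theta_high {R J m h : ℕ} (hm : (64 : ℝ) ^ J < m) :
    thetaR R (m + h) * w J (m + h) ≤ tu J m := by
  unfold tu
  refine (theta_w_le R J (m + h)).trans ?_
  have hm0 : (0 : ℝ) < m := lt_trans (by positivity) hm
  have h1 : w (J + 1) (m + h) ≤ 2 ^ (J + 1) * ((m + h : ℕ) : ℝ) ^ (-(3 / 2) : ℝ) := w_le' _ _
  have h2 : ((m + h : ℕ) : ℝ) ^ (-(3 / 2) : ℝ) ≤ (m : ℝ) ^ (-(3 / 2) : ℝ) := by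
    refine Real.rpow_le_rpow_of_nonpos hm0 ?_ (by norm_num)
    push_cast
    linarith [Nat.cast_nonneg (α := ℝ) h]
  have h3 : (m : ℝ) ^ (-(3 / 2) : ℝ) = (m : ℝ) ^ (-(3 / 8) : ℝ) * (m : ℝ) ^ (-(9 / 8) : ℝ) := by
    rw [← Real.rpow_add hm0]
    norm_num
  have h4 : (m : ℝ) ^ (-(3 / 8) : ℝ) ≤ ((64 : ℝ) ^ J) ^ (-(3 / 8) : ℝ) :=
    Real.rpow_le_rpow_of_nonpos (by positivity) hm.le (by norm_num)
  have h5 : ((64 : ℝ) ^ J) ^ (-(3 / 8) : ℝ) ≤ ((1 / 4) : ℝ) ^ J := by
    rw [← Real.rpow_natCast, ← Real.rpow_mul (by norm_num), mul_comm, Real.rpow_mul (by norm_num),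
      Real.rpow_natCast]
    refine pow_le_pow_left₀ (by positivity) ?_ J
    have e1 : (64 : ℝ) = 4 ^ (3 : ℝ) := by norm_num
    rw [e1, ← Real.rpow_mul (by norm_num)]
    have e2 : (1 / 4 : ℝ) = 4 ^ (-1 : ℝ) := by
      rw [Real.rpow_neg_one]; norm_num
    rw [e2]
    exact Real.rpow_le_rpow_of_exponent_le (by norm_num) (by norm_num)
  have h6 : (2 : ℝ) ^ (J + 1) * (1 / 4) ^ J = 2 * (1 / 2) ^ J := by
    rw [pow_succ, mul_assoc, mul_comm (2 : ℝ) ((1 / 4 : ℝ) ^ J), ← mul_assoc, ← mul_pow]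
    norm_num
    ring
  calc ((J : ℝ) + 1) * w (J + 1) (m + h) ≤
      (J + 1) * (2 ^ (J + 1) * ((1 / 4) ^ J * (m : ℝ) ^ (-(9 / 8) : ℝ))) := by
        refine mul_le_mul_of_nonneg_left (h1.trans ?_) (by positivity)
        refine mul_le_mul_of_nonneg_left (h2.trans ?_) (by positivity)
        rw [h3]
        exact mul_le_mul_of_nonneg_right (h4.trans h5) (by positivity)
    _ = (J + 1) * (2 ^ (J + 1) * (1 / 4) ^ J) * (m : ℝ) ^ (-(9 / 8) : ℝ) := by ring
    _ = _ := by rw [h6]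

lemma log_le_mid {J m h : ℕ} (hJ : 1 ≤ J) (hm : (m : ℝ) ≤ 64 ^ J) (hm1 : 1 ≤ m) (hh : h ≤ m) :
    Real.log ((m + h : ℕ) : ℝ) ≤ 5 * J := by
  have hJ' : (1 : ℝ) ≤ J := by exact_mod_cast hJ
  have h1 : ((m + h : ℕ) : ℝ) ≤ 2 * 64 ^ J := by
    have : (h : ℝ) ≤ m := by exact_mod_cast hh
    push_cast
    linarith
  have h2 : Real.log ((m + h : ℕ) : ℝ) ≤ Real.log (2 * 64 ^ J) := by
    refine Real.log_le_log ?_ h1
    have : 0 < m + h := by omega
    exact_mod_cast this
  have h3 : Real.log (2 * (64 : ℝ) ^ J) = (6 * J + 1) * Real.log 2 := by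
    rw [Real.log_mul (by norm_num) (by positivity), Real.log_pow,
      show (64 : ℝ) = 2 ^ 6 by norm_num, Real.log_pow]
    push_cast
    ring
  rw [h3] at h2
  have := Real.log_two_lt_d9
  nlinarith

section

variable {W R k : ℕ}

/-- Pointwise comparison. -/
lemma pointwise_le {h : Fin k → ℕ} {v M N H : ℕ}
    (hfew : ∀ m, N ≤ m → m ≡ v [MOD W] → #(univ.filter (fun i => (m + h i).Prime)) ≤ M)
    (hH : ∀ i, h i ≤ H) {J : ℕ} (hJ : 1 ≤ J) (hN : (N : ℝ) ≤ (3 / 2) ^ J)
    (hH8 : 8 * (H : ℝ) ≤ (3 / 2) ^ J) (m : ℕ) (hmv : m ≡ v [MOD W]) :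
    ∑ j, thetaR R (m + h j) * w J (m + h j) ≤ 10 * M * J * w J m + k * (tl J m + tu J m) := by
  have hJ' : (1 : ℝ) ≤ J := by exact_mod_cast hJ
  by_cases h1 : (m : ℝ) < (3 / 2) ^ J
  · have h2 : ∑ j : Fin k, thetaR R (m + h j) * w J (m + h j) ≤ ∑ j : Fin k, tl J m :=
      Finset.sum_le_sum fun j _ => theta_low h1
    rw [Finset.sum_const, Finset.card_univ, Fintype.card_fin, nsmul_eq_mul] at h2
    have h3 : 0 ≤ 10 * (M : ℝ) * J * w J m := by
      have := w_nonneg J m
      positivity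
    have h4 := tu_nonneg J m
    have h5 : (0 : ℝ) ≤ k := Nat.cast_nonneg _
    nlinarith [mul_nonneg h5 h4]
  · push Not at h1
    by_cases h6 : (64 : ℝ) ^ J < m
    · have h2 : ∑ j : Fin k, thetaR R (m + h j) * w J (m + h j) ≤ ∑ j : Fin k, tu J m :=
        Finset.sum_le_sum fun j _ => theta_high h6
      rw [Finset.sum_const, Finset.card_univ, Fintype.card_fin, nsmul_eq_mul] at h2
      have h3 : 0 ≤ 10 * (M : ℝ) * J * w J m := by
        have := w_nonneg J m
        positivity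
      have h4 := tl_nonneg J m
      have h5 : (0 : ℝ) ≤ k := Nat.cast_nonneg _
      nlinarith [mul_nonneg h5 h4]
    · push Not at h6
      have hm1 : 1 ≤ m := by
        have : (0 : ℝ) < m := lt_of_lt_of_le (by positivity) h1
        exact_mod_cast this
      have hNm : N ≤ m := by exact_mod_cast hN.trans h1
      have hHm : H ≤ m := by
        have : (H : ℝ) ≤ m := by
          have h0 : (0 : ℝ) ≤ H := Nat.cast_nonneg _
          linarith
        exact_mod_cast this
      have h7 : ∀ j : Fin k, thetaR R (m + h j) * w J (m + h j) ≤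
          if (m + h j).Prime then 5 * J * (2 * w J m) else 0 := by
        intro j
        split_ifs with hp
        · refine mul_le_mul ?_ (w_shift_le hJ h1 hH8 (hH j)) (w_nonneg _ _) (by positivity)
          unfold thetaR
          split_ifs
          · exact log_le_mid hJ h6 hm1 ((hH j).trans hHm)
          · positivity
        · unfold thetaR
          rw [if_neg (fun hc => hp hc.1), zero_mul]
      refine (Finset.sum_le_sum fun j _ => h7 j).trans ?_
      rw [← Finset.sum_filter, Finset.sum_const, nsmul_eq_mul]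
      have h8 : (#(univ.filter (fun i => (m + h i).Prime)) : ℝ) ≤ M := by
        exact_mod_cast hfew m hNm hmv
      have h9 := w_nonneg J m
      have h10 : (#(univ.filter (fun i => (m + h i).Prime)) : ℝ) * (5 * J * (2 * w J m)) ≤
          M * (5 * J * (2 * w J m)) := mul_le_mul_of_nonneg_right h8 (by positivity)
      have h11 : 0 ≤ (k : ℝ) * (tl J m + tu J m) :=
        mul_nonneg (Nat.cast_nonneg _) (add_nonneg (tl_nonneg _ _) (tu_nonneg _ _))
      linarith

lemma summable_tl (J : ℕ) : Summable (tl J) := by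
  refine summable_of_hasFiniteSupport ?_
  refine Set.Finite.subset (Set.finite_Iio (⌈(3 / 2 : ℝ) ^ J⌉₊)) fun m hm => ?_
  rw [Function.mem_support] at hm
  unfold tl at hm
  rw [Set.mem_Iio]
  by_contra hcon
  push Not at hcon
  apply hm
  rw [if_neg]
  push Not
  exact (Nat.ceil_le.mp hcon)

lemma tsum_tl_le (J : ℕ) : ∑' m, tl J m ≤ (J + 1) * (3 / 4) ^ J := by
  have h1 : ∑' m, tl J m = ∑ m ∈ range ⌈(3 / 2 : ℝ) ^ J⌉₊, tl J m := by
    refine tsum_eq_sum fun m hm => ?_
    rw [Finset.mem_range, not_lt] at hm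
    unfold tl
    rw [if_neg]
    push Not
    exact (Nat.ceil_le.mp hm)
  rw [h1]
  have h2 : ∀ m ∈ range ⌈(3 / 2 : ℝ) ^ J⌉₊, tl J m ≤ (J + 1) / 2 ^ (J + 1) := by
    intro m _
    unfold tl
    split_ifs
    · exact le_rfl
    · positivity
  refine (Finset.sum_le_sum h2).trans ?_
  rw [Finset.sum_const, Finset.card_range, nsmul_eq_mul]
  have h3 : (⌈(3 / 2 : ℝ) ^ J⌉₊ : ℝ) ≤ 2 * (3 / 2) ^ J := by
    have h4 := (Nat.ceil_lt_add_one (a := (3 / 2 : ℝ) ^ J) (by positivity)).le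
    have h5 : (1 : ℝ) ≤ (3 / 2) ^ J := one_le_pow₀ (by norm_num)
    linarith
  calc (⌈(3 / 2 : ℝ) ^ J⌉₊ : ℝ) * ((J + 1) / 2 ^ (J + 1)) ≤
      2 * (3 / 2) ^ J * ((J + 1) / 2 ^ (J + 1)) := by gcongr
    _ = (J + 1) * ((3 / 2) ^ J * (1 / 2) ^ J) := by
      rw [pow_succ, one_div, inv_pow]
      field_simp
    _ = _ := by rw [← mul_pow]; norm_num

lemma summable_tu (J : ℕ) : Summable (tu J) := summable_98.mul_left _

lemma tsum_tu (J : ℕ) : ∑' m, tu J m = (J + 1) * (2 * (1 / 2) ^ J) * K98 := by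
  unfold tu K98
  rw [tsum_mul_left]

/-- Comparison of the sums. -/
theorem sum_S2_le {h : Fin k → ℕ} {v M N H : ℕ}
    (hfew : ∀ m, N ≤ m → m ≡ v [MOD W] → #(univ.filter (fun i => (m + h i).Prime)) ≤ M)
    (hH : ∀ i, h i ≤ H) {J : ℕ} (hJ : 1 ≤ J) (hN : (N : ℝ) ≤ (3 / 2) ^ J)
    (hH8 : 8 * (H : ℝ) ≤ (3 / 2) ^ J) {G : Finset (QT W R × Fin k) → ℝ} {L : ℝ}
    (hL : ∀ Y, (G Y) ^ 2 ≤ L) :
    ∑ j, S2 h v G j J ≤ 10 * M * J * S1 h v G J +
      k * L * ((J + 1) * (3 / 4) ^ J + (J + 1) * (2 * (1 / 2) ^ J) * K98) := by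
  have hL0 : 0 ≤ L := (sq_nonneg _).trans (hL ∅)
  have hs2 : ∀ j : Fin k, Summable fun m => if m ≡ v [MOD W] then
      thetaR R (m + h j) * w J (m + h j) * (G (Ymap h m)) ^ 2 else 0 := by
    intro j
    have h1 : Summable fun m => thetaR R (m + h j) * w J (m + h j) * L :=
      ((summable_nat_add_iff (h j)).mpr (summable_thetaR_w R J)).mul_right L
    refine Summable.of_nonneg_of_le (fun m => ?_) (fun m => ?_) h1
    · split_ifs
      · exact mul_nonneg (mul_nonneg (thetaR_nonneg _ _) (w_nonneg _ _)) (sq_nonneg _)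
      · exact le_rfl
    · split_ifs
      · exact mul_le_mul_of_nonneg_left (hL _) (mul_nonneg (thetaR_nonneg _ _) (w_nonneg _ _))
      · exact mul_nonneg (mul_nonneg (thetaR_nonneg _ _) (w_nonneg _ _)) hL0
  have hs1 : Summable fun m => if m ≡ v [MOD W] then w J m * (G (Ymap h m)) ^ 2 else 0 := by
    refine Summable.of_nonneg_of_le (fun m => ?_) (fun m => ?_) ((summable_w J).mul_right L)
    · split_ifs
      · exact mul_nonneg (w_nonneg _ _) (sq_nonneg _)
      · exact le_rfl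
    · split_ifs
      · exact mul_le_mul_of_nonneg_left (hL _) (w_nonneg _ _)
      · exact mul_nonneg (w_nonneg _ _) hL0
  have e1 : ∑ j, S2 h v G j J = ∑' m, ∑ j : Fin k, (if m ≡ v [MOD W] then
      thetaR R (m + h j) * w J (m + h j) * (G (Ymap h m)) ^ 2 else 0) := by
    unfold S2
    rw [Summable.tsum_finsetSum (fun j _ => hs2 j)]
  have hR : Summable fun m => 10 * M * J * (if m ≡ v [MOD W] then
      w J m * (G (Ymap h m)) ^ 2 else 0) + k * L * (tl J m + tu J m) :=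
    (hs1.mul_left _).add (((summable_tl J).add (summable_tu J)).mul_left _)
  have h2 : ∑' m, ∑ j : Fin k, (if m ≡ v [MOD W] then
      thetaR R (m + h j) * w J (m + h j) * (G (Ymap h m)) ^ 2 else 0) ≤
      ∑' m, (10 * M * J * (if m ≡ v [MOD W] then
      w J m * (G (Ymap h m)) ^ 2 else 0) + k * L * (tl J m + tu J m)) := by
    refine Summable.tsum_le_tsum (fun m => ?_) (summable_sum fun j _ => hs2 j) hR
    have h3 : 0 ≤ (k : ℝ) * (tl J m + tu J m) :=
      mul_nonneg (Nat.cast_nonneg _) (add_nonneg (tl_nonneg _ _) (tu_nonneg _ _))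
    by_cases hmv : m ≡ v [MOD W]
    · simp only [if_pos hmv]
      rw [← Finset.sum_mul]
      have h4 := pointwise_le (R := R) hfew hH hJ hN hH8 m hmv
      calc (∑ j, thetaR R (m + h j) * w J (m + h j)) * (G (Ymap h m)) ^ 2 ≤
          (10 * M * J * w J m + k * (tl J m + tu J m)) * (G (Ymap h m)) ^ 2 :=
            mul_le_mul_of_nonneg_right h4 (sq_nonneg _)
        _ = 10 * M * J * (w J m * (G (Ymap h m)) ^ 2) +
            (k * (tl J m + tu J m)) * (G (Ymap h m)) ^ 2 := by ring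
        _ ≤ 10 * M * J * (w J m * (G (Ymap h m)) ^ 2) + (k * (tl J m + tu J m)) * L := by
          gcongr
          exact hL _
        _ = _ := by ring
    · simp only [if_neg hmv, Finset.sum_const_zero, mul_zero, zero_add]
      have : (k : ℝ) * L * (tl J m + tu J m) = (k * (tl J m + tu J m)) * L := by ring
      rw [this]
      exact mul_nonneg h3 hL0
  rw [e1]
  refine h2.trans ?_
  rw [Summable.tsum_add (hs1.mul_left _) (((summable_tl J).add (summable_tu J)).mul_left _),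
    tsum_mul_left, tsum_mul_left, Summable.tsum_add (summable_tl J) (summable_tu J), tsum_tu]
  have h5 := tsum_tl_le J
  have h6 : (0 : ℝ) ≤ k * L := by positivity
  have h7 : (k : ℝ) * L * (∑' m, tl J m + (J + 1) * (2 * (1 / 2) ^ J) * K98) ≤
      k * L * ((J + 1) * (3 / 4) ^ J + (J + 1) * (2 * (1 / 2) ^ J) * K98) := by gcongr
  unfold S1
  linarith

end

end Pool.Agent.Helper11.MT
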