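import Mathlib
import Pool.Agent.Helper11.MT.Final2

/-!
Limits and parameters for the final assembly.
-/

open Finset Filter Topology

namespace Pool.Agent.Helper11.MT

open ArithmeticFunction (vonMangoldt)

lemma RJ_le (J : ℕ) : (RJ J : ℝ) ≤ Real.exp ((J : ℝ) / 200) :=
  Nat.floor_le (Real.exp_pos _).le

lemma RJ_tendsto : Tendsto RJ atTop atTop := by
  unfold RJ
  refine tendsto_nat_floor_atTop.comp ?_
  refine Real.tendsto_exp_atTop.comp ?_
  exact tendsto_natCast_atTop_atTop.atTop_div_const (by norm_num)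

lemma log_RJ_ge : ∀ᶠ J : ℕ in atTop, (J : ℝ) / 400 ≤ Real.log (RJ J) := by
  filter_upwards [eventually_ge_atTop 400] with J hJ
  have hJ' : (400 : ℝ) ≤ J := by exact_mod_cast hJ
  have h1 : Real.exp ((J : ℝ) / 200) - 1 < RJ J := Nat.sub_one_lt_floor _
  have h2 : Real.exp ((J : ℝ) / 400) ≤ Real.exp ((J : ℝ) / 200) - 1 := by
    have e1 : Real.exp ((J : ℝ) / 200) = Real.exp ((J : ℝ) / 400) * Real.exp ((J : ℝ) / 400) := by
      rw [← Real.exp_add]; congr 1; ring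
    have h3 : (2 : ℝ) ≤ Real.exp ((J : ℝ) / 400) := by
      have := Real.add_one_le_exp ((J : ℝ) / 400)
      linarith
    rw [e1]
    nlinarith
  have h4 : Real.exp ((J : ℝ) / 400) ≤ RJ J := by linarith
  have h5 := Real.log_le_log (Real.exp_pos _) h4
  rwa [Real.log_exp] at h5

lemma RJ_pow10_le (J : ℕ) : ((RJ J : ℝ)) ^ 10 ≤ (16 / 15) ^ J := by
  have h1 : ((RJ J : ℝ)) ^ 10 ≤ (Real.exp ((J : ℝ) / 200)) ^ 10 :=
    pow_le_pow_left₀ (Nat.cast_nonneg _) (RJ_le J) 10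
  refine h1.trans ?_
  rw [← Real.exp_nat_mul]
  have e1 : ((10 : ℕ) : ℝ) * ((J : ℝ) / 200) = J * (1 / 20) := by push_cast; ring
  rw [e1, Real.exp_nat_mul]
  refine pow_le_pow_left₀ (Real.exp_pos _).le ?_ J
  have h2 : Real.exp (1 / 20 : ℝ) ^ 20 ≤ (16 / 15) ^ 20 := by
    rw [← Real.exp_nat_mul]
    have := Real.exp_one_lt_d9
    norm_num at this ⊢
    linarith
  exact le_of_pow_le_pow_left₀ (by norm_num) (by norm_num) h2

lemma tiny_tendsto : Tendsto (fun J : ℕ => ((J : ℝ) + 1) * (4 / 5) ^ J) atTop (𝓝 0) := by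
  have h1 : Tendsto (fun J : ℕ => (J : ℝ) * (4 / 5) ^ J) atTop (𝓝 0) :=
    tendsto_self_mul_const_pow_of_lt_one (by norm_num) (by norm_num)
  have h2 : Tendsto (fun J : ℕ => (4 / 5 : ℝ) ^ J) atTop (𝓝 0) :=
    tendsto_pow_atTop_nhds_zero_of_lt_one (by norm_num) (by norm_num)
  have h3 := h1.add h2
  rw [add_zero] at h3
  refine h3.congr fun J => ?_
  ring

lemma pp_tendsto (C : ℝ) :
    Tendsto (fun J : ℕ => C * (4 / 5) ^ J + (RJ J : ℝ) ^ 2 / 2 ^ J) atTop (𝓝 0) := by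
  have h2 : Tendsto (fun J : ℕ => C * (4 / 5 : ℝ) ^ J + (4 / 5 : ℝ) ^ J) atTop (𝓝 0) := by
    have := tendsto_pow_atTop_nhds_zero_of_lt_one (r := (4 / 5 : ℝ)) (by norm_num) (by norm_num)
    have h := (this.const_mul C).add this
    simpa using h
  rw [tendsto_zero_iff_abs_tendsto_zero]
  rw [tendsto_zero_iff_abs_tendsto_zero] at h2
  have h3 : Tendsto (fun J : ℕ => |C| * (4 / 5 : ℝ) ^ J + (4 / 5 : ℝ) ^ J) atTop (𝓝 0) := by
    have := tendsto_pow_atTop_nhds_zero_of_lt_one (r := (4 / 5 : ℝ)) (by norm_num) (by norm_num)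
    have h := (this.const_mul |C|).add this
    simpa using h
  refine squeeze_zero (fun J => abs_nonneg _) (fun J => ?_) h3
  simp only [Function.comp_apply]
  refine (abs_add_le _ _).trans (add_le_add ?_ ?_)
  · rw [abs_mul, abs_of_nonneg (by positivity : (0 : ℝ) ≤ (4 / 5) ^ J)]
  · rw [abs_of_nonneg (by positivity)]
    have h4 : (RJ J : ℝ) ^ 2 ≤ (16 / 15) ^ J := by
      by_cases h0 : RJ J = 0
      · rw [h0]
        have : (0 : ℝ) ≤ (16 / 15) ^ J := by positivity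
        simpa using this
      · have h1 : (1 : ℝ) ≤ RJ J := by
          have : 1 ≤ RJ J := Nat.pos_of_ne_zero h0
          exact_mod_cast this
        exact (pow_le_pow_right₀ h1 (by norm_num)).trans (RJ_pow10_le J)
    have h5 : (16 / 15 : ℝ) ^ J / 2 ^ J = (8 / 15) ^ J := by
      rw [← div_pow]; norm_num
    calc (RJ J : ℝ) ^ 2 / 2 ^ J ≤ (16 / 15) ^ J / 2 ^ J := by gcongr
      _ = (8 / 15) ^ J := h5
      _ ≤ (4 / 5) ^ J := pow_le_pow_left₀ (by norm_num) (by norm_num) J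

lemma tendsto_MM_theta (hPP : PPStatement) {W : ℕ} [NeZero W] (χ : DirichletCharacter ℂ W) :
    Tendsto (fun J : ℕ => MM (fun n => χ n) J (thetaR (RJ J))) atTop
      (𝓝 (if χ = 1 then 1 else 0)) := by
  have h1 : Tendsto (fun J : ℕ => MM (fun n => χ n) J vonMangoldt) atTop
      (𝓝 (if χ = 1 then 1 else 0)) := by
    have e1 : ∀ J : ℕ, MM (fun n => χ n) J vonMangoldt =
        ∑' n : ℕ, (χ n * (vonMangoldt n : ℂ)) * (w J n : ℂ) := by
      intro J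
      unfold MM
      refine tsum_congr fun n => ?_
      ring
    simp_rw [e1]
    split_ifs with h
    · rw [h]; exact tendsto_twist_one W
    · exact tendsto_twist_zero h
  obtain ⟨C, -, hC⟩ := hPP
  have h2 : Tendsto (fun J : ℕ => MM (fun n => χ n) J vonMangoldt -
      MM (fun n => χ n) J (thetaR (RJ J))) atTop (𝓝 0) := by
    refine squeeze_zero_norm (fun J => hC J (RJ J) (fun n => χ n)
      (fun n => DirichletCharacter.norm_le_one _ _)) (pp_tendsto C)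
  have h3 := h1.sub h2
  simp only [sub_sub_cancel, sub_zero] at h3
  exact h3

lemma tendsto_psi0 (hPP : PPStatement) {W : ℕ} [NeZero W] {a : ℕ} (ha : Nat.Coprime a W) :
    Tendsto (fun J : ℕ => psi0 W a (RJ J) J) atTop (𝓝 (1 / W.totient)) := by
  have hau : IsUnit ((a : ℕ) : ZMod W) := by rwa [ZMod.isUnit_iff_coprime]
  have h1 : ∀ J : ℕ, ((psi0 W a (RJ J) J : ℝ) : ℂ) =
      ∑ χ : DirichletCharacter ℂ W, 1 / W.totient * χ ((a : ℕ) : ZMod W)⁻¹ *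
        MM (fun n => χ n) J (thetaR (RJ J)) := by
    intro J
    unfold psi0
    rw [Complex.ofReal_tsum]
    have h2 : ∀ n : ℕ, ((thetaR (RJ J) n * w J n *
        (if ((a : ℕ) : ZMod W) = (n : ZMod W) then 1 else 0) : ℝ) : ℂ) =
        ∑ χ : DirichletCharacter ℂ W, 1 / W.totient * χ ((a : ℕ) : ZMod W)⁻¹ *
        (((thetaR (RJ J) n : ℝ) : ℂ) * χ n * (w J n : ℂ)) := by
      intro n
      have h3 := indicator_eq hau n
      have h4 : (((if ((a : ℕ) : ZMod W) = (n : ZMod W) then 1 else 0) : ℝ) : ℂ) =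
          if ((a : ℕ) : ZMod W) = (n : ZMod W) then (1 : ℂ) else 0 := by
        split_ifs <;> simp
      rw [Complex.ofReal_mul, h4, h3, Finset.mul_sum, Finset.mul_sum]
      refine Finset.sum_congr rfl fun χ _ => ?_
      push_cast
      ring
    rw [tsum_congr h2, Summable.tsum_finsetSum]
    · refine Finset.sum_congr rfl fun χ _ => ?_
      rw [tsum_mul_left]
      rfl
    · intro χ _
      refine Summable.mul_left _ ?_
      exact MM_summable_theta (RJ J) J (ξ := fun n => χ n)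
        (fun n => DirichletCharacter.norm_le_one _ _)
  have h2 : Tendsto (fun J : ℕ => ((psi0 W a (RJ J) J : ℝ) : ℂ)) atTop
      (𝓝 (∑ χ : DirichletCharacter ℂ W, 1 / W.totient * χ ((a : ℕ) : ZMod W)⁻¹ *
        (if χ = 1 then 1 else 0))) := by
    simp_rw [h1]
    exact tendsto_finsetSum _ fun χ _ => (tendsto_MM_theta hPP χ).const_mul _
  have h3 : (∑ χ : DirichletCharacter ℂ W, 1 / (W.totient : ℂ) * χ ((a : ℕ) : ZMod W)⁻¹ *
        (if χ = 1 then 1 else 0)) = ((1 / W.totient : ℝ) : ℂ) := by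
    simp only [mul_ite, mul_one, mul_zero]
    rw [Finset.sum_ite_eq' univ (1 : DirichletCharacter ℂ W)]
    rw [if_pos (Finset.mem_univ _)]
    have h4 : IsUnit (((a : ℕ) : ZMod W)⁻¹) := by
      rw [isUnit_iff_exists]
      exact ⟨a, ZMod.inv_mul_of_unit _ hau, ZMod.mul_inv_of_unit _ hau⟩
    rw [MulChar.one_apply h4]
    push_cast
    ring
  rw [h3] at h2
  have h5 := (Complex.continuous_re.tendsto _).comp h2
  simpa [Function.comp_def] using h5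

/-! ### Parameters -/

section

variable {W R k D : ℕ}

lemma lt_of_mem_PR (hW : ∀ p : ℕ, p.Prime → p ≤ D → p ∣ W) {p : ℕ} (hp : p ∈ PR W R) : D < p := by
  obtain ⟨-, h1, h2⟩ := mem_PR.mp hp
  by_contra h3
  exact h2 (hW p h1 (not_lt.mp h3))

lemma param_gk (hW : ∀ p : ℕ, p.Prime → p ≤ D → p ∣ W) (hD : 2 * k + 1 ≤ D) (q : QT W R) :
    ((q : ℕ) : ℝ) / 2 ≤ gk k q ∧ 1 ≤ gk k q := by
  have h1 : D < (q : ℕ) := lt_of_mem_PR hW q.2
  have h2 : (2 * (k : ℝ) + 2) ≤ ((q : ℕ) : ℝ) := by exact_mod_cast (by omega : 2 * k + 2 ≤ (q : ℕ))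
  have h3 : (0 : ℝ) ≤ k := Nat.cast_nonneg _
  unfold gk
  constructor <;> linarith

lemma param_sum_inv (hW : ∀ p : ℕ, p.Prime → p ≤ D → p ∣ W) :
    ∑ q : QT W R, 1 / (((q : ℕ) : ℝ)) ^ 2 ≤ 2 / ((D : ℝ) + 1) := by
  have h1 : ∑ q : QT W R, 1 / (((q : ℕ) : ℝ)) ^ 2 = ∑ p ∈ PR W R, 1 / (p : ℝ) ^ 2 :=
    Finset.sum_coe_sort (PR W R) (fun p => 1 / (p : ℝ) ^ 2)
  rw [h1]
  refine le_trans ?_ (sum_Ioo_inv_sq_le (α := ℝ) D (R + 1))
  have h2 : PR W R ⊆ Ioo D (R + 1) := by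
    intro p hp
    rw [Finset.mem_Ioo]
    exact ⟨lt_of_mem_PR hW hp, by have := (mem_PR.mp hp).1; omega⟩
  have h3 : ∑ p ∈ PR W R, 1 / (p : ℝ) ^ 2 ≤ ∑ p ∈ Ioo D (R + 1), 1 / (p : ℝ) ^ 2 :=
    Finset.sum_le_sum_of_subset_of_nonneg h2 fun p _ _ => by positivity
  refine h3.trans (le_of_eq ?_)
  refine Finset.sum_congr rfl fun p _ => ?_
  rw [one_div]

lemma param_sum_gk (hW : ∀ p : ℕ, p.Prime → p ≤ D → p ∣ W) (hD : 2 * k + 1 ≤ D) :
    ∑ q : QT W R, 1 / (gk k q) ^ 2 ≤ 8 / ((D : ℝ) + 1) := by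
  have h1 : ∑ q : QT W R, 1 / (gk k q) ^ 2 ≤ ∑ q : QT W R, 4 * (1 / (((q : ℕ) : ℝ)) ^ 2) := by
    refine Finset.sum_le_sum fun q _ => ?_
    obtain ⟨h2, h3⟩ := param_gk hW hD q
    have h4 : (0 : ℝ) < (q : ℕ) := by exact_mod_cast (qt_prime q).pos
    rw [show 4 * (1 / (((q : ℕ) : ℝ)) ^ 2) = 1 / ((((q : ℕ) : ℝ)) / 2) ^ 2 by field_simp; norm_num]
    refine one_div_le_one_div_of_le (by positivity) ?_
    exact pow_le_pow_left₀ (by positivity) h2 2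
  refine h1.trans ?_
  rw [← Finset.mul_sum]
  have := param_sum_inv (R := R) hW
  calc 4 * ∑ q : QT W R, 1 / (((q : ℕ) : ℝ)) ^ 2 ≤ 4 * (2 / ((D : ℝ) + 1)) := by gcongr
    _ = _ := by ring

lemma param_big (hW : ∀ p : ℕ, p.Prime → p ≤ D → p ∣ W) (hD : (4 * k * 4 ^ k) ^ 4 ≤ D)
    {p : ℕ} (hp : p ∈ PR W R) :
    (k : ℝ) * (2 * 4 ^ k) * (1 / p.totient) ≤ (p : ℝ) ^ (-(3 / 4) : ℝ) := by
  have h1 : D < p := lt_of_mem_PR hW hp
  have hpr := (mem_PR.mp hp).2.1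
  have hp2 : (2 : ℝ) ≤ p := by exact_mod_cast hpr.two_le
  have hp0 : (0 : ℝ) < p := by linarith
  have h2 : (p : ℝ) / 2 ≤ p.totient := by
    rw [Nat.totient_prime hpr, Nat.cast_sub hpr.one_le]
    push_cast
    linarith
  have h3 : ((4 * k * 4 ^ k : ℕ) : ℝ) ^ 4 ≤ p := by
    have : (4 * k * 4 ^ k) ^ 4 ≤ p := by omega
    exact_mod_cast this
  have h4 : (4 * (k : ℝ) * 4 ^ k) ≤ (p : ℝ) ^ (1 / 4 : ℝ) := by
    have h5 : ((4 * k * 4 ^ k : ℕ) : ℝ) = ((((4 * k * 4 ^ k : ℕ) : ℝ)) ^ 4) ^ (1 / 4 : ℝ) := by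
      rw [← Real.rpow_natCast, ← Real.rpow_mul (Nat.cast_nonneg _)]
      norm_num
    have h6 : ((((4 * k * 4 ^ k : ℕ) : ℝ)) ^ 4) ^ (1 / 4 : ℝ) ≤ (p : ℝ) ^ (1 / 4 : ℝ) :=
      Real.rpow_le_rpow (by positivity) h3 (by norm_num)
    rw [← h5] at h6
    push_cast at h6
    exact h6
  have h7 : (p : ℝ) ^ (-(3 / 4) : ℝ) = (p : ℝ) ^ (1 / 4 : ℝ) / p := by
    rw [eq_div_iff hp0.ne', ← Real.rpow_add_one hp0.ne']
    norm_num
  rw [h7]
  calc (k : ℝ) * (2 * 4 ^ k) * (1 / p.totient) ≤ (k : ℝ) * (2 * 4 ^ k) * (1 / (p / 2)) := by gcongr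
    _ = (4 * (k : ℝ) * 4 ^ k) / p := by field_simp; norm_num
    _ ≤ _ := by gcongr

lemma param_distinct (hW : ∀ p : ℕ, p.Prime → p ≤ D → p ∣ W) {h : Fin k → ℕ}
    (hinj : Function.Injective h) (hH : ∀ i, h i ≤ D) : Distinct W R h := by
  intro p hp i j hij hmod
  have h1 : D < p := lt_of_mem_PR hW hp
  have h2 := Nat.ModEq.eq_of_lt_of_lt hmod (lt_of_le_of_lt (hH i) h1) (lt_of_le_of_lt (hH j) h1)
  exact hij (hinj h2)

end

end Pool.Agent.Helper11.MT
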