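import Mathlib
import Pool.Agent.Helper11.MT.Statement

open Finset

namespace Pool.Agent.Helper11.MT
namespace Opt

/-- The sum of `1/n` over `1 ≤ n ≤ x` with all prime factors in `Q`. -/
noncomputable def LL (Q : Finset ℕ) (x : ℕ) : ℝ :=
  ∑ n ∈ (Icc 1 x).filter (fun n => n.primeFactors ⊆ Q), (1 / (n : ℝ))

lemma LL_nonneg (Q : Finset ℕ) (x : ℕ) : 0 ≤ LL Q x :=
  Finset.sum_nonneg (fun n _ => by positivity)

lemma LL_mono (Q : Finset ℕ) {x y : ℕ} (h : x ≤ y) : LL Q x ≤ LL Q y := by
  unfold LL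
  apply Finset.sum_le_sum_of_subset_of_nonneg
  · apply Finset.filter_subset_filter
    exact Finset.Icc_subset_Icc le_rfl h
  · intro i _ _
    positivity

lemma LL_insert_eq (Q : Finset ℕ) (p : ℕ) (hp : p.Prime) (hpQ : p ∉ Q) (x : ℕ) :
    LL (insert p Q) x = LL Q x + (1 / (p : ℝ)) * LL (insert p Q) (x / p) := by
  have h := Finset.sum_filter_add_sum_filter_not
    ((Icc 1 x).filter (fun n => n.primeFactors ⊆ insert p Q)) (fun n => p ∣ n)
    (fun n : ℕ => (1 / (n : ℝ)))
  have e1 : ∑ n ∈ ((Icc 1 x).filter (fun n => n.primeFactors ⊆ insert p Q)).filter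
      (fun n => p ∣ n), (1 / (n : ℝ)) = (1 / (p : ℝ)) * LL (insert p Q) (x / p) := by
    unfold LL
    rw [Finset.mul_sum]
    symm
    apply Finset.sum_bij (fun m _ => p * m)
    · intro m hm
      simp only [Finset.mem_filter, Finset.mem_Icc] at hm ⊢
      obtain ⟨⟨h1, h2⟩, h3⟩ := hm
      refine ⟨⟨⟨Nat.mul_pos hp.pos h1, ?_⟩, ?_⟩, dvd_mul_right _ _⟩
      · rw [mul_comm]
        exact (Nat.le_div_iff_mul_le hp.pos).1 h2
      · rw [Nat.primeFactors_mul hp.ne_zero (by omega), hp.primeFactors]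
        apply Finset.union_subset
        · simp
        · exact h3
    · intro a _ b _ hab
      exact Nat.eq_of_mul_eq_mul_left hp.pos hab
    · intro n hn
      simp only [Finset.mem_filter, Finset.mem_Icc] at hn
      obtain ⟨⟨⟨h1, h2⟩, h3⟩, ⟨m, rfl⟩⟩ := hn
      have hm : 0 < m := by
        rcases Nat.eq_zero_or_pos m with h | h
        · subst h; simp at h1
        · exact h
      refine ⟨m, ?_, rfl⟩
      simp only [Finset.mem_filter, Finset.mem_Icc]
      refine ⟨⟨hm, ?_⟩, ?_⟩
      · rw [Nat.le_div_iff_mul_le hp.pos, mul_comm]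
        exact h2
      · refine subset_trans ?_ h3
        exact Nat.primeFactors_mono (dvd_mul_left _ _) (by positivity)
    · intro m hm
      push_cast
      rw [one_div_mul_one_div]
  have e2 : ∑ n ∈ ((Icc 1 x).filter (fun n => n.primeFactors ⊆ insert p Q)).filter
      (fun n => ¬ p ∣ n), (1 / (n : ℝ)) = LL Q x := by
    unfold LL
    congr 1
    ext n
    simp only [Finset.mem_filter, Finset.mem_Icc]
    constructor
    · rintro ⟨⟨h1, h3⟩, h4⟩
      refine ⟨h1, ?_⟩
      intro q hq
      have := h3 hq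
      rw [Finset.mem_insert] at this
      rcases this with h | h
      · subst h
        exact absurd (Nat.dvd_of_mem_primeFactors hq) h4
      · exact h
    · rintro ⟨h1, h3⟩
      refine ⟨⟨h1, h3.trans (Finset.subset_insert _ _)⟩, ?_⟩
      intro hd
      apply hpQ
      apply h3
      rw [Nat.mem_primeFactors]
      exact ⟨hp, hd, by omega⟩
  rw [e1, e2] at h
  unfold LL at h ⊢
  linarith

lemma LL_insert_le (Q : Finset ℕ) (p : ℕ) (hp : p.Prime) (hpQ : p ∉ Q) (x : ℕ) :
    LL (insert p Q) x ≤ LL Q x + (1 / ((p : ℝ) - 1)) * LL Q (x / p) := by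
  have hp1 : (1 : ℝ) < p := by exact_mod_cast hp.one_lt
  have hp2 : (0 : ℝ) < (p : ℝ) - 1 := by linarith
  induction x using Nat.strong_induction_on with
  | _ x ih =>
    rcases Nat.eq_zero_or_pos x with hx | hx
    · subst hx
      simp [LL]
    · rw [LL_insert_eq Q p hp hpQ x]
      have hlt : x / p < x := Nat.div_lt_self hx hp.one_lt
      have h1 := ih (x / p) hlt
      have h2 : LL Q (x / p / p) ≤ LL Q (x / p) := LL_mono Q (Nat.div_le_self _ _)
      have h3 : LL (insert p Q) (x / p) ≤ (p / ((p : ℝ) - 1)) * LL Q (x / p) := by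
        calc LL (insert p Q) (x / p) ≤ LL Q (x / p) + (1 / ((p : ℝ) - 1)) * LL Q (x / p / p) := h1
          _ ≤ LL Q (x / p) + (1 / ((p : ℝ) - 1)) * LL Q (x / p) := by
              gcongr
          _ = (p / ((p : ℝ) - 1)) * LL Q (x / p) := by
              field_simp
              ring
      have h4 : (1 / (p : ℝ)) * LL (insert p Q) (x / p) ≤
          (1 / (p : ℝ)) * ((p / ((p : ℝ) - 1)) * LL Q (x / p)) := by
        gcongr
      have h5 : (1 / (p : ℝ)) * ((p / ((p : ℝ) - 1)) * LL Q (x / p)) =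
          (1 / ((p : ℝ) - 1)) * LL Q (x / p) := by
        field_simp
      linarith

lemma LL_union_le (Q T : Finset ℕ) (hT : ∀ p ∈ T, p.Prime) (hd : Disjoint Q T) (x : ℕ) :
    LL (Q ∪ T) x ≤ (∏ p ∈ T, ((p : ℝ) / ((p : ℝ) - 1))) * LL Q x := by
  induction T using Finset.induction_on with
  | empty => simp
  | insert p T hpT ih =>
    have hp : p.Prime := hT p (Finset.mem_insert_self _ _)
    have hT' : ∀ q ∈ T, q.Prime := fun q hq => hT q (Finset.mem_insert_of_mem hq)
    rw [Finset.disjoint_insert_right] at hd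
    have ih' := ih hT' hd.2
    have hp1 : (1 : ℝ) < p := by exact_mod_cast hp.one_lt
    have hp2 : (0 : ℝ) < (p : ℝ) - 1 := by linarith
    have hpQT : p ∉ Q ∪ T := by
      rw [Finset.mem_union]
      tauto
    rw [Finset.union_insert, Finset.prod_insert hpT]
    calc LL (insert p (Q ∪ T)) x ≤ LL (Q ∪ T) x + (1 / ((p : ℝ) - 1)) * LL (Q ∪ T) (x / p) :=
          LL_insert_le _ p hp hpQT x
      _ ≤ LL (Q ∪ T) x + (1 / ((p : ℝ) - 1)) * LL (Q ∪ T) x := by
          gcongr
          exact LL_mono _ (Nat.div_le_self _ _)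
      _ = ((p : ℝ) / ((p : ℝ) - 1)) * LL (Q ∪ T) x := by
          field_simp
          ring
      _ ≤ ((p : ℝ) / ((p : ℝ) - 1)) * ((∏ p ∈ T, ((p : ℝ) / ((p : ℝ) - 1))) * LL Q x) := by
          gcongr
      _ = _ := by ring

lemma LL_le_powerset (Q : Finset ℕ) (hQ : ∀ p ∈ Q, p.Prime) (x : ℕ) :
    LL Q x ≤ ∑ V ∈ Q.powerset, if ∏ p ∈ V, p ≤ x then ∏ p ∈ V, (1 / ((p : ℝ) - 1)) else 0 := by
  induction Q using Finset.induction_on generalizing x with
  | empty =>
    unfold LL
    rcases Nat.eq_zero_or_pos x with hx | hx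
    · subst hx; simp
    · have : (Icc 1 x).filter (fun n => n.primeFactors ⊆ ∅) = {1} := by
        ext n
        simp only [Finset.mem_filter, Finset.mem_Icc, Finset.subset_empty,
          Nat.primeFactors_eq_empty, Finset.mem_singleton]
        omega
      rw [this]
      simp [show 1 ≤ x from hx]
  | insert p Q hpQ ih =>
    have hp : p.Prime := hQ p (Finset.mem_insert_self _ _)
    have hQ' : ∀ q ∈ Q, q.Prime := fun q hq => hQ q (Finset.mem_insert_of_mem hq)
    have hp1 : (1 : ℝ) < p := by exact_mod_cast hp.one_lt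
    have hp2 : (0 : ℝ) < (p : ℝ) - 1 := by linarith
    rw [Finset.sum_powerset_insert hpQ]
    refine (LL_insert_le Q p hp hpQ x).trans ?_
    apply add_le_add (ih hQ' x)
    refine (mul_le_mul_of_nonneg_left (ih hQ' (x / p)) (by positivity)).trans ?_
    rw [Finset.mul_sum]
    apply le_of_eq
    apply Finset.sum_congr rfl
    intro V hV
    rw [Finset.mem_powerset] at hV
    have hpV : p ∉ V := fun h => hpQ (hV h)
    rw [Finset.prod_insert hpV, Finset.prod_insert hpV]
    by_cases h : ∏ q ∈ V, q ≤ x / p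
    · rw [if_pos h, if_pos]
      rw [mul_comm]
      exact (Nat.le_div_iff_mul_le hp.pos).1 h
    · rw [if_neg h, if_neg]
      · ring
      · intro h'
        apply h
        rw [Nat.le_div_iff_mul_le hp.pos, mul_comm]
        exact h'

lemma log_le_LL (W R x : ℕ) (hW : 0 < W) (hx : x ≤ R) :
    ((Nat.totient W : ℝ) / W) * Real.log x ≤ LL (PR W R) x := by
  have h1 : Real.log x ≤ LL (PR W R ∪ W.primeFactors) x := by
    have e : LL (PR W R ∪ W.primeFactors) x = ∑ n ∈ Icc 1 x, (1 / (n : ℝ)) := by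
      unfold LL
      congr 1
      apply Finset.filter_true_of_mem
      intro n hn p hp
      rw [Finset.mem_Icc] at hn
      rw [Nat.mem_primeFactors] at hp
      have hpn : p ≤ n := Nat.le_of_dvd (by omega) hp.2.1
      rw [Finset.mem_union]
      by_cases hd : p ∣ W
      · right
        rw [Nat.mem_primeFactors]
        exact ⟨hp.1, hd, by omega⟩
      · left
        unfold PR
        rw [Finset.mem_filter, Finset.mem_range]
        exact ⟨by omega, hp.1, hd⟩
    rw [e]
    have h2 : ((harmonic x : ℚ) : ℝ) = ∑ n ∈ Icc 1 x, (1 / (n : ℝ)) := by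
      rw [harmonic_eq_sum_Icc]
      push_cast
      simp
    rw [← h2]
    rcases Nat.eq_zero_or_pos x with hx0 | hx0
    · subst hx0; simp
    · refine le_trans ?_ (log_add_one_le_harmonic x)
      apply Real.log_le_log (by exact_mod_cast hx0)
      push_cast
      linarith
  have hdis : Disjoint (PR W R) W.primeFactors := by
    rw [Finset.disjoint_left]
    intro p hp hp'
    unfold PR at hp
    rw [Finset.mem_filter] at hp
    exact hp.2.2 (Nat.dvd_of_mem_primeFactors hp')
  have h2 := LL_union_le (PR W R) W.primeFactors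
    (fun p hp => Nat.prime_of_mem_primeFactors hp) hdis x
  have h3 : (∏ p ∈ W.primeFactors, ((p : ℝ) / ((p : ℝ) - 1))) = W / Nat.totient W := by
    have h4 := Nat.totient_mul_prod_primeFactors W
    have h5 : ((∏ p ∈ W.primeFactors, (p - 1) : ℕ) : ℝ) = ∏ p ∈ W.primeFactors, ((p : ℝ) - 1) := by
      rw [Nat.cast_prod]
      apply Finset.prod_congr rfl
      intro p hp
      rw [Nat.cast_sub (Nat.prime_of_mem_primeFactors hp).one_lt.le]
      simp
    have h6 : (Nat.totient W : ℝ) * ∏ p ∈ W.primeFactors, (p : ℝ) =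
        W * ∏ p ∈ W.primeFactors, ((p : ℝ) - 1) := by
      rw [← h5]
      have h6' : ((Nat.totient W * ∏ p ∈ W.primeFactors, p : ℕ) : ℝ) =
          ((W * ∏ p ∈ W.primeFactors, (p - 1) : ℕ) : ℝ) := by rw [h4]
      rw [Nat.cast_mul, Nat.cast_mul, Nat.cast_prod] at h6'
      exact h6'
    rw [Finset.prod_div_distrib]
    have h7 : (0 : ℝ) < ∏ p ∈ W.primeFactors, ((p : ℝ) - 1) := by
      apply Finset.prod_pos
      intro p hp
      have : (1 : ℝ) < p := by exact_mod_cast (Nat.prime_of_mem_primeFactors hp).one_lt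
      linarith
    have h8 : (0 : ℝ) < Nat.totient W := by exact_mod_cast Nat.totient_pos.2 hW
    rw [div_eq_div_iff h7.ne' h8.ne']
    linarith
  rw [h3] at h2
  have h8 : (0 : ℝ) < Nat.totient W := by exact_mod_cast Nat.totient_pos.2 hW
  have h9 : (0 : ℝ) < W := by exact_mod_cast hW
  have h10 : Real.log x ≤ (W / Nat.totient W : ℝ) * LL (PR W R) x := h1.trans h2
  calc ((Nat.totient W : ℝ) / W) * Real.log x
      ≤ ((Nat.totient W : ℝ) / W) * ((W / Nat.totient W : ℝ) * LL (PR W R) x) := by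
        gcongr
    _ = LL (PR W R) x := by
        field_simp

/-- The product of a set of sifting primes. -/
def nV {W R : ℕ} (V : Finset (QT W R)) : ℕ := ∏ q ∈ V, (q : ℕ)

/-- The weight of a set of sifting primes. -/
noncomputable def gV (k : ℕ) {W R : ℕ} (V : Finset (QT W R)) : ℝ := ∏ q ∈ V, (((q : ℕ) : ℝ) - k)

/-- The weighted counting function. -/
noncomputable def HH (k W R : ℕ) (x : ℕ) : ℝ :=
  ∑ V : Finset (QT W R), if nV V ≤ x then 1 / gV k V else 0

lemma HBound (k W R x : ℕ) (hk : 1 ≤ k) (hW : 0 < W)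
    (hWk : ∀ p : ℕ, p.Prime → p ≤ 2 * k → p ∣ W) (hx : x ≤ R) :
    ((Nat.totient W : ℝ) / W) * Real.log x ≤ HH k W R x := by
  refine (log_le_LL W R x hW hx).trans ?_
  have hprime : ∀ p ∈ PR W R, p.Prime := by
    intro p hp
    unfold PR at hp
    rw [Finset.mem_filter] at hp
    exact hp.2.1
  refine (LL_le_powerset (PR W R) hprime x).trans ?_
  unfold HH
  have e : ∑ V ∈ (PR W R).powerset, (if ∏ p ∈ V, p ≤ x then ∏ p ∈ V, (1 / ((p : ℝ) - 1)) else 0) =
      ∑ V : Finset (QT W R), (if nV V ≤ x then ∏ q ∈ V, (1 / (((q : ℕ) : ℝ) - 1)) else 0) := by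
    symm
    apply Finset.sum_bij (fun V _ => V.map (Function.Embedding.subtype _))
    · intro V _
      rw [Finset.mem_powerset]
      intro p hp
      rw [Finset.mem_map] at hp
      obtain ⟨q, _, rfl⟩ := hp
      exact q.2
    · intro a _ b _ hab
      exact Finset.map_injective _ hab
    · intro V hV
      rw [Finset.mem_powerset] at hV
      refine ⟨V.subtype (fun p => p ∈ PR W R), Finset.mem_univ _, ?_⟩
      rw [Finset.subtype_map]
      exact Finset.filter_true_of_mem (fun p hp => hV hp)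
    · intro V _
      rw [Finset.prod_map, Finset.prod_map]
      rfl
  rw [e]
  apply Finset.sum_le_sum
  intro V _
  split_ifs with h
  · unfold gV
    rw [one_div, ← Finset.prod_inv_distrib]
    apply Finset.prod_le_prod
    · intro q _
      have : (1 : ℝ) < ((q : ℕ) : ℝ) := by exact_mod_cast (hprime q q.2).one_lt
      have : (0 : ℝ) < ((q : ℕ) : ℝ) - 1 := by linarith
      positivity
    · intro q _
      have hq : 2 * k < (q : ℕ) := by
        by_contra hcon
        have h1 := hWk q (hprime q q.2) (by omega)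
        have h2 := q.2
        unfold PR at h2
        rw [Finset.mem_filter] at h2
        exact h2.2.2 h1
      have hq' : 2 * (k : ℝ) < ((q : ℕ) : ℝ) := by exact_mod_cast hq
      have hk' : (1 : ℝ) ≤ k := by exact_mod_cast hk
      rw [one_div]
      apply inv_anti₀
      · linarith
      · linarith
  · exact le_rfl

end Opt
end Pool.Agent.Helper11.MT

namespace Pool.Agent.Helper11.MT
namespace Opt

section lattice

variable {k W R : ℕ}

/-- The column of a set of pairs. -/
noncomputable def col (U : Finset (QT W R × Fin k)) (i : Fin k) : Finset (QT W R) :=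
  univ.filter (fun q => (q, i) ∈ U)

lemma mem_col {U : Finset (QT W R × Fin k)} {i : Fin k} {q : QT W R} :
    q ∈ col U i ↔ (q, i) ∈ U := by
  simp [col]

/-- Sets of pairs are families of columns. -/
noncomputable def colEquiv : Finset (QT W R × Fin k) ≃ (Fin k → Finset (QT W R)) where
  toFun U := fun i => col U i
  invFun f := univ.filter (fun τ => τ.1 ∈ f τ.2)
  left_inv U := by
    ext ⟨q, i⟩
    simp [col]
  right_inv f := by
    funext i
    ext q
    simp [col]

lemma prod_col {M : Type*} [CommMonoid M] (F : QT W R × Fin k → M)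
    (U : Finset (QT W R × Fin k)) :
    ∏ τ ∈ U, F τ = ∏ i, ∏ q ∈ col U i, F (q, i) := by
  have h1 : ∏ τ ∈ U, F τ = ∏ τ : QT W R × Fin k, if τ ∈ U then F τ else 1 := by
    rw [← Finset.prod_filter]
    congr 1
    ext τ
    simp
  rw [h1, Fintype.prod_prod_type_right]
  apply Finset.prod_congr rfl
  intro i _
  rw [col, Finset.prod_filter]

lemma nn_col (U : Finset (QT W R × Fin k)) : nn U = ∏ i, nV (col U i) := by
  unfold nn nV
  exact prod_col (fun τ => ((τ.1 : ℕ))) U

lemma gg_col (U : Finset (QT W R × Fin k)) : gg k U = ∏ i, gV k (col U i) := by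
  unfold gg gV
  exact prod_col (fun τ => (((τ.1 : ℕ) : ℝ) - k)) U

lemma q_prime (q : QT W R) : (q : ℕ).Prime := by
  have h := q.2
  unfold PR at h
  rw [Finset.mem_filter] at h
  exact h.2.1

lemma nV_pos (V : Finset (QT W R)) : 0 < nV V := by
  unfold nV
  exact Finset.prod_pos (fun q _ => (q_prime q).pos)

lemma nn_pos (U : Finset (QT W R × Fin k)) : 0 < nn U := by
  unfold nn
  exact Finset.prod_pos (fun q _ => (q_prime q.1).pos)

lemma nV_mono {V V' : Finset (QT W R)} (h : V ⊆ V') : nV V ≤ nV V' :=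
  Nat.le_of_dvd (nV_pos V') (Finset.prod_dvd_prod_of_subset _ _ _ h)

lemma nn_mono {V V' : Finset (QT W R × Fin k)} (h : V ⊆ V') : nn V ≤ nn V' :=
  Nat.le_of_dvd (nn_pos V') (Finset.prod_dvd_prod_of_subset _ _ _ h)

lemma nV_empty : nV (∅ : Finset (QT W R)) = 1 := by simp [nV]

lemma gV_empty : gV k (∅ : Finset (QT W R)) = 1 := by simp [gV]

lemma nV_inj {V V' : Finset (QT W R)} (h : nV V = nV V') : V = V' := by
  have key : ∀ V : Finset (QT W R), (nV V).primeFactors = V.map (Function.Embedding.subtype _) := by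
    intro V
    have e : nV V = ∏ p ∈ V.map (Function.Embedding.subtype _), p := by
      rw [Finset.prod_map]
      rfl
    rw [e]
    apply Nat.primeFactors_prod
    intro p hp
    rw [Finset.mem_map] at hp
    obtain ⟨q, _, rfl⟩ := hp
    exact q_prime q
  have h2 := key V
  rw [h, key V'] at h2
  exact (Finset.map_injective _ h2).symm

variable (hk : 1 ≤ k) (hWk : ∀ p : ℕ, p.Prime → p ≤ 2 * k → p ∣ W)

include hk hWk

lemma q_large (q : QT W R) : (1 : ℝ) ≤ ((q : ℕ) : ℝ) - k := by
  have hq : 2 * k < (q : ℕ) := by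
    by_contra hcon
    have h1 := hWk q (q_prime q) (by omega)
    have h2 := q.2
    unfold PR at h2
    rw [Finset.mem_filter] at h2
    exact h2.2.2 h1
  have hq' : 2 * (k : ℝ) < ((q : ℕ) : ℝ) := by exact_mod_cast hq
  have hk' : (1 : ℝ) ≤ k := by exact_mod_cast hk
  linarith

lemma gV_one_le (V : Finset (QT W R)) : 1 ≤ gV k V := by
  unfold gV
  have : ∏ q ∈ V, (1 : ℝ) ≤ ∏ q ∈ V, (((q : ℕ) : ℝ) - k) :=
    Finset.prod_le_prod (fun _ _ => zero_le_one) (fun q _ => q_large hk hWk q)
  simpa using this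

lemma gV_pos (V : Finset (QT W R)) : 0 < gV k V :=
  lt_of_lt_of_le zero_lt_one (gV_one_le hk hWk V)

lemma gg_pos (U : Finset (QT W R × Fin k)) : 0 < gg k U := by
  rw [gg_col]
  exact Finset.prod_pos (fun i _ => gV_pos hk hWk _)

lemma HH_mono {x y : ℕ} (h : x ≤ y) : HH k W R x ≤ HH k W R y := by
  unfold HH
  apply Finset.sum_le_sum
  intro V _
  have := gV_pos hk hWk V
  split_ifs with h1 h2
  · exact le_rfl
  · omega
  · positivity
  · exact le_rfl

lemma HH_zero : HH k W R 0 = 0 := by
  unfold HH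
  apply Finset.sum_eq_zero
  intro V _
  rw [if_neg]
  have := nV_pos V
  omega

lemma HH_succ (x : ℕ) : HH k W R (x + 1) ≤ HH k W R x + 1 := by
  have h1 : HH k W R (x + 1) = HH k W R x +
      ∑ V : Finset (QT W R), if nV V = x + 1 then 1 / gV k V else 0 := by
    unfold HH
    rw [← Finset.sum_add_distrib]
    apply Finset.sum_congr rfl
    intro V _
    by_cases a : nV V ≤ x
    · rw [if_pos a, if_pos (by omega), if_neg (by omega)]
      ring
    · by_cases b : nV V = x + 1
      · rw [if_neg a, if_pos b, if_pos (by omega)]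
        ring
      · rw [if_neg a, if_neg b, if_neg (by omega)]
        ring
  rw [h1]
  have h2 : ∑ V : Finset (QT W R), (if nV V = x + 1 then 1 / gV k V else 0) ≤ 1 := by
    rw [← Finset.sum_filter]
    have hc : #(univ.filter (fun V : Finset (QT W R) => nV V = x + 1)) ≤ 1 := by
      rw [Finset.card_le_one]
      intro a ha b hb
      rw [Finset.mem_filter] at ha hb
      exact nV_inj (ha.2.trans hb.2.symm)
    calc ∑ V ∈ univ.filter (fun V : Finset (QT W R) => nV V = x + 1), 1 / gV k V
        ≤ ∑ V ∈ univ.filter (fun V : Finset (QT W R) => nV V = x + 1), (1 : ℝ) := by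
          apply Finset.sum_le_sum
          intro V _
          have := gV_one_le hk hWk V
          rw [div_le_one (gV_pos hk hWk V)]
          exact this
      _ = (#(univ.filter (fun V : Finset (QT W R) => nV V = x + 1)) : ℝ) := by simp
      _ ≤ 1 := by exact_mod_cast hc
  linarith

lemma HH_one : HH k W R 1 = 1 := by
  unfold HH
  rw [Finset.sum_eq_single ∅]
  · rw [nV_empty, gV_empty]
    simp
  · intro V _ hV
    rw [if_neg]
    intro h
    have h1 := nV_pos V
    have h2 : nV V = nV (∅ : Finset (QT W R)) := by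
      rw [nV_empty]; omega
    exact hV (nV_inj h2)
  · intro h
    exact absurd (Finset.mem_univ _) h

end lattice

section weights

variable {k W R : ℕ} (gt : ℕ → ℝ)

/-- The product weight with cutoff. -/
noncomputable def yy (U : Finset (QT W R × Fin k)) : ℝ :=
  (∏ i, gt (nV (col U i))) * (if nn U ≤ R then 1 else 0)

/-- The first moment. -/
noncomputable def G1 (k W R : ℕ) : ℝ := ∑ V : Finset (QT W R), gt (nV V) / gV k V

/-- The local weight. -/
noncomputable def FF (k : ℕ) {W R : ℕ} (V : Finset (QT W R)) : ℝ := gt (nV V) ^ 2 / gV k V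

/-- The second moment. -/
noncomputable def G2 (k W R : ℕ) : ℝ := ∑ V : Finset (QT W R), FF gt k V

/-- The logarithmic second moment. -/
noncomputable def mu (k W R : ℕ) : ℝ :=
  ∑ V : Finset (QT W R), Real.log (nV V) * FF gt k V

variable (h0 : ∀ n, 0 ≤ gt n) (h1 : ∀ n, gt n ≤ 1) (hanti : ∀ m n, m ≤ n → gt n ≤ gt m)
  (hone : gt 1 = 1)

include h0 in
lemma yy_nonneg (U : Finset (QT W R × Fin k)) : 0 ≤ yy gt U := by
  unfold yy
  apply mul_nonneg
  · exact Finset.prod_nonneg (fun i _ => h0 _)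
  · split_ifs <;> norm_num

include h0 h1 in
lemma yy_le_one (U : Finset (QT W R × Fin k)) : yy gt U ≤ 1 := by
  unfold yy
  apply mul_le_one₀
  · exact Finset.prod_le_one (fun i _ => h0 _) (fun i _ => h1 _)
  · split_ifs <;> norm_num
  · split_ifs <;> norm_num

lemma col_mono {U V : Finset (QT W R × Fin k)} (h : U ⊆ V) (i : Fin k) : col U i ⊆ col V i := by
  intro q hq
  rw [mem_col] at hq ⊢
  exact h hq

include h0 hanti in
lemma yy_anti (U V : Finset (QT W R × Fin k)) (h : U ⊆ V) : yy gt V ≤ yy gt U := by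
  unfold yy
  apply mul_le_mul
  · exact Finset.prod_le_prod (fun i _ => h0 _)
      (fun i _ => hanti _ _ (nV_mono (col_mono h i)))
  · have := nn_mono h
    split_ifs with a b
    · exact le_rfl
    · omega
    · norm_num
    · exact le_rfl
  · split_ifs <;> norm_num
  · exact Finset.prod_nonneg (fun i _ => h0 _)

lemma yy_supp (U : Finset (QT W R × Fin k)) (h : R < nn U) : yy gt U = 0 := by
  unfold yy
  rw [if_neg (by omega)]
  ring

lemma sum_pow_G2 : ∑ f : Fin k → Finset (QT W R), ∏ i, FF gt k (f i) = (G2 gt k W R) ^ k := by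
  unfold G2
  rw [Fintype.sum_pow]

variable (hk : 1 ≤ k) (hWk : ∀ p : ℕ, p.Prime → p ≤ 2 * k → p ∣ W)

lemma prod_FF (U : Finset (QT W R × Fin k)) :
    ∏ i, FF gt k (col U i) = (∏ i, gt (nV (col U i))) ^ 2 / gg k U := by
  unfold FF
  rw [Finset.prod_div_distrib, Finset.prod_pow, gg_col]

include hk hWk in
lemma FF_nonneg (V : Finset (QT W R)) : 0 ≤ FF gt k V := by
  unfold FF
  have := gV_pos hk hWk V
  positivity

include h0 hk hWk in
lemma EE_le : EE k (yy gt (k := k) (W := W) (R := R)) ≤ (G2 gt k W R) ^ k := by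
  rw [← sum_pow_G2, ← Equiv.sum_comp (colEquiv (k := k) (W := W) (R := R))]
  unfold EE
  apply Finset.sum_le_sum
  intro U _
  have e : ∏ i, FF gt k ((colEquiv U) i) = (∏ i, gt (nV (col U i))) ^ 2 / gg k U := prod_FF gt U
  rw [e]
  have hg := gg_pos hk hWk U
  have hP : 0 ≤ ∏ i, gt (nV (col U i)) := Finset.prod_nonneg (fun i _ => h0 _)
  unfold yy
  gcongr
  split_ifs
  · rw [mul_one]
  · rw [mul_zero]; exact hP

include hone hk hWk in
lemma EE_pos (hR : 1 ≤ R) : 0 < EE k (yy gt (k := k) (W := W) (R := R)) := by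
  unfold EE
  apply Finset.sum_pos'
  · intro U _
    have hg := gg_pos hk hWk U
    positivity
  · refine ⟨∅, Finset.mem_univ _, ?_⟩
    have hg := gg_pos hk hWk (∅ : Finset (QT W R × Fin k))
    have e : yy gt (∅ : Finset (QT W R × Fin k)) = 1 := by
      unfold yy
      have h2 : ∀ i, col (∅ : Finset (QT W R × Fin k)) i = ∅ := by
        intro i
        ext q
        simp [col]
      have h3 : nn (∅ : Finset (QT W R × Fin k)) = 1 := by simp [nn]
      rw [h3, if_pos hR]
      simp [h2, nV_empty, hone]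
    rw [e]
    positivity

/-- The index set of the sets avoiding the `j`-th column. -/
noncomputable def tt (W R : ℕ) {k : ℕ} (j : Fin k) (i : Fin k) : Finset (Finset (QT W R)) :=
  if i = j then {∅} else univ

lemma mem_powerset_ne (j : Fin k) (U : Finset (QT W R × Fin k)) :
    U ∈ (univ.filter (fun τ : QT W R × Fin k => τ.2 ≠ j)).powerset ↔
      colEquiv U ∈ Fintype.piFinset (tt W R j) := by
  rw [Finset.mem_powerset, Fintype.mem_piFinset]
  constructor
  · intro h i
    unfold tt
    split_ifs with hij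
    · rw [Finset.mem_singleton]
      change col U i = ∅
      rw [Finset.eq_empty_iff_forall_notMem]
      intro q hq
      rw [mem_col] at hq
      have := h hq
      rw [Finset.mem_filter] at this
      exact this.2 hij
    · exact Finset.mem_univ _
  · intro h τ hτ
    rw [Finset.mem_filter]
    refine ⟨Finset.mem_univ _, ?_⟩
    intro hj
    have h2 := h τ.2
    unfold tt at h2
    rw [if_pos hj, Finset.mem_singleton] at h2
    have h3 : τ.1 ∈ col U τ.2 := by
      rw [mem_col]
      exact hτ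
    change col U τ.2 = ∅ at h2
    rw [h2] at h3
    simp at h3

lemma sum_ne (j : Fin k) (Ψ : (Fin k → Finset (QT W R)) → ℝ) :
    ∑ U ∈ (univ.filter (fun τ : QT W R × Fin k => τ.2 ≠ j)).powerset, Ψ (fun i => col U i) =
      ∑ f ∈ Fintype.piFinset (tt W R j), Ψ f :=
  Finset.sum_equiv (colEquiv (k := k) (W := W) (R := R)) (mem_powerset_ne j) (fun _ _ => rfl)

include hone in
lemma FF_empty : FF gt k (∅ : Finset (QT W R)) = 1 := by
  unfold FF
  rw [nV_empty, gV_empty, hone]
  norm_num

include hone in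
lemma sum_tt (j i : Fin k) : ∑ V ∈ tt W R j i, FF gt k V = if i = j then 1 else G2 gt k W R := by
  unfold tt
  split_ifs
  · rw [Finset.sum_singleton]
    exact FF_empty gt hone
  · rfl

include hone in
lemma sum_ne_prod (j : Fin k) :
    ∑ U ∈ (univ.filter (fun τ : QT W R × Fin k => τ.2 ≠ j)).powerset,
      ∏ i, FF gt k (col U i) = (G2 gt k W R) ^ (k - 1) := by
  rw [sum_ne j (fun f => ∏ i, FF gt k (f i)), ← Finset.prod_univ_sum]
  simp only [sum_tt gt hone]
  rw [Finset.prod_ite]
  simp only [Finset.prod_const_one, one_mul, Finset.prod_const]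
  congr 1
  have : (univ.filter (fun i : Fin k => ¬ i = j)) = univ.erase j := by
    ext i; simp
  rw [this, Finset.card_erase_of_mem (Finset.mem_univ _)]
  simp

include hone in
lemma sum_ne_log (j i0 : Fin k) :
    ∑ U ∈ (univ.filter (fun τ : QT W R × Fin k => τ.2 ≠ j)).powerset,
      Real.log (nV (col U i0)) * ∏ i, FF gt k (col U i) =
        if i0 = j then 0 else mu gt k W R * (G2 gt k W R) ^ (k - 2) := by
  rw [sum_ne j (fun f => Real.log (nV (f i0)) * ∏ i, FF gt k (f i))]
  have e : ∀ f : Fin k → Finset (QT W R), Real.log (nV (f i0)) * ∏ i, FF gt k (f i) =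
      ∏ i, (if i = i0 then Real.log (nV (f i)) * FF gt k (f i) else FF gt k (f i)) := by
    intro f
    rw [← Finset.mul_prod_erase univ _ (Finset.mem_univ i0),
      ← Finset.mul_prod_erase univ (fun i => if i = i0 then Real.log (nV (f i)) * FF gt k (f i)
        else FF gt k (f i)) (Finset.mem_univ i0)]
    simp only [if_true]
    have : ∏ x ∈ univ.erase i0, (if x = i0 then Real.log (nV (f x)) * FF gt k (f x)
        else FF gt k (f x)) = ∏ x ∈ univ.erase i0, FF gt k (f x) := by
      apply Finset.prod_congr rfl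
      intro x hx
      rw [if_neg (Finset.ne_of_mem_erase hx)]
    rw [this]
    ring
  simp only [e]
  rw [← Finset.prod_univ_sum (tt W R j)
    (fun i V => if i = i0 then Real.log (nV V) * FF gt k V else FF gt k V)]
  split_ifs with hij
  · subst hij
    apply Finset.prod_eq_zero (Finset.mem_univ i0)
    unfold tt
    simp [nV_empty]
  · have e2 : ∀ i : Fin k, ∑ V ∈ tt W R j i, (if i = i0 then Real.log (nV V) * FF gt k V
        else FF gt k V) = if i = i0 then mu gt k W R else if i = j then 1 else G2 gt k W R := by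
      intro i
      by_cases hi : i = i0
      · subst hi
        simp only [if_true]
        unfold tt
        rw [if_neg hij]
        rfl
      · simp only [if_neg hi]
        exact sum_tt gt hone j i
    simp only [e2]
    rw [← Finset.mul_prod_erase univ _ (Finset.mem_univ i0)]
    simp only [if_true]
    congr 1
    rw [← Finset.mul_prod_erase (univ.erase i0) _
      (show j ∈ univ.erase i0 from Finset.mem_erase.2 ⟨Ne.symm hij, Finset.mem_univ _⟩)]
    rw [if_neg (Ne.symm hij), if_pos rfl, one_mul]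
    have : ∀ x ∈ (univ.erase i0).erase j, (if x = i0 then mu gt k W R else
        if x = j then 1 else G2 gt k W R) = G2 gt k W R := by
      intro x hx
      rw [Finset.mem_erase, Finset.mem_erase] at hx
      rw [if_neg hx.2.1, if_neg hx.1]
    rw [Finset.prod_congr rfl this, Finset.prod_const]
    congr 1
    rw [Finset.card_erase_of_mem (Finset.mem_erase.2 ⟨Ne.symm hij, Finset.mem_univ _⟩),
      Finset.card_erase_of_mem (Finset.mem_univ _)]
    simp
    omega

include hone in
lemma sum_ne_lognn (j : Fin k) :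
    ∑ U ∈ (univ.filter (fun τ : QT W R × Fin k => τ.2 ≠ j)).powerset,
      Real.log (nn U) * ∏ i, FF gt k (col U i) =
        ((k : ℝ) - 1) * (mu gt k W R * (G2 gt k W R) ^ (k - 2)) := by
  have e : ∀ U : Finset (QT W R × Fin k), Real.log (nn U) * ∏ i, FF gt k (col U i) =
      ∑ i0, Real.log (nV (col U i0)) * ∏ i, FF gt k (col U i) := by
    intro U
    rw [← Finset.sum_mul, nn_col]
    push_cast
    rw [Real.log_prod]
    intro i _
    have := nV_pos (col U i)
    positivity
  simp only [e]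
  rw [Finset.sum_comm]
  simp only [sum_ne_log gt hone j]
  rw [Finset.sum_ite]
  simp only [Finset.sum_const_zero, zero_add, Finset.sum_const, nsmul_eq_mul]
  congr 1
  have : (univ.filter (fun i : Fin k => ¬ i = j)) = univ.erase j := by
    ext i; simp
  rw [this, Finset.card_erase_of_mem (Finset.mem_univ _)]
  have hk1 : 1 ≤ k := by
    have := j.2
    omega
  rw [Finset.card_univ, Fintype.card_fin, Nat.cast_sub hk1]
  simp

variable (X : ℕ) (hX : ∀ n, X < n → gt n = 0)

include hone hX in
lemma yj_eq (j : Fin k) (U : Finset (QT W R × Fin k))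
    (hU : U ∈ (univ.filter (fun τ : QT W R × Fin k => τ.2 ≠ j)).powerset) (hUX : nn U * X ≤ R) :
    yj k (yy gt) j U = G1 gt k W R * ∏ i, gt (nV (col U i)) := by
  have hcj : col U j = ∅ := by
    rw [mem_powerset_ne, Fintype.mem_piFinset] at hU
    have := hU j
    unfold tt at this
    rw [if_pos rfl, Finset.mem_singleton] at this
    exact this
  unfold yj G1
  rw [Finset.sum_mul]
  symm
  apply Finset.sum_bij (fun V _ => V ×ˢ ({j} : Finset (Fin k)))
  · intro V _
    rw [Finset.mem_powerset]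
    intro τ hτ
    rw [Finset.mem_product, Finset.mem_singleton] at hτ
    rw [Finset.mem_filter]
    exact ⟨Finset.mem_univ _, hτ.2⟩
  · intro a _ b _ hab
    ext q
    have := Finset.ext_iff.1 hab (q, j)
    simpa using this
  · intro V hV
    rw [Finset.mem_powerset] at hV
    refine ⟨col V j, Finset.mem_univ _, ?_⟩
    ext ⟨q, i⟩
    rw [Finset.mem_product, Finset.mem_singleton, mem_col]
    constructor
    · rintro ⟨h2, h3⟩
      simp only at h2 h3
      subst h3
      exact h2
    · intro h2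
      have h3 := hV h2
      rw [Finset.mem_filter] at h3
      have h4 : i = j := h3.2
      subst h4
      exact ⟨h2, rfl⟩
  · intro V _
    have hg : gg k (V ×ˢ ({j} : Finset (Fin k))) = gV k V := by
      unfold gg gV
      rw [Finset.prod_product]
      simp
    have hn : nn (V ×ˢ ({j} : Finset (Fin k))) = nV V := by
      unfold nn nV
      rw [Finset.prod_product]
      simp
    have hdis : Disjoint U (V ×ˢ ({j} : Finset (Fin k))) := by
      rw [Finset.disjoint_left]
      rintro ⟨q, i⟩ h2 h3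
      rw [Finset.mem_product, Finset.mem_singleton] at h3
      rw [Finset.mem_powerset] at hU
      have := hU h2
      rw [Finset.mem_filter] at this
      exact this.2 h3.2
    have hnn : nn (U ∪ V ×ˢ ({j} : Finset (Fin k))) = nn U * nV V := by
      rw [← hn]
      unfold nn
      rw [Finset.prod_union hdis]
    have hcol : ∀ i, col (U ∪ V ×ˢ ({j} : Finset (Fin k))) i = if i = j then V else col U i := by
      intro i
      ext q
      rw [mem_col, Finset.mem_union, Finset.mem_product, Finset.mem_singleton]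
      split_ifs with hij
      · subst hij
        simp only [and_true]
        constructor
        · rintro (h2 | h2)
          · have : q ∈ col U i := mem_col.2 h2
            rw [hcj] at this
            simp at this
          · exact h2
        · intro h2
          exact Or.inr h2
      · rw [mem_col]
        simp [hij]
    have hprod : ∏ i, gt (nV (col (U ∪ V ×ˢ ({j} : Finset (Fin k))) i)) =
        gt (nV V) * ∏ i, gt (nV (col U i)) := by
      rw [← Finset.mul_prod_erase univ _ (Finset.mem_univ j),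
        ← Finset.mul_prod_erase univ (fun i => gt (nV (col U i))) (Finset.mem_univ j)]
      rw [hcol j, if_pos rfl, hcj, nV_empty, hone, one_mul]
      congr 1
      apply Finset.prod_congr rfl
      intro i hi
      rw [hcol i, if_neg (Finset.ne_of_mem_erase hi)]
    unfold yy
    rw [hprod, hg, hnn]
    by_cases hVX : nV V ≤ X
    · rw [if_pos]
      · ring
      · calc nn U * nV V ≤ nn U * X := Nat.mul_le_mul_left _ hVX
          _ ≤ R := hUX
    · rw [hX (nV V) (by omega)]
      ring

include hone hX hk hWk in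
lemma EEj_ge (j : Fin k) (hXR : Real.log X < Real.log R) (hX1 : 1 ≤ X) (hR1 : 1 ≤ R) :
    (G1 gt k W R) ^ 2 * ((G2 gt k W R) ^ (k - 1) -
      (((k : ℝ) - 1) * (mu gt k W R * (G2 gt k W R) ^ (k - 2))) / (Real.log R - Real.log X)) ≤
      EEj k (yy gt (k := k) (W := W) (R := R)) j := by
  have hδ : 0 < Real.log R - Real.log X := by linarith
  rw [← sum_ne_lognn gt hone j, ← sum_ne_prod gt hone j]
  unfold EEj
  rw [Finset.sum_div, ← Finset.sum_sub_distrib, Finset.mul_sum]
  apply Finset.sum_le_sum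
  intro U hU
  have hg := gg_pos hk hWk U
  rw [prod_FF]
  have hn := nn_pos U
  by_cases hUX : nn U * X ≤ R
  · rw [yj_eq gt hone X hX j U hU hUX]
    have hlog : 0 ≤ Real.log (nn U) := Real.log_natCast_nonneg _
    have h2 : 0 ≤ Real.log (nn U) * ((∏ i, gt (nV (col U i))) ^ 2 / gg k U) /
        (Real.log R - Real.log X) := by positivity
    have h3 : (G1 gt k W R * ∏ i, gt (nV (col U i))) ^ 2 / gg k U =
        (G1 gt k W R) ^ 2 * ((∏ i, gt (nV (col U i))) ^ 2 / gg k U) := by
      rw [mul_pow]; ring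
    rw [h3]
    apply mul_le_mul_of_nonneg_left _ (sq_nonneg _)
    linarith
  · have h2 : Real.log R - Real.log X ≤ Real.log (nn U) := by
      have h3 : (R : ℝ) ≤ nn U * X := by
        have : R ≤ nn U * X := by omega
        exact_mod_cast this
      have h4 : Real.log R ≤ Real.log (nn U * X) := by
        apply Real.log_le_log
        · exact_mod_cast hR1
        · exact h3
      rw [Real.log_mul (by positivity) (by positivity)] at h4
      linarith
    have h5 : 0 ≤ (∏ i, gt (nV (col U i))) ^ 2 / gg k U := by positivity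
    have h6 : (∏ i, gt (nV (col U i))) ^ 2 / gg k U ≤
        Real.log (nn U) * ((∏ i, gt (nV (col U i))) ^ 2 / gg k U) /
        (Real.log R - Real.log X) := by
      rw [le_div_iff₀ hδ, mul_comm]
      exact mul_le_mul_of_nonneg_right h2 h5
    have h7 : (G1 gt k W R) ^ 2 * ((∏ i, gt (nV (col U i))) ^ 2 / gg k U -
        Real.log (nn U) * ((∏ i, gt (nV (col U i))) ^ 2 / gg k U) /
        (Real.log R - Real.log X)) ≤ 0 := by
      apply mul_nonpos_of_nonneg_of_nonpos (sq_nonneg _)
      linarith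
    refine h7.trans ?_
    positivity

end weights

end Opt
end Pool.Agent.Helper11.MT

namespace Pool.Agent.Helper11.MT
namespace Opt

section step

/-- The step weight. -/
noncomputable def gtf (xs : ℕ → ℕ) (L : ℕ) (n : ℕ) : ℝ :=
  ∑ l ∈ range L, (1 / 2 : ℝ) ^ (l + 1) * (if n ≤ xs l then 1 else 0) +
    (1 / 2 : ℝ) ^ L * (if n ≤ xs L then 1 else 0)

variable (xs : ℕ → ℕ) (hxs : Monotone xs)

lemma gtf_nonneg (L n : ℕ) : 0 ≤ gtf xs L n := by
  unfold gtf
  apply add_nonneg
  · apply Finset.sum_nonneg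
    intro l _
    split_ifs <;> positivity
  · split_ifs <;> positivity

lemma gtf_anti (L m n : ℕ) (h : m ≤ n) : gtf xs L n ≤ gtf xs L m := by
  unfold gtf
  have key : ∀ l : ℕ, (if n ≤ xs l then (1 : ℝ) else 0) ≤ (if m ≤ xs l then 1 else 0) := by
    intro l
    split_ifs with a b
    · exact le_rfl
    · omega
    · norm_num
    · exact le_rfl
  apply add_le_add
  · apply Finset.sum_le_sum
    intro l _
    exact mul_le_mul_of_nonneg_left (key l) (by positivity)
  · exact mul_le_mul_of_nonneg_left (key L) (by positivity)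

include hxs in
lemma gtf_cases (L n : ℕ) : (xs L < n ∧ gtf xs L n = 0) ∨
    ∃ m, m ≤ L ∧ n ≤ xs m ∧ (∀ l, l < m → xs l < n) ∧ gtf xs L n = (1 / 2 : ℝ) ^ m := by
  induction L with
  | zero =>
    by_cases h : n ≤ xs 0
    · right
      refine ⟨0, le_rfl, h, by intro l hl; omega, ?_⟩
      simp [gtf, h]
    · left
      refine ⟨by omega, ?_⟩
      simp [gtf, h]
  | succ L ih =>
    have hrec : gtf xs (L + 1) n = gtf xs L n - (1 / 2 : ℝ) ^ (L + 1) * (if n ≤ xs L then 1 else 0)
        + (1 / 2 : ℝ) ^ (L + 1) * (if n ≤ xs (L + 1) then 1 else 0) := by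
      unfold gtf
      rw [Finset.sum_range_succ, pow_succ]
      ring
    rcases ih with ⟨h1, h2⟩ | ⟨m, hm, h1, h2, h3⟩
    · rw [h2, if_neg (by omega)] at hrec
      by_cases h : n ≤ xs (L + 1)
      · right
        refine ⟨L + 1, le_rfl, h, ?_, ?_⟩
        · intro l hl
          exact lt_of_le_of_lt (hxs (by omega : l ≤ L)) h1
        · rw [hrec, if_pos h]
          ring
      · left
        refine ⟨by omega, ?_⟩
        rw [hrec, if_neg h]
        ring
    · right
      refine ⟨m, by omega, h1, h2, ?_⟩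
      have h4 : n ≤ xs L := h1.trans (hxs hm)
      have h5 : n ≤ xs (L + 1) := h4.trans (hxs (Nat.le_succ L))
      rw [hrec, if_pos h4, if_pos h5, h3]
      ring

include hxs in
lemma gtf_le_one (L n : ℕ) : gtf xs L n ≤ 1 := by
  rcases gtf_cases xs hxs L n with ⟨_, h⟩ | ⟨m, _, _, _, h⟩
  · rw [h]; norm_num
  · rw [h]
    exact pow_le_one₀ (by norm_num) (by norm_num)

include hxs in
lemma gtf_one (L : ℕ) (h : 1 ≤ xs 0) : gtf xs L 1 = 1 := by
  rcases gtf_cases xs hxs L 1 with ⟨h1, _⟩ | ⟨m, _, _, h2, h3⟩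
  · have := hxs (Nat.zero_le L)
    omega
  · have : m = 0 := by
      by_contra hm
      have := h2 0 (by omega)
      omega
    rw [h3, this]
    norm_num

include hxs in
lemma gtf_zero (L n : ℕ) (h : xs L < n) : gtf xs L n = 0 := by
  rcases gtf_cases xs hxs L n with ⟨_, h1⟩ | ⟨m, hm, h1, _, _⟩
  · exact h1
  · have := hxs hm
    omega

include hxs in
lemma gtf_sq_le (L n : ℕ) : (gtf xs L n) ^ 2 ≤
    ∑ l ∈ range (L + 1), (1 / 4 : ℝ) ^ l * (if n ≤ xs l then 1 else 0) := by
  have hnn : ∀ l ∈ range (L + 1), (0 : ℝ) ≤ (1 / 4 : ℝ) ^ l * (if n ≤ xs l then 1 else 0) := by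
    intro l _
    split_ifs <;> positivity
  rcases gtf_cases xs hxs L n with ⟨_, h1⟩ | ⟨m, hm, h1, _, h3⟩
  · rw [h1]
    have := Finset.sum_nonneg hnn
    simpa using this
  · have h4 := Finset.single_le_sum hnn (Finset.mem_range.2 (by omega : m < L + 1))
    rw [if_pos h1, mul_one] at h4
    refine le_trans (le_of_eq ?_) h4
    rw [h3, ← pow_mul, mul_comm m 2, pow_mul]
    norm_num

include hxs in
lemma gtf_sq_ge (L n : ℕ) (h : n ≤ xs 0) : 1 ≤ (gtf xs L n) ^ 2 := by
  rcases gtf_cases xs hxs L n with ⟨h1, _⟩ | ⟨m, _, _, h2, h3⟩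
  · have := hxs (Nat.zero_le L)
    omega
  · have : m = 0 := by
      by_contra hm
      have := h2 0 (by omega)
      omega
    rw [h3, this]
    norm_num

include hxs in
lemma gtf_log_le (L n : ℕ) (hn : 1 ≤ n) (ρ : ℝ) (hρ : 0 ≤ ρ)
    (hlog : ∀ l, l ≤ L → Real.log (xs l) ≤ 2 ^ l * ρ) : Real.log n * (gtf xs L n) ^ 2 ≤
    ∑ l ∈ range (L + 1), (1 / 4 : ℝ) ^ l * (2 ^ l * ρ) * (if n ≤ xs l then 1 else 0) := by
  have hnn : ∀ l ∈ range (L + 1), (0 : ℝ) ≤ (1 / 4 : ℝ) ^ l * (2 ^ l * ρ) *
      (if n ≤ xs l then 1 else 0) := by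
    intro l _
    split_ifs <;> positivity
  rcases gtf_cases xs hxs L n with ⟨_, h1⟩ | ⟨m, hm, h1, _, h3⟩
  · rw [h1]
    have := Finset.sum_nonneg hnn
    simpa using this
  · have h4 := Finset.single_le_sum hnn (Finset.mem_range.2 (by omega : m < L + 1))
    rw [if_pos h1, mul_one] at h4
    refine le_trans ?_ h4
    have h5 : (gtf xs L n) ^ 2 = (1 / 4 : ℝ) ^ m := by
      rw [h3, ← pow_mul, mul_comm m 2, pow_mul]
      norm_num
    rw [h5, mul_comm]
    apply mul_le_mul_of_nonneg_left _ (by positivity)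
    refine le_trans ?_ (hlog m hm)
    apply Real.log_le_log
    · exact_mod_cast hn
    · exact_mod_cast h1

end step

section final

variable {k W R : ℕ} (hk : 1 ≤ k) (hWk : ∀ p : ℕ, p.Prime → p ≤ 2 * k → p ∣ W)
  (xs : ℕ → ℕ) (hxs : Monotone xs) (L : ℕ)

lemma sum_level (c : ℝ) (x : ℕ) :
    ∑ V : Finset (QT W R), c * (if nV V ≤ x then 1 else 0) / gV k V = c * HH k W R x := by
  unfold HH
  rw [Finset.mul_sum]
  apply Finset.sum_congr rfl
  intro V _
  split_ifs <;> ring

lemma G1_eq : G1 (gtf xs L) k W R =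
    ∑ l ∈ range L, (1 / 2 : ℝ) ^ (l + 1) * HH k W R (xs l) + (1 / 2 : ℝ) ^ L * HH k W R (xs L) := by
  unfold G1 gtf
  simp only [add_div, Finset.sum_div]
  rw [Finset.sum_add_distrib, Finset.sum_comm]
  simp only [sum_level]

include hxs hk hWk in
lemma G2_le : G2 (gtf xs L) k W R ≤ ∑ l ∈ range (L + 1), (1 / 4 : ℝ) ^ l * HH k W R (xs l) := by
  simp only [← sum_level (k := k) (W := W) (R := R)]
  rw [Finset.sum_comm]
  unfold G2 FF
  apply Finset.sum_le_sum
  intro V _
  rw [← Finset.sum_div]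
  have := gV_pos hk hWk V
  exact div_le_div_of_nonneg_right (gtf_sq_le xs hxs L (nV V)) this.le

include hxs hk hWk in
lemma G2_ge : HH k W R (xs 0) ≤ G2 (gtf xs L) k W R := by
  unfold G2 FF HH
  apply Finset.sum_le_sum
  intro V _
  have := gV_pos hk hWk V
  split_ifs with h
  · exact div_le_div_of_nonneg_right (gtf_sq_ge xs hxs L (nV V) h) this.le
  · positivity

include hxs hk hWk in
lemma mu_le (ρ : ℝ) (hρ : 0 ≤ ρ) (hlog : ∀ l, l ≤ L → Real.log (xs l) ≤ 2 ^ l * ρ) :
    mu (gtf xs L) k W R ≤ ∑ l ∈ range (L + 1), (1 / 4 : ℝ) ^ l * (2 ^ l * ρ) * HH k W R (xs l) := by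
  simp only [← sum_level (k := k) (W := W) (R := R)]
  rw [Finset.sum_comm]
  unfold mu FF
  apply Finset.sum_le_sum
  intro V _
  rw [← Finset.sum_div, ← mul_div_assoc]
  have := gV_pos hk hWk V
  exact div_le_div_of_nonneg_right
    (gtf_log_le xs hxs L (nV V) (nV_pos V) ρ hρ hlog) this.le

end final

end Opt

theorem optim : OptimStatement := by
  intro k hk16 W hW hWk
  set L := Nat.log 2 k with hL
  have hk : 1 ≤ k := le_trans (by norm_num) hk16
  have hL16 : 16 ≤ L := by
    rw [hL]
    exact Nat.le_log_of_pow_le (by norm_num) hk16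
  have h2L : 2 ^ L ≤ k := Nat.pow_log_le_self 2 (by omega)
  have hLr : (16 : ℝ) ≤ L := by exact_mod_cast hL16
  have hkr : (0 : ℝ) < k := by exact_mod_cast hk
  have h2Lr : (2 : ℝ) ^ L ≤ k := by exact_mod_cast h2L
  have hφ : (0 : ℝ) < Nat.totient W := by exact_mod_cast Nat.totient_pos.2 hW
  have hWr : (0 : ℝ) < W := by exact_mod_cast hW
  set c : ℝ := (Nat.totient W : ℝ) / W with hc
  have hc0 : 0 < c := by positivity
  have hc1 : c ≤ 1 := by
    rw [hc, div_le_one hWr]
    exact_mod_cast Nat.totient_le W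
  refine ⟨⌈Real.exp (16 * k * (L + 4) / c)⌉₊, ?_⟩
  intro R hR
  have hRexp : Real.exp (16 * k * (L + 4) / c) ≤ R := Nat.ceil_le.1 hR
  have hRpos : (0 : ℝ) < R := lt_of_lt_of_le (Real.exp_pos _) hRexp
  have hR1 : 1 ≤ R := by exact_mod_cast hRpos
  have hlogR : 16 * k * (L + 4) / c ≤ Real.log R := by
    rw [Real.le_log_iff_exp_le hRpos]
    exact hRexp
  have hlogR0 : 0 < Real.log R := lt_of_lt_of_le (by positivity) hlogR
  set ρ : ℝ := Real.log R / (8 * k * (L + 4)) with hρ
  have hρ0 : 0 < ρ := by positivity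
  set t : ℝ := c * ρ with ht
  have ht2 : 2 ≤ t := by
    rw [ht, hρ]
    rw [div_le_iff₀ hc0] at hlogR
    rw [← mul_div_assoc, le_div_iff₀ (by positivity)]
    linarith
  have hlogRρ : Real.log R = 8 * k * (L + 4) * ρ := by
    rw [hρ]
    field_simp
  have hHB : ∀ x, x ≤ R → c * Real.log x ≤ Opt.HH k W R x :=
    fun x hx => Opt.HBound k W R x hk hW hWk hx
  clear_value t ρ c L
  -- the levels
  set xs : ℕ → ℕ := fun l => Nat.findGreatest
    (fun x => Opt.HH k W R x ≤ 2 ^ (min l L) * t) R with hxs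
  have ht0 : 0 < t := by linarith
  have hmono : Monotone xs := by
    intro l l' hll
    rw [hxs]
    apply Nat.findGreatest_mono_left
    intro x hx
    refine le_trans hx ?_
    apply mul_le_mul_of_nonneg_right _ ht0.le
    exact pow_le_pow_right₀ (by norm_num) (min_le_min_right _ hll)
  have hclogR : c * Real.log R = 8 * k * (L + 4) * t := by
    rw [ht, hlogRρ]; ring
  have hHR : c * Real.log R ≤ Opt.HH k W R R := hHB R le_rfl
  have ha : ∀ l, l ≤ L → Opt.HH k W R (xs l) ≤ 2 ^ l * t := by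
    intro l hl
    have h0 : Opt.HH k W R 0 ≤ 2 ^ (min l L) * t := by
      rw [Opt.HH_zero hk hWk]
      positivity
    have := Nat.findGreatest_spec (P := fun x => Opt.HH k W R x ≤ 2 ^ (min l L) * t)
      (Nat.zero_le R) h0
    rw [min_eq_left hl] at this
    simpa [hxs, min_eq_left hl] using this
  have hlt : ∀ l, l ≤ L → xs l < R := by
    intro l hl
    have h1 : xs l ≤ R := Nat.findGreatest_le R
    rcases Nat.lt_or_eq_of_le h1 with h | h
    · exact h
    · exfalso
      have h2 := ha l hl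
      rw [h] at h2
      have h3 : (2 : ℝ) ^ l ≤ k := (pow_le_pow_right₀ (by norm_num) hl).trans h2Lr
      have h4 : (2 : ℝ) ^ l * t ≤ k * t := by gcongr
      have h5 : 8 * k * (L + 4) * t ≤ k * t := by
        rw [← hclogR]
        linarith
      have h6 : (0 : ℝ) < k * t := by positivity
      nlinarith
  have hb : ∀ l, l ≤ L → 2 ^ l * t < Opt.HH k W R (xs l + 1) := by
    intro l hl
    have h1 := hlt l hl
    have h2 := Nat.findGreatest_is_greatest (P := fun x => Opt.HH k W R x ≤ 2 ^ (min l L) * t)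
      (n := R) (k := xs l + 1) (Nat.lt_succ_self _) (by omega)
    rw [min_eq_left hl] at h2
    exact lt_of_not_ge h2
  have hcc : ∀ l, l ≤ L → 2 ^ l * t / 2 ≤ Opt.HH k W R (xs l) := by
    intro l hl
    have h1 := hb l hl
    have h2 := Opt.HH_succ (R := R) hk hWk (xs l)
    have h3 : (1 : ℝ) ≤ 2 ^ l := one_le_pow₀ (by norm_num)
    have h4 : (2 : ℝ) ≤ 2 ^ l * t := by nlinarith
    linarith
  have hd : ∀ l, l ≤ L → Real.log (xs l) ≤ 2 ^ l * ρ := by
    intro l hl
    have h1 : c * Real.log (xs l) ≤ Opt.HH k W R (xs l) :=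
      hHB (xs l) (hlt l hl).le
    have h2 := ha l hl
    have h3 : c * Real.log (xs l) ≤ c * (2 ^ l * ρ) := by
      refine h1.trans (h2.trans (le_of_eq ?_))
      rw [ht]; ring
    exact le_of_mul_le_mul_left h3 hc0
  have hxs0 : 1 ≤ xs 0 := by
    rw [hxs]
    apply Nat.le_findGreatest hR1
    rw [Opt.HH_one hk hWk]
    simp
    linarith
  have hxsL : 1 ≤ xs L := hxs0.trans (hmono (Nat.zero_le L))
  clear_value xs
  -- the moments
  set g1 := Opt.G1 (Opt.gtf xs L) k W R with hg1
  set g2 := Opt.G2 (Opt.gtf xs L) k W R with hg2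
  set m2 := Opt.mu (Opt.gtf xs L) k W R with hm2
  have hHnn : ∀ x, 0 ≤ Opt.HH k W R x := by
    intro x
    have := Opt.HH_mono (R := R) hk hWk (Nat.zero_le x)
    rwa [Opt.HH_zero hk hWk] at this
  have e1 : L * t / 4 ≤ g1 := by
    rw [hg1, Opt.G1_eq]
    have h1 : L * t / 4 ≤ ∑ l ∈ range L, (1 / 2 : ℝ) ^ (l + 1) * Opt.HH k W R (xs l) := by
      have h2 : ∑ l ∈ range L, (t / 4) ≤
          ∑ l ∈ range L, (1 / 2 : ℝ) ^ (l + 1) * Opt.HH k W R (xs l) := by
        apply Finset.sum_le_sum
        intro l hl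
        have h3 := hcc l (Finset.mem_range.1 hl).le
        have h4 : (1 / 2 : ℝ) ^ (l + 1) * (2 ^ l * t / 2) = t / 4 := by
          rw [pow_succ, one_div, inv_pow]
          field_simp
          ring
        rw [← h4]
        gcongr
      rw [Finset.sum_const, Finset.card_range, nsmul_eq_mul] at h2
      linarith
    have h5 : 0 ≤ (1 / 2 : ℝ) ^ L * Opt.HH k W R (xs L) := by
      have := hHnn (xs L)
      positivity
    linarith
  have e2 : g2 ≤ 2 * t := by
    rw [hg2]
    refine (Opt.G2_le hk hWk xs hmono L).trans ?_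
    have h1 : ∑ l ∈ range (L + 1), (1 / 4 : ℝ) ^ l * Opt.HH k W R (xs l) ≤
        ∑ l ∈ range (L + 1), (1 / 2 : ℝ) ^ l * t := by
      apply Finset.sum_le_sum
      intro l hl
      have h3 := ha l (Nat.lt_succ_iff.1 (Finset.mem_range.1 hl))
      have h4 : (1 / 4 : ℝ) ^ l * (2 ^ l * t) = (1 / 2 : ℝ) ^ l * t := by
        rw [← mul_assoc, ← mul_pow]
        norm_num
      rw [← h4]
      gcongr
    refine h1.trans ?_
    rw [← Finset.sum_mul]
    apply mul_le_mul_of_nonneg_right _ ht0.le
    have h5 := sum_geometric_two_le (L + 1)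
    exact h5
  have e3 : t / 2 ≤ g2 := by
    have h1 := Opt.G2_ge (R := R) hk hWk xs hmono L
    have h2 := hcc 0 (Nat.zero_le _)
    rw [pow_zero, one_mul] at h2
    exact h2.trans h1
  have e4 : m2 ≤ (L + 1) * ρ * t := by
    rw [hm2]
    refine (Opt.mu_le hk hWk xs hmono L ρ hρ0.le hd).trans ?_
    have h1 : ∑ l ∈ range (L + 1), (1 / 4 : ℝ) ^ l * (2 ^ l * ρ) * Opt.HH k W R (xs l) ≤
        ∑ l ∈ range (L + 1), ρ * t := by
      apply Finset.sum_le_sum
      intro l hl
      have h3 := ha l (Nat.lt_succ_iff.1 (Finset.mem_range.1 hl))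
      have h4 : (1 / 4 : ℝ) ^ l * (2 ^ l * ρ) * (2 ^ l * t) = ρ * t := by
        have : (1 / 4 : ℝ) ^ l * 2 ^ l * 2 ^ l = 1 := by
          rw [← mul_pow, ← mul_pow]
          norm_num
        calc (1 / 4 : ℝ) ^ l * (2 ^ l * ρ) * (2 ^ l * t)
            = ((1 / 4 : ℝ) ^ l * 2 ^ l * 2 ^ l) * (ρ * t) := by ring
          _ = ρ * t := by rw [this, one_mul]
      rw [← h4]
      gcongr
    refine h1.trans (le_of_eq ?_)
    rw [Finset.sum_const, Finset.card_range, nsmul_eq_mul]
    push_cast
    ring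
  have e5 : k * (8 * L + 31) * ρ ≤ Real.log R - Real.log (xs L) := by
    have h1 := hd L le_rfl
    have h2 : (2 : ℝ) ^ L * ρ ≤ k * ρ := by gcongr
    have h3 : Real.log R - Real.log (xs L) ≥ 8 * k * (L + 4) * ρ - k * ρ := by
      rw [← hlogRρ]
      linarith
    have h4 : 8 * k * (L + 4) * ρ - k * ρ = k * (8 * L + 31) * ρ := by ring
    linarith
  have hδ : 0 < Real.log R - Real.log (xs L) := lt_of_lt_of_le (by positivity) e5
  have hg2pos : 0 < g2 := lt_of_lt_of_le (by positivity) e3
  have hg1pos : 0 < g1 := lt_of_lt_of_le (by positivity) e1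
  have e9 := fun j : Fin k => Opt.EEj_ge (k := k) (W := W) (R := R) (Opt.gtf xs L)
      (Opt.gtf_one xs hmono L hxs0) hk hWk (xs L)
      (fun n hn => Opt.gtf_zero xs hmono L n hn) j (by linarith) hxsL hR1
  have e7 : EE k (Opt.yy (Opt.gtf xs L) (k := k) (W := W) (R := R)) ≤ g2 ^ k :=
    Opt.EE_le _ (Opt.gtf_nonneg xs L) hk hWk
  rw [← hg1, ← hg2, ← hm2] at e9
  clear_value g1 g2 m2
  -- the lower bound
  have e6 : ∀ j : Fin k, g1 ^ 2 * (g2 ^ (k - 1) / 2) ≤
      EEj k (Opt.yy (Opt.gtf xs L) (k := k) (W := W) (R := R)) j := by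
    intro j
    have h1 := e9 j
    refine le_trans ?_ h1
    apply mul_le_mul_of_nonneg_left _ (sq_nonneg _)
    have h2 : g2 ^ (k - 1) = g2 ^ (k - 2) * g2 := by
      rw [← pow_succ]
      congr 1
      have : 2 ≤ k := le_trans (by norm_num) hk16
      omega
    have h3 : (((k : ℝ) - 1) * (m2 * g2 ^ (k - 2))) / (Real.log R - Real.log (xs L)) ≤
        g2 ^ (k - 1) / 2 := by
      rw [div_le_iff₀ hδ, h2]
      have h4 : ((k : ℝ) - 1) * m2 ≤ g2 / 2 * (Real.log R - Real.log (xs L)) := by
        have h5 : m2 ≤ 2 * (L + 1) * ρ * g2 := by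
          refine e4.trans ?_
          have : t ≤ 2 * g2 := by linarith
          calc (L + 1) * ρ * t ≤ (L + 1) * ρ * (2 * g2) := by gcongr
            _ = 2 * (L + 1) * ρ * g2 := by ring
        have h6 : ((k : ℝ) - 1) * m2 ≤ k * (2 * (L + 1) * ρ * g2) := by
          have hk1 : (0 : ℝ) ≤ (k : ℝ) - 1 := by
            have : (1 : ℝ) ≤ k := by exact_mod_cast hk
            linarith
          calc ((k : ℝ) - 1) * m2 ≤ ((k : ℝ) - 1) * (2 * (L + 1) * ρ * g2) := by gcongr
            _ ≤ k * (2 * (L + 1) * ρ * g2) := by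
                apply mul_le_mul_of_nonneg_right _ (by positivity)
                linarith
        have h7 : g2 / 2 * (k * (8 * L + 31) * ρ) ≤
            g2 / 2 * (Real.log R - Real.log (xs L)) := by gcongr
        have h8 : k * (2 * (L + 1) * ρ * g2) ≤ g2 / 2 * (k * (8 * L + 31) * ρ) := by
          have h9 : g2 / 2 * (k * (8 * L + 31) * ρ) - k * (2 * (L + 1) * ρ * g2) =
              k * ρ * g2 * (2 * L + 27 / 2) := by ring
          have h10 : 0 ≤ k * ρ * g2 * (2 * (L : ℝ) + 27 / 2) := by positivity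
          linarith
        linarith
      have h11 : ((k : ℝ) - 1) * (m2 * g2 ^ (k - 2)) = (((k : ℝ) - 1) * m2) * g2 ^ (k - 2) := by
        ring
      have h12 : g2 ^ (k - 2) * g2 / 2 * (Real.log R - Real.log (xs L)) =
          (g2 / 2 * (Real.log R - Real.log (xs L))) * g2 ^ (k - 2) := by ring
      rw [h11, h12]
      apply mul_le_mul_of_nonneg_right h4
      positivity
    linarith
  refine ⟨Opt.yy (Opt.gtf xs L), Opt.yy_nonneg _ (Opt.gtf_nonneg xs L),
    Opt.yy_le_one _ (Opt.gtf_nonneg xs L) (Opt.gtf_le_one xs hmono L),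
    Opt.yy_anti _ (Opt.gtf_nonneg xs L) (Opt.gtf_anti xs L),
    fun U hU => Opt.yy_supp _ U hU,
    Opt.EE_pos _ (Opt.gtf_one xs hmono L hxs0) hk hWk hR1, ?_⟩
  have e8 : k * (g1 ^ 2 * (g2 ^ (k - 1) / 2)) ≤
      ∑ j : Fin k, EEj k (Opt.yy (Opt.gtf xs L) (k := k) (W := W) (R := R)) j := by
    have h1 : ∑ j : Fin k, g1 ^ 2 * (g2 ^ (k - 1) / 2) ≤
        ∑ j : Fin k, EEj k (Opt.yy (Opt.gtf xs L) (k := k) (W := W) (R := R)) j :=
      Finset.sum_le_sum (fun j _ => e6 j)
    rw [Finset.sum_const, Finset.card_univ, Fintype.card_fin, nsmul_eq_mul] at h1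
    exact h1
  refine le_trans ?_ e8
  have hpow : g2 ^ k = g2 ^ (k - 1) * g2 := by
    rw [← pow_succ]
    congr 1
    omega
  calc (c * Real.log R * (L / 640)) * EE k (Opt.yy (Opt.gtf xs L) (k := k) (W := W) (R := R))
      ≤ (c * Real.log R * (L / 640)) * g2 ^ k := by gcongr
    _ = (8 * k * (L + 4) * t * (L / 640)) * g2 * g2 ^ (k - 1) := by
        rw [hclogR, hpow]; ring
    _ ≤ (8 * k * (L + 4) * t * (L / 640)) * (2 * t) * g2 ^ (k - 1) := by gcongr
    _ ≤ (k * (L * t / 4) ^ 2 / 2) * g2 ^ (k - 1) := by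
        apply mul_le_mul_of_nonneg_right _ (by positivity)
        have h1 : (k * (L * t / 4) ^ 2 / 2) - (8 * k * (L + 4) * t * (L / 640)) * (2 * t) =
            k * t ^ 2 * L * (L - 16) / 160 := by ring
        have h2 : 0 ≤ k * t ^ 2 * L * ((L : ℝ) - 16) / 160 := by
          have : (0 : ℝ) ≤ (L : ℝ) - 16 := by linarith
          positivity
        linarith
    _ ≤ (k * g1 ^ 2 / 2) * g2 ^ (k - 1) := by gcongr
    _ = k * (g1 ^ 2 * (g2 ^ (k - 1) / 2)) := by ring

end Pool.Agent.Helper11.MT
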