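import Pool.Agent.Helper11.MT.LatticeDefs

/-!
Proofs of the statements of `LatticeDefs` (Boolean-lattice sieve).
-/

set_option linter.unusedSectionVars false

open Finset

namespace Pool.Agent.Helper11.MT

/-! ### The expansion -/

section Expansion

variable {Q ι : Type} [Fintype Q] [DecidableEq Q] [Fintype ι] [DecidableEq ι]

theorem sum_alpha (g : Q → ℝ) (I : Finset ι) (q : Q) :
    ∑ i, alpha g I q i = #I / (g q + #I) := by
  unfold alpha
  rw [Finset.sum_ite_mem, Finset.univ_inter, Finset.sum_const, nsmul_eq_mul]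
  ring

theorem kap_bas (g : Q → ℝ) (hg : ∀ q, 1 ≤ g q) (I : Finset ι) (q : Q) (o' o'' : Option ι) :
    ∑ o, kap g I q o o' * bas g I q o o'' = if o' = o'' then 1 else 0 := by
  have hpos : (0 : ℝ) < g q + #I := by
    have := hg q
    positivity
  rw [Fintype.sum_option]
  rcases o' with _ | j
  · -- o' = none
    have h1 : ∀ i : ι, kap g I q (some i) none * bas g I q (some i) o'' =
        alpha g I q i - (if o'' = some i then 1 else 0) := by
      intro i
      simp [kap, bas]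
    rw [Finset.sum_congr rfl (fun i _ => h1 i), Finset.sum_sub_distrib, sum_alpha]
    rcases o'' with _ | j
    · simp [kap, bas]
      field_simp
    · simp [kap, bas]
      field_simp
      ring
  · have h1 : ∀ i : ι, kap g I q (some i) (some j) * bas g I q (some i) o'' =
        if i = j then ((if o'' = some j then 1 else 0) - alpha g I q j) else 0 := by
      intro i
      by_cases h : i = j
      · subst h
        simp [kap, bas]
      · have h' : ¬ (some j = some i) := by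
          intro h2
          exact h (Option.some.inj h2).symm
        simp [kap, bas, h, h']
    rw [Finset.sum_congr rfl (fun i _ => h1 i), Finset.sum_ite_eq' univ j]
    simp only [Finset.mem_univ, if_true]
    by_cases h : o'' = some j
    · simp [kap, bas, h]
    · have h' : ¬ (some j = o'') := fun h2 => h h2.symm
      simp [kap, bas, h, h']

theorem expansion : ExpansionStatement := by
  intro Q ι _ _ _ _ g hg I G f
  unfold BB
  simp only [Finset.sum_mul]
  rw [Finset.sum_comm]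
  have h1 : ∀ f' : Q → Option ι, ∑ s : Q → Option ι,
      ((∏ q, kap g I q (s q) (f' q)) * G (gr f')) * ∏ q, bas g I q (s q) (f q) =
      if f' = f then G (gr f') else 0 := by
    intro f'
    have h2 : ∀ s : Q → Option ι,
        ((∏ q, kap g I q (s q) (f' q)) * G (gr f')) * ∏ q, bas g I q (s q) (f q) =
        G (gr f') * ∏ q, (kap g I q (s q) (f' q) * bas g I q (s q) (f q)) := by
      intro s
      rw [Finset.prod_mul_distrib]
      ring
    rw [Finset.sum_congr rfl (fun s _ => h2 s), ← Finset.mul_sum]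
    have h3 : ∑ s : Q → Option ι, ∏ q, (kap g I q (s q) (f' q) * bas g I q (s q) (f q)) =
        ∏ q, ∑ o, kap g I q o (f' q) * bas g I q o (f q) := by
      rw [Finset.prod_univ_sum]
      rw [Fintype.piFinset_univ]
    rw [h3, Finset.prod_congr rfl (fun q _ => kap_bas g hg I q (f' q) (f q))]
    by_cases h : f' = f
    · subst h
      simp
    · rw [if_neg h]
      obtain ⟨q, hq⟩ := Function.ne_iff.mp h
      rw [Finset.prod_eq_zero (Finset.mem_univ q) (by rw [if_neg hq]), mul_zero]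
  rw [Finset.sum_congr rfl (fun f' _ => h1 f'), Finset.sum_ite_eq' univ f]
  simp

end Expansion

/-! ### The support -/

section Support

variable {Q ι : Type} [Fintype Q] [DecidableEq Q] [Fintype ι] [DecidableEq ι]

theorem mem_gr (f : Q → Option ι) (τ : Q × ι) : τ ∈ gr f ↔ f τ.1 = some τ.2 := by
  simp [gr]

/-- The local factor of `eU` at `q`. -/
noncomputable def phiU (g : Q → ℝ) (U : Finset (Q × ι)) (q : Q) (o : Option ι) : ℝ :=
  ∏ i : ι, (if (q, i) ∈ U then (if o = some i then -1 else 1 / g q) else 1)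

theorem eU_gr (g : Q → ℝ) (U : Finset (Q × ι)) (f : Q → Option ι) :
    eU g U (gr f) = ∏ q, phiU g U q (f q) := by
  unfold eU phiU
  rw [← Finset.prod_product' (s := (univ : Finset Q)) (t := (univ : Finset ι))
    (f := fun q i => (if (q, i) ∈ U then (if f q = some i then (-1 : ℝ) else 1 / g q) else 1))]
  rw [Finset.univ_product_univ]
  rw [Finset.prod_ite_mem (univ : Finset (Q × ι)) U
    (fun τ => (if f τ.1 = some τ.2 then (-1 : ℝ) else 1 / g τ.1))]
  rw [Finset.univ_inter]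
  refine Finset.prod_congr rfl (fun τ _ => ?_)
  simp only [mem_gr]

theorem phiU_of_not_mem (g : Q → ℝ) (U : Finset (Q × ι)) (q : Q) (o : Option ι)
    (h : q ∉ U.image Prod.fst) : phiU g U q o = 1 := by
  unfold phiU
  refine Finset.prod_eq_one (fun i _ => ?_)
  rw [if_neg]
  intro h2
  exact h (Finset.mem_image.mpr ⟨(q, i), h2, rfl⟩)

theorem sum_kap_some (g : Q → ℝ) (I : Finset ι) (q : Q) (i : ι) :
    ∑ o, kap g I q (some i) o = 0 := by
  rw [Fintype.sum_option]
  simp [kap]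

theorem BB_sq (g : Q → ℝ) (I : Finset ι) (y : Finset (Q × ι) → ℝ) (s : Q → Option ι) :
    BB g I (fun Y => (AA g y Y) ^ 2) s =
      ∑ U : Finset (Q × ι), ∑ U' : Finset (Q × ι), y U * y U' *
        ∏ q, ∑ o, kap g I q (s q) o * phiU g U q o * phiU g U' q o := by
  unfold BB AA
  have h1 : ∀ U U' : Finset (Q × ι), ∏ q, ∑ o, kap g I q (s q) o * phiU g U q o * phiU g U' q o =
      ∑ f : Q → Option ι, (∏ q, kap g I q (s q) (f q)) * (eU g U (gr f) * eU g U' (gr f)) := by
    intro U U'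
    rw [Finset.prod_univ_sum, Fintype.piFinset_univ]
    refine Finset.sum_congr rfl (fun f _ => ?_)
    rw [eU_gr, eU_gr, Finset.prod_mul_distrib, Finset.prod_mul_distrib]
    ring
  have h2 : ∀ f : Q → Option ι, (∏ q, kap g I q (s q) (f q)) * (∑ U, y U * eU g U (gr f)) ^ 2 =
      ∑ U : Finset (Q × ι), ∑ U' : Finset (Q × ι),
        y U * y U' * ((∏ q, kap g I q (s q) (f q)) * (eU g U (gr f) * eU g U' (gr f))) := by
    intro f
    rw [sq, Finset.sum_mul_sum, Finset.mul_sum]
    refine Finset.sum_congr rfl (fun U _ => ?_)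
    rw [Finset.mul_sum]
    refine Finset.sum_congr rfl (fun U' _ => ?_)
    ring
  rw [Finset.sum_congr rfl (fun f _ => h2 f), Finset.sum_comm]
  refine Finset.sum_congr rfl (fun U _ => ?_)
  rw [Finset.sum_comm]
  refine Finset.sum_congr rfl (fun U' _ => ?_)
  rw [h1, Finset.mul_sum]

theorem prod_image_le (U : Finset (Q × ι)) (pr : Q → ℕ) (hpr : ∀ q, 1 ≤ pr q) :
    ∏ q ∈ U.image Prod.fst, pr q ≤ ∏ τ ∈ U, pr τ.1 := by
  induction U using Finset.induction_on with
  | empty => simp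
  | insert a U ha ih =>
    rw [Finset.prod_insert ha, Finset.image_insert]
    by_cases h : a.1 ∈ U.image Prod.fst
    · rw [Finset.insert_eq_of_mem h]
      exact ih.trans (Nat.le_mul_of_pos_left _ (hpr a.1))
    · rw [Finset.prod_insert h]
      exact Nat.mul_le_mul_left _ ih

theorem support : SupportStatement := by
  intro Q ι _ _ _ _ g hg I y pr hpr R hy s hs
  rw [BB_sq]
  refine Finset.sum_eq_zero (fun U _ => Finset.sum_eq_zero (fun U' _ => ?_))
  by_cases h1 : R < ∏ τ ∈ U, pr τ.1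
  · rw [hy U h1]; ring
  by_cases h2 : R < ∏ τ ∈ U', pr τ.1
  · rw [hy U' h2]; ring
  push Not at h1 h2
  -- there is `q` in the support outside of the first components
  have h3 : ∃ q ∈ supp s, q ∉ U.image Prod.fst ∪ U'.image Prod.fst := by
    by_contra hcon
    push Not at hcon
    have h4 : ∏ q ∈ supp s, pr q ≤ ∏ q ∈ U.image Prod.fst ∪ U'.image Prod.fst, pr q :=
      Finset.prod_le_prod_of_subset_of_one_le' hcon (fun q _ _ => hpr q)
    have h5 : ∏ q ∈ U.image Prod.fst ∪ U'.image Prod.fst, pr q ≤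
        (∏ q ∈ U.image Prod.fst, pr q) * ∏ q ∈ U'.image Prod.fst, pr q := by
      rw [← Finset.prod_union_inter]
      exact Nat.le_mul_of_pos_right _ (Finset.prod_pos (fun q _ => hpr q))
    have h6 := prod_image_le U pr hpr
    have h7 := prod_image_le U' pr hpr
    have h8 : (∏ q ∈ U.image Prod.fst, pr q) * ∏ q ∈ U'.image Prod.fst, pr q ≤ R * R :=
      Nat.mul_le_mul (h6.trans h1) (h7.trans h2)
    rw [← sq] at h8
    omega
  obtain ⟨q, hq, hq'⟩ := h3
  rw [Finset.mem_union, not_or] at hq'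
  rw [Finset.prod_eq_zero (Finset.mem_univ q), mul_zero]
  have h9 : s q ≠ none := by simpa [supp] using hq
  obtain ⟨i, hi⟩ := Option.ne_none_iff_exists'.mp h9
  rw [hi]
  rw [Finset.sum_congr rfl (fun o _ => by
    rw [phiU_of_not_mem g U q o hq'.1, phiU_of_not_mem g U' q o hq'.2, mul_one, mul_one])]
  exact sum_kap_some g I q i

end Support

/-! ### Divisor-sum form -/

section Lambda

variable {Q ι : Type} [Fintype Q] [DecidableEq Q] [Fintype ι] [DecidableEq ι]

theorem gU_pos (g : Q → ℝ) (hg : ∀ q, 1 ≤ g q) (U : Finset (Q × ι)) : 0 < gU g U :=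
  Finset.prod_pos (fun τ _ => lt_of_lt_of_le one_pos (hg τ.1))

theorem one_le_gU (g : Q → ℝ) (hg : ∀ q, 1 ≤ g q) (U : Finset (Q × ι)) : 1 ≤ gU g U := by
  unfold gU
  calc (1 : ℝ) = ∏ τ ∈ U, (1 : ℝ) := by simp
    _ ≤ ∏ τ ∈ U, g τ.1 := Finset.prod_le_prod (fun _ _ => zero_le_one) (fun τ _ => hg τ.1)

/-- The divisor-sum coefficients. -/
noncomputable def lamD (g : Q → ℝ) (y : Finset (Q × ι) → ℝ) (D : Finset (Q × ι)) : ℝ :=
  ∑ U : Finset (Q × ι), if D ⊆ U then y U / gU g U * ∏ τ ∈ D, (-(g τ.1 + 1)) else 0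

theorem eU_expand (g : Q → ℝ) (hg : ∀ q, 1 ≤ g q) (U Y : Finset (Q × ι)) :
    eU g U Y = ∑ D : Finset (Q × ι), if D ⊆ Y then
      (if D ⊆ U then 1 / gU g U * ∏ τ ∈ D, (-(g τ.1 + 1)) else 0) else 0 := by
  have h1 : eU g U Y = 1 / gU g U * ∏ τ ∈ U, ((if τ ∈ Y then -(g τ.1 + 1) else 0) + 1) := by
    unfold eU gU
    rw [one_div, ← Finset.prod_inv_distrib, ← Finset.prod_mul_distrib]
    refine Finset.prod_congr rfl (fun τ _ => ?_)
    have : g τ.1 ≠ 0 := by have := hg τ.1; linarith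
    split_ifs
    · field_simp
      ring
    · simp
  rw [h1, Finset.prod_add, Finset.mul_sum]
  rw [← Finset.sum_filter_add_sum_filter_not (univ : Finset (Finset (Q × ι))) (fun D => D ⊆ U)]
  have h2 : ∑ D ∈ univ.filter (fun D : Finset (Q × ι) => ¬ D ⊆ U), (if D ⊆ Y then
      (if D ⊆ U then 1 / gU g U * ∏ τ ∈ D, (-(g τ.1 + 1)) else 0) else 0) = 0 := by
    refine Finset.sum_eq_zero (fun D hD => ?_)
    rw [Finset.mem_filter] at hD
    simp [hD.2]
  rw [h2, add_zero]
  have h3 : univ.filter (fun D : Finset (Q × ι) => D ⊆ U) = U.powerset := by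
    ext D
    simp
  rw [h3]
  refine Finset.sum_congr rfl (fun D hD => ?_)
  rw [Finset.mem_powerset] at hD
  rw [if_pos hD, Finset.prod_const_one, mul_one]
  by_cases h : D ⊆ Y
  · rw [if_pos h]
    congr 1
    exact Finset.prod_congr rfl (fun τ hτ => by rw [if_pos (h hτ)])
  · rw [if_neg h]
    obtain ⟨τ, hτ, hτ'⟩ := Finset.not_subset.mp h
    rw [Finset.prod_eq_zero hτ (by rw [if_neg hτ']), mul_zero]

theorem AA_lam (g : Q → ℝ) (hg : ∀ q, 1 ≤ g q) (y : Finset (Q × ι) → ℝ) (Y : Finset (Q × ι)) :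
    AA g y Y = ∑ D ∈ Y.powerset, lamD g y D := by
  have h3 : Y.powerset = univ.filter (fun D : Finset (Q × ι) => D ⊆ Y) := by
    ext D
    simp
  rw [h3, Finset.sum_filter]
  unfold AA lamD
  simp_rw [eU_expand g hg, Finset.mul_sum]
  rw [Finset.sum_comm]
  refine Finset.sum_congr rfl (fun D _ => ?_)
  by_cases h : D ⊆ Y
  · simp only [if_pos h]
    refine Finset.sum_congr rfl (fun U _ => ?_)
    split_ifs
    · ring
    · ring
  · simp [h]

theorem prod_nat_mono (pr : Q → ℕ) (hpr : ∀ q, 1 ≤ pr q) (D U : Finset (Q × ι)) (h : D ⊆ U) :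
    ∏ τ ∈ D, pr τ.1 ≤ ∏ τ ∈ U, pr τ.1 :=
  Finset.prod_le_prod_of_subset_of_one_le' h (fun τ _ _ => hpr τ.1)

theorem card_le (pr : Q → ℕ) (hpr : ∀ q, 1 ≤ pr q) (R : ℕ) :
    ((univ.filter (fun U : Finset (Q × ι) => ∏ τ ∈ U, pr τ.1 ≤ R)).card : ℝ) ≤
      (R : ℝ) ^ 2 * Real.exp (Fintype.card ι * ∑ q, 1 / (pr q : ℝ) ^ 2) := by
  have h1 : ((univ.filter (fun U : Finset (Q × ι) => ∏ τ ∈ U, pr τ.1 ≤ R)).card : ℝ) ≤
      ∑ U : Finset (Q × ι), (R : ℝ) ^ 2 * ∏ τ ∈ U, 1 / (pr τ.1 : ℝ) ^ 2 := by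
    rw [Finset.card_eq_sum_ones, Nat.cast_sum, Finset.sum_filter]
    refine Finset.sum_le_sum (fun U _ => ?_)
    have h2 : (0 : ℝ) < ∏ τ ∈ U, (pr τ.1 : ℝ) :=
      Finset.prod_pos (fun τ _ => by exact_mod_cast hpr τ.1)
    split_ifs with h
    · have h3 : (∏ τ ∈ U, (pr τ.1 : ℝ)) ≤ R := by exact_mod_cast h
      rw [Finset.prod_div_distrib, Finset.prod_const_one, Finset.prod_pow, Nat.cast_one,
        ← mul_div_assoc, mul_one, le_div_iff₀ (by positivity), one_mul]
      exact pow_le_pow_left₀ h2.le h3 2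
    · have : (0 : ℝ) ≤ ∏ τ ∈ U, 1 / (pr τ.1 : ℝ) ^ 2 :=
        Finset.prod_nonneg (fun τ _ => by positivity)
      positivity
  refine h1.trans ?_
  rw [← Finset.mul_sum]
  refine mul_le_mul_of_nonneg_left ?_ (by positivity)
  have h4 : ∑ U : Finset (Q × ι), ∏ τ ∈ U, 1 / (pr τ.1 : ℝ) ^ 2 =
      ∏ τ : Q × ι, (1 + 1 / (pr τ.1 : ℝ) ^ 2) := by
    rw [Finset.prod_one_add]
    rw [Finset.powerset_univ]
  rw [h4]
  have h5 : ∏ τ : Q × ι, (1 + 1 / (pr τ.1 : ℝ) ^ 2) ≤
      ∏ τ : Q × ι, Real.exp (1 / (pr τ.1 : ℝ) ^ 2) := by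
    refine Finset.prod_le_prod (fun τ _ => by positivity) (fun τ _ => ?_)
    rw [add_comm]
    exact Real.add_one_le_exp _
  refine h5.trans (le_of_eq ?_)
  rw [← Real.exp_sum, Fintype.sum_prod_type]
  congr 1
  rw [Finset.mul_sum]
  refine Finset.sum_congr rfl (fun q _ => ?_)
  change ∑ _i : ι, 1 / (pr q : ℝ) ^ 2 = _
  rw [Finset.sum_const, nsmul_eq_mul, Finset.card_univ]

theorem lambda : LambdaStatement := by
  intro Q ι _ _ _ _ g hg y pr hpr R hy1 hy
  have hpr1 : ∀ q, 1 ≤ pr q := by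
    intro q
    have h1 := hpr q
    have h2 := hg q
    have : (1 : ℝ) ≤ pr q := by linarith
    exact_mod_cast this
  have hzero : ∀ D : Finset (Q × ι), R < ∏ τ ∈ D, pr τ.1 → lamD g y D = 0 := by
    intro D hD
    unfold lamD
    refine Finset.sum_eq_zero (fun U _ => ?_)
    split_ifs with h
    · rw [hy U (hD.trans_le (prod_nat_mono pr hpr1 D U h))]
      simp
    · rfl
  refine ⟨lamD g y, AA_lam g hg y, hzero, ?_⟩
  set N : ℝ := ((univ.filter (fun U : Finset (Q × ι) => ∏ τ ∈ U, pr τ.1 ≤ R)).card : ℝ) with hN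
  have hb : ∀ D : Finset (Q × ι), |lamD g y D| ≤
      if ∏ τ ∈ D, pr τ.1 ≤ R then (R : ℝ) * N else 0 := by
    intro D
    split_ifs with h
    · unfold lamD
      refine (Finset.abs_sum_le_sum_abs _ _).trans ?_
      have h1 : (R : ℝ) * N = ∑ U : Finset (Q × ι), if ∏ τ ∈ U, pr τ.1 ≤ R then (R : ℝ) else 0 := by
        rw [← Finset.sum_filter, Finset.sum_const, nsmul_eq_mul, hN, mul_comm]
      rw [h1]
      refine Finset.sum_le_sum (fun U _ => ?_)
      split_ifs with h2 h3
      · rw [abs_mul, abs_div, abs_of_pos (gU_pos g hg U), Finset.abs_prod]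
        have h4 : |y U| / gU g U ≤ 1 := by
          rw [div_le_one (gU_pos g hg U)]
          exact (hy1 U).trans (one_le_gU g hg U)
        have h5 : ∏ τ ∈ D, |(-(g τ.1 + 1))| ≤ R := by
          calc ∏ τ ∈ D, |(-(g τ.1 + 1))| ≤ ∏ τ ∈ D, (pr τ.1 : ℝ) := by
                refine Finset.prod_le_prod (fun τ _ => abs_nonneg _) (fun τ _ => ?_)
                rw [abs_neg, abs_of_nonneg (by have := hg τ.1; linarith)]
                exact hpr τ.1
            _ ≤ R := by exact_mod_cast h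
        calc |y U| / gU g U * ∏ τ ∈ D, |(-(g τ.1 + 1))| ≤ 1 * R := by
              refine mul_le_mul h4 h5 ?_ zero_le_one
              exact Finset.prod_nonneg (fun τ _ => abs_nonneg _)
          _ = R := one_mul _
      · push Not at h3
        rw [hy U h3]
        simp
      · simp
      · simp
    · push Not at h
      rw [hzero D h, abs_zero]
  refine (Finset.sum_le_sum (fun D _ => hb D)).trans ?_
  rw [← Finset.sum_filter, Finset.sum_const, nsmul_eq_mul, ← hN]
  have hN0 : 0 ≤ N := by positivity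
  have hc := card_le (ι := ι) pr hpr1 R
  rw [← hN] at hc
  calc N * ((R : ℝ) * N) = R * (N * N) := by ring
    _ ≤ R * (((R : ℝ) ^ 2 * Real.exp (Fintype.card ι * ∑ q, 1 / (pr q : ℝ) ^ 2)) *
        ((R : ℝ) ^ 2 * Real.exp (Fintype.card ι * ∑ q, 1 / (pr q : ℝ) ^ 2))) := by
        gcongr
    _ = (R : ℝ) ^ 5 * Real.exp (2 * Fintype.card ι * ∑ q, 1 / (pr q : ℝ) ^ 2) := by
        rw [show (2 * (Fintype.card ι : ℝ) * ∑ q, 1 / (pr q : ℝ) ^ 2) =
          Fintype.card ι * ∑ q, 1 / (pr q : ℝ) ^ 2 + Fintype.card ι * ∑ q, 1 / (pr q : ℝ) ^ 2 by ring,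
          Real.exp_add]
        ring

end Lambda

end Pool.Agent.Helper11.MT
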