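import Mathlib
import Pool.Agent.Helper11.MT.Optim
import Pool.Agent.Helper11.MT.Lattice
import Pool.Agent.Helper11.MT.Lattice2
import Pool.Agent.Helper11.MT.Sieve1
import Pool.Agent.Helper11.MT.LargeSieve
import Pool.Agent.Helper11.MT.EQDefs

/-!
Real characters of small modulus: Selberg majorant and duality.
-/

open Finset Filter Topology ComplexConjugate

namespace Pool.Agent.Helper11.MT

open ArithmeticFunction (vonMangoldt)

namespace RC

/-- The Selberg coefficients in dimension one. -/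
noncomputable def yR (R : ℕ) (U : Finset (QT 1 R × Fin 1)) : ℝ := if nn U ≤ R then 1 else 0

/-- The value at the empty set. -/
noncomputable def VV (R : ℕ) : ℝ := AA (gk 1) (yR R) ∅

lemma gk_one_le {R : ℕ} (q : QT 1 R) : (1 : ℝ) ≤ gk 1 q := by
  unfold gk
  have h1 := (qt_prime q).two_le
  have h2 : (2 : ℝ) ≤ ((q : ℕ) : ℝ) := by exact_mod_cast h1
  push_cast
  linarith

lemma VV_eq (R : ℕ) : VV R = ∑ U, yR R U / gU (gk 1) U := by
  unfold VV AA
  refine Finset.sum_congr rfl fun U _ => ?_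
  have : eU (gk 1) U ∅ = 1 / gU (gk 1) U := by
    unfold eU gU
    rw [one_div, ← Finset.prod_inv_distrib]
    refine Finset.prod_congr rfl fun τ _ => ?_
    simp
  rw [this, mul_one_div]

lemma VV_eq_HH (R : ℕ) : VV R = Opt.HH 1 1 R R := by
  rw [VV_eq]
  unfold Opt.HH
  rw [← Equiv.sum_comp ((Opt.colEquiv (k := 1) (W := 1) (R := R)).trans
    (Equiv.funUnique (Fin 1) (Finset (QT 1 R))))]
  refine Finset.sum_congr rfl fun U _ => ?_
  have e1 : ((Opt.colEquiv (k := 1) (W := 1) (R := R)).trans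
    (Equiv.funUnique (Fin 1) (Finset (QT 1 R)))) U = Opt.col U 0 := rfl
  have e2 : nn U = Opt.nV (Opt.col U 0) := by
    rw [Opt.nn_col]
    simp
  have e3 : gU (gk 1) U = Opt.gV 1 (Opt.col U 0) := by
    have : gU (gk 1) U = gg 1 U := rfl
    rw [this, Opt.gg_col]
    simp
  rw [e1, e3]
  unfold yR
  rw [e2]
  split_ifs
  · rfl
  · rw [zero_div]

lemma HBound1 (R x : ℕ) (hx : x ≤ R) : Real.log x ≤ Opt.HH 1 1 R x := by
  have h0 := Opt.log_le_LL 1 R x one_pos hx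
  simp only [Nat.totient_one, Nat.cast_one, div_one, one_mul] at h0
  refine h0.trans ?_
  have hprime : ∀ p ∈ PR 1 R, p.Prime := fun p hp => (mem_PR.mp hp).2.1
  refine (Opt.LL_le_powerset (PR 1 R) hprime x).trans ?_
  unfold Opt.HH
  have e : ∑ V ∈ (PR 1 R).powerset, (if ∏ p ∈ V, p ≤ x then ∏ p ∈ V, (1 / ((p : ℝ) - 1)) else 0) =
      ∑ V : Finset (QT 1 R), (if Opt.nV V ≤ x then ∏ q ∈ V, (1 / (((q : ℕ) : ℝ) - 1)) else 0) := by
    symm
    apply Finset.sum_bij (fun V _ => V.map (Function.Embedding.subtype _))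
    · intro V _
      rw [Finset.mem_powerset]
      intro p hp
      rw [Finset.mem_map] at hp
      obtain ⟨q, _, rfl⟩ := hp
      exact q.2
    · intro a _ b _ hab
      exact Finset.map_injective _ hab
    · intro V hV
      rw [Finset.mem_powerset] at hV
      refine ⟨V.subtype (fun p => p ∈ PR 1 R), Finset.mem_univ _, ?_⟩
      rw [Finset.subtype_map]
      exact Finset.filter_true_of_mem (fun p hp => hV hp)
    · intro V _
      rw [Finset.prod_map, Finset.prod_map]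
      rfl
  rw [e]
  apply Finset.sum_le_sum
  intro V _
  split_ifs with h
  · apply le_of_eq
    unfold Opt.gV
    rw [one_div, ← Finset.prod_inv_distrib]
    refine Finset.prod_congr rfl fun q _ => ?_
    rw [one_div]
    simp
  · exact le_rfl

lemma log_le_VV (R : ℕ) : Real.log R ≤ VV R := by
  rw [VV_eq_HH]
  exact HBound1 R R le_rfl

lemma yR_nonneg (R : ℕ) (U : Finset (QT 1 R × Fin 1)) : 0 ≤ yR R U := by
  unfold yR; split_ifs <;> norm_num

lemma yR_anti (R : ℕ) (U V : Finset (QT 1 R × Fin 1)) (h : U ⊆ V) : yR R V ≤ yR R U := by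
  unfold yR
  have := Opt.nn_mono h
  split_ifs
  · exact le_rfl
  · omega
  · norm_num
  · exact le_rfl

lemma one_le_VV {R : ℕ} (hR : 1 ≤ R) : 1 ≤ VV R := by
  rw [VV_eq]
  have h1 : ∀ U ∈ (univ : Finset (Finset (QT 1 R × Fin 1))), 0 ≤ yR R U / gU (gk 1) U := by
    intro U _
    exact div_nonneg (yR_nonneg R U) (gU_pos (gk 1) gk_one_le U).le
  have h2 := Finset.single_le_sum h1 (Finset.mem_univ (∅ : Finset (QT 1 R × Fin 1)))
  have h3 : yR R ∅ / gU (gk 1) (∅ : Finset (QT 1 R × Fin 1)) = 1 := by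
    unfold yR gU nn
    simp
    omega
  rw [h3] at h2
  exact h2

lemma yI_univ (R : ℕ) (U : Finset (QT 1 R × Fin 1)) : yI (gk 1) univ (yR R) U = yR R U := by
  unfold yI
  have : (univ.filter (fun τ : QT 1 R × Fin 1 => τ.2 ∉ (univ : Finset (Fin 1)))) = ∅ := by
    rw [Finset.filter_eq_empty_iff]
    intro τ _ h
    exact h (Finset.mem_univ _)
  rw [this, Finset.powerset_empty, Finset.sum_singleton, Finset.union_empty]
  unfold gU
  simp

lemma QI_eq (R : ℕ) : QI (gk 1) univ (yR R) = VV R := by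
  rw [VV_eq]
  unfold QI
  have h1 : EI (QT 1 R) (univ : Finset (Fin 1)) = univ := by
    unfold EI
    exact Finset.filter_true_of_mem fun τ _ => Finset.mem_univ _
  rw [h1, Finset.powerset_univ]
  refine Finset.sum_congr rfl fun U _ => ?_
  rw [yI_univ]
  unfold yR
  split_ifs <;> simp

lemma summable_Z : Summable fun n : ℕ => 1 / ((n : ℝ) - 1) ^ 2 := by
  rw [← summable_nat_add_iff 1]
  have : (fun n : ℕ => 1 / (((n + 1 : ℕ) : ℝ) - 1) ^ 2) = fun n : ℕ => 1 / (n : ℝ) ^ 2 := by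
    funext n; push_cast; ring_nf
  rw [this]
  exact Real.summable_one_div_nat_pow.mpr (by norm_num)

/-- The constant. -/
noncomputable def ZZ : ℝ := ∑' n : ℕ, 1 / ((n : ℝ) - 1) ^ 2

lemma ZZ_nonneg : 0 ≤ ZZ := tsum_nonneg fun n => by positivity

lemma sum_gk_le (R : ℕ) : ∑ q : QT 1 R, 1 / (gk 1 q) ^ 2 ≤ ZZ := by
  have h1 : ∑ q : QT 1 R, 1 / (gk 1 q) ^ 2 = ∑ p ∈ PR 1 R, 1 / ((p : ℝ) - 1) ^ 2 := by
    rw [← Finset.sum_coe_sort (PR 1 R) (fun p => 1 / ((p : ℝ) - 1) ^ 2)]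
    refine Finset.sum_congr rfl fun q _ => ?_
    unfold gk
    push_cast
    rfl
  rw [h1]
  exact summable_Z.sum_le_tsum _ fun n _ => by positivity

lemma sum_pr_le (R : ℕ) : ∑ q : QT 1 R, 1 / (((q : ℕ) : ℝ)) ^ 2 ≤ ZZ := by
  refine le_trans (Finset.sum_le_sum fun q _ => ?_) (sum_gk_le R)
  have h1 := gk_one_le q
  have h2 : gk 1 q ≤ ((q : ℕ) : ℝ) := by
    unfold gk; push_cast; linarith
  gcongr

lemma BB_le (R : ℕ) : |BB (gk 1) univ (fun Y => (AA (gk 1) (yR R) Y) ^ 2)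
    (fun _ : QT 1 R => (none : Option (Fin 1)))| ≤ Real.exp ZZ * VV R := by
  have h := upper (QT 1 R) (Fin 1) (gk 1) gk_one_le univ (yR R) (yR_nonneg R) (yR_anti R)
    (fun _ => none)
  refine h.trans ?_
  rw [QI_eq]
  have h1 : supp (fun _ : QT 1 R => (none : Option (Fin 1))) = ∅ := by
    unfold supp; simp
  rw [h1, Finset.card_empty, pow_zero, mul_one]
  have h2 : (0 : ℝ) ≤ VV R := by
    rw [← QI_eq]
    exact QI_nonneg (gk 1) gk_one_le univ (yR R)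
  have h3 : ((#(univ : Finset (Fin 1)) : ℕ) : ℝ) ^ 2 * ∑ q : QT 1 R, 1 / (gk 1 q) ^ 2 ≤ ZZ := by
    have := sum_gk_le R
    simpa using this
  gcongr

lemma exists_lam (R : ℕ) : ∃ lam : Finset (QT 1 R × Fin 1) → ℝ,
    (∀ Y, AA (gk 1) (yR R) Y = ∑ D ∈ Y.powerset, lam D) ∧
      ∑ D, |lam D| ≤ (R : ℝ) ^ 5 * Real.exp (2 * ZZ) := by
  obtain ⟨lam, h1, -, h3⟩ := lambda (QT 1 R) (Fin 1) (gk 1) gk_one_le (yR R)
    (fun q => (q : ℕ)) (fun q => by unfold gk; push_cast; linarith) R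
    (fun U => by unfold yR; split_ifs <;> simp)
    (fun U hU => by
      unfold yR
      rw [if_neg]
      unfold nn
      omega)
  refine ⟨lam, h1, h3.trans ?_⟩
  have h4 : (2 : ℝ) * (Fintype.card (Fin 1) : ℝ) * ∑ q : QT 1 R, 1 / (((q : ℕ) : ℝ)) ^ 2 ≤
      2 * ZZ := by
    have := sum_pr_le R
    simp only [Fintype.card_fin, Nat.cast_one, mul_one]
    linarith
  gcongr

/-- The majorant. -/
noncomputable def rho (R n : ℕ) : ℝ :=
  (AA (gk 1) (yR R) (Ymap (fun _ : Fin 1 => 0) n) / VV R) ^ 2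

lemma rho_nonneg (R n : ℕ) : 0 ≤ rho R n := sq_nonneg _

lemma rho_prime {R n : ℕ} (hR : 1 ≤ R) (hn : n.Prime) (hRn : R < n) : rho R n = 1 := by
  have h1 : (Ymap (fun _ : Fin 1 => 0) n : Finset (QT 1 R × Fin 1)) = ∅ := by
    rw [Finset.eq_empty_iff_forall_notMem]
    intro τ hτ
    rw [mem_Ymap, add_zero] at hτ
    have h2 := (Nat.prime_dvd_prime_iff_eq (qt_prime τ.1) hn).mp hτ
    have h3 := (mem_PR.mp τ.1.2).1
    omega
  unfold rho
  rw [h1]
  have h2 := one_le_VV hR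
  have h3 : AA (gk 1) (yR R) ∅ = VV R := rfl
  rw [h3, div_self (by linarith), one_pow]

lemma rho_le {R : ℕ} (hR : 1 ≤ R) (n : ℕ) : rho R n ≤ ((R : ℝ) ^ 5 * Real.exp (2 * ZZ)) ^ 2 := by
  obtain ⟨lam, h1, h2⟩ := exists_lam R
  unfold rho
  have hV := one_le_VV hR
  have h3 : |AA (gk 1) (yR R) (Ymap (fun _ : Fin 1 => 0) n) / VV R| ≤
      (R : ℝ) ^ 5 * Real.exp (2 * ZZ) := by
    rw [abs_div, abs_of_pos (by linarith : 0 < VV R)]
    refine (div_le_self (abs_nonneg _) hV).trans ?_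
    rw [h1]
    refine (Finset.abs_sum_le_sum_abs _ _).trans (le_trans ?_ h2)
    exact Finset.sum_le_sum_of_subset_of_nonneg (Finset.subset_univ _) fun _ _ _ => abs_nonneg _
  rw [← sq_abs]
  exact pow_le_pow_left₀ (abs_nonneg _) h3 2

lemma summable_w_rho {R : ℕ} (hR : 1 ≤ R) (J : ℕ) : Summable fun n => w J n * rho R n := by
  refine Summable.of_nonneg_of_le (fun n => mul_nonneg (w_nonneg _ _) (rho_nonneg _ _))
    (fun n => ?_) ((summable_w J).mul_right (((R : ℝ) ^ 5 * Real.exp (2 * ZZ)) ^ 2))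
  exact mul_le_mul_of_nonneg_left (rho_le hR n) (w_nonneg _ _)

lemma diag_le {R : ℕ} (hR : 1 ≤ R) (J : ℕ) : ∑' n, w J n * rho R n ≤
    Real.exp ZZ * (∑' n, w J n) / VV R +
      (((R : ℝ) ^ 5 * Real.exp (2 * ZZ)) ^ 2 * (4 * ((2 / 3) ^ J * K32))) := by
  obtain ⟨lam, h1, h2⟩ := exists_lam R
  have hV := one_le_VV hR
  have hV0 : 0 < VV R := by linarith
  have hd : Distinct 1 R (fun _ : Fin 1 => 0) := by
    intro p _ i j hij
    exact absurd (Subsingleton.elim i j) hij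
  have h3 := S1_asymp hd gk_one_le 0 h1 J
  have h4 : (∑' m, if m ≡ 0 [MOD 1] then w J m *
      (AA (gk 1) (yR R) (Ymap (fun _ : Fin 1 => 0) m)) ^ 2 else 0) =
      (VV R) ^ 2 * ∑' n, w J n * rho R n := by
    rw [← tsum_mul_left]
    refine tsum_congr fun n => ?_
    rw [if_pos (Nat.modEq_one)]
    unfold rho
    field_simp
  rw [h4] at h3
  have hΩ : 0 ≤ ∑' m, w J m := tsum_nonneg fun n => w_nonneg _ _
  have h5 : (∑' m, w J m) / ((1 : ℕ) : ℝ) * BB (gk 1) univ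
      (fun Y => (AA (gk 1) (yR R) Y) ^ 2) (fun _ : QT 1 R => (none : Option (Fin 1))) ≤
      (∑' m, w J m) * (Real.exp ZZ * VV R) := by
    rw [Nat.cast_one, div_one]
    exact mul_le_mul_of_nonneg_left ((le_abs_self _).trans (BB_le R)) hΩ
  have hlam0 : 0 ≤ ∑ D, |lam D| := Finset.sum_nonneg fun _ _ => abs_nonneg _
  have hK := K32_nonneg
  have h6 : (∑ D, |lam D|) ^ 2 * (4 * ((2 / 3) ^ J * K32)) ≤
      ((R : ℝ) ^ 5 * Real.exp (2 * ZZ)) ^ 2 * (4 * ((2 / 3) ^ J * K32)) := by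
    gcongr
  have h7 := (abs_le.mp h3).2
  have h8 : (VV R) ^ 2 * ∑' n, w J n * rho R n ≤ (∑' m, w J m) * (Real.exp ZZ * VV R) +
      ((R : ℝ) ^ 5 * Real.exp (2 * ZZ)) ^ 2 * (4 * ((2 / 3) ^ J * K32)) := by linarith
  set E : ℝ := ((R : ℝ) ^ 5 * Real.exp (2 * ZZ)) ^ 2 * (4 * ((2 / 3) ^ J * K32)) with hE
  have hE0 : 0 ≤ E := by positivity
  have h9 : (VV R) ^ 2 * (Real.exp ZZ * (∑' n, w J n) / VV R + E) =
      (∑' m, w J m) * (Real.exp ZZ * VV R) + (VV R) ^ 2 * E := by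
    field_simp
  have h10 : E ≤ (VV R) ^ 2 * E := by
    have : 1 ≤ (VV R) ^ 2 := one_le_pow₀ hV
    nlinarith
  have h11 : (VV R) ^ 2 * ∑' n, w J n * rho R n ≤
      (VV R) ^ 2 * (Real.exp ZZ * (∑' n, w J n) / VV R + E) := by
    rw [h9]; linarith
  exact le_of_mul_le_mul_left h11 (by positivity)

lemma tsum_mult {ψ : ℕ → ℂ} {Q : ℝ} (hψ1 : ∀ n, ‖ψ n‖ ≤ 1)
    (hmul : ∀ a b, ψ (a * b) = ψ a * ψ b) (hψ : ∀ N, ‖∑ n ∈ range N, ψ n‖ ≤ Q) (J : ℕ) {d : ℕ}
    (hd : 1 ≤ d) : ‖∑' n, if d ∣ n then ψ n * (w J n : ℂ) else 0‖ ≤ 4 * Q * ((2 / 3) ^ J * K32) := by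
  have hinj : Function.Injective (fun m : ℕ => d * m) :=
    fun a b h => Nat.eq_of_mul_eq_mul_left hd h
  have hsup : Function.support (fun n : ℕ => if d ∣ n then ψ n * (w J n : ℂ) else (0 : ℂ)) ⊆
      Set.range (fun m : ℕ => d * m) := by
    intro n hn
    rw [Function.mem_support] at hn
    by_cases h : d ∣ n
    · obtain ⟨m, rfl⟩ := h
      exact ⟨m, rfl⟩
    · rw [if_neg h] at hn
      exact absurd rfl hn
  have h1 := hinj.tsum_eq hsup
  rw [← h1]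
  have h2 : ∀ m : ℕ, (if d ∣ d * m then ψ (d * m) * (w J (d * m) : ℂ) else (0 : ℂ)) =
      ψ d * (ψ m * (w J (d * m) : ℂ)) := by
    intro m
    rw [if_pos (dvd_mul_right _ _), hmul]
    ring
  rw [tsum_congr h2, tsum_mul_left, norm_mul]
  have h3 := norm_tsum_psi_w_scaled hψ hψ1 J hd
  calc ‖ψ d‖ * ‖∑' m, ψ m * (w J (d * m) : ℂ)‖ ≤ 1 * ‖∑' m, ψ m * (w J (d * m) : ℂ)‖ := by
        gcongr; exact hψ1 d
    _ ≤ _ := by rw [one_mul]; exact h3

lemma subset_Ymap_iff {R : ℕ} (C : Finset (QT 1 R × Fin 1)) (n : ℕ) :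
    C ⊆ Ymap (fun _ : Fin 1 => 0) n ↔ nn C ∣ n := by
  unfold nn
  constructor
  · intro h
    refine Finset.prod_dvd_of_isRelPrime ?_ ?_
    · intro τ _ σ _ hne
      rw [Function.onFun, ← Nat.coprime_iff_isRelPrime]
      refine (Nat.coprime_primes (qt_prime τ.1) (qt_prime σ.1)).mpr fun h => hne ?_
      exact Prod.ext (Subtype.ext h) (Subsingleton.elim _ _)
    · intro τ hτ
      have := mem_Ymap.mp (h hτ)
      rwa [add_zero] at this
  · intro h τ hτ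
    rw [mem_Ymap, add_zero]
    exact (Finset.dvd_prod_of_mem (fun τ : QT 1 R × Fin 1 => (τ.1 : ℕ)) hτ).trans h

lemma offdiag_le {R : ℕ} (hR : 1 ≤ R) {ψ : ℕ → ℂ} {Q : ℝ} (hψ1 : ∀ n, ‖ψ n‖ ≤ 1)
    (hmul : ∀ a b, ψ (a * b) = ψ a * ψ b) (hψ : ∀ N, ‖∑ n ∈ range N, ψ n‖ ≤ Q) (J : ℕ) :
    ‖∑' n, ((w J n * rho R n : ℝ) : ℂ) * ψ n‖ ≤
      ((R : ℝ) ^ 5 * Real.exp (2 * ZZ)) ^ 2 * (4 * Q * ((2 / 3) ^ J * K32)) := by
  obtain ⟨lam, h1, h2⟩ := exists_lam R
  have hV := one_le_VV hR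
  have hV0 : 0 < VV R := by linarith
  have hK := K32_nonneg
  have hQ : 0 ≤ Q := (norm_nonneg _).trans (hψ 0)
  have hpos : ∀ C : Finset (QT 1 R × Fin 1), 1 ≤ nn C := fun C => Opt.nn_pos C
  have hs : ∀ D D' : Finset (QT 1 R × Fin 1), Summable fun n =>
      (((VV R)⁻¹ ^ 2 * (lam D * lam D') : ℝ) : ℂ) *
        (if nn (D ∪ D') ∣ n then ψ n * (w J n : ℂ) else 0) := by
    intro D D'
    refine Summable.mul_left _ ?_
    refine Summable.of_norm_bounded (summable_w J) fun n => ?_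
    split_ifs
    · rw [norm_mul, Complex.norm_real, Real.norm_eq_abs, abs_of_nonneg (w_nonneg J n)]
      exact mul_le_of_le_one_left (w_nonneg J n) (hψ1 n)
    · rw [norm_zero]; exact w_nonneg J n
  have e1 : ∑' n, ((w J n * rho R n : ℝ) : ℂ) * ψ n =
      ∑ D, ∑ D', (((VV R)⁻¹ ^ 2 * (lam D * lam D') : ℝ) : ℂ) *
        ∑' n, (if nn (D ∪ D') ∣ n then ψ n * (w J n : ℂ) else 0) := by
    have h3 : ∀ n, ((w J n * rho R n : ℝ) : ℂ) * ψ n =
        ∑ D, ∑ D', (((VV R)⁻¹ ^ 2 * (lam D * lam D') : ℝ) : ℂ) *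
        (if nn (D ∪ D') ∣ n then ψ n * (w J n : ℂ) else 0) := by
      intro n
      have h4 : rho R n = ∑ D, ∑ D', (VV R)⁻¹ ^ 2 * (lam D * lam D') *
          (if nn (D ∪ D') ∣ n then 1 else 0) := by
        unfold rho
        rw [div_pow, sq_expand h1, Finset.sum_div]
        refine Finset.sum_congr rfl fun D _ => ?_
        rw [Finset.sum_div]
        refine Finset.sum_congr rfl fun D' _ => ?_
        rw [inv_pow]
        by_cases h5 : nn (D ∪ D') ∣ n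
        · rw [if_pos h5, if_pos ((subset_Ymap_iff _ _).mpr h5)]
          ring
        · rw [if_neg h5, if_neg (fun h => h5 ((subset_Ymap_iff _ _).mp h))]
          ring
      rw [h4, Finset.mul_sum, Complex.ofReal_sum, Finset.sum_mul]
      refine Finset.sum_congr rfl fun D _ => ?_
      rw [Finset.mul_sum, Complex.ofReal_sum, Finset.sum_mul]
      refine Finset.sum_congr rfl fun D' _ => ?_
      split_ifs
      · push_cast; ring
      · push_cast; ring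
    rw [tsum_congr h3, Summable.tsum_finsetSum (fun D _ => summable_sum fun D' _ => hs D D')]
    refine Finset.sum_congr rfl fun D _ => ?_
    rw [Summable.tsum_finsetSum (fun D' _ => hs D D')]
    refine Finset.sum_congr rfl fun D' _ => ?_
    rw [tsum_mul_left]
  rw [e1]
  have hb : ∀ D D' : Finset (QT 1 R × Fin 1),
      ‖(((VV R)⁻¹ ^ 2 * (lam D * lam D') : ℝ) : ℂ) *
        ∑' n, (if nn (D ∪ D') ∣ n then ψ n * (w J n : ℂ) else 0)‖ ≤
      |lam D| * |lam D'| * (4 * Q * ((2 / 3) ^ J * K32)) := by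
    intro D D'
    rw [norm_mul, Complex.norm_real, Real.norm_eq_abs, abs_mul, abs_mul]
    have h5 := tsum_mult hψ1 hmul hψ J (hpos (D ∪ D'))
    have h6 : |(VV R)⁻¹ ^ 2| ≤ 1 := by
      rw [abs_of_nonneg (by positivity)]
      exact pow_le_one₀ (by positivity) (inv_le_one_of_one_le₀ hV)
    calc |(VV R)⁻¹ ^ 2| * (|lam D| * |lam D'|) *
          ‖∑' n, (if nn (D ∪ D') ∣ n then ψ n * (w J n : ℂ) else 0)‖
        ≤ 1 * (|lam D| * |lam D'|) * (4 * Q * ((2 / 3) ^ J * K32)) := by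
          gcongr
      _ = _ := by ring
  have h7 : ∑ D, ∑ D', |lam D| * |lam D'| * (4 * Q * ((2 / 3) ^ J * K32)) =
      (∑ D, |lam D|) ^ 2 * (4 * Q * ((2 / 3) ^ J * K32)) := by
    rw [pow_two, Finset.sum_mul_sum, Finset.sum_mul]
    refine Finset.sum_congr rfl fun D _ => ?_
    rw [Finset.sum_mul]
  refine (norm_sum_le _ _).trans ((Finset.sum_le_sum fun D _ => norm_sum_le _ _).trans
    ((Finset.sum_le_sum fun D _ => Finset.sum_le_sum fun D' _ => hb D D').trans ?_))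
  rw [h7]
  have hlam0 : 0 ≤ ∑ D, |lam D| := Finset.sum_nonneg fun _ _ => abs_nonneg _
  gcongr

end RC
end Pool.Agent.Helper11.MT

namespace Pool.Agent.Helper11.MT

open ArithmeticFunction (vonMangoldt)

namespace RC

/-- The real characters of modulus at most `J ^ 5`. -/
noncomputable def XJ (W J : ℕ) : Finset (Σ T : Finset ℕ, CF W T) :=
  (FX W (RJ J)).filter (fun x => IsRealCF x.2 ∧ ∏ p ∈ x.1, p ≤ J ^ 5)

lemma mem_XJ {W J : ℕ} {x : Σ T : Finset ℕ, CF W T} :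
    x ∈ XJ W J ↔ x ∈ FX W (RJ J) ∧ IsRealCF x.2 ∧ ∏ p ∈ x.1, p ≤ J ^ 5 := by
  unfold XJ
  rw [Finset.mem_filter]

lemma sum_real_le (W R : ℕ) [NeZero W] (P : ℕ → Prop) [DecidablePred P] (f : ℕ → ℝ)
    (hf : ∀ n, 0 ≤ f n) (K : ℕ) (hP : ∀ n, P n → n ≤ K) :
    ∑ x ∈ (FX W R).filter (fun x => IsRealCF x.2 ∧ P (∏ p ∈ x.1, p)), f (∏ p ∈ x.1, p) ≤
      W * ∑ t ∈ (Icc 1 K).filter P, f t := by
  have h1 : (FX W R).filter (fun x => IsRealCF x.2 ∧ P (∏ p ∈ x.1, p)) ⊆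
      ((TS W R).filter (fun T => P (∏ p ∈ T, p))).sigma
        (fun T => univ.filter (fun c : CF W T => IsRealCF c)) := by
    intro x hx
    rw [Finset.mem_filter, mem_FX] at hx
    rw [Finset.mem_sigma, Finset.mem_filter, Finset.mem_filter]
    exact ⟨⟨hx.1, hx.2.2⟩, Finset.mem_univ _, hx.2.1⟩
  refine (Finset.sum_le_sum_of_subset_of_nonneg h1 fun _ _ _ => hf _).trans ?_
  rw [Finset.sum_sigma]
  have h2 : ∀ T ∈ (TS W R).filter (fun T => P (∏ p ∈ T, p)),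
      ∑ c ∈ univ.filter (fun c : CF W T => IsRealCF c), f (∏ p ∈ T, p) ≤
        W * f (∏ p ∈ T, p) := by
    intro T hT
    rw [Finset.mem_filter] at hT
    rw [Finset.sum_const, nsmul_eq_mul]
    refine mul_le_mul_of_nonneg_right ?_ (hf _)
    exact_mod_cast card_real_le (prime_of_TS hT.1)
  refine (Finset.sum_le_sum h2).trans ?_
  rw [← Finset.mul_sum]
  refine mul_le_mul_of_nonneg_left ?_ (by positivity)
  have h3 : ∑ T ∈ (TS W R).filter (fun T => P (∏ p ∈ T, p)), f (∏ p ∈ T, p) =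
      ∑ t ∈ ((TS W R).filter (fun T => P (∏ p ∈ T, p))).image (fun T => ∏ p ∈ T, p), f t := by
    rw [Finset.sum_image]
    intro T hT T' hT' h
    have hT := (Finset.mem_filter.mp hT).1
    have hT' := (Finset.mem_filter.mp hT').1
    exact prod_inj (prime_of_TS hT) (prime_of_TS hT') h
  rw [h3]
  refine Finset.sum_le_sum_of_subset_of_nonneg ?_ fun _ _ _ => hf _
  intro t ht
  rw [Finset.mem_image] at ht
  obtain ⟨T, hT, rfl⟩ := ht
  rw [Finset.mem_filter] at hT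
  rw [Finset.mem_filter, Finset.mem_Icc]
  exact ⟨⟨Finset.one_le_prod' fun p hp => (prime_of_TS hT.1 p hp).one_le, hP _ hT.2⟩, hT.2⟩

lemma card_XJ_le (W J : ℕ) [NeZero W] : (#(XJ W J) : ℝ) ≤ W * (J : ℝ) ^ 5 := by
  have h := sum_real_le W (RJ J) (fun n => n ≤ J ^ 5) (fun _ => 1) (fun _ => zero_le_one) (J ^ 5)
    (fun n hn => hn)
  have h1 : ∑ x ∈ (FX W (RJ J)).filter (fun x => IsRealCF x.2 ∧ ∏ p ∈ x.1, p ≤ J ^ 5), (1 : ℝ) =
      (#(XJ W J) : ℝ) := by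
    rw [Finset.sum_const, nsmul_eq_mul, mul_one]
    rfl
  rw [h1] at h
  refine h.trans ?_
  refine mul_le_mul_of_nonneg_left ?_ (by positivity)
  rw [Finset.sum_const, nsmul_eq_mul, mul_one]
  have h2 : #((Icc 1 (J ^ 5)).filter (fun n => n ≤ J ^ 5)) ≤ J ^ 5 := by
    refine (Finset.card_filter_le _ _).trans ?_
    simp
  exact_mod_cast h2

lemma RJ_lower {J : ℕ} (hJ : 400 ≤ J) : Real.exp ((J : ℝ) / 400) ≤ RJ J := by
  have hJ' : (400 : ℝ) ≤ J := by exact_mod_cast hJ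
  set u := Real.exp ((J : ℝ) / 400) with hu
  have h1 : 2 ≤ u := by
    have h2 : (1 : ℝ) ≤ (J : ℝ) / 400 := by
      rw [le_div_iff₀ (by norm_num)]; linarith
    have h3 := Real.add_one_le_exp ((J : ℝ) / 400)
    linarith
  have h2 : Real.exp ((J : ℝ) / 200) = u ^ 2 := by
    rw [hu, ← Real.exp_nat_mul]
    congr 1
    push_cast
    ring
  have h3 := Nat.sub_one_lt_floor (Real.exp ((J : ℝ) / 200))
  unfold RJ
  rw [h2] at h3 ⊢
  nlinarith

lemma RJ_le (J : ℕ) : (RJ J : ℝ) ≤ Real.exp ((J : ℝ) / 200) :=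
  Nat.floor_le (Real.exp_pos _).le

lemma one_le_RJ (J : ℕ) : 1 ≤ RJ J := by
  unfold RJ
  rw [Nat.one_le_floor_iff]
  exact Real.one_le_exp (by positivity)

lemma log_RJ {J : ℕ} (hJ : 400 ≤ J) : (J : ℝ) / 400 ≤ Real.log (RJ J) := by
  rw [Real.le_log_iff_exp_le]
  · exact RJ_lower hJ
  · exact_mod_cast one_le_RJ J

/-- The total error. -/
noncomputable def ER (J : ℕ) : ℝ :=
  ((RJ J : ℝ) ^ 5 * Real.exp (2 * ZZ)) ^ 2 * (4 * ((2 / 3) ^ J * K32))

lemma ER_nonneg (J : ℕ) : 0 ≤ ER J := by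
  unfold ER
  have := K32_nonneg
  positivity

lemma ER_le (J : ℕ) : ER J ≤ (Real.exp (2 * ZZ)) ^ 2 * (4 * K32) * (Real.exp (1 / 20) * (2 / 3)) ^ J := by
  unfold ER
  have hK := K32_nonneg
  have h1 : (RJ J : ℝ) ^ 10 ≤ (Real.exp (1 / 20)) ^ J := by
    calc (RJ J : ℝ) ^ 10 ≤ (Real.exp ((J : ℝ) / 200)) ^ 10 :=
          pow_le_pow_left₀ (by positivity) (RJ_le J) 10
      _ = (Real.exp (1 / 20)) ^ J := by
          rw [← Real.exp_nat_mul, ← Real.exp_nat_mul]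
          congr 1
          push_cast
          ring
  calc ((RJ J : ℝ) ^ 5 * Real.exp (2 * ZZ)) ^ 2 * (4 * ((2 / 3) ^ J * K32))
      = (RJ J : ℝ) ^ 10 * ((Real.exp (2 * ZZ)) ^ 2 * (4 * K32) * (2 / 3) ^ J) := by ring
    _ ≤ (Real.exp (1 / 20)) ^ J * ((Real.exp (2 * ZZ)) ^ 2 * (4 * K32) * (2 / 3) ^ J) := by
        gcongr
    _ = _ := by rw [mul_pow]; ring

lemma tendsto_ER (W : ℕ) :
    Tendsto (fun J : ℕ => (J : ℝ) * ((1 + (W : ℝ) ^ 2 * (J : ℝ) ^ 15) * ER J)) atTop (𝓝 0) := by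
  set q : ℝ := Real.exp (1 / 20) * (2 / 3) with hq
  have hq0 : 0 ≤ q := by positivity
  have hq1 : q < 1 := by
    have h1 : Real.exp (1 / 20) ≤ 20 / 19 := by
      have h2 := Real.add_one_le_exp (-(1 / 20) : ℝ)
      rw [Real.exp_neg] at h2
      have h3 := Real.exp_pos (1 / 20 : ℝ)
      rw [le_inv_comm₀ (by norm_num) h3] at h2
      refine h2.trans ?_
      norm_num
    rw [hq]
    linarith
  have habs : |q| < 1 := by rwa [abs_of_nonneg hq0]
  set c : ℝ := (Real.exp (2 * ZZ)) ^ 2 * (4 * K32) with hc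
  have h1 := (tendsto_pow_const_mul_const_pow_of_abs_lt_one 1 habs).const_mul c
  have h2 := (tendsto_pow_const_mul_const_pow_of_abs_lt_one 16 habs).const_mul (c * (W : ℝ) ^ 2)
  have h3 := h1.add h2
  rw [mul_zero, mul_zero, add_zero] at h3
  refine squeeze_zero (fun J => ?_) (fun J => ?_) h3
  · have := ER_nonneg J
    positivity
  · have h4 := ER_le J
    rw [← hc, ← hq] at h4
    calc (J : ℝ) * ((1 + (W : ℝ) ^ 2 * (J : ℝ) ^ 15) * ER J)
        ≤ (J : ℝ) * ((1 + (W : ℝ) ^ 2 * (J : ℝ) ^ 15) * (c * q ^ J)) := by gcongr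
      _ = _ := by ring

lemma theta_sq_le (R J n : ℕ) : ‖(thetaR R n : ℂ)‖ ^ 2 * w J n ≤
    (J + 1) * (vonMangoldt n * w (J + 1) n) := by
  rw [Complex.norm_real, Real.norm_eq_abs, sq_abs]
  unfold thetaR
  split_ifs with h
  · have h1 : vonMangoldt n = Real.log n := ArithmeticFunction.vonMangoldt_apply_prime h.1
    rw [h1]
    have h2 := log_mul_w J n
    have h3 : Real.log n ^ 2 * w J n = Real.log n * (Real.log n * w J n) := by ring
    rw [h3, h2]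
    apply le_of_eq
    ring
  · have h1 : (0 : ℝ) ≤ vonMangoldt n := ArithmeticFunction.vonMangoldt_nonneg
    have h2 := w_nonneg (J + 1) n
    have h3 : (0 : ℝ) ≤ (J + 1) * (vonMangoldt n * w (J + 1) n) := by positivity
    simpa using h3

lemma exists_w_bound : ∃ B : ℝ, 1 ≤ B ∧ ∀ i : ℕ, ∑' n, w i n ≤ B := by
  obtain ⟨B, hB⟩ := tendsto_Omega.bddAbove_range
  refine ⟨max B 1, le_max_right _ _, fun i => ?_⟩
  exact (hB ⟨i, rfl⟩).trans (le_max_left _ _)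

lemma row_le {W : ℕ} [NeZero W] {J : ℕ} (hJ : 400 ≤ J) {B : ℝ} (hB : ∑' n, w J n ≤ B)
    {x : Σ T : Finset ℕ, CF W T} (hx : x ∈ XJ W J) :
    ∑ x' ∈ XJ W J, ‖gram xs (fun n => w J n * rho (RJ J) n) x x'‖ ≤
      Real.exp ZZ * B * (400 / J) + (1 + (W : ℝ) ^ 2 * (J : ℝ) ^ 15) * ER J := by
  have hR := one_le_RJ J
  have hJ0 : (0 : ℝ) < J := by
    have : (400 : ℝ) ≤ J := by exact_mod_cast hJ
    linarith
  have hV1 : (J : ℝ) / 400 ≤ VV (RJ J) := (log_RJ hJ).trans (log_le_VV _)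
  have hΩ : 0 ≤ ∑' n, w J n := tsum_nonneg fun n => w_nonneg _ _
  have hB0 : 0 ≤ B := hΩ.trans hB
  rw [← Finset.add_sum_erase _ _ hx]
  have h1 : ‖gram xs (fun n => w J n * rho (RJ J) n) x x‖ ≤
      Real.exp ZZ * B * (400 / J) + ER J := by
    refine le_trans ?_ ((diag_le hR J).trans ?_)
    · refine tsum_of_norm_bounded (summable_w_rho hR J).hasSum fun n => ?_
      have hnn : 0 ≤ w J n * rho (RJ J) n := mul_nonneg (w_nonneg _ _) (rho_nonneg _ _)
      rw [norm_mul, norm_mul, Complex.norm_real, Real.norm_eq_abs, abs_of_nonneg hnn,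
        RCLike.norm_conj]
      refine mul_le_of_le_one_right hnn ?_
      exact mul_le_one₀ (norm_xs_le x n) (norm_nonneg _) (norm_xs_le x n)
    · unfold ER
      gcongr ?_ + _
      rw [div_le_iff₀ (lt_of_lt_of_le (by positivity) hV1)]
      have h2 : (1 : ℝ) ≤ 400 / J * VV (RJ J) := by
        calc (1 : ℝ) = 400 / J * (J / 400) := by field_simp
          _ ≤ _ := by gcongr
      calc Real.exp ZZ * ∑' n, w J n ≤ Real.exp ZZ * B * 1 := by
            rw [mul_one]; gcongr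
        _ ≤ Real.exp ZZ * B * (400 / J * VV (RJ J)) := by gcongr
        _ = _ := by ring
  have h2 : ∀ x' ∈ (XJ W J).erase x, ‖gram xs (fun n => w J n * rho (RJ J) n) x x'‖ ≤
      (W : ℝ) * (J : ℝ) ^ 10 * ER J := by
    intro x' hx'
    rw [Finset.mem_erase] at hx'
    rw [mem_XJ] at hx
    have hx'2 := mem_XJ.mp hx'.2
    obtain ⟨ψ, h2, h3, h4, h5⟩ := xs_pair hx.1 hx'2.1 (Ne.symm hx'.1)
    have h6 : gram xs (fun n => w J n * rho (RJ J) n) x x' =
        ∑' n, ((w J n * rho (RJ J) n : ℝ) : ℂ) * ψ n := by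
      unfold gram
      refine tsum_congr fun n => ?_
      rw [h2]
    rw [h6]
    have h7 : ∀ N, ‖∑ n ∈ range N, ψ n‖ ≤ (W : ℝ) * (J : ℝ) ^ 10 := by
      intro N
      refine (h5 N).trans ?_
      have : W * ((∏ p ∈ x.1, p) * ∏ p ∈ x'.1, p) ≤ W * J ^ 10 := by
        calc W * ((∏ p ∈ x.1, p) * ∏ p ∈ x'.1, p) ≤ W * (J ^ 5 * J ^ 5) :=
              Nat.mul_le_mul_left _ (Nat.mul_le_mul hx.2.2 hx'2.2.2)
          _ = W * J ^ 10 := by ring
      exact_mod_cast this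
    refine (offdiag_le hR h3 h4 h7 J).trans (le_of_eq ?_)
    unfold ER
    ring
  refine (add_le_add h1 (Finset.sum_le_sum h2)).trans ?_
  rw [Finset.sum_const, nsmul_eq_mul]
  have h3 : (#((XJ W J).erase x) : ℝ) ≤ W * (J : ℝ) ^ 5 := by
    refine le_trans ?_ (card_XJ_le W J)
    exact_mod_cast Finset.card_le_card (Finset.erase_subset _ _)
  have h4 := ER_nonneg J
  have h5 : (#((XJ W J).erase x) : ℝ) * ((W : ℝ) * (J : ℝ) ^ 10 * ER J) ≤
      (W * (J : ℝ) ^ 5) * ((W : ℝ) * (J : ℝ) ^ 10 * ER J) := by gcongr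
  have h6 : (W * (J : ℝ) ^ 5) * ((W : ℝ) * (J : ℝ) ^ 10 * ER J) =
      (W : ℝ) ^ 2 * (J : ℝ) ^ 15 * ER J := by ring
  rw [h6] at h5
  linarith

end RC

theorem realChars : RealStatement := by
  intro W _
  obtain ⟨B, hB1, hB⟩ := RC.exists_w_bound
  obtain ⟨BL, hBL1, hBL⟩ := exists_Lambda_bound
  set M0 : ℝ := Real.exp RC.ZZ * B * 400 + 1 with hM0
  have hM0pos : 0 < M0 := by positivity
  refine ⟨2 * M0 * BL, by positivity, ?_⟩
  have h1 := RC.tendsto_ER W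
  have h2 : ∀ᶠ J : ℕ in atTop, (J : ℝ) * ((1 + (W : ℝ) ^ 2 * (J : ℝ) ^ 15) * RC.ER J) ≤ 1 :=
    (h1.eventually_lt_const zero_lt_one).mono fun _ h => h.le
  filter_upwards [h2, eventually_ge_atTop 400] with J hJ hJ400
  have hJr : (400 : ℝ) ≤ J := by exact_mod_cast hJ400
  have hJ0 : (0 : ℝ) < J := by linarith
  have hR := RC.one_le_RJ J
  have hrow : ∀ x ∈ RC.XJ W J,
      ∑ x' ∈ RC.XJ W J, ‖gram xs (fun n => w J n * RC.rho (RJ J) n) x x'‖ ≤ M0 / J := by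
    intro x hx
    refine (RC.row_le hJ400 (hB J) hx).trans ?_
    rw [hM0, le_div_iff₀ hJ0]
    have h3 : (Real.exp RC.ZZ * B * (400 / J) + (1 + (W : ℝ) ^ 2 * (J : ℝ) ^ 15) * RC.ER J) * J =
        Real.exp RC.ZZ * B * 400 + (J : ℝ) * ((1 + (W : ℝ) ^ 2 * (J : ℝ) ^ 15) * RC.ER J) := by
      field_simp
    rw [h3]
    linarith
  have hs1 : Summable fun n => ‖(thetaR (RJ J) n : ℂ)‖ ^ 2 * w J n := by
    refine Summable.of_nonneg_of_le (fun n => mul_nonneg (by positivity) (w_nonneg _ _))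
      (fun n => RC.theta_sq_le (RJ J) J n) ((summable_vM_w (J + 1)).mul_left _)
  have hdual := duality (RC.XJ W J) xs (fun x _ n => norm_xs_le x n)
    (fun n => (thetaR (RJ J) n : ℂ)) (w J) (RC.rho (RJ J)) (w_nonneg J) (RC.rho_nonneg _)
    (fun n hn => by
      have h3 : n.Prime ∧ RJ J < n := by
        by_contra hcon
        apply hn
        unfold thetaR
        rw [if_neg hcon, Complex.ofReal_zero]
      rw [RC.rho_prime hR h3.1 h3.2]) hs1 (RC.summable_w_rho hR J)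
    (M := M0 / J) (by positivity) hrow
  have h4 : ∑ x ∈ (FX W (RJ J)).filter (fun x => IsRealCF x.2 ∧ ∏ p ∈ x.1, p ≤ J ^ 5),
      ‖MM (xs x) J (thetaR (RJ J))‖ ^ 2 =
      ∑ x ∈ RC.XJ W J, ‖∑' n, (thetaR (RJ J) n : ℂ) * (w J n : ℂ) * xs x n‖ ^ 2 := by
    refine Finset.sum_congr rfl fun x _ => ?_
    congr 2
    unfold MM
    refine tsum_congr fun n => ?_
    ring
  rw [h4]
  refine hdual.trans ?_
  have h5 : ∑' n, ‖(thetaR (RJ J) n : ℂ)‖ ^ 2 * w J n ≤ (J + 1) * BL := by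
    refine (Summable.tsum_le_tsum (fun n => RC.theta_sq_le (RJ J) J n) hs1
      ((summable_vM_w (J + 1)).mul_left _)).trans ?_
    rw [tsum_mul_left]
    have := hBL (J + 1)
    gcongr
  calc M0 / J * ∑' n, ‖(thetaR (RJ J) n : ℂ)‖ ^ 2 * w J n ≤ M0 / J * ((J + 1) * BL) := by gcongr
    _ = M0 * BL * ((J + 1) / J) := by field_simp
    _ ≤ M0 * BL * 2 := by
        gcongr
        rw [div_le_iff₀ hJ0]
        linarith
    _ = _ := by ring

theorem realTail : RealTailStatement := by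
  intro W _ ε hε
  obtain ⟨C, hC, hev⟩ := realChars W
  set f : ℕ → ℝ := fun n => (n : ℝ) ^ (-(3 / 2) : ℝ) with hf
  have hfs : Summable f := summable_rpow_neg_three_half
  have hf0 : ∀ n, 0 ≤ f n := fun n => by rw [hf]; positivity
  set δ : ℝ := ε / C with hδ
  have hδ0 : 0 < δ := by positivity
  have hW0 : (0 : ℝ) < W := by exact_mod_cast NeZero.pos W
  set η : ℝ := ε * δ / W with hη
  have hη0 : 0 < η := by positivity
  have h1 := tendsto_sum_nat_add f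
  obtain ⟨D, hD⟩ := (h1.eventually_lt_const hη0).exists
  refine ⟨D, ?_⟩
  filter_upwards [hev] with J hJ
  have h2 : ∀ x : Σ T : Finset ℕ, CF W T,
      ((∏ p ∈ x.1, p : ℕ) : ℝ) ^ (-(3 / 4) : ℝ) * ‖MM (xs x) J (thetaR (RJ J))‖ ≤
      1 / (2 * δ) * f (∏ p ∈ x.1, p) + δ / 2 * ‖MM (xs x) J (thetaR (RJ J))‖ ^ 2 := by
    intro x
    set a : ℝ := ((∏ p ∈ x.1, p : ℕ) : ℝ) ^ (-(3 / 4) : ℝ) with ha
    set b : ℝ := ‖MM (xs x) J (thetaR (RJ J))‖
    have h3 : f (∏ p ∈ x.1, p) = a ^ 2 := by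
      rw [hf, ha]
      simp only
      rw [← Real.rpow_natCast, ← Real.rpow_mul (Nat.cast_nonneg _)]
      norm_num
    rw [h3]
    have h4 : 0 ≤ (a - δ * b) ^ 2 / (2 * δ) := by positivity
    have h5 : (a - δ * b) ^ 2 / (2 * δ) = 1 / (2 * δ) * a ^ 2 + δ / 2 * b ^ 2 - a * b := by
      field_simp
      ring
    linarith
  refine (Finset.sum_le_sum fun x _ => h2 x).trans ?_
  rw [Finset.sum_add_distrib, ← Finset.mul_sum, ← Finset.mul_sum]
  have h3 : ∑ x ∈ (FX W (RJ J)).filter (fun x => IsRealCF x.2 ∧ D < ∏ p ∈ x.1, p ∧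
      ∏ p ∈ x.1, p ≤ J ^ 5), ‖MM (xs x) J (thetaR (RJ J))‖ ^ 2 ≤ C := by
    refine le_trans (Finset.sum_le_sum_of_subset_of_nonneg ?_ fun _ _ _ => by positivity) hJ
    intro x hx
    rw [Finset.mem_filter] at hx ⊢
    exact ⟨hx.1, hx.2.1, hx.2.2.2⟩
  have h4 : ∑ x ∈ (FX W (RJ J)).filter (fun x => IsRealCF x.2 ∧ D < ∏ p ∈ x.1, p ∧
      ∏ p ∈ x.1, p ≤ J ^ 5), f (∏ p ∈ x.1, p) ≤ W * η := by
    refine (RC.sum_real_le W (RJ J) (fun n => D < n ∧ n ≤ J ^ 5) f hf0 (J ^ 5)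
      (fun n hn => hn.2)).trans ?_
    refine mul_le_mul_of_nonneg_left ?_ hW0.le
    refine le_trans ?_ hD.le
    have h5 : ∑ t ∈ (Icc 1 (J ^ 5)).filter (fun n => D < n ∧ n ≤ J ^ 5), f t ≤
        ∑ k ∈ range (J ^ 5 + 1), f (k + D) := by
      have h6 : ∑ k ∈ range (J ^ 5 + 1), f (k + D) =
          ∑ t ∈ (range (J ^ 5 + 1)).image (fun k => k + D), f t := by
        rw [Finset.sum_image]
        intro a _ b _ h
        simpa using h
      rw [h6]
      refine Finset.sum_le_sum_of_subset_of_nonneg ?_ fun _ _ _ => hf0 _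
      intro t ht
      rw [Finset.mem_filter, Finset.mem_Icc] at ht
      rw [Finset.mem_image]
      exact ⟨t - D, Finset.mem_range.mpr (by omega), by omega⟩
    refine h5.trans ?_
    have hfs' : Summable fun k => f (k + D) := (summable_nat_add_iff D).mpr hfs
    exact hfs'.sum_le_tsum _ fun _ _ => hf0 _
  have h5 : 1 / (2 * δ) * (W * η) = ε / 2 := by
    rw [hη]; field_simp
  have h6 : δ / 2 * C = ε / 2 := by
    rw [hδ]; field_simp
  calc _ ≤ 1 / (2 * δ) * (W * η) + δ / 2 * C := by gcongr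
    _ = ε := by rw [h5, h6]; ring

end Pool.Agent.Helper11.MT
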