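import Mathlib
import Pool.Agent.Helper11.MT.RealChars

/-!
Characters of large modulus (P5).
-/

open Finset Filter Topology

namespace Pool.Agent.Helper11.MT

open ArithmeticFunction (vonMangoldt)

namespace LC

lemma exp_lt : Real.exp (21 / 100) * (2 / 3) < 1 := by
  have h1 : Real.exp (21 / 100 : ℝ) ≤ 1.25 := by
    have h2 := Real.exp_bound' (x := 21 / 100) (by norm_num) (by norm_num) (n := 3) (by norm_num)
    refine h2.trans ?_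
    norm_num [Finset.sum_range_succ, Nat.factorial]
  linarith

lemma RJ_pow_le (J : ℕ) : (RJ J : ℝ) ^ 42 ≤ (Real.exp (21 / 100)) ^ J := by
  calc (RJ J : ℝ) ^ 42 ≤ (Real.exp ((J : ℝ) / 200)) ^ 42 :=
        pow_le_pow_left₀ (by positivity) (RC.RJ_le J) 42
    _ = (Real.exp (21 / 100)) ^ J := by
        rw [← Real.exp_nat_mul, ← Real.exp_nat_mul]
        congr 1
        push_cast
        ring

lemma tendsto_RJ : Tendsto (fun J : ℕ => (RJ J : ℝ)) atTop atTop := by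
  have h1 : Tendsto (fun J : ℕ => (J : ℝ) / 400) atTop atTop :=
    tendsto_natCast_atTop_atTop.atTop_div_const (by norm_num)
  refine tendsto_atTop_mono' _ ?_ (Real.tendsto_exp_atTop.comp h1)
  filter_upwards [eventually_ge_atTop 400] with J hJ
  exact RC.RJ_lower hJ

end LC

/-- Characters of large modulus. -/
theorem largeChars : LargeStatement := by
  intro W hW
  obtain ⟨B, hB1, hB⟩ : ∃ B : ℝ, 1 ≤ B ∧ ∀ i : ℕ, ∑' n, w i n ≤ B := exists_Omega_bound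
  obtain ⟨BL, hBL1, hBL⟩ := exists_Lambda_bound
  have hK := K32_nonneg
  set C1 : ℝ := (8 * K32 + 1) * (W : ℝ) ^ 2 with hC1
  set C2 : ℝ := (B + 1) * (BL * B ^ 4) with hC2
  have hC1' : 0 ≤ C1 := by positivity
  have hC2' : 0 ≤ C2 := by positivity
  set q : ℝ := Real.exp (21 / 100) * (2 / 3) with hq
  have hq0 : 0 < q := by positivity
  have hq1 : q < 1 := LC.exp_lt
  have hev : ∀ᶠ J : ℕ in atTop,
      ∑ x ∈ (FX W (RJ J)).filter (fun x => x.1.Nonempty ∧ J ^ 5 < ∏ p ∈ x.1, p),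
      ((∏ p ∈ x.1, p : ℕ) : ℝ) ^ (-(3 / 4) : ℝ) * ‖MM (xs x) J vonMangoldt‖ ≤
      2 * C1 * ((J : ℝ) ^ 1 * q ^ J) + 8 * C2 * (J : ℝ) ^ (-(3 / 4) : ℝ) := by
    filter_upwards [eventually_ge_atTop 1, LC.tendsto_RJ.eventually_ge_atTop (8 * (W : ℝ) ^ 2)]
      with J hJ hR
    have hJ1 : (1 : ℝ) ≤ J := by exact_mod_cast hJ
    have hJ0 : (0 : ℝ) < J := by linarith
    have hR1 := RC.one_le_RJ J
    have hU : 8 * W ^ 2 * (RJ J) ^ 8 ≤ (RJ J) ^ 9 := by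
      have : 8 * W ^ 2 ≤ RJ J := by exact_mod_cast hR
      calc 8 * W ^ 2 * (RJ J) ^ 8 ≤ RJ J * (RJ J) ^ 8 := Nat.mul_le_mul_right _ this
        _ = (RJ J) ^ 9 := by ring
    have h1 := sum_family_le (W := W) hR1 hB1 hB hBL1 hBL hU J
    have h2 : ∀ x ∈ (FX W (RJ J)).filter (fun x => x.1.Nonempty ∧ J ^ 5 < ∏ p ∈ x.1, p),
        ((∏ p ∈ x.1, p : ℕ) : ℝ) ^ (-(3 / 4) : ℝ) * ‖MM (xs x) J vonMangoldt‖ ≤
        (J : ℝ) ^ (-(15 / 4) : ℝ) * ‖MM (xs x) J vonMangoldt‖ := by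
      intro x hx
      rw [Finset.mem_filter] at hx
      refine mul_le_mul_of_nonneg_right ?_ (norm_nonneg _)
      have h3 : ((J : ℝ) ^ (5 : ℕ)) ≤ ((∏ p ∈ x.1, p : ℕ) : ℝ) := by
        have := hx.2.2.le
        exact_mod_cast this
      calc ((∏ p ∈ x.1, p : ℕ) : ℝ) ^ (-(3 / 4) : ℝ) ≤ ((J : ℝ) ^ (5 : ℕ)) ^ (-(3 / 4) : ℝ) :=
            Real.rpow_le_rpow_of_nonpos (by positivity) h3 (by norm_num)
        _ = (J : ℝ) ^ (-(15 / 4) : ℝ) := by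
            rw [← Real.rpow_natCast, ← Real.rpow_mul hJ0.le]
            norm_num
    have h4 : ∑ x ∈ (FX W (RJ J)).filter (fun x => x.1.Nonempty ∧ J ^ 5 < ∏ p ∈ x.1, p),
        ‖MM (xs x) J vonMangoldt‖ ≤
        ∑ x ∈ (FX W (RJ J)).filter (fun x => x.1.Nonempty), ‖MM (xs x) J vonMangoldt‖ := by
      refine Finset.sum_le_sum_of_subset_of_nonneg ?_ (fun _ _ _ => norm_nonneg _)
      intro x hx
      rw [Finset.mem_filter] at hx ⊢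
      exact ⟨hx.1, hx.2.1⟩
    refine (Finset.sum_le_sum h2).trans ?_
    rw [← Finset.mul_sum]
    have hrp : (J : ℝ) ^ (-(15 / 4) : ℝ) ≤ 1 :=
      Real.rpow_le_one_of_one_le_of_nonpos hJ1 (by norm_num)
    have hrp0 : 0 ≤ (J : ℝ) ^ (-(15 / 4) : ℝ) := by positivity
    have h5 : (8 * K32 + 1) * (W ^ 2 * (RJ J : ℝ) ^ 6 * (((RJ J) ^ 9 : ℕ) : ℝ) ^ 4 *
        ((J + 1) * (2 / 3) ^ J)) ≤ 2 * C1 * ((J : ℝ) ^ 1 * q ^ J) := by
      have h6 : (8 * K32 + 1) * (W ^ 2 * (RJ J : ℝ) ^ 6 * (((RJ J) ^ 9 : ℕ) : ℝ) ^ 4 *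
        ((J + 1) * (2 / 3) ^ J)) = C1 * ((J + 1) * ((RJ J : ℝ) ^ 42 * (2 / 3) ^ J)) := by
        rw [hC1]
        push_cast
        ring
      rw [h6]
      have h7 : (RJ J : ℝ) ^ 42 * (2 / 3) ^ J ≤ q ^ J := by
        rw [hq, mul_pow]
        exact mul_le_mul_of_nonneg_right (LC.RJ_pow_le J) (by positivity)
      calc C1 * ((J + 1) * ((RJ J : ℝ) ^ 42 * (2 / 3) ^ J)) ≤ C1 * ((J + J) * q ^ J) := by
            gcongr
        _ = _ := by ring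
    have h8 : (J : ℝ) ^ (-(15 / 4) : ℝ) * (C2 * ((J : ℝ) + 1) ^ 3) ≤
        8 * C2 * (J : ℝ) ^ (-(3 / 4) : ℝ) := by
      have h9 : (J : ℝ) ^ (-(3 / 4) : ℝ) = (J : ℝ) ^ (-(15 / 4) : ℝ) * (J : ℝ) ^ 3 := by
        rw [← Real.rpow_natCast, ← Real.rpow_add hJ0]
        norm_num
      rw [h9]
      calc (J : ℝ) ^ (-(15 / 4) : ℝ) * (C2 * ((J : ℝ) + 1) ^ 3) ≤
          (J : ℝ) ^ (-(15 / 4) : ℝ) * (C2 * ((J : ℝ) + J) ^ 3) := by gcongr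
        _ = _ := by ring
    have h10 : ∑ x ∈ (FX W (RJ J)).filter (fun x => x.1.Nonempty ∧ J ^ 5 < ∏ p ∈ x.1, p),
        ‖MM (xs x) J vonMangoldt‖ ≤ 2 * C1 * ((J : ℝ) ^ 1 * q ^ J) + C2 * ((J : ℝ) + 1) ^ 3 :=
      h4.trans (h1.trans (add_le_add h5 le_rfl))
    have h11 : 0 ≤ 2 * C1 * ((J : ℝ) ^ 1 * q ^ J) := by positivity
    calc (J : ℝ) ^ (-(15 / 4) : ℝ) * ∑ x ∈ (FX W (RJ J)).filter
          (fun x => x.1.Nonempty ∧ J ^ 5 < ∏ p ∈ x.1, p), ‖MM (xs x) J vonMangoldt‖ ≤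
        (J : ℝ) ^ (-(15 / 4) : ℝ) * (2 * C1 * ((J : ℝ) ^ 1 * q ^ J) + C2 * ((J : ℝ) + 1) ^ 3) := by
          gcongr
      _ = (J : ℝ) ^ (-(15 / 4) : ℝ) * (2 * C1 * ((J : ℝ) ^ 1 * q ^ J)) +
          (J : ℝ) ^ (-(15 / 4) : ℝ) * (C2 * ((J : ℝ) + 1) ^ 3) := by ring
      _ ≤ 1 * (2 * C1 * ((J : ℝ) ^ 1 * q ^ J)) + 8 * C2 * (J : ℝ) ^ (-(3 / 4) : ℝ) :=
          add_le_add (mul_le_mul_of_nonneg_right hrp h11) h8
      _ = _ := by rw [one_mul]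
  have ht : Tendsto (fun J : ℕ => 2 * C1 * ((J : ℝ) ^ 1 * q ^ J) +
      8 * C2 * (J : ℝ) ^ (-(3 / 4) : ℝ)) atTop (𝓝 0) := by
    have h1 := tendsto_pow_const_mul_const_pow_of_lt_one 1 hq0.le hq1
    have h2 : Tendsto (fun J : ℕ => (J : ℝ) ^ (-(3 / 4) : ℝ)) atTop (𝓝 0) :=
      (tendsto_rpow_neg_atTop (by norm_num)).comp tendsto_natCast_atTop_atTop
    have h3 := (h1.const_mul (2 * C1)).add (h2.const_mul (8 * C2))
    simpa using h3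
  refine squeeze_zero' ?_ hev ht
  filter_upwards with J
  exact Finset.sum_nonneg fun x _ => by positivity

end Pool.Agent.Helper11.MT
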