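import Mathlib
import Pool.Agent.Helper11.MT.EQDefs
import Pool.Agent.Helper11.MT.Vaughan

/-!
Prime powers and small primes are negligible (statement P1).
-/

open Finset Filter Topology

namespace Pool.Agent.Helper11.MT

open ArithmeticFunction (vonMangoldt)

/-- The von Mangoldt function at non-primes against `n^(-3/4)`. -/
noncomputable def ppF (n : ℕ) : ℝ :=
  if n.Prime then 0 else vonMangoldt n * (n : ℝ) ^ (-(3 / 4) : ℝ)

lemma ppF_nonneg (n : ℕ) : 0 ≤ ppF n := by
  unfold ppF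
  split_ifs
  · exact le_rfl
  · exact mul_nonneg ArithmeticFunction.vonMangoldt_nonneg (by positivity)

/-- The parametrisation of the proper prime powers. -/
def ppG (x : Nat.Primes × ℕ) : ℕ := (x.1 : ℕ) ^ (x.2 + 2)

lemma ppG_injective : Function.Injective ppG := by
  rintro ⟨⟨p, hp⟩, k⟩ ⟨⟨q, hq⟩, l⟩ h
  unfold ppG at h
  simp only at h
  obtain ⟨h1, h2⟩ := hp.pow_inj hq (m := k + 1) (n := l + 1) h
  subst h1
  have : k = l := by omega
  rw [this]

lemma ppF_ppG_le (x : Nat.Primes × ℕ) :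
    ppF (ppG x) ≤ 4 * ((x.1 : ℕ) : ℝ) ^ (-(5 / 4) : ℝ) * (2 / 3 : ℝ) ^ x.2 := by
  obtain ⟨⟨p, hp⟩, k⟩ := x
  have hp0 : (0 : ℝ) < p := by exact_mod_cast hp.pos
  have hp2 : (2 : ℝ) ≤ p := by exact_mod_cast hp.two_le
  have h1 : ¬ (p ^ (k + 2)).Prime := Nat.Prime.not_prime_pow (by omega)
  unfold ppF ppG
  simp only
  rw [if_neg h1, ArithmeticFunction.vonMangoldt_apply_pow (by omega),
    ArithmeticFunction.vonMangoldt_apply_prime hp]
  have h2 : Real.log p ≤ 4 * (p : ℝ) ^ (1 / 4 : ℝ) := by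
    have := Real.log_le_rpow_div hp0.le (show (0 : ℝ) < 1 / 4 by norm_num)
    linarith
  have h3 : ((p ^ (k + 2) : ℕ) : ℝ) ^ (-(3 / 4) : ℝ) =
      (p : ℝ) ^ (-(3 / 2) : ℝ) * ((p : ℝ) ^ (-(3 / 4) : ℝ)) ^ k := by
    rw [Nat.cast_pow, ← Real.rpow_natCast, ← Real.rpow_mul hp0.le, ← Real.rpow_natCast,
      ← Real.rpow_mul hp0.le, ← Real.rpow_add hp0]
    congr 1
    push_cast
    ring
  have h4 : (p : ℝ) ^ (-(3 / 4) : ℝ) ≤ 2 / 3 := by
    have h5 : (p : ℝ) ^ (-(3 / 4) : ℝ) ≤ (2 : ℝ) ^ (-(3 / 4) : ℝ) :=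
      Real.rpow_le_rpow_of_nonpos (by norm_num) hp2 (by norm_num)
    refine h5.trans ?_
    rw [Real.rpow_neg (by norm_num), inv_le_comm₀ (by positivity) (by norm_num)]
    have h6 : ((2 / 3 : ℝ)⁻¹) ^ (4 : ℝ) ≤ ((2 : ℝ) ^ (3 / 4 : ℝ)) ^ (4 : ℝ) := by
      rw [← Real.rpow_mul (by norm_num)]
      norm_num
    exact (Real.rpow_le_rpow_iff (by norm_num) (by positivity) (by norm_num)).mp h6
  rw [h3]
  calc Real.log p * ((p : ℝ) ^ (-(3 / 2) : ℝ) * ((p : ℝ) ^ (-(3 / 4) : ℝ)) ^ k) ≤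
      (4 * (p : ℝ) ^ (1 / 4 : ℝ)) * ((p : ℝ) ^ (-(3 / 2) : ℝ) * (2 / 3) ^ k) := by
        refine mul_le_mul h2 ?_ (by positivity) (by positivity)
        exact mul_le_mul_of_nonneg_left (pow_le_pow_left₀ (by positivity) h4 k) (by positivity)
    _ = 4 * (p : ℝ) ^ (-(5 / 4) : ℝ) * (2 / 3) ^ k := by
        rw [show (-(5 / 4) : ℝ) = 1 / 4 + -(3 / 2) by norm_num, Real.rpow_add hp0]
        ring

lemma summable_ppF : Summable ppF := by
  rw [← ppG_injective.summable_iff]
  · have h1 : Summable (fun p : Nat.Primes => 4 * ((p : ℕ) : ℝ) ^ (-(5 / 4) : ℝ)) := by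
      refine Summable.mul_left 4 ?_
      have h2 : Summable (fun n : ℕ => (n : ℝ) ^ (-(5 / 4) : ℝ)) :=
        Real.summable_nat_rpow.mpr (by norm_num)
      exact h2.comp_injective (i := fun p : Nat.Primes => (p : ℕ)) Subtype.val_injective
    have h3 : Summable (fun k : ℕ => (2 / 3 : ℝ) ^ k) :=
      summable_geometric_of_lt_one (by norm_num) (by norm_num)
    have h4 : Summable (fun x : Nat.Primes × ℕ =>
        (4 * ((x.1 : ℕ) : ℝ) ^ (-(5 / 4) : ℝ)) * (2 / 3 : ℝ) ^ x.2) :=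
      h1.mul_of_nonneg h3 (fun p => by positivity) (fun k => by positivity)
    exact Summable.of_nonneg_of_le (fun x => ppF_nonneg _) ppF_ppG_le h4
  · intro n hn
    unfold ppF
    split_ifs with h
    · rfl
    · rw [mul_eq_zero]
      left
      rw [ArithmeticFunction.vonMangoldt_eq_zero_iff]
      intro h2
      rw [isPrimePow_nat_iff] at h2
      obtain ⟨p, k, hp, hk, rfl⟩ := h2
      apply hn
      have hk2 : 2 ≤ k := by
        by_contra h3
        have : k = 1 := by omega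
        subst this
        rw [pow_one] at h
        exact h hp
      refine ⟨(⟨p, hp⟩, k - 2), ?_⟩
      unfold ppG
      simp only
      congr 1
      omega

lemma abs_thetaR_le (R n : ℕ) : |thetaR R n| ≤ 1 + Real.log n := by
  have := log_nat_nonneg n
  unfold thetaR
  split_ifs
  · rw [abs_of_nonneg this]
    linarith
  · rw [abs_zero]
    linarith

lemma good_thetaR (R : ℕ) : Good (thetaR R) := good_of_le_log (abs_thetaR_le R)

lemma abs_vM_sub_thetaR_le (J R n : ℕ) :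
    |vonMangoldt n - thetaR R n| * w J n ≤
      (4 / 5) ^ J * ppF n + (if n ∈ Icc 1 R then (R : ℝ) / 2 ^ J else 0) := by
  have hw := w_nonneg J n
  by_cases h : n.Prime
  · have h1 : ppF n = 0 := by
      unfold ppF
      rw [if_pos h]
    rw [h1, mul_zero, zero_add]
    by_cases h2 : R < n
    · have h3 : thetaR R n = Real.log n := by
        unfold thetaR
        rw [if_pos ⟨h, h2⟩]
      rw [h3, ArithmeticFunction.vonMangoldt_apply_prime h, sub_self, abs_zero, zero_mul]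
      split_ifs
      · positivity
      · exact le_rfl
    · have h3 : thetaR R n = 0 := by
        unfold thetaR
        rw [if_neg (fun h4 => h2 h4.2)]
      have h4 : n ∈ Icc 1 R := by
        rw [Finset.mem_Icc]
        exact ⟨h.one_le, not_lt.mp h2⟩
      rw [h3, sub_zero, if_pos h4, ArithmeticFunction.vonMangoldt_apply_prime h,
        abs_of_nonneg (log_nat_nonneg n)]
      have h5 : Real.log n ≤ R := by
        have h6 : Real.log n ≤ n := Real.log_le_self (Nat.cast_nonneg n)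
        have h7 : (n : ℝ) ≤ R := by exact_mod_cast not_lt.mp h2
        linarith
      calc Real.log n * w J n ≤ R * (1 / 2 ^ J) :=
            mul_le_mul h5 (w_le_two_pow J n) hw (Nat.cast_nonneg _)
        _ = R / 2 ^ J := by ring
  · have h3 : thetaR R n = 0 := by
      unfold thetaR
      rw [if_neg (fun h4 => h h4.1)]
    have h1 : ppF n = vonMangoldt n * (n : ℝ) ^ (-(3 / 4) : ℝ) := by
      unfold ppF
      rw [if_neg h]
    rw [h3, sub_zero, h1, abs_of_nonneg ArithmeticFunction.vonMangoldt_nonneg]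
    have h5 : vonMangoldt n * w J n ≤ (4 / 5) ^ J * (vonMangoldt n * (n : ℝ) ^ (-(3 / 4) : ℝ)) := by
      rcases Nat.eq_zero_or_pos n with rfl | hn
      · simp [w_zero_right]
      · have h6 := w_le_rpow (t := 5 / 4) (by norm_num) J hn
        have h7 : (n : ℝ) ^ ((5 / 4 : ℝ) - 2) / (5 / 4) ^ J =
            (4 / 5) ^ J * (n : ℝ) ^ (-(3 / 4) : ℝ) := by
          rw [show ((5 / 4 : ℝ) - 2) = -(3 / 4) by norm_num,
            show (4 / 5 : ℝ) = (5 / 4)⁻¹ by norm_num, inv_pow]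
          ring
        rw [h7] at h6
        calc vonMangoldt n * w J n ≤ vonMangoldt n * ((4 / 5) ^ J * (n : ℝ) ^ (-(3 / 4) : ℝ)) :=
              mul_le_mul_of_nonneg_left h6 ArithmeticFunction.vonMangoldt_nonneg
          _ = _ := by ring
    have h6 : (0 : ℝ) ≤ (if n ∈ Icc 1 R then (R : ℝ) / 2 ^ J else 0) := by
      split_ifs
      · positivity
      · exact le_rfl
    linarith

/-- (P1). -/
theorem pp : PPStatement := by
  refine ⟨∑' n, ppF n, tsum_nonneg ppF_nonneg, fun J R ξ hξ => ?_⟩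
  have hs1 : Summable fun n => (vonMangoldt n : ℂ) * ξ n * (w J n : ℂ) :=
    (good_vM.summable_MM hξ J).of_norm
  have hs2 : Summable fun n => (thetaR R n : ℂ) * ξ n * (w J n : ℂ) :=
    ((good_thetaR R).summable_MM hξ J).of_norm
  unfold MM
  rw [← hs1.tsum_sub hs2]
  have hb : HasSum (fun n => (4 / 5) ^ J * ppF n + (if n ∈ Icc 1 R then (R : ℝ) / 2 ^ J else 0))
      ((4 / 5) ^ J * (∑' n, ppF n) + ∑ n ∈ Icc 1 R, (R : ℝ) / 2 ^ J) := by
    refine HasSum.add (summable_ppF.hasSum.mul_left _) ?_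
    have h1 : HasSum (fun n => if n ∈ Icc 1 R then (R : ℝ) / 2 ^ J else 0)
        (∑ n ∈ Icc 1 R, if n ∈ Icc 1 R then (R : ℝ) / 2 ^ J else 0) :=
      hasSum_sum_of_ne_finset_zero (fun b hb => if_neg hb)
    rwa [Finset.sum_congr rfl (fun n hn => if_pos hn)] at h1
  have h2 := tsum_of_norm_bounded hb (f := fun n => (vonMangoldt n : ℂ) * ξ n * (w J n : ℂ) -
    (thetaR R n : ℂ) * ξ n * (w J n : ℂ)) (fun n => ?_)
  · refine h2.trans (le_of_eq ?_)
    rw [Finset.sum_const, Nat.card_Icc, nsmul_eq_mul]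
    simp only [Nat.add_sub_cancel]
    ring
  · refine le_trans ?_ (abs_vM_sub_thetaR_le J R n)
    have h3 : (vonMangoldt n : ℂ) * ξ n * (w J n : ℂ) - (thetaR R n : ℂ) * ξ n * (w J n : ℂ) =
        ((vonMangoldt n - thetaR R n : ℝ) : ℂ) * ξ n * (w J n : ℂ) := by
      push_cast
      ring
    rw [h3, norm_mul, norm_mul, Complex.norm_real, Complex.norm_real, Real.norm_eq_abs,
      Real.norm_eq_abs, abs_of_nonneg (w_nonneg J n)]
    refine mul_le_mul_of_nonneg_right ?_ (w_nonneg J n)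
    exact mul_le_of_le_one_right (abs_nonneg _) (hξ n)

end Pool.Agent.Helper11.MT
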