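import Pool.Agent.Helper11.MT.LBound

namespace Pool.Agent.Helper11.MT

open Finset Filter Topology Complex DirichletCharacter
open ArithmeticFunction (vonMangoldt)

lemma norm_deriv_LFunction_le {C1 : ℝ} {N : ℕ} [NeZero N] {χ : DirichletCharacter ℂ N}
    (hχ : χ ≠ 1) {l : ℕ} (hl : 8 ≤ l)
    (hC : ∀ σ τ : ℝ, |σ - 2| ≤ 1 + 1 / l → |τ| ≤ 3 → ‖LFunction χ (σ + τ * I)‖ ≤ C1 * l)
    {s : ℂ} (hσ : |s.re - 2| ≤ 1 + 1 / (2 * l)) (hτ : |s.im| ≤ 2) :
    ‖deriv (LFunction χ) s‖ ≤ 2 * C1 * l ^ 2 := by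
  have hl' : (8 : ℝ) ≤ l := by exact_mod_cast hl
  have hr : (0 : ℝ) < 1 / (2 * l) := by positivity
  have h := Complex.norm_deriv_le_of_forall_mem_sphere_norm_le (c := s) (C := C1 * l) hr
    (differentiable_LFunction hχ).diffContOnCl (fun z hz => ?_)
  · refine h.trans_eq ?_
    field_simp
  · rw [mem_sphere_iff_norm] at hz
    have h1 := Complex.abs_re_le_norm (z - s)
    have h2 := Complex.abs_im_le_norm (z - s)
    rw [hz, Complex.sub_re] at h1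
    rw [hz, Complex.sub_im] at h2
    have h3 := hC z.re z.im ?_ ?_
    · rwa [Complex.re_add_im] at h3
    · have : |z.re - 2| ≤ |z.re - s.re| + |s.re - 2| := abs_sub_le _ _ _
      have e : 1 / (l : ℝ) = 1 / (2 * l) + 1 / (2 * l) := by field_simp; norm_num
      rw [e]; linarith
    · have : |z.im| ≤ |z.im - s.im| + |s.im| := by
        have := abs_add_le (z.im - s.im) s.im
        simpa using this
      have h5 : 1 / (2 * l : ℝ) ≤ 1 := by
        rw [div_le_one (by positivity)]; linarith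
      linarith

/-- `ζ(1+x) ≪ 1/x`. -/
lemma exists_zeta_bound : ∃ C : ℝ, 1 ≤ C ∧ ∀ x : ℝ, 0 < x → x ≤ 3 →
    ‖riemannZeta (1 + x)‖ ≤ C / x := by
  have hcont : Continuous (LFunctionTrivChar₁ 1) := (differentiable_LFunctionTrivChar₁ 1).continuous
  obtain ⟨C, hC⟩ := (isCompact_closedBall (1 : ℂ) 3).exists_bound_of_continuousOn hcont.continuousOn
  refine ⟨max C 1, le_max_right _ _, fun x hx hx3 => ?_⟩
  have hne : (1 + x : ℂ) ≠ 1 := by simpa using hx.ne'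
  have h1 := hC (1 + x) (by
    rw [Metric.mem_closedBall, dist_eq_norm]
    simp only [add_sub_cancel_left, Complex.norm_real, Real.norm_eq_abs]
    rw [abs_of_pos hx]; exact hx3)
  rw [LFunctionTrivChar₁, Function.update_of_ne hne, LFunctionTrivChar, LFunction_modOne_eq,
    norm_mul, add_sub_cancel_left, Complex.norm_real, Real.norm_of_nonneg hx.le] at h1
  rw [le_div_iff₀ hx]
  calc ‖riemannZeta (1 + x)‖ * x = x * ‖riemannZeta (1 + x)‖ := mul_comm _ _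
    _ ≤ C := h1
    _ ≤ _ := le_max_left _ _

lemma norm_LFunctionTrivChar_le {C : ℝ} (hC : ∀ x : ℝ, 0 < x → x ≤ 3 → ‖riemannZeta (1 + x)‖ ≤ C / x)
    (N : ℕ) [NeZero N] {x : ℝ} (hx : 0 < x) (hx3 : x ≤ 3) :
    ‖LFunctionTrivChar N (1 + x)‖ ≤ C / x := by
  have hne : (1 + x : ℂ) ≠ 1 := by simpa using hx.ne'
  rw [LFunctionTrivChar_eq_mul_riemannZeta hne, norm_mul]
  have h1 : ‖∏ p ∈ N.primeFactors, (1 - (p : ℂ) ^ (-(1 + x : ℂ)))‖ ≤ 1 := by
    rw [norm_prod]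
    apply Finset.prod_le_one (fun _ _ => norm_nonneg _)
    intro p hp
    have hp1 : 1 < p := (Nat.prime_of_mem_primeFactors hp).one_lt
    have hp' : (1 : ℝ) < p := by exact_mod_cast hp1
    have e : (p : ℂ) ^ (-(1 + x : ℂ)) = (((p : ℝ) ^ (-(1 + x)) : ℝ) : ℂ) := by
      rw [Complex.ofReal_cpow (by positivity)]; push_cast; rfl
    rw [e, ← Complex.ofReal_one, ← Complex.ofReal_sub, Complex.norm_real, Real.norm_eq_abs, abs_le]
    have h2 : (p : ℝ) ^ (-(1 + x)) ≤ 1 := Real.rpow_le_one_of_one_le_of_nonpos hp'.le (by linarith)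
    have h3 : 0 ≤ (p : ℝ) ^ (-(1 + x)) := by positivity
    constructor <;> linarith
  calc _ ≤ 1 * ‖riemannZeta (1 + x)‖ := by gcongr
    _ ≤ _ := by rw [one_mul]; exact hC x hx hx3

/-- Lower bound to the right of `1 + x0`. -/
lemma norm_LFunction_ge_right {C1 Cζ : ℝ} (hC1 : 1 ≤ C1) (hCζ : 1 ≤ Cζ)
    (hζ : ∀ x : ℝ, 0 < x → x ≤ 3 → ‖riemannZeta (1 + x)‖ ≤ Cζ / x)
    {N : ℕ} [NeZero N] {χ : DirichletCharacter ℂ N} {l : ℕ} (hl : 8 ≤ l)
    (hC : ∀ σ τ : ℝ, |σ - 2| ≤ 1 + 1 / l → |τ| ≤ 3 → ‖LFunction (χ ^ 2) (σ + τ * I)‖ ≤ C1 * l)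
    {x0 : ℝ} (hx0 : 0 < x0) {x y : ℝ} (hx : x0 ≤ x) (hx2 : x ≤ 2 + 1 / l) (hy : |y| ≤ 3 / 2) :
    x0 ^ 3 / (Cζ ^ 3 * (C1 * l)) ≤ ‖LFunction χ (1 + x + I * y)‖ ^ 4 := by
  have hl' : (8 : ℝ) ≤ l := by exact_mod_cast hl
  have hxpos : 0 < x := hx0.trans_le hx
  have h1l : 1 / (l : ℝ) ≤ 1 / 8 := one_div_le_one_div_of_le (by norm_num) hl'
  have h := χ.norm_LFunction_product_ge_one hxpos y
  rw [norm_mul, norm_mul, norm_pow, norm_pow] at h
  have h1 : ‖LFunctionTrivChar N (1 + x)‖ ≤ Cζ / x0 :=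
    (norm_LFunctionTrivChar_le hζ N hxpos (by linarith)).trans (by gcongr)
  have h2 : ‖LFunction (χ ^ 2) (1 + x + 2 * I * y)‖ ≤ C1 * l := by
    have := hC (1 + x) (2 * y) ?_ ?_
    · convert this using 3; push_cast; ring
    · rw [abs_le]; constructor
      · have : 0 ≤ 1 / (l : ℝ) := by positivity
        linarith
      · linarith
    · rw [abs_mul, abs_two]; linarith
  set A := ‖LFunctionTrivChar N (1 + x)‖
  set Bb := ‖LFunction χ (1 + x + I * y)‖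
  set D := ‖LFunction (χ ^ 2) (1 + x + 2 * I * y)‖
  have hA : 0 ≤ A := norm_nonneg _
  have hB : 0 ≤ Bb := norm_nonneg _
  have hD : 0 ≤ D := norm_nonneg _
  have h3 : 1 ≤ (Cζ / x0) ^ 3 * Bb ^ 4 * (C1 * l) := by
    refine le_trans h ?_
    gcongr
  rw [div_le_iff₀ (by positivity)]
  have h4 : (Cζ / x0) ^ 3 * Bb ^ 4 * (C1 * l) * x0 ^ 3 = Bb ^ 4 * (Cζ ^ 3 * (C1 * l)) := by
    field_simp
  calc x0 ^ 3 = 1 * x0 ^ 3 := by ring
    _ ≤ (Cζ / x0) ^ 3 * Bb ^ 4 * (C1 * l) * x0 ^ 3 := by gcongr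
    _ = _ := h4

/-- The lower bound in the disc. -/
lemma norm_LFunction_ge {C1 Cζ : ℝ} (hC1 : 1 ≤ C1) (hCζ : 1 ≤ Cζ)
    (hζ : ∀ x : ℝ, 0 < x → x ≤ 3 → ‖riemannZeta (1 + x)‖ ≤ Cζ / x)
    {N : ℕ} [NeZero N] {χ : DirichletCharacter ℂ N} (hχ : χ ≠ 1) {l : ℕ} (hl : 8 ≤ l)
    (hC : ∀ σ τ : ℝ, |σ - 2| ≤ 1 + 1 / l → |τ| ≤ 3 → ‖LFunction χ (σ + τ * I)‖ ≤ C1 * l)
    (hC2 : ∀ σ τ : ℝ, |σ - 2| ≤ 1 + 1 / l → |τ| ≤ 3 → ‖LFunction (χ ^ 2) (σ + τ * I)‖ ≤ C1 * l)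
    {x0 : ℝ} (hx0 : x0 = 1 / (4096 * C1 ^ 5 * Cζ ^ 3 * l ^ 9)) {s : ℂ}
    (hs : s ∈ Metric.closedBall (2 : ℂ) (1 + x0)) :
    4 * C1 * l ^ 2 * x0 ≤ ‖LFunction χ s‖ := by
  have hl' : (8 : ℝ) ≤ l := by exact_mod_cast hl
  have hC1' : 0 < C1 := by linarith
  have hCζ' : 0 < Cζ := by linarith
  have hx0pos : 0 < x0 := by rw [hx0]; positivity
  have hx0le : x0 ≤ 1 / (2 * l) := by
    rw [hx0]
    apply one_div_le_one_div_of_le (by positivity)
    have h1 : (1 : ℝ) ≤ C1 ^ 5 := one_le_pow₀ hC1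
    have h2 : (1 : ℝ) ≤ Cζ ^ 3 := one_le_pow₀ hCζ
    have h3 : (l : ℝ) ≤ l ^ 9 := by
      calc (l : ℝ) = l ^ 1 := (pow_one _).symm
        _ ≤ l ^ 9 := pow_le_pow_right₀ (by linarith) (by norm_num)
    have h4 : (1 : ℝ) ≤ C1 ^ 5 * Cζ ^ 3 := by nlinarith
    calc 2 * (l : ℝ) ≤ 4096 * 1 * l := by nlinarith
      _ ≤ 4096 * (C1 ^ 5 * Cζ ^ 3) * l ^ 9 := by gcongr
      _ = _ := by ring
  have h2l : 1 / (2 * l : ℝ) ≤ 1 / 16 := one_div_le_one_div_of_le (by norm_num) (by linarith)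
  have h1l : 1 / (2 * l : ℝ) ≤ 1 / l := one_div_le_one_div_of_le (by positivity) (by linarith)
  rw [Metric.mem_closedBall, dist_eq_norm] at hs
  have hre : |s.re - 2| ≤ 1 + x0 := by
    have := (Complex.abs_re_le_norm (s - 2)).trans hs
    simpa using this
  have him : |s.im| ≤ 1 + x0 := by
    have := (Complex.abs_im_le_norm (s - 2)).trans hs
    simpa using this
  -- key inequality
  have hkey : (8 * C1 * l ^ 2 * x0) ^ 4 ≤ x0 ^ 3 / (Cζ ^ 3 * (C1 * l)) := by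
    rw [le_div_iff₀ (by positivity)]
    have e : x0 * (4096 * C1 ^ 5 * Cζ ^ 3 * l ^ 9) = 1 := by rw [hx0]; field_simp
    have : (8 * C1 * l ^ 2 * x0) ^ 4 * (Cζ ^ 3 * (C1 * l)) =
        x0 ^ 3 * (x0 * (4096 * C1 ^ 5 * Cζ ^ 3 * l ^ 9)) := by ring
    rw [this, e, mul_one]
  have hright : ∀ x y : ℝ, x0 ≤ x → x ≤ 2 + 1 / l → |y| ≤ 3 / 2 →
      8 * C1 * l ^ 2 * x0 ≤ ‖LFunction χ (1 + x + I * y)‖ := by
    intro x y hx hx2 hy
    have := norm_LFunction_ge_right hC1 hCζ hζ hl hC2 hx0pos hx hx2 hy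
    exact le_of_pow_le_pow_left₀ (by norm_num) (norm_nonneg _) (hkey.trans this)
  have habs := abs_le.mp hre
  have hposc : 0 ≤ C1 * l ^ 2 * x0 := by positivity
  rcases le_or_gt (1 + x0) s.re with hcase | hcase
  · have := hright (s.re - 1) s.im (by linarith) (by linarith [habs.2]) (by linarith)
    have e : (1 + ((s.re - 1 : ℝ) : ℂ) + I * (s.im : ℂ)) = s := by
      apply Complex.ext <;> simp
    rw [e] at this
    linarith
  · -- compare with the point `1 + x0 + i t`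
    have h1 := hright x0 s.im le_rfl (by linarith [show (0 : ℝ) ≤ 1 / l by positivity]) (by linarith)
    set s1 : ℂ := 1 + x0 + I * s.im with hs1
    have hconv : Convex ℝ {z : ℂ | 1 - x0 ≤ z.re ∧ z.re ≤ 1 + x0 ∧ z.im = s.im} := by
      intro a ha b hb t u ht hu htu
      simp only [Set.mem_setOf_eq] at ha hb ⊢
      simp only [Complex.add_re, Complex.add_im, Complex.real_smul, Complex.mul_re, Complex.mul_im,
        Complex.ofReal_re, Complex.ofReal_im, zero_mul, sub_zero, add_zero]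
      refine ⟨?_, ?_, ?_⟩
      · nlinarith [ha.1, hb.1]
      · nlinarith [ha.2.1, hb.2.1]
      · rw [ha.2.2, hb.2.2, ← add_mul, htu, one_mul]
    have hbound : ∀ z ∈ {z : ℂ | 1 - x0 ≤ z.re ∧ z.re ≤ 1 + x0 ∧ z.im = s.im},
        ‖deriv (LFunction χ) z‖ ≤ 2 * C1 * l ^ 2 := by
      intro z hz
      refine norm_deriv_LFunction_le hχ hl hC ?_ ?_
      · rw [abs_le]; constructor <;> linarith [hz.1, hz.2.1]
      · rw [hz.2.2]; linarith
    have hsmem : s ∈ {z : ℂ | 1 - x0 ≤ z.re ∧ z.re ≤ 1 + x0 ∧ z.im = s.im} :=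
      ⟨by linarith [habs.1], hcase.le, rfl⟩
    have hs1mem : s1 ∈ {z : ℂ | 1 - x0 ≤ z.re ∧ z.re ≤ 1 + x0 ∧ z.im = s.im} := by
      refine ⟨?_, ?_, ?_⟩ <;> simp [hs1] <;> linarith
    have hmv := hconv.norm_image_sub_le_of_norm_deriv_le
      (fun z _ => (differentiable_LFunction hχ) z) hbound hs1mem hsmem
    have hdist : ‖s - s1‖ ≤ 2 * x0 := by
      have e : s - s1 = ((s.re - 1 - x0 : ℝ) : ℂ) := by
        apply Complex.ext <;> simp [hs1]; ring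
      rw [e, Complex.norm_real, Real.norm_eq_abs, abs_le]
      constructor <;> linarith [habs.1]
    have h3 : ‖LFunction χ s1‖ ≤ ‖LFunction χ s‖ + ‖LFunction χ s - LFunction χ s1‖ := by
      have := norm_sub_norm_le (LFunction χ s1) (LFunction χ s)
      rw [norm_sub_rev] at this
      linarith
    have h4 : ‖LFunction χ s - LFunction χ s1‖ ≤ 2 * C1 * l ^ 2 * (2 * x0) :=
      hmv.trans (mul_le_mul_of_nonneg_left hdist (by positivity))
    nlinarith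

/-- **Main bound for complex characters.** -/
theorem exists_complex_char_bound : ∃ c : ℝ, 0 < c ∧ ∀ (N : ℕ) [NeZero N]
    (χ : DirichletCharacter ℂ N), χ ^ 2 ≠ 1 → ∀ l : ℕ, 8 ≤ l → (N : ℝ) ≤ (4 / 3) ^ l → ∀ J : ℕ,
    ‖∑' n : ℕ, (χ n * (vonMangoldt n : ℂ)) * (w J n : ℂ)‖ ≤
      (l : ℝ) ^ 9 / c * (1 / (1 + c / (l : ℝ) ^ 9)) ^ J := by
  obtain ⟨B, hB1, hB⟩ := exists_Omega_bound
  obtain ⟨Cζ, hCζ, hζ⟩ := exists_zeta_bound
  have hK := K32_nonneg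
  set C1 : ℝ := 3 * B + 28 * K32 with hC1def
  have hC1 : 1 ≤ C1 := by rw [hC1def]; linarith
  have hC1' : 0 < C1 := by linarith
  have hCζ' : 0 < Cζ := by linarith
  refine ⟨1 / (4096 * C1 ^ 5 * Cζ ^ 3), by positivity, fun N _ χ hχ2 l hl hN J => ?_⟩
  have hl' : (8 : ℝ) ≤ l := by exact_mod_cast hl
  have hχ : χ ≠ 1 := fun h => hχ2 (by rw [h, one_pow])
  have hC : ∀ σ τ : ℝ, |σ - 2| ≤ 1 + 1 / l → |τ| ≤ 3 → ‖LFunction χ (σ + τ * I)‖ ≤ C1 * l :=
    fun σ τ h1 h2 => norm_LFunction_le_aux hB1 hB hχ hl hN h1 h2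
  have hC2 : ∀ σ τ : ℝ, |σ - 2| ≤ 1 + 1 / l → |τ| ≤ 3 → ‖LFunction (χ ^ 2) (σ + τ * I)‖ ≤ C1 * l :=
    fun σ τ h1 h2 => norm_LFunction_le_aux hB1 hB hχ2 hl hN h1 h2
  set x0 : ℝ := 1 / (4096 * C1 ^ 5 * Cζ ^ 3 * l ^ 9) with hx0
  have hx0pos : 0 < x0 := by rw [hx0]; positivity
  have hx0le : x0 ≤ 1 / (2 * l) := by
    rw [hx0]
    apply one_div_le_one_div_of_le (by positivity)
    have h1 : (1 : ℝ) ≤ C1 ^ 5 := one_le_pow₀ hC1
    have h2 : (1 : ℝ) ≤ Cζ ^ 3 := one_le_pow₀ hCζ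
    have h3 : (l : ℝ) ≤ l ^ 9 := by
      calc (l : ℝ) = l ^ 1 := (pow_one _).symm
        _ ≤ l ^ 9 := pow_le_pow_right₀ (by linarith) (by norm_num)
    have h4 : (1 : ℝ) ≤ C1 ^ 5 * Cζ ^ 3 := by nlinarith
    calc 2 * (l : ℝ) ≤ 4096 * 1 * l := by nlinarith
      _ ≤ 4096 * (C1 ^ 5 * Cζ ^ 3) * l ^ 9 := by gcongr
      _ = _ := by ring
  have h2l : 1 / (2 * l : ℝ) ≤ 1 / 16 := one_div_le_one_div_of_le (by norm_num) (by linarith)
  have hlow := fun {s : ℂ} (hs : s ∈ Metric.closedBall (2 : ℂ) (1 + x0)) =>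
    norm_LFunction_ge hC1 hCζ hζ hχ hl hC hC2 hx0 hs
  set g : ℂ → ℂ := fun s => -deriv (LFunction χ) s / LFunction χ s with hg
  have hne : ∀ s ∈ Metric.closedBall (2 : ℂ) (1 + x0), LFunction χ s ≠ 0 := by
    intro s hs h0
    have := hlow hs
    rw [h0, norm_zero] at this
    have : 0 < 4 * C1 * l ^ 2 * x0 := by positivity
    linarith
  have hgd : DifferentiableOn ℂ g (Metric.closedBall 2 (1 + x0)) := by
    intro s hs
    have ha : AnalyticAt ℂ (LFunction χ) s := (differentiable_LFunction hχ).analyticAt s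
    exact ((ha.deriv.neg).div ha (hne s hs)).differentiableAt.differentiableWithinAt
  have hgb : ∀ z ∈ Metric.sphere (2 : ℂ) (1 + x0), ‖g z‖ ≤ 1 / (2 * x0) := by
    intro z hz
    have hz' := Metric.sphere_subset_closedBall hz
    have h1 := hlow hz'
    rw [Metric.mem_closedBall, dist_eq_norm] at hz'
    have hre : |z.re - 2| ≤ 1 + x0 := by
      have := (Complex.abs_re_le_norm (z - 2)).trans hz'
      simpa using this
    have him : |z.im| ≤ 1 + x0 := by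
      have := (Complex.abs_im_le_norm (z - 2)).trans hz'
      simpa using this
    have h2 := norm_deriv_LFunction_le hχ hl hC (s := z) (by linarith) (by linarith)
    rw [hg]
    simp only [norm_div, norm_neg]
    calc ‖deriv (LFunction χ) z‖ / ‖LFunction χ z‖ ≤ (2 * C1 * l ^ 2) / (4 * C1 * l ^ 2 * x0) := by
          gcongr
      _ = _ := by field_simp; norm_num
  have hcauchy := Complex.norm_iteratedDeriv_le_of_forall_mem_sphere_norm_le (n := J)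
    (by positivity : 0 < 1 + x0) (hgd.diffContOnCl_ball le_rfl) hgb
  have h1 : iteratedDeriv J g 2 = iteratedDeriv J (LSeries (fun n : ℕ => χ n * (vonMangoldt n : ℂ))) 2 := by
    apply Filter.EventuallyEq.iteratedDeriv_eq
    filter_upwards [eventually_re_gt_one] with s hs
    have := LSeries_twist_vonMangoldt_eq χ hs
    rw [hg]
    simp only
    rw [deriv_LFunction_eq_deriv_LSeries χ hs, LFunction_eq_LSeries χ hs, ← this]
    rfl
  rw [tsum_eq_iteratedDeriv' (abscissa_twist_lt χ) J, ← h1]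
  have h3 : (0 : ℝ) < J.factorial := by exact_mod_cast J.factorial_pos
  rw [norm_div, norm_mul, norm_pow, norm_neg, norm_one, one_pow, one_mul, Complex.norm_natCast,
    div_le_iff₀ h3]
  refine hcauchy.trans ?_
  have e1 : (1 / (4096 * C1 ^ 5 * Cζ ^ 3)) / (l : ℝ) ^ 9 = x0 := by rw [hx0]; field_simp
  have e2 : (l : ℝ) ^ 9 / (1 / (4096 * C1 ^ 5 * Cζ ^ 3)) = 1 / x0 := by rw [hx0]; field_simp
  rw [e1, e2, one_div_pow]
  have h5 : 1 / (2 * x0) ≤ 1 / x0 := one_div_le_one_div_of_le hx0pos (by linarith)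
  calc (J.factorial : ℝ) * (1 / (2 * x0)) / (1 + x0) ^ J ≤ (J.factorial : ℝ) * (1 / x0) / (1 + x0) ^ J := by
        gcongr
    _ = _ := by ring

end Pool.Agent.Helper11.MT
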