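import Mathlib
import Pool.Agent.Helper11.MT.Statement

/-!
A convenient corollary of the Maynard-Tao theorem, with prescribed congruences.
-/

open Finset

namespace Pool.Agent.Helper11.MT

/-- Combination of two compatible congruence conditions. -/
lemma combine {ι : Type*} {h : ι → ℕ} {Q0 Q1 c0 c1 : ℕ} (hQ : Nat.Coprime Q0 Q1)
    (h0 : ∀ i, Nat.Coprime (c0 + h i) Q0) (h1 : ∀ i, Nat.Coprime (c1 + h i) Q1) :
    ∃ c, c ≡ c0 [MOD Q0] ∧ c ≡ c1 [MOD Q1] ∧ ∀ i, Nat.Coprime (c + h i) (Q0 * Q1) := by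
  obtain ⟨c, hc0, hc1⟩ := Nat.chineseRemainder hQ c0 c1
  refine ⟨c, hc0, hc1, fun i => Nat.Coprime.mul_right ?_ ?_⟩
  · have h3 := (hc0.add_right (h i)).gcd_eq
    have h2 := h0 i
    rw [Nat.coprime_iff_gcd_eq_one] at h2 ⊢
    rw [h3]
    exact h2
  · have h3 := (hc1.add_right (h i)).gcd_eq
    have h2 := h1 i
    rw [Nat.coprime_iff_gcd_eq_one] at h2 ⊢
    rw [h3]
    exact h2

/-- Avoiding `k` residue classes modulo a prime larger than `k`. -/
lemma exists_avoid {k : ℕ} (h : Fin k → ℕ) {p : ℕ} (hp : p.Prime) (hk : k < p) :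
    ∃ c, ∀ i, Nat.Coprime (c + h i) p := by
  have : NeZero p := ⟨hp.ne_zero⟩
  have hcard : #(univ.image (fun i => -(h i : ZMod p))) < Fintype.card (ZMod p) := by
    rw [ZMod.card]
    refine lt_of_le_of_lt Finset.card_image_le ?_
    rw [Finset.card_univ, Fintype.card_fin]
    exact hk
  obtain ⟨a, ha⟩ : ∃ a : ZMod p, a ∉ univ.image (fun i => -(h i : ZMod p)) := by
    by_contra hcon
    push Not at hcon
    have : univ.image (fun i => -(h i : ZMod p)) = univ := by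
      ext a; simp only [Finset.mem_univ, iff_true]; exact hcon a
    rw [this, Finset.card_univ] at hcard
    exact lt_irrefl _ hcard
  refine ⟨a.val, fun i => ?_⟩
  rw [Nat.coprime_comm, hp.coprime_iff_not_dvd, ← ZMod.natCast_eq_zero_iff]
  intro h0
  apply ha
  rw [Finset.mem_image]
  refine ⟨i, Finset.mem_univ _, ?_⟩
  push_cast at h0
  rw [ZMod.natCast_val, ZMod.cast_id] at h0
  exact (eq_neg_of_add_eq_zero_left h0).symm

lemma exists_avoid_finset {k : ℕ} (h : Fin k → ℕ) (S : Finset ℕ) (hS : ∀ p ∈ S, p.Prime)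
    (hk : ∀ p ∈ S, k < p) : ∃ c, ∀ i, Nat.Coprime (c + h i) (∏ p ∈ S, p) := by
  induction S using Finset.induction_on with
  | empty => exact ⟨0, fun i => by simp⟩
  | insert p S hp ih =>
    obtain ⟨c0, hc0⟩ := ih (fun q hq => hS q (Finset.mem_insert_of_mem hq))
      (fun q hq => hk q (Finset.mem_insert_of_mem hq))
    obtain ⟨c1, hc1⟩ := exists_avoid h (hS p (Finset.mem_insert_self _ _))
      (hk p (Finset.mem_insert_self _ _))
    have hcop : Nat.Coprime p (∏ q ∈ S, q) := by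
      refine Nat.Coprime.prod_right fun q hq => ?_
      refine (Nat.coprime_primes (hS p (Finset.mem_insert_self _ _))
        (hS q (Finset.mem_insert_of_mem hq))).mpr ?_
      rintro rfl
      exact hp hq
    obtain ⟨c, -, -, hc⟩ := combine hcop hc1 hc0
    refine ⟨c, fun i => ?_⟩
    rw [Finset.prod_insert hp]
    exact hc i

/-- Maynard-Tao with prescribed congruences. -/
def ClusterStatement : Prop :=
  ∀ M : ℕ, ∃ k : ℕ, ∀ h : Fin k → ℕ, Function.Injective h →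
    ∀ L : ℕ, 0 < L → (∀ p : ℕ, p.Prime → p ≤ k → p ∣ L) → (∀ i, L ∣ h i) →
      ∃ D : ℕ, ∀ Q c : ℕ, 0 < Q → (∀ p : ℕ, p.Prime → p ≤ D → ¬ p ∣ Q) →
        (∀ i, Nat.Coprime (c + h i) Q) → ∀ N : ℕ, ∃ m : ℕ, N ≤ m ∧ m ≡ 1 [MOD L] ∧
          m ≡ c [MOD Q] ∧ M ≤ #(univ.filter (fun i => (m + h i).Prime))

theorem cluster_of_MT (hMT : MTStatement) : ClusterStatement := by
  intro M
  obtain ⟨k, hk⟩ := hMT M
  refine ⟨k, fun h hinj L hL hLk hLh => ?_⟩
  obtain ⟨D0, hD0⟩ := hk h hinj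
  refine ⟨max D0 L, fun Q c hQ hQD hc N => ?_⟩
  set S : Finset ℕ := (range (max D0 L + 1)).filter (fun p => p.Prime ∧ ¬ p ∣ L) with hS
  have hSp : ∀ p ∈ S, p.Prime := fun p hp => (Finset.mem_filter.mp hp).2.1
  have hSk : ∀ p ∈ S, k < p := by
    intro p hp
    obtain ⟨-, h1, h2⟩ := Finset.mem_filter.mp hp
    by_contra h3
    exact h2 (hLk p h1 (not_lt.mp h3))
  obtain ⟨c0, hc0⟩ := exists_avoid_finset h S hSp hSk
  -- residue one mod L
  have hc1 : ∀ i, Nat.Coprime (1 + h i) L := by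
    intro i
    obtain ⟨a, ha⟩ := hLh i
    rw [ha]
    have : Nat.Coprime 1 L := Nat.coprime_one_left L
    rw [Nat.coprime_iff_gcd_eq_one] at *
    rw [Nat.gcd_comm, Nat.gcd_add_mul_left_right, Nat.gcd_comm]
    exact this
  have hcop1 : Nat.Coprime L (∏ p ∈ S, p) := by
    refine Nat.Coprime.prod_right fun p hp => ?_
    exact (((hSp p hp).coprime_iff_not_dvd).mpr (Finset.mem_filter.mp hp).2.2).symm
  obtain ⟨c2, hc2L, -, hc2⟩ := combine hcop1 hc1 hc0
  have hcop2 : Nat.Coprime (L * ∏ p ∈ S, p) Q := by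
    refine Nat.Coprime.mul_left ?_ ?_
    · rw [Nat.coprime_iff_gcd_eq_one]
      by_contra hne
      obtain ⟨p, hp, hpd⟩ := Nat.exists_prime_and_dvd hne
      have h1 : p ∣ L := hpd.trans (Nat.gcd_dvd_left _ _)
      have h2 : p ∣ Q := hpd.trans (Nat.gcd_dvd_right _ _)
      exact hQD p hp ((Nat.le_of_dvd hL h1).trans (le_max_right _ _)) h2
    · refine Nat.Coprime.prod_left fun p hp => ?_
      refine ((hSp p hp).coprime_iff_not_dvd).mpr (hQD p (hSp p hp) ?_)
      have := Finset.mem_range.mp (Finset.mem_filter.mp hp).1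
      omega
  obtain ⟨v, hv1, hv2, hv⟩ := combine hcop2 hc2 hc
  have hSpos : 0 < ∏ p ∈ S, p := Finset.prod_pos fun p hp => (hSp p hp).pos
  obtain ⟨m, hm1, hm2, hm3⟩ := hD0 (L * (∏ p ∈ S, p) * Q) (by positivity) (fun p hp hpD => by
    by_cases hpL : p ∣ L
    · exact dvd_mul_of_dvd_left (dvd_mul_of_dvd_left hpL _) _
    · refine dvd_mul_of_dvd_left (dvd_mul_of_dvd_right ?_ _) _
      refine Finset.dvd_prod_of_mem _ ?_
      rw [hS, Finset.mem_filter, Finset.mem_range]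
      refine ⟨?_, hp, hpL⟩
      have := le_max_left D0 L
      omega) v hv N
  refine ⟨m, hm1, ?_, ?_, hm3⟩
  · have h1 : m ≡ v [MOD L] := hm2.of_dvd (dvd_mul_of_dvd_left (dvd_mul_right _ _) _)
    have h2 : v ≡ c2 [MOD L] := hv1.of_dvd (dvd_mul_right _ _)
    exact h1.trans (h2.trans hc2L)
  · exact (hm2.of_dvd (dvd_mul_left _ _)).trans hv2

/-- Forcing prime divisors of given linear forms. -/
lemma exists_force {ι : Type*} [Fintype ι] (h : ι → ℕ) (A : Finset (ℕ × ℕ))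
    (hA : ∀ jb ∈ A, 1 ≤ jb.1 ∧ ∀ i, jb.2 ≠ jb.1 * h i) (D : ℕ) :
    ∃ Q c : ℕ, 0 < Q ∧ (∀ p : ℕ, p.Prime → p ≤ D → ¬ p ∣ Q) ∧ (∀ i, Nat.Coprime (c + h i) Q) ∧
      ∀ jb ∈ A, ∃ r : ℕ, r.Prime ∧ r ∣ Q ∧ r ∣ jb.1 * c + jb.2 := by
  induction A using Finset.induction_on with
  | empty =>
    refine ⟨1, 0, one_pos, fun p hp _ hd => ?_, fun i => by simp, fun _ h => absurd h (by simp)⟩
    exact hp.one_lt.ne' (Nat.dvd_one.mp hd)
  | insert jb A hjb ih =>
    obtain ⟨Q0, c0, hQ0, hQD0, hc0, hf0⟩ := ih (fun x hx => hA x (Finset.mem_insert_of_mem hx))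
    obtain ⟨hj1, hne⟩ := hA jb (Finset.mem_insert_self _ _)
    obtain ⟨r, hr, hrp⟩ := Nat.exists_infinite_primes (D + Q0 + jb.1 + jb.2 + jb.1 * (∑ i, h i) + 1)
    have : Fact r.Prime := ⟨hrp⟩
    have hrQ : ¬ r ∣ Q0 := fun hd => by
      have := Nat.le_of_dvd hQ0 hd
      omega
    have hrj : ((jb.1 : ℕ) : ZMod r) ≠ 0 := by
      rw [Ne, ZMod.natCast_eq_zero_iff]
      intro hd
      have := Nat.le_of_dvd (by omega) hd
      omega
    -- the residue
    set a : ZMod r := - (jb.2 : ZMod r) / (jb.1 : ZMod r) with ha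
    have hja : (jb.1 : ZMod r) * a + jb.2 = 0 := by
      rw [ha, mul_div_cancel₀ _ hrj, neg_add_cancel]
    have hac : ((a.val : ℕ) : ZMod r) = a := by rw [ZMod.natCast_val, ZMod.cast_id]
    have hc1 : ∀ i, Nat.Coprime (a.val + h i) r := by
      intro i
      rw [Nat.coprime_comm, hrp.coprime_iff_not_dvd, ← ZMod.natCast_eq_zero_iff]
      intro h0
      push_cast at h0
      rw [ZMod.natCast_val, ZMod.cast_id] at h0
      have h1 : ((jb.1 * h i : ℕ) : ZMod r) = ((jb.2 : ℕ) : ZMod r) := by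
        push_cast
        have h2 : (h i : ZMod r) = - a := by
          rw [eq_neg_iff_add_eq_zero, add_comm]; exact h0
        rw [h2]
        linear_combination -hja
      rw [ZMod.natCast_eq_natCast_iff] at h1
      have h3 : h i ≤ ∑ i, h i := Finset.single_le_sum (fun _ _ => Nat.zero_le _) (Finset.mem_univ i)
      have h4 : jb.1 * h i ≤ jb.1 * ∑ i, h i := Nat.mul_le_mul_left _ h3
      have := Nat.ModEq.eq_of_lt_of_lt h1 (by omega) (by omega)
      exact hne i this.symm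
    obtain ⟨c, hcc0, hcc1, hc⟩ := combine
      ((hrp.coprime_iff_not_dvd.mpr hrQ).symm) hc0 hc1
    refine ⟨Q0 * r, c, Nat.mul_pos hQ0 hrp.pos, fun p hp hpD hd => ?_, hc, fun x hx => ?_⟩
    · rcases (hp.dvd_mul).mp hd with h1 | h1
      · exact hQD0 p hp hpD h1
      · have := (Nat.prime_dvd_prime_iff_eq hp hrp).mp h1
        omega
    · rw [Finset.mem_insert] at hx
      rcases hx with rfl | hx
      · refine ⟨r, hrp, dvd_mul_left _ _, ?_⟩
        rw [← ZMod.natCast_eq_zero_iff]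
        have h1 : (c : ZMod r) = a := by
          have := (ZMod.natCast_eq_natCast_iff c a.val r).mpr hcc1
          rw [this, hac]
        push_cast
        rw [h1]
        exact hja
      · obtain ⟨r', h1, h2, h3⟩ := hf0 x hx
        refine ⟨r', h1, dvd_mul_of_dvd_left h2 _, ?_⟩
        have h4 : c ≡ c0 [MOD r'] := hcc0.of_dvd h2
        have h5 : x.1 * c + x.2 ≡ x.1 * c0 + x.2 [MOD r'] := (h4.mul_left _).add_right _
        exact (Nat.modEq_zero_iff_dvd).mp (h5.trans ((Nat.modEq_zero_iff_dvd).mpr h3))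

end Pool.Agent.Helper11.MT
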