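import Mathlib
import Pool.Agent.Helper11.MT.Cluster

/-!
Application to sums of consecutive primes.
-/

open Finset

namespace Pool.Agent.Helper11.MT

lemma pr_prime (i : ℕ) : (pr i).Prime := Nat.prime_nth_prime _

lemma pr_lt {i j : ℕ} (hi : 1 ≤ i) (hij : i < j) : pr i < pr j :=
  Nat.nth_strictMono Nat.infinite_setOfPred_prime (by omega)

lemma pr_le {i j : ℕ} (hi : 1 ≤ i) (hij : i ≤ j) : pr i ≤ pr j := by
  rcases hij.eq_or_lt with rfl | h
  · exact le_rfl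
  · exact (pr_lt hi h).le

lemma exists_index {q : ℕ} (hq : q.Prime) : ∃ n, 1 ≤ n ∧ pr n = q :=
  ⟨Nat.count Nat.Prime q + 1, by omega, by unfold pr; rw [Nat.add_sub_cancel]; exact Nat.nth_count hq⟩

lemma pr_succ {n q' : ℕ} (hn : 1 ≤ n) (hq' : q'.Prime) (hlt : pr n < q')
    (hno : ∀ x : ℕ, x.Prime → pr n < x → x < q' → False) : pr (n + 1) = q' := by
  obtain ⟨n', hn', rfl⟩ := exists_index hq'
  have h1 : n < n' := by
    by_contra h
    exact absurd hlt (not_lt.mpr (pr_le hn' (not_lt.mp h)))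
  rcases Nat.lt_or_ge (n + 1) n' with h2 | h2
  · exact (hno _ (pr_prime _) (pr_lt hn (Nat.lt_succ_self n)) (pr_lt (by omega) h2)).elim
  · rw [show n + 1 = n' by omega]

lemma SS_lt {i j : ℕ} (hi : 1 ≤ i) (hij : i < j) : SS i < SS j := by
  unfold SS
  have := pr_lt hi hij
  have := pr_lt (i := i + 1) (j := j + 1) (by omega) (by omega)
  omega

lemma SS_le {i j : ℕ} (hi : 1 ≤ i) (hij : i ≤ j) : SS i ≤ SS j := by
  rcases hij.eq_or_lt with rfl | h
  · exact le_rfl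
  · exact (SS_lt hi h).le

lemma index_unique {k k' x : ℕ} (hk : 1 ≤ k) (hk' : 1 ≤ k') (h1 : pr k < x) (h2 : x < pr (k + 1))
    (h3 : pr k' < x) (h4 : x < pr (k' + 1)) : k = k' := by
  rcases Nat.lt_trichotomy k k' with h | h | h
  · have := pr_le (i := k + 1) (j := k') (by omega) (by omega)
    omega
  · exact h
  · have := pr_le (i := k' + 1) (j := k) (by omega) (by omega)
    omega

/-- No small multiple of `SS n` is a sum of two consecutive primes. -/
def GoodIdx (C n : ℕ) : Prop := ∀ k, n < k → ∀ j, 2 ≤ j → j ≤ C → SS k ≠ j * SS n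

/-- The successor of `i` in `I`. -/
lemma exists_next {k : ℕ} {I : Finset (Fin k)} {i : Fin k} (hlt : ∃ j ∈ I, i < j) :
    ∃ i' ∈ I, i < i' ∧ ∀ l ∈ I, i < l → i' ≤ l := by
  obtain ⟨j, hj, hij⟩ := hlt
  have hne : (I.filter (fun l => i < l)).Nonempty := ⟨j, Finset.mem_filter.mpr ⟨hj, hij⟩⟩
  refine ⟨(I.filter (fun l => i < l)).min' hne, ?_, ?_, ?_⟩
  · exact (Finset.mem_filter.mp (Finset.min'_mem _ hne)).1
  · exact (Finset.mem_filter.mp (Finset.min'_mem _ hne)).2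
  · intro l hl hil
    exact Finset.min'_le _ _ (Finset.mem_filter.mpr ⟨hl, hil⟩)

/-- Consecutive elements of the cluster are consecutive primes. -/
lemma cluster_consecutive {k m H : ℕ} {h : Fin k → ℕ} (hmono : StrictMono h)
    (hH : ∀ i, h i ≤ H) {I : Finset (Fin k)} (hI : ∀ i, i ∈ I ↔ (m + h i).Prime)
    (hcomp : ∀ t, t ≤ H → (∀ i, t ≠ h i) → ¬ (m + t).Prime) {i i' : Fin k} (hi : i ∈ I)
    (hi' : i' ∈ I) (hlt : i < i') (hnext : ∀ l ∈ I, i < l → i' ≤ l) :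
    ∃ n, 1 ≤ n ∧ pr n = m + h i ∧ pr (n + 1) = m + h i' := by
  obtain ⟨n, hn, hpn⟩ := exists_index ((hI i).mp hi)
  refine ⟨n, hn, hpn, pr_succ hn ((hI i').mp hi') ?_ ?_⟩
  · rw [hpn]
    have := hmono hlt
    omega
  · intro x hx h1 h2
    rw [hpn] at h1
    have hxm : m ≤ x := by omega
    obtain ⟨t, rfl⟩ := Nat.exists_eq_add_of_le hxm
    by_cases ht : ∃ l, t = h l
    · obtain ⟨l, rfl⟩ := ht
      have hl : l ∈ I := (hI l).mpr hx
      have h3 : i < l := by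
        rw [← hmono.lt_iff_lt]; omega
      have h4 := hmono.monotone (hnext l hl h3)
      omega
    · push Not at ht
      exact hcomp t (by have := hH i'; omega) ht hx

lemma not_prime_of_force {m j b Q c r : ℕ} (hr : r.Prime) (hQ : 0 < Q) (hrQ : r ∣ Q)
    (hrc : r ∣ j * c + b) (hj : 1 ≤ j) (hm : Q < m) (hmc : m ≡ c [MOD Q]) :
    ¬ (j * m + b).Prime := by
  intro hp
  have h1 : m ≡ c [MOD r] := hmc.of_dvd hrQ
  have h2 : j * m + b ≡ j * c + b [MOD r] := (h1.mul_left _).add_right _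
  have h3 : r ∣ j * m + b := (Nat.modEq_zero_iff_dvd).mp (h2.trans ((Nat.modEq_zero_iff_dvd).mpr hrc))
  have h4 := (Nat.prime_dvd_prime_iff_eq hr hp).mp h3
  have h5 := Nat.le_of_dvd hQ hrQ
  have h6 : m ≤ j * m := Nat.le_mul_of_pos_left m hj
  omega

/-- Claim A. -/
theorem claimA (hCl : ClusterStatement) (C Z : ℕ) (hC : 2 ≤ C) :
    ∃ n s, 1 ≤ n ∧ GoodIdx C n ∧ SS n = 2 * s ∧ 0 < s ∧ ∀ p : ℕ, p.Prime → p ≤ Z → ¬ p ∣ s := by
  classical
  obtain ⟨k, hk⟩ := hCl (C + 1)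
  set L : ℕ := (k + Z).factorial with hL
  have hL0 : 0 < L := Nat.factorial_pos _
  set h : Fin k → ℕ := fun i => 2 * L * (i : ℕ) with hh
  have hmono : StrictMono h := by
    intro i j hij
    rw [hh]
    simp only
    exact Nat.mul_lt_mul_of_pos_left hij (by positivity)
  obtain ⟨D, hD⟩ := hk h hmono.injective L hL0
    (fun p hp hpk => (hp.dvd_factorial).mpr (by omega))
    (fun i => by rw [hh]; exact dvd_mul_of_dvd_left (dvd_mul_left _ _) _)
  set H : ℕ := 2 * L * k with hHdef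
  have hH : ∀ i, h i ≤ H := fun i => Nat.mul_le_mul_left _ i.2.le
  set A : Finset (ℕ × ℕ) := ((Icc 1 C) ×ˢ (range (C * H + 1))).filter
    (fun jb => ∀ i, jb.2 ≠ jb.1 * h i) with hA
  obtain ⟨Q, c, hQ, hQD, hcop, hforce⟩ := exists_force h A (fun jb hjb => by
    rw [hA, Finset.mem_filter, Finset.mem_product, Finset.mem_Icc] at hjb
    exact ⟨hjb.1.1.1, hjb.2⟩) D
  obtain ⟨m, hm1, hm2, hm3, hm4⟩ := hD Q c hQ hQD hcop (Q + 2)
  -- compositeness
  have hnp : ∀ j b, 1 ≤ j → j ≤ C → b ≤ C * H → (∀ i, b ≠ j * h i) → ¬ (j * m + b).Prime := by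
    intro j b hj1 hjC hb hne
    obtain ⟨r, hr, hrQ, hrc⟩ := hforce (j, b) (by
      rw [hA, Finset.mem_filter, Finset.mem_product, Finset.mem_Icc, Finset.mem_range]
      exact ⟨⟨⟨hj1, hjC⟩, by omega⟩, hne⟩)
    exact not_prime_of_force hr hQ hrQ hrc hj1 (by omega) hm3
  have hHC : H ≤ C * H := Nat.le_mul_of_pos_left H (by omega)
  have hcomp : ∀ t, t ≤ H → (∀ i, t ≠ h i) → ¬ (m + t).Prime := by
    intro t ht hne
    have := hnp 1 t le_rfl (by omega) (ht.trans hHC) (fun i => by rw [one_mul]; exact hne i)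
    rwa [one_mul] at this
  have hnp2 : ∀ j x, 2 ≤ j → j ≤ C → j * m ≤ x → x ≤ j * m + C * H → ¬ x.Prime := by
    intro j x hj hjC hx1 hx2
    obtain ⟨b, rfl⟩ := Nat.exists_eq_add_of_le hx1
    by_cases hb : ∃ i, b = j * h i
    · obtain ⟨i, rfl⟩ := hb
      rw [← mul_add]
      exact Nat.not_prime_mul (by omega) (by omega)
    · push Not at hb
      exact hnp j b (by omega) hjC (by omega) hb
  set I : Finset (Fin k) := univ.filter (fun i => (m + h i).Prime) with hI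
  have hmemI : ∀ i, i ∈ I ↔ (m + h i).Prime := fun i => by rw [hI, Finset.mem_filter]; simp
  have hIne : I.Nonempty := by
    rw [← Finset.card_pos]; omega
  set I' := I.erase (I.max' hIne) with hI'
  have hI'card : C ≤ #I' := by
    rw [hI', Finset.card_erase_of_mem (Finset.max'_mem _ _)]; omega
  -- data for each element of I'
  have hdata : ∀ i ∈ I', ∃ i' ∈ I, i < i' ∧ (∀ l ∈ I, i < l → i' ≤ l) ∧
      ∃ n, 1 ≤ n ∧ pr n = m + h i ∧ pr (n + 1) = m + h i' := by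
    intro i hi
    rw [hI', Finset.mem_erase] at hi
    have hlt : i < I.max' hIne := lt_of_le_of_ne (Finset.le_max' _ _ hi.2) hi.1
    obtain ⟨i', h1, h2, h3⟩ := exists_next (I := I) ⟨_, Finset.max'_mem _ hIne, hlt⟩
    exact ⟨i', h1, h2, h3, cluster_consecutive hmono hH hmemI hcomp hi.2 h1 h2 h3⟩
  by_contra hcon
  push Not at hcon
  -- every element is bad
  have hbad : ∀ i ∈ I', ∃ i' ∈ I, i < i' ∧ (∀ l ∈ I, i < l → i' ≤ l) ∧
      ∃ j, 2 ≤ j ∧ j ≤ C ∧ ∃ kk, 1 ≤ kk ∧ SS kk = j * (2 * m + h i + h i') := by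
    intro i hi
    obtain ⟨i', h1, h2, h3, n, h4, h5, h6⟩ := hdata i hi
    refine ⟨i', h1, h2, h3, ?_⟩
    have hSS : SS n = 2 * (m + L * ((i : ℕ) + i')) := by
      unfold SS
      rw [h5, h6, hh]
      ring
    have hngood : ¬ GoodIdx C n := by
      intro hg
      obtain ⟨p, hp, hpZ, hpd⟩ := hcon n (m + L * ((i : ℕ) + i')) h4 hg hSS (by omega)
      have h7 : p ∣ L := (hp.dvd_factorial).mpr (by omega)
      have h8 : p ∣ m := (Nat.dvd_add_left (dvd_mul_of_dvd_left h7 _)).mp hpd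
      have h9 : m ≡ 1 [MOD p] := hm2.of_dvd h7
      have h10 : (1 : ℕ) ≡ 0 [MOD p] := h9.symm.trans ((Nat.modEq_zero_iff_dvd).mpr h8)
      exact hp.one_lt.ne' (Nat.dvd_one.mp ((Nat.modEq_zero_iff_dvd).mp h10))
    unfold GoodIdx at hngood
    push Not at hngood
    obtain ⟨kk, hkk, j, hj1, hj2, hj3⟩ := hngood
    refine ⟨j, hj1, hj2, kk, by omega, ?_⟩
    rw [hj3]
    unfold SS
    rw [h5, h6]
    ring
  choose! nx hnx1 hnx2 hnx3 jf hj1 hj2 kf hk1 hk2 using hbad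
  obtain ⟨i, hi, i2, hi2, hne, hjj⟩ := Finset.exists_ne_map_eq_of_card_lt_of_maps_to
    (s := I') (t := Icc 2 C) (f := jf) (by rw [Nat.card_Icc]; omega)
    (fun i hi => Finset.mem_coe.mpr (Finset.mem_Icc.mpr ⟨hj1 i hi, hj2 i hi⟩))
  -- the gap of each
  have hgap : ∀ i ∈ I', pr (kf i) < jf i * m ∧ jf i * m < pr (kf i + 1) := by
    intro i hi
    have e := hk2 i hi
    have hb1 : jf i * (h i + h (nx i)) ≤ 2 * (C * H) := by
      have := hH i
      have := hH (nx i)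
      calc jf i * (h i + h (nx i)) ≤ C * (H + H) := Nat.mul_le_mul (hj2 i hi) (by omega)
        _ = 2 * (C * H) := by ring
    have e2 : pr (kf i) + pr (kf i + 1) = 2 * (jf i * m) + jf i * (h i + h (nx i)) := by
      have : SS (kf i) = pr (kf i) + pr (kf i + 1) := rfl
      rw [← this, e]; ring
    have hlt := pr_lt (hk1 i hi) (Nat.lt_succ_self (kf i))
    have hp1 : pr (kf i) < jf i * m := by
      by_contra h1
      exact hnp2 (jf i) _ (hj1 i hi) (hj2 i hi) (not_lt.mp h1) (by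
        simp only [Nat.succ_eq_add_one] at hlt
        omega) (pr_prime _)
    refine ⟨hp1, ?_⟩
    omega
  have g1 := hgap i hi
  have g2 := hgap i2 hi2
  rw [← hjj] at g2
  have hkk := index_unique (hk1 i hi) (hk1 i2 hi2) g1.1 g1.2 g2.1 g2.2
  have e1 := hk2 i hi
  have e2 := hk2 i2 hi2
  rw [← hkk, e1, ← hjj] at e2
  have e3 := Nat.eq_of_mul_eq_mul_left (by have := hj1 i hi; omega) e2
  have hI2 : ∀ i ∈ I', i ∈ I := fun i hi => Finset.mem_of_mem_erase hi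
  rcases lt_or_gt_of_ne hne with hlt | hlt
  · have h1 := hnx3 i hi i2 (hI2 i2 hi2) hlt
    have h2 := hmono.monotone h1
    have h3 := hmono hlt
    have h4 := hmono (hnx2 i2 hi2)
    omega
  · have h1 := hnx3 i2 hi2 i (hI2 i hi) hlt
    have h2 := hmono.monotone h1
    have h3 := hmono hlt
    have h4 := hmono (hnx2 i hi)
    omega

lemma four_pow_ne {i j l : ℕ} (hij : i < j) : 2 * 4 ^ l ≠ 4 ^ i + 4 ^ j := by
  intro h
  rcases Nat.lt_or_ge i l with hl | hl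
  · have h1 : 4 ^ (i + 1) ∣ 4 ^ l := pow_dvd_pow 4 (by omega)
    have h2 : 4 ^ (i + 1) ∣ 4 ^ j := pow_dvd_pow 4 (by omega)
    have h3 : 4 ^ (i + 1) ∣ 4 ^ i := by
      have : 4 ^ (i + 1) ∣ 4 ^ i + 4 ^ j := h ▸ dvd_mul_of_dvd_right h1 2
      exact (Nat.dvd_add_left h2).mp this
    have h4 := Nat.le_of_dvd (by positivity) h3
    have : 4 ^ i < 4 ^ (i + 1) := Nat.pow_lt_pow_right (by norm_num) (by omega)
    omega
  · have h1 : 4 ^ l ≤ 4 ^ i := Nat.pow_le_pow_right (by norm_num) hl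
    have h2 : 4 ^ i < 4 ^ j := Nat.pow_lt_pow_right (by norm_num) hij
    omega

/-- Forcing divisibility by the sums attached to good indices. -/
lemma exists_pairs (hCl : ClusterStatement) (C : ℕ) (hC : 2 ≤ C) {k P : ℕ} (hP : 0 < P)
    {h : Fin k → ℕ} (hh : ∀ i, h i = 2 * P * 4 ^ (i : ℕ)) (A : Finset (Fin k × Fin k))
    (hA : ∀ ij ∈ A, ij.1 < ij.2) (D : ℕ) :
    ∃ Q c : ℕ, 0 < Q ∧ (∀ p : ℕ, p.Prime → p ≤ D → ¬ p ∣ Q) ∧ (∀ i, Nat.Coprime (c + h i) Q) ∧
      ∀ ij ∈ A, ∃ n s, 1 ≤ n ∧ GoodIdx C n ∧ SS n = 2 * s ∧ s ∣ Q ∧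
        s ∣ c + P * (4 ^ (ij.1 : ℕ) + 4 ^ (ij.2 : ℕ)) := by
  induction A using Finset.induction_on with
  | empty =>
    refine ⟨1, 0, one_pos, fun p hp _ hd => ?_, fun i => by simp, fun _ h => absurd h (by simp)⟩
    exact hp.one_lt.ne' (Nat.dvd_one.mp hd)
  | insert ij A hij ih =>
    obtain ⟨Q0, c0, hQ0, hQD0, hc0, hf0⟩ := ih (fun x hx => hA x (Finset.mem_insert_of_mem hx))
    have hlt := hA ij (Finset.mem_insert_self _ _)
    obtain ⟨n, s, hn, hg, hSS, hs0, hsp⟩ := claimA hCl C (D + Q0 + 2 * P * 4 ^ k) hC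
    set μ : ℕ := P * (4 ^ (ij.1 : ℕ) + 4 ^ (ij.2 : ℕ)) with hμ
    have hc1μ : s ∣ (s - 1) * μ + μ := by
      have : (s - 1) * μ + μ = s * μ := by
        obtain ⟨c, hc⟩ := Nat.exists_eq_add_of_le (Nat.succ_le_of_lt hs0)
        rw [hc]
        simp only [Nat.succ_eq_add_one, zero_add, Nat.add_sub_cancel_left]
        ring
      rw [this]
      exact dvd_mul_right _ _
    have hk4 : ∀ l : Fin k, 4 ^ (l : ℕ) ≤ 4 ^ k := fun l =>
      Nat.pow_le_pow_right (by norm_num) l.2.le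
    have hc1 : ∀ l, Nat.Coprime ((s - 1) * μ + h l) s := by
      intro l
      rw [Nat.coprime_iff_gcd_eq_one]
      by_contra hne
      obtain ⟨r, hr, hrd⟩ := Nat.exists_prime_and_dvd hne
      have h1 : r ∣ (s - 1) * μ + h l := hrd.trans (Nat.gcd_dvd_left _ _)
      have h2 : r ∣ s := hrd.trans (Nat.gcd_dvd_right _ _)
      have h3 : r ∣ (s - 1) * μ + μ := h2.trans hc1μ
      have h4 : (s - 1) * μ + h l ≡ (s - 1) * μ + μ [MOD r] :=
        ((Nat.modEq_zero_iff_dvd).mpr h1).trans ((Nat.modEq_zero_iff_dvd).mpr h3).symm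
      have h5 : h l ≡ μ [MOD r] := Nat.ModEq.add_left_cancel' _ h4
      have h6 : D + Q0 + 2 * P * 4 ^ k < r := by
        by_contra h7
        exact hsp r hr (not_lt.mp h7) h2
      have h7 : h l ≤ 2 * P * 4 ^ k := by
        rw [hh]; exact Nat.mul_le_mul_left _ (hk4 l)
      have h8 : μ ≤ 2 * P * 4 ^ k := by
        rw [hμ]
        calc P * (4 ^ (ij.1 : ℕ) + 4 ^ (ij.2 : ℕ)) ≤ P * (4 ^ k + 4 ^ k) :=
              Nat.mul_le_mul_left _ (add_le_add (hk4 _) (hk4 _))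
          _ = _ := by ring
      have h9 := Nat.ModEq.eq_of_lt_of_lt h5 (by omega) (by omega)
      rw [hh, hμ] at h9
      have h10 : P * (2 * 4 ^ (l : ℕ)) = P * (4 ^ (ij.1 : ℕ) + 4 ^ (ij.2 : ℕ)) := by
        rw [← h9]; ring
      exact four_pow_ne hlt (Nat.eq_of_mul_eq_mul_left hP h10)
    have hcop : Nat.Coprime Q0 s := by
      rw [Nat.coprime_iff_gcd_eq_one]
      by_contra hne
      obtain ⟨r, hr, hrd⟩ := Nat.exists_prime_and_dvd hne
      have h1 : r ∣ Q0 := hrd.trans (Nat.gcd_dvd_left _ _)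
      have h2 : r ∣ s := hrd.trans (Nat.gcd_dvd_right _ _)
      have h3 := Nat.le_of_dvd hQ0 h1
      exact hsp r hr (by omega) h2
    obtain ⟨c, hcc0, hcc1, hc⟩ := combine hcop hc0 hc1
    refine ⟨Q0 * s, c, Nat.mul_pos hQ0 hs0, fun p hp hpD hd => ?_, hc, fun x hx => ?_⟩
    · rcases (hp.dvd_mul).mp hd with h1 | h1
      · exact hQD0 p hp hpD h1
      · exact hsp p hp (by omega) h1
    · rw [Finset.mem_insert] at hx
      rcases hx with rfl | hx
      · refine ⟨n, s, hn, hg, hSS, dvd_mul_left _ _, ?_⟩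
        have h5 : c + μ ≡ (s - 1) * μ + μ [MOD s] := hcc1.add_right _
        exact (Nat.modEq_zero_iff_dvd).mp (h5.trans ((Nat.modEq_zero_iff_dvd).mpr hc1μ))
      · obtain ⟨n', s', h1, h2, h3, h4, h5⟩ := hf0 x hx
        refine ⟨n', s', h1, h2, h3, dvd_mul_of_dvd_left h4 _, ?_⟩
        have h6 : c ≡ c0 [MOD s'] := hcc0.of_dvd h4
        exact (Nat.modEq_zero_iff_dvd).mp ((h6.add_right _).trans ((Nat.modEq_zero_iff_dvd).mpr h5))

theorem app (hMT : MTStatement) : AppStatement := by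
  classical
  have hCl := cluster_of_MT hMT
  intro C0
  set C : ℕ := max C0 2 with hCdef
  have hC : 2 ≤ C := le_max_right _ _
  obtain ⟨k, hk⟩ := hCl 2
  set P : ℕ := k.factorial with hP
  have hP0 : 0 < P := Nat.factorial_pos _
  set h : Fin k → ℕ := fun i => 2 * P * 4 ^ (i : ℕ) with hh
  have hmono : StrictMono h := by
    intro i j hij
    rw [hh]
    simp only
    exact Nat.mul_lt_mul_of_pos_left (Nat.pow_lt_pow_right (by norm_num) hij) (by positivity)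
  obtain ⟨D, hD⟩ := hk h hmono.injective P hP0
    (fun p hp hpk => (hp.dvd_factorial).mpr hpk)
    (fun i => by rw [hh]; exact dvd_mul_of_dvd_left (dvd_mul_left _ _) _)
  set H : ℕ := 2 * P * 4 ^ k with hHdef
  have hH : ∀ i, h i ≤ H := fun i =>
    Nat.mul_le_mul_left _ (Nat.pow_le_pow_right (by norm_num) i.2.le)
  obtain ⟨Q1, c1, hQ1, hQD1, hcop1, hforce⟩ := exists_force h
    (((range (H + 1)).filter (fun t => ∀ i, t ≠ h i)).image (fun t => (1, t))) (fun jb hjb => by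
      rw [Finset.mem_image] at hjb
      obtain ⟨t, ht, rfl⟩ := hjb
      rw [Finset.mem_filter] at ht
      exact ⟨le_rfl, fun i => by simp only [one_mul]; exact ht.2 i⟩) D
  obtain ⟨Q2, c2, hQ2, hQD2, hcop2, hpairs⟩ := exists_pairs hCl C hC hP0 (h := h)
    (fun i => rfl) (univ.filter (fun ij : Fin k × Fin k => ij.1 < ij.2))
    (fun ij hij => (Finset.mem_filter.mp hij).2) (D + Q1)
  have hQ12 : Nat.Coprime Q1 Q2 := by
    rw [Nat.coprime_iff_gcd_eq_one]
    by_contra hne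
    obtain ⟨r, hr, hrd⟩ := Nat.exists_prime_and_dvd hne
    have h1 : r ∣ Q1 := hrd.trans (Nat.gcd_dvd_left _ _)
    have h2 : r ∣ Q2 := hrd.trans (Nat.gcd_dvd_right _ _)
    have h3 := Nat.le_of_dvd hQ1 h1
    exact hQD2 r hr (by omega) h2
  obtain ⟨c, hcc1, hcc2, hc⟩ := combine hQ12 hcop1 hcop2
  obtain ⟨m, hm1, -, hm3, hm4⟩ := hD (Q1 * Q2) c (Nat.mul_pos hQ1 hQ2) (fun p hp hpD hd => by
    rcases (hp.dvd_mul).mp hd with h1 | h1
    · exact hQD1 p hp hpD h1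
    · exact hQD2 p hp (by omega) h1) hc (Q1 * Q2 + 2)
  have hmc1 : m ≡ c1 [MOD Q1] := (hm3.of_dvd (dvd_mul_right _ _)).trans hcc1
  have hmc2 : m ≡ c2 [MOD Q2] := (hm3.of_dvd (dvd_mul_left _ _)).trans hcc2
  have hQ1m : Q1 < m := by
    have : Q1 ≤ Q1 * Q2 := Nat.le_mul_of_pos_right _ hQ2
    omega
  have hQ2m : Q2 < m := by
    have : Q2 ≤ Q1 * Q2 := Nat.le_mul_of_pos_left _ hQ1
    omega
  have hcomp : ∀ t, t ≤ H → (∀ i, t ≠ h i) → ¬ (m + t).Prime := by
    intro t ht hne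
    obtain ⟨r, hr, hrQ, hrc⟩ := hforce (1, t) (by
      rw [Finset.mem_image]
      exact ⟨t, Finset.mem_filter.mpr ⟨Finset.mem_range.mpr (by omega), hne⟩, rfl⟩)
    have := not_prime_of_force (m := m) (j := 1) (b := t) hr hQ1 hrQ hrc le_rfl hQ1m hmc1
    rwa [one_mul] at this
  set I : Finset (Fin k) := univ.filter (fun i => (m + h i).Prime) with hI
  have hmemI : ∀ i, i ∈ I ↔ (m + h i).Prime := fun i => by rw [hI, Finset.mem_filter]; simp
  have hIne : I.Nonempty := by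
    rw [← Finset.card_pos]; omega
  have hI2 : (I.erase (I.min' hIne)).Nonempty := by
    rw [← Finset.card_pos, Finset.card_erase_of_mem (Finset.min'_mem _ _)]; omega
  obtain ⟨j0, hj0⟩ := hI2
  rw [Finset.mem_erase] at hj0
  have hlt0 : I.min' hIne < j0 := lt_of_le_of_ne (Finset.min'_le _ _ hj0.2) (Ne.symm hj0.1)
  obtain ⟨j, hj1, hj2, hj3⟩ := exists_next (I := I) (i := I.min' hIne) ⟨j0, hj0.2, hlt0⟩
  obtain ⟨kk, hkk, hpk, hpk1⟩ := cluster_consecutive hmono hH hmemI hcomp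
    (Finset.min'_mem _ hIne) hj1 hj2 hj3
  obtain ⟨n, s, hn, hg, hSS, hsQ, hsc⟩ := hpairs (I.min' hIne, j)
    (Finset.mem_filter.mpr ⟨Finset.mem_univ _, hj2⟩)
  have hSSk : SS kk = 2 * (m + P * (4 ^ (I.min' hIne : ℕ) + 4 ^ (j : ℕ))) := by
    unfold SS
    rw [hpk, hpk1, hh]
    ring
  have hdvd : SS n ∣ SS kk := by
    rw [hSS, hSSk]
    refine mul_dvd_mul_left 2 ?_
    have h6 : m ≡ c2 [MOD s] := hmc2.of_dvd hsQ
    exact (Nat.modEq_zero_iff_dvd).mp ((h6.add_right _).trans ((Nat.modEq_zero_iff_dvd).mpr hsc))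
  have hlt : n < kk := by
    by_contra hcon
    have h1 := SS_le hkk (not_lt.mp hcon)
    have h2 := Nat.le_of_dvd hQ2 hsQ
    rw [hSS, hSSk] at h1
    omega
  have hex : ∃ a, n < a ∧ SS n ∣ SS a := ⟨kk, hlt, hdvd⟩
  refine ⟨n, hn, Nat.find hex, ⟨Nat.find_spec hex, fun b hb => Nat.find_min' hex hb⟩, ?_⟩
  obtain ⟨hna, q, hq⟩ := Nat.find_spec hex
  set a := Nat.find hex with ha
  have hSSlt : SS n < SS a := SS_lt hn hna
  have hSn : 0 < SS n := by
    unfold SS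
    have := (pr_prime n).pos
    omega
  have hq2 : 2 ≤ q := by
    by_contra hcon
    have : q ≤ 1 := by omega
    have h1 : SS n * q ≤ SS n * 1 := Nat.mul_le_mul_left _ this
    omega
  have hqC : C < q := by
    by_contra hcon
    exact hg a hna q hq2 (not_lt.mp hcon) (by rw [hq, mul_comm])
  have hC0 : C0 < q := lt_of_le_of_lt (le_max_left _ _) hqC
  rw [hq, mul_comm]
  exact Nat.mul_lt_mul_of_pos_left hC0 hSn

end Pool.Agent.Helper11.MT
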