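import Mathlib
import Pool.Agent.Helper11.MT.Zeta
import Pool.Agent.Helper11.MT.EQDefs

/-!
Characters of bounded modulus (P4).
-/

open Finset Filter Topology

namespace Pool.Agent.Helper11.MT

open ArithmeticFunction (vonMangoldt)

/-- Characters of bounded modulus. -/
theorem boundedChars : BoundedStatement := by
  intro W hW D
  set F : Finset (Σ T : Finset ℕ, CF W T) := (PR W D).powerset.sigma (fun _ => univ) with hF
  have hsub : ∀ J : ℕ, (FX W (RJ J)).filter (fun x => x.1.Nonempty ∧ ∏ p ∈ x.1, p ≤ D) ⊆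
      F.filter (fun x => x.1.Nonempty) := by
    intro J x hx
    rw [Finset.mem_filter] at hx ⊢
    refine ⟨?_, hx.2.1⟩
    rw [hF, Finset.mem_sigma, Finset.mem_powerset]
    refine ⟨fun p hp => ?_, Finset.mem_univ _⟩
    have h1 := mem_FX.mp hx.1
    have hpr := prime_of_TS h1
    rw [mem_PR]
    refine ⟨?_, hpr p hp, not_dvd_of_TS h1 p hp⟩
    refine le_trans ?_ hx.2.2
    refine Nat.le_of_dvd (Finset.prod_pos fun q hq => (hpr q hq).pos) (Finset.dvd_prod_of_mem _ hp)
  have hterm : ∀ x ∈ F.filter (fun x => x.1.Nonempty),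
      Tendsto (fun J : ℕ => ‖MM (xs x) J vonMangoldt‖) atTop (𝓝 0) := by
    intro x hx
    rw [Finset.mem_filter, hF, Finset.mem_sigma, Finset.mem_powerset] at hx
    obtain ⟨⟨h1, -⟩, h2⟩ := hx
    have hT : ∀ p ∈ x.1, p.Prime := fun p hp => (mem_PR.mp (h1 hp)).2.1
    have hTW : ∀ p ∈ x.1, ¬ p ∣ W := fun p hp => (mem_PR.mp (h1 hp)).2.2
    obtain ⟨ψ, h3, h4, -⟩ := exists_xi_char hT hTW x.2
    have : NeZero (W * ∏ p ∈ x.1, p) := ⟨by
      refine mul_ne_zero (NeZero.ne W) (Finset.prod_ne_zero_iff.mpr fun p hp => (hT p hp).ne_zero)⟩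
    have h5 := tendsto_twist_zero (h4 (Or.inl h2))
    have h6 := h5.norm
    rw [norm_zero] at h6
    refine h6.congr fun J => ?_
    unfold MM
    congr 1
    refine tsum_congr fun n => ?_
    rw [h3]
    unfold xs
    ring
  have hsum : Tendsto (fun J : ℕ => ∑ x ∈ F.filter (fun x => x.1.Nonempty),
      ‖MM (xs x) J vonMangoldt‖) atTop (𝓝 0) := by
    have := tendsto_finsetSum (F.filter (fun x => x.1.Nonempty)) hterm
    simpa using this
  refine squeeze_zero (fun J => Finset.sum_nonneg fun _ _ => norm_nonneg _) (fun J => ?_) hsum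
  exact Finset.sum_le_sum_of_subset_of_nonneg (hsub J) (fun _ _ _ => norm_nonneg _)

end Pool.Agent.Helper11.MT
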