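import Mathlib
import Pool.Agent.Helper11.MT.EQDefs
import Pool.Agent.Helper11.MT.LBound2
import Pool.Agent.Helper11.MT.Zeta
import Pool.Agent.Helper11.MT.LargeSieve

/-!
Characters of bounded modulus (P4), complex characters of small modulus (P3), characters of large
modulus (P5).
-/

open Finset Filter Topology

namespace Pool.Agent.Helper11.MT

open ArithmeticFunction (vonMangoldt)

lemma MM_eq_of_char {W N : ℕ} {x : Σ T : Finset ℕ, CF W T} {ψ : DirichletCharacter ℂ N}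
    (h : ∀ n : ℕ, ψ n = xi x.2 n) (J : ℕ) :
    MM (xs x) J vonMangoldt = ∑' n : ℕ, (ψ n * (vonMangoldt n : ℂ)) * (w J n : ℂ) := by
  unfold MM
  refine tsum_congr fun n => ?_
  rw [h n]
  unfold xs
  ring

/-- The fixed finite family. -/
noncomputable def BF (W D : ℕ) : Finset (Σ T : Finset ℕ, CF W T) :=
  ((range (D + 1)).powerset.filter (fun T => T.Nonempty ∧ ∀ p ∈ T, p.Prime ∧ ¬ p ∣ W)).sigma
    (fun _ => univ)

lemma subset_BF (W R D : ℕ) :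
    (FX W R).filter (fun x => x.1.Nonempty ∧ ∏ p ∈ x.1, p ≤ D) ⊆ BF W D := by
  intro x hx
  rw [Finset.mem_filter] at hx
  obtain ⟨h1, h2, h3⟩ := hx
  have hT := prime_of_TS (mem_FX.mp h1)
  have hTW := not_dvd_of_TS (mem_FX.mp h1)
  unfold BF
  rw [Finset.mem_sigma, Finset.mem_filter, Finset.mem_powerset]
  refine ⟨⟨fun p hp => ?_, h2, fun p hp => ⟨hT p hp, hTW p hp⟩⟩, Finset.mem_univ _⟩
  rw [Finset.mem_range]
  have h4 : p ≤ ∏ q ∈ x.1, q :=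
    Nat.le_of_dvd (Finset.prod_pos fun q hq => (hT q hq).pos) (Finset.dvd_prod_of_mem _ hp)
  omega

/-- (P4). -/
theorem bounded : BoundedStatement := by
  intro W _ D
  have h1 : Tendsto (fun J : ℕ => ∑ x ∈ BF W D, ‖MM (xs x) J vonMangoldt‖) atTop
      (𝓝 (∑ x ∈ BF W D, (0 : ℝ))) := by
    refine tendsto_finsetSum _ (fun x hx => ?_)
    unfold BF at hx
    rw [Finset.mem_sigma, Finset.mem_filter] at hx
    obtain ⟨⟨-, h2, h3⟩, -⟩ := hx
    obtain ⟨ψ, h4, h5, -⟩ := exists_xi_char (fun p hp => (h3 p hp).1) (fun p hp => (h3 p hp).2) x.2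
    have : NeZero (W * ∏ p ∈ x.1, p) := ⟨by
      refine mul_ne_zero (NeZero.ne W) (Finset.prod_ne_zero_iff.mpr fun p hp => ?_)
      exact (h3 p hp).1.ne_zero⟩
    have h6 := (tendsto_twist_zero (h5 (Or.inl h2))).norm
    rw [norm_zero] at h6
    refine h6.congr fun J => ?_
    rw [MM_eq_of_char h4]
  rw [Finset.sum_const_zero] at h1
  refine squeeze_zero (fun J => Finset.sum_nonneg fun x _ => norm_nonneg _) (fun J => ?_) h1
  exact Finset.sum_le_sum_of_subset_of_nonneg (subset_BF W (RJ J) D) (fun _ _ _ => norm_nonneg _)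

/-! ### Complex characters -/

/-- The integer part of the 18th root. -/
def lJ (J : ℕ) : ℕ := Nat.findGreatest (fun l => l ^ 18 ≤ J) J

lemma lJ_pow_le (J : ℕ) : (lJ J) ^ 18 ≤ J :=
  Nat.findGreatest_spec (P := fun l => l ^ 18 ≤ J) (Nat.zero_le J) (by simp)

lemma lt_lJ_pow (J : ℕ) : J < (lJ J + 1) ^ 18 := by
  by_contra h
  push Not at h
  have h1 : lJ J + 1 ≤ J := by
    refine le_trans ?_ h
    exact Nat.le_self_pow (by norm_num) _
  have h2 : lJ J + 1 ≤ lJ J := Nat.le_findGreatest h1 h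
  omega

lemma tendsto_lJ : Tendsto lJ atTop atTop := by
  rw [tendsto_atTop]
  intro M
  filter_upwards [eventually_ge_atTop (M ^ 18)] with J hJ
  exact Nat.le_findGreatest ((Nat.le_self_pow (by norm_num) M).trans hJ) hJ

lemma card_small_le (W R K : ℕ) [NeZero W] :
    #((FX W R).filter (fun x => ∏ p ∈ x.1, p ≤ K)) ≤ W * K ^ 2 := by
  have h1 : (FX W R).filter (fun x => ∏ p ∈ x.1, p ≤ K) ⊆
      ((TS W R).filter (fun T => ∏ p ∈ T, p ≤ K)).sigma (fun _ => univ) := by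
    intro x hx
    rw [Finset.mem_filter] at hx
    rw [Finset.mem_sigma, Finset.mem_filter]
    exact ⟨⟨mem_FX.mp hx.1, hx.2⟩, Finset.mem_univ _⟩
  refine (Finset.card_le_card h1).trans ?_
  rw [Finset.card_sigma]
  have h2 : #((TS W R).filter (fun T => ∏ p ∈ T, p ≤ K)) ≤ K := by
    have h3 : #((TS W R).filter (fun T => ∏ p ∈ T, p ≤ K)) ≤ #(Icc 1 K) := by
      refine Finset.card_le_card_of_injOn (fun T => ∏ p ∈ T, p) (fun T hT => ?_) ?_
      · simp only [Finset.coe_filter, Set.mem_ofPred_eq] at hT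
        simp only [Finset.coe_Icc, Set.mem_Icc]
        exact ⟨Finset.one_le_prod' fun p hp => (prime_of_TS hT.1 p hp).one_le, hT.2⟩
      · intro T hT T' hT' h
        simp only [Finset.coe_filter, Set.mem_ofPred_eq] at hT hT'
        exact prod_inj (prime_of_TS hT.1) (prime_of_TS hT'.1) h
    simpa using h3
  calc ∑ T ∈ (TS W R).filter (fun T => ∏ p ∈ T, p ≤ K), #(univ : Finset (CF W T)) ≤
      ∑ T ∈ (TS W R).filter (fun T => ∏ p ∈ T, p ≤ K), W * K := by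
        refine Finset.sum_le_sum fun T hT => ?_
        rw [Finset.mem_filter] at hT
        rw [Finset.card_univ]
        exact (card_CF_le (prime_of_TS hT.1)).trans (Nat.mul_le_mul_left _ hT.2)
    _ = #((TS W R).filter (fun T => ∏ p ∈ T, p ≤ K)) * (W * K) := by
        rw [Finset.sum_const, smul_eq_mul]
    _ ≤ K * (W * K) := Nat.mul_le_mul_right _ h2
    _ = W * K ^ 2 := by ring

lemma pow_bound {c : ℝ} (hc : 0 < c) {l J : ℕ} (hl : 1 ≤ l) (hJ : l ^ 18 ≤ J) :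
    (1 / (1 + c / (l : ℝ) ^ 9)) ^ J ≤ (1 / (1 + c)) ^ l := by
  have hl' : (1 : ℝ) ≤ l := by exact_mod_cast hl
  have h0 : (0 : ℝ) < 1 + c / (l : ℝ) ^ 9 := by positivity
  have h1 : 1 + c ≤ (1 + c / (l : ℝ) ^ 9) ^ (l ^ 9) := by
    have h2 := one_add_mul_le_pow (a := c / (l : ℝ) ^ 9)
      (by have : 0 ≤ c / (l : ℝ) ^ 9 := by positivity
          linarith) (l ^ 9)
    have h3 : ((l ^ 9 : ℕ) : ℝ) * (c / (l : ℝ) ^ 9) = c := by
      push_cast
      field_simp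
    rw [h3] at h2
    exact h2
  have h4 : (1 + c) ^ l ≤ (1 + c / (l : ℝ) ^ 9) ^ J := by
    calc (1 + c) ^ l ≤ (1 + c) ^ (l ^ 9) :=
          pow_le_pow_right₀ (by linarith) (Nat.le_self_pow (by norm_num) l)
      _ ≤ ((1 + c / (l : ℝ) ^ 9) ^ (l ^ 9)) ^ (l ^ 9) := pow_le_pow_left₀ (by positivity) h1 _
      _ = (1 + c / (l : ℝ) ^ 9) ^ (l ^ 18) := by
          rw [← pow_mul]
          congr 1
          ring
      _ ≤ (1 + c / (l : ℝ) ^ 9) ^ J := by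
          refine pow_le_pow_right₀ ?_ hJ
          have : 0 ≤ c / (l : ℝ) ^ 9 := by positivity
          linarith
  rw [div_pow, div_pow, one_pow, one_pow]
  exact one_div_le_one_div_of_le (by positivity) h4

lemma alg_aux (A c r L t : ℝ) (hc : c ≠ 0) (hr : r ≠ 0) :
    (A * L ^ 180) * (L ^ 9 / c * t) = A / (c * r) * (L ^ 189 * (t * r)) := by
  have e1 : L ^ 189 = L ^ 180 * L ^ 9 := by rw [← pow_add]
  rw [e1]
  generalize L ^ 180 = X
  generalize L ^ 9 = Y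
  field_simp

/-- (P3). -/
theorem complex : ComplexStatement := by
  intro W _
  obtain ⟨c, hc, hbound⟩ := exists_complex_char_bound
  set r : ℝ := 1 / (1 + c) with hr
  have hr0 : 0 < r := by rw [hr]; positivity
  have hr1 : r < 1 := by
    rw [hr, div_lt_one (by positivity)]
    linarith
  have hW : (0 : ℝ) < W := by exact_mod_cast NeZero.pos W
  -- the majorant
  have hG : Tendsto (fun l : ℕ => W / (c * r) * (((l + 1 : ℕ) : ℝ) ^ 189 * r ^ (l + 1))) atTop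
      (𝓝 0) := by
    have h1 := tendsto_pow_const_mul_const_pow_of_abs_lt_one 189 (r := r)
      (by rw [abs_of_pos hr0]; exact hr1)
    have h2 := (h1.comp (tendsto_add_atTop_nat 1)).const_mul (W / (c * r))
    rw [mul_zero] at h2
    exact h2
  have hE : ∀ᶠ l : ℕ in atTop, (W : ℝ) * ((l + 1 : ℕ) : ℝ) ^ 90 ≤ (4 / 3) ^ l := by
    have h1 := tendsto_pow_const_mul_const_pow_of_abs_lt_one 90 (r := (3 / 4 : ℝ))
      (by rw [abs_of_pos (by norm_num)]; norm_num)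
    have h2 := (h1.comp (tendsto_add_atTop_nat 1)).const_mul (W : ℝ)
    rw [mul_zero] at h2
    have h3 : ∀ᶠ l : ℕ in atTop, (W : ℝ) * (((l + 1 : ℕ) : ℝ) ^ 90 * (3 / 4) ^ (l + 1)) < 3 / 4 :=
      h2.eventually (gt_mem_nhds (by norm_num))
    filter_upwards [h3] with l hl
    have h4 : (W : ℝ) * ((l + 1 : ℕ) : ℝ) ^ 90 * (3 / 4) ^ l < 1 := by
      have h5 : (W : ℝ) * (((l + 1 : ℕ) : ℝ) ^ 90 * (3 / 4) ^ (l + 1)) =
          ((W : ℝ) * ((l + 1 : ℕ) : ℝ) ^ 90 * (3 / 4) ^ l) * (3 / 4) := by ring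
      rw [h5] at hl
      linarith
    have h6 : ((4 / 3 : ℝ)) ^ l * (3 / 4) ^ l = 1 := by
      rw [← mul_pow]
      norm_num
    have h7 : (0 : ℝ) < (3 / 4) ^ l := by positivity
    rw [← h6] at h4
    exact (lt_of_mul_lt_mul_right h4 h7.le).le
  refine squeeze_zero' (Eventually.of_forall fun J => Finset.sum_nonneg fun x _ => norm_nonneg _)
    ?_ (hG.comp tendsto_lJ)
  filter_upwards [tendsto_lJ.eventually hE, tendsto_lJ.eventually (eventually_ge_atTop 8)]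
    with J hJ1 hJ2
  simp only [Function.comp_apply]
  set l := lJ J with hl
  have hl1 : 1 ≤ l := le_trans (by norm_num) hJ2
  have hlpos : (0 : ℝ) < l := by exact_mod_cast hl1
  have hJl : J ≤ (l + 1) ^ 18 := (lt_lJ_pow J).le
  have hterm : ∀ x ∈ (FX W (RJ J)).filter
      (fun x => x.1.Nonempty ∧ ¬ IsRealCF x.2 ∧ ∏ p ∈ x.1, p ≤ J ^ 5),
      ‖MM (xs x) J vonMangoldt‖ ≤ (l : ℝ) ^ 9 / c * r ^ l := by
    intro x hx
    rw [Finset.mem_filter] at hx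
    obtain ⟨h1, h2, h3, h4⟩ := hx
    have hT := prime_of_TS (mem_FX.mp h1)
    have hTW := not_dvd_of_TS (mem_FX.mp h1)
    obtain ⟨ψ, h5, -, h6⟩ := exists_xi_char hT hTW x.2
    have : NeZero (W * ∏ p ∈ x.1, p) := ⟨by
      refine mul_ne_zero (NeZero.ne W) (Finset.prod_ne_zero_iff.mpr fun p hp => ?_)
      exact (hT p hp).ne_zero⟩
    have hN : ((W * ∏ p ∈ x.1, p : ℕ) : ℝ) ≤ (4 / 3) ^ l := by
      refine le_trans ?_ hJ1
      have h7 : W * ∏ p ∈ x.1, p ≤ W * (l + 1) ^ 90 := by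
        refine Nat.mul_le_mul_left W (h4.trans ?_)
        calc J ^ 5 ≤ ((l + 1) ^ 18) ^ 5 := Nat.pow_le_pow_left hJl 5
          _ = (l + 1) ^ 90 := by rw [← pow_mul]
      exact_mod_cast h7
    have h8 := hbound (W * ∏ p ∈ x.1, p) ψ (h6 h3) l hJ2 hN J
    rw [MM_eq_of_char h5]
    refine h8.trans ?_
    refine mul_le_mul_of_nonneg_left ?_ (by positivity)
    exact pow_bound hc hl1 (lJ_pow_le J)
  refine (Finset.sum_le_sum hterm).trans ?_
  rw [Finset.sum_const, nsmul_eq_mul]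
  have hcard : ((#((FX W (RJ J)).filter
      (fun x => x.1.Nonempty ∧ ¬ IsRealCF x.2 ∧ ∏ p ∈ x.1, p ≤ J ^ 5)) : ℕ) : ℝ) ≤
      W * (((l + 1 : ℕ) : ℝ) ^ 180) := by
    have h1 : #((FX W (RJ J)).filter
        (fun x => x.1.Nonempty ∧ ¬ IsRealCF x.2 ∧ ∏ p ∈ x.1, p ≤ J ^ 5)) ≤
        W * (l + 1) ^ 180 := by
      calc _ ≤ #((FX W (RJ J)).filter (fun x => ∏ p ∈ x.1, p ≤ J ^ 5)) := by
            refine Finset.card_le_card fun x hx => ?_
            rw [Finset.mem_filter] at hx ⊢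
            exact ⟨hx.1, hx.2.2.2⟩
        _ ≤ W * (J ^ 5) ^ 2 := card_small_le W (RJ J) (J ^ 5)
        _ ≤ W * (l + 1) ^ 180 := by
            refine Nat.mul_le_mul_left W ?_
            calc (J ^ 5) ^ 2 = J ^ 10 := by rw [← pow_mul]
              _ ≤ ((l + 1) ^ 18) ^ 10 := Nat.pow_le_pow_left hJl 10
              _ = (l + 1) ^ 180 := by rw [← pow_mul]
    exact_mod_cast h1
  obtain ⟨A, hA⟩ : ∃ A : ℝ, A = W * (((l + 1 : ℕ) : ℝ) ^ 180) := ⟨_, rfl⟩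
  have hA0 : 0 ≤ A := by
    rw [hA]
    exact mul_nonneg hW.le (pow_nonneg (Nat.cast_nonneg _) _)
  rw [← hA] at hcard
  have hL : (l : ℝ) ≤ ((l + 1 : ℕ) : ℝ) := by exact_mod_cast Nat.le_succ l
  have h9 : (l : ℝ) ^ 9 / c ≤ ((l + 1 : ℕ) : ℝ) ^ 9 / c :=
    div_le_div_of_nonneg_right (pow_le_pow_left₀ hlpos.le hL 9) hc.le
  have hr2 : 0 ≤ r ^ l := pow_nonneg hr0.le l
  have h10 : 0 ≤ (l : ℝ) ^ 9 / c * r ^ l :=
    mul_nonneg (div_nonneg (pow_nonneg hlpos.le 9) hc.le) hr2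
  refine (mul_le_mul_of_nonneg_right hcard h10).trans ?_
  refine (mul_le_mul_of_nonneg_left (mul_le_mul_of_nonneg_right h9 hr2) hA0).trans ?_
  rw [pow_succ r l, hA]
  exact (alg_aux (W : ℝ) c r ((l + 1 : ℕ) : ℝ) (r ^ l) hc.ne' hr0.ne').le

/-! ### Characters of large modulus -/

lemma RJ_le (J : ℕ) : (RJ J : ℝ) ≤ Real.exp ((J : ℝ) / 200) :=
  Nat.floor_le (Real.exp_pos _).le

lemma one_le_RJ (J : ℕ) : 1 ≤ RJ J := by
  unfold RJ
  rw [Nat.one_le_floor_iff]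
  exact Real.one_le_exp (by positivity)

lemma RJ_pow_le (J k : ℕ) : (RJ J : ℝ) ^ k ≤ (Real.exp ((k : ℝ) / 200)) ^ J := by
  calc (RJ J : ℝ) ^ k ≤ (Real.exp ((J : ℝ) / 200)) ^ k :=
        pow_le_pow_left₀ (Nat.cast_nonneg _) (RJ_le J) k
    _ = (Real.exp ((k : ℝ) / 200)) ^ J := by
        rw [← Real.exp_nat_mul, ← Real.exp_nat_mul]
        congr 1
        ring

lemma exp_le_inv {x : ℝ} (hx : x < 1) : Real.exp x ≤ 1 / (1 - x) := by
  have h1 : 1 - x ≤ Real.exp (-x) := by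
    have := Real.add_one_le_exp (-x)
    linarith
  rw [le_div_iff₀ (by linarith)]
  calc Real.exp x * (1 - x) ≤ Real.exp x * Real.exp (-x) :=
        mul_le_mul_of_nonneg_left h1 (Real.exp_pos _).le
    _ = 1 := by rw [← Real.exp_add, add_neg_cancel, Real.exp_zero]

lemma tiny_bound (J : ℕ) (W : ℝ) (hW : 0 ≤ W) :
    W ^ 2 * (RJ J : ℝ) ^ 6 * (8 * W ^ 2 * (RJ J : ℝ) ^ 8) ^ 4 * ((J + 1) * (2 / 3) ^ J) ≤
      4096 * W ^ 10 * (((J : ℝ) + 1) * (5 / 6) ^ J) := by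
  have h1 : (RJ J : ℝ) ^ 38 ≤ (5 / 4) ^ J := by
    refine (RJ_pow_le J 38).trans ?_
    refine pow_le_pow_left₀ (Real.exp_pos _).le ?_ J
    refine (exp_le_inv (by norm_num)).trans ?_
    norm_num
  have h2 : W ^ 2 * (RJ J : ℝ) ^ 6 * (8 * W ^ 2 * (RJ J : ℝ) ^ 8) ^ 4 * ((J + 1) * (2 / 3) ^ J) =
      4096 * W ^ 10 * (((J : ℝ) + 1) * ((RJ J : ℝ) ^ 38 * (2 / 3) ^ J)) := by ring
  rw [h2]
  have h3 : (RJ J : ℝ) ^ 38 * (2 / 3) ^ J ≤ (5 / 6) ^ J := by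
    calc (RJ J : ℝ) ^ 38 * (2 / 3) ^ J ≤ (5 / 4) ^ J * (2 / 3) ^ J :=
          mul_le_mul_of_nonneg_right h1 (by positivity)
      _ = (5 / 6) ^ J := by
          rw [← mul_pow]
          norm_num
  have h4 : 0 ≤ 4096 * W ^ 10 := by positivity
  exact mul_le_mul_of_nonneg_left (mul_le_mul_of_nonneg_left h3 (by positivity)) h4

lemma weight_le {J m : ℕ} (hJ : 1 ≤ J) (hm : J ^ 5 < m) :
    (m : ℝ) ^ (-(3 / 4) : ℝ) ≤ (J : ℝ) ^ (-(15 / 4) : ℝ) := by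
  have hJ' : (0 : ℝ) < J := by exact_mod_cast hJ
  have h1 : ((J : ℝ) ^ 5) ≤ m := by exact_mod_cast hm.le
  calc (m : ℝ) ^ (-(3 / 4) : ℝ) ≤ ((J : ℝ) ^ 5) ^ (-(3 / 4) : ℝ) :=
        Real.rpow_le_rpow_of_nonpos (by positivity) h1 (by norm_num)
    _ = (J : ℝ) ^ (-(15 / 4) : ℝ) := by
        rw [← Real.rpow_natCast, ← Real.rpow_mul hJ'.le]
        congr 1
        norm_num

/-- (P5). -/
theorem large : LargeStatement := by
  intro W _
  obtain ⟨B, hB1, hB⟩ := exists_Omega_bound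
  obtain ⟨BL, hBL1, hBL⟩ := exists_Lambda_bound
  have hK := K32_nonneg
  have hW : (0 : ℝ) ≤ W := Nat.cast_nonneg W
  set C1 : ℝ := (8 * K32 + 1) * (4096 * (W : ℝ) ^ 10) with hC1
  set C2 : ℝ := (B + 1) * (BL * B ^ 4) with hC2
  have hC1' : 0 ≤ C1 := by rw [hC1]; positivity
  have hC2' : 0 ≤ C2 := by
    rw [hC2]
    have : 0 ≤ B := by linarith
    have : 0 ≤ BL := by linarith
    positivity
  have hlim : Tendsto (fun J : ℕ => C1 * ((((J + 1 : ℕ) : ℝ) ^ 1 * (5 / 6 : ℝ) ^ (J + 1)) * (6 / 5)) +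
      8 * C2 * (J : ℝ) ^ (-(3 / 4) : ℝ)) atTop (𝓝 (C1 * (0 * (6 / 5)) + 8 * C2 * 0)) := by
    refine Tendsto.add ?_ ?_
    · have h1 := tendsto_pow_const_mul_const_pow_of_abs_lt_one 1 (r := (5 / 6 : ℝ))
        (by rw [abs_of_pos (by norm_num)]; norm_num)
      exact ((h1.comp (tendsto_add_atTop_nat 1)).mul_const _).const_mul C1
    · refine Tendsto.const_mul _ ?_
      exact (tendsto_rpow_neg_atTop (by norm_num)).comp tendsto_natCast_atTop_atTop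
  rw [zero_mul, mul_zero, mul_zero, add_zero] at hlim
  refine squeeze_zero' (Eventually.of_forall fun J => Finset.sum_nonneg fun x _ => by positivity)
    ?_ hlim
  filter_upwards [eventually_ge_atTop 1] with J hJ
  have hJ' : (1 : ℝ) ≤ J := by exact_mod_cast hJ
  have hR := one_le_RJ J
  have hfam := sum_family_le (W := W) hR hB1 hB hBL1 hBL (U := 8 * W ^ 2 * (RJ J) ^ 8) le_rfl J
  have h1 : ∑ x ∈ (FX W (RJ J)).filter (fun x => x.1.Nonempty ∧ J ^ 5 < ∏ p ∈ x.1, p),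
      ((∏ p ∈ x.1, p : ℕ) : ℝ) ^ (-(3 / 4) : ℝ) * ‖MM (xs x) J vonMangoldt‖ ≤
      (J : ℝ) ^ (-(15 / 4) : ℝ) *
        ∑ x ∈ (FX W (RJ J)).filter (fun x => x.1.Nonempty), ‖MM (xs x) J vonMangoldt‖ := by
    rw [Finset.mul_sum]
    calc _ ≤ ∑ x ∈ (FX W (RJ J)).filter (fun x => x.1.Nonempty ∧ J ^ 5 < ∏ p ∈ x.1, p),
        (J : ℝ) ^ (-(15 / 4) : ℝ) * ‖MM (xs x) J vonMangoldt‖ := by
          refine Finset.sum_le_sum fun x hx => ?_
          rw [Finset.mem_filter] at hx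
          exact mul_le_mul_of_nonneg_right (weight_le hJ hx.2.2) (norm_nonneg _)
      _ ≤ _ := by
          refine Finset.sum_le_sum_of_subset_of_nonneg (fun x hx => ?_) (fun x _ _ => by positivity)
          rw [Finset.mem_filter] at hx ⊢
          exact ⟨hx.1, hx.2.1⟩
  have h2 : ∑ x ∈ (FX W (RJ J)).filter (fun x => x.1.Nonempty), ‖MM (xs x) J vonMangoldt‖ ≤
      C1 * (((J : ℝ) + 1) * (5 / 6) ^ J) + C2 * ((J : ℝ) + 1) ^ 3 := by
    refine hfam.trans ?_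
    refine add_le_add ?_ le_rfl
    have h3 := tiny_bound J W hW
    push_cast
    calc (8 * K32 + 1) * ((W : ℝ) ^ 2 * (RJ J : ℝ) ^ 6 * (8 * (W : ℝ) ^ 2 * (RJ J : ℝ) ^ 8) ^ 4 *
        (((J : ℝ) + 1) * (2 / 3) ^ J)) ≤
        (8 * K32 + 1) * (4096 * (W : ℝ) ^ 10 * (((J : ℝ) + 1) * (5 / 6) ^ J)) :=
          mul_le_mul_of_nonneg_left h3 (by positivity)
      _ = C1 * (((J : ℝ) + 1) * (5 / 6) ^ J) := by
          rw [hC1]
          ring
  have h3 : (J : ℝ) ^ (-(15 / 4) : ℝ) ≤ 1 := Real.rpow_le_one_of_one_le_of_nonpos hJ' (by norm_num)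
  have h4 : (J : ℝ) ^ (-(15 / 4) : ℝ) * ((J : ℝ) + 1) ^ 3 ≤ 8 * (J : ℝ) ^ (-(3 / 4) : ℝ) := by
    have h5 : ((J : ℝ) + 1) ^ 3 ≤ 8 * (J : ℝ) ^ 3 := by
      calc ((J : ℝ) + 1) ^ 3 ≤ (2 * J) ^ 3 := pow_le_pow_left₀ (by positivity) (by linarith) 3
        _ = 8 * (J : ℝ) ^ 3 := by ring
    calc (J : ℝ) ^ (-(15 / 4) : ℝ) * ((J : ℝ) + 1) ^ 3 ≤
        (J : ℝ) ^ (-(15 / 4) : ℝ) * (8 * (J : ℝ) ^ 3) :=
          mul_le_mul_of_nonneg_left h5 (by positivity)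
      _ = 8 * ((J : ℝ) ^ (-(15 / 4) : ℝ) * (J : ℝ) ^ (3 : ℝ)) := by
          rw [← Real.rpow_natCast (J : ℝ) 3]
          push_cast
          ring
      _ = 8 * (J : ℝ) ^ (-(3 / 4) : ℝ) := by
          rw [← Real.rpow_add (by linarith)]
          norm_num
  have h5 : 0 ≤ C1 * (((J : ℝ) + 1) * (5 / 6) ^ J) := by positivity
  have h6 : 0 ≤ (J : ℝ) ^ (-(15 / 4) : ℝ) := by positivity
  calc _ ≤ (J : ℝ) ^ (-(15 / 4) : ℝ) *
        (C1 * (((J : ℝ) + 1) * (5 / 6) ^ J) + C2 * ((J : ℝ) + 1) ^ 3) :=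
        h1.trans (mul_le_mul_of_nonneg_left h2 h6)
    _ = (J : ℝ) ^ (-(15 / 4) : ℝ) * (C1 * (((J : ℝ) + 1) * (5 / 6) ^ J)) +
        C2 * ((J : ℝ) ^ (-(15 / 4) : ℝ) * ((J : ℝ) + 1) ^ 3) := by ring
    _ ≤ 1 * (C1 * (((J : ℝ) + 1) * (5 / 6) ^ J)) + C2 * (8 * (J : ℝ) ^ (-(3 / 4) : ℝ)) :=
        add_le_add (mul_le_mul_of_nonneg_right h3 h5) (mul_le_mul_of_nonneg_left h4 hC2')
    _ = _ := by
        push_cast
        rw [pow_succ (5 / 6 : ℝ) J]
        ring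

end Pool.Agent.Helper11.MT
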