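import Mathlib
import Pool.Agent.Helper11.MT.EQDefs
import Pool.Agent.Helper11.MT.PrimePowers
import Pool.Agent.Helper11.MT.ComplexChars

/-!
Assembly of the equidistribution theorem (EQ).
-/

open Finset Filter Topology

namespace Pool.Agent.Helper11.MT

open ArithmeticFunction (vonMangoldt)

lemma tendsto_pp_total (W : ℕ) (C : ℝ) :
    Tendsto (fun J : ℕ => ((W * (RJ J) ^ 4 : ℕ) : ℝ) * (C * (4 / 5) ^ J + (RJ J : ℝ) ^ 2 / 2 ^ J))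
      atTop (𝓝 0) := by
  have h1 : ∀ J : ℕ, (RJ J : ℝ) ^ 4 * (4 / 5) ^ J ≤ (9 / 10) ^ J := by
    intro J
    have h2 : (RJ J : ℝ) ^ 4 ≤ (9 / 8) ^ J := by
      refine (RJ_pow_le J 4).trans (pow_le_pow_left₀ (Real.exp_pos _).le ?_ J)
      refine (exp_le_inv (by norm_num)).trans ?_
      norm_num
    calc (RJ J : ℝ) ^ 4 * (4 / 5) ^ J ≤ (9 / 8) ^ J * (4 / 5) ^ J :=
          mul_le_mul_of_nonneg_right h2 (by positivity)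
      _ = (9 / 10) ^ J := by
          rw [← mul_pow]
          norm_num
  have h3 : ∀ J : ℕ, (RJ J : ℝ) ^ 4 * ((RJ J : ℝ) ^ 2 / 2 ^ J) ≤ (9 / 10) ^ J := by
    intro J
    have h2 : (RJ J : ℝ) ^ 6 ≤ (9 / 5) ^ J := by
      refine (RJ_pow_le J 6).trans (pow_le_pow_left₀ (Real.exp_pos _).le ?_ J)
      refine (exp_le_inv (by norm_num)).trans ?_
      norm_num
    calc (RJ J : ℝ) ^ 4 * ((RJ J : ℝ) ^ 2 / 2 ^ J) = (RJ J : ℝ) ^ 6 * (1 / 2) ^ J := by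
          rw [one_div, inv_pow]
          ring
      _ ≤ (9 / 5) ^ J * (1 / 2) ^ J := mul_le_mul_of_nonneg_right h2 (by positivity)
      _ = (9 / 10) ^ J := by
          rw [← mul_pow]
          norm_num
  have hg : Tendsto (fun J : ℕ => (9 / 10 : ℝ) ^ J) atTop (𝓝 0) :=
    tendsto_pow_atTop_nhds_zero_of_lt_one (by norm_num) (by norm_num)
  have hg2 : Tendsto (fun J : ℕ => (W : ℝ) * (|C| * (9 / 10 : ℝ) ^ J + (9 / 10 : ℝ) ^ J)) atTop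
      (𝓝 ((W : ℝ) * (|C| * 0 + 0))) := ((hg.const_mul |C|).add hg).const_mul (W : ℝ)
  rw [mul_zero, zero_add, mul_zero] at hg2
  refine squeeze_zero_norm (fun J => ?_) hg2
  have hW : (0 : ℝ) ≤ W := Nat.cast_nonneg W
  have e : ((W * (RJ J) ^ 4 : ℕ) : ℝ) * (C * (4 / 5) ^ J + (RJ J : ℝ) ^ 2 / 2 ^ J) =
      (W : ℝ) * (C * ((RJ J : ℝ) ^ 4 * (4 / 5) ^ J) + (RJ J : ℝ) ^ 4 * ((RJ J : ℝ) ^ 2 / 2 ^ J)) := by
    push_cast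
    ring
  rw [e, norm_mul, Real.norm_eq_abs, Real.norm_eq_abs, abs_of_nonneg hW]
  refine mul_le_mul_of_nonneg_left ?_ hW
  refine (abs_add_le _ _).trans (add_le_add ?_ ?_)
  · rw [abs_mul, abs_of_nonneg (by positivity : (0 : ℝ) ≤ (RJ J : ℝ) ^ 4 * (4 / 5) ^ J)]
    exact mul_le_mul_of_nonneg_left (h1 J) (abs_nonneg C)
  · rw [abs_of_nonneg (by positivity)]
    exact h3 J

lemma weight_le_one {m : ℕ} : (m : ℝ) ^ (-(3 / 4) : ℝ) ≤ 1 := by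
  rcases Nat.eq_zero_or_pos m with rfl | hm
  · rw [Nat.cast_zero, Real.zero_rpow (by norm_num)]
    exact zero_le_one
  · exact Real.rpow_le_one_of_one_le_of_nonpos (by exact_mod_cast hm) (by norm_num)

/-- Splitting the sum. -/
lemma eq_split {W : ℕ} [NeZero W] {C : ℝ} (hC0 : 0 ≤ C)
    (hC : ∀ (J R : ℕ) (ξ : ℕ → ℂ), (∀ n, ‖ξ n‖ ≤ 1) →
      ‖MM ξ J vonMangoldt - MM ξ J (thetaR R)‖ ≤ C * (4 / 5) ^ J + (R : ℝ) ^ 2 / 2 ^ J)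
    (D J : ℕ) :
    ∑ x ∈ (FX W (RJ J)).filter (fun x => x.1.Nonempty),
      ((∏ p ∈ x.1, p : ℕ) : ℝ) ^ (-(3 / 4) : ℝ) * ‖MM (xs x) J (thetaR (RJ J))‖ ≤
    ∑ x ∈ (FX W (RJ J)).filter (fun x => x.1.Nonempty ∧ ∏ p ∈ x.1, p ≤ D),
      ‖MM (xs x) J vonMangoldt‖ +
    ∑ x ∈ (FX W (RJ J)).filter (fun x => x.1.Nonempty ∧ ¬ IsRealCF x.2 ∧ ∏ p ∈ x.1, p ≤ J ^ 5),
      ‖MM (xs x) J vonMangoldt‖ +
    ∑ x ∈ (FX W (RJ J)).filter (fun x => IsRealCF x.2 ∧ D < ∏ p ∈ x.1, p ∧ ∏ p ∈ x.1, p ≤ J ^ 5),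
      ((∏ p ∈ x.1, p : ℕ) : ℝ) ^ (-(3 / 4) : ℝ) * ‖MM (xs x) J (thetaR (RJ J))‖ +
    ∑ x ∈ (FX W (RJ J)).filter (fun x => x.1.Nonempty ∧ J ^ 5 < ∏ p ∈ x.1, p),
      ((∏ p ∈ x.1, p : ℕ) : ℝ) ^ (-(3 / 4) : ℝ) * ‖MM (xs x) J vonMangoldt‖ +
    ((W * (RJ J) ^ 4 : ℕ) : ℝ) * (C * (4 / 5) ^ J + (RJ J : ℝ) ^ 2 / 2 ^ J) := by
  have hPP : 0 ≤ C * (4 / 5) ^ J + (RJ J : ℝ) ^ 2 / 2 ^ J := by positivity
  have hcard : ∑ _x ∈ FX W (RJ J), (C * (4 / 5) ^ J + (RJ J : ℝ) ^ 2 / 2 ^ J) ≤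
      ((W * (RJ J) ^ 4 : ℕ) : ℝ) * (C * (4 / 5) ^ J + (RJ J : ℝ) ^ 2 / 2 ^ J) := by
    rw [Finset.sum_const, nsmul_eq_mul]
    refine mul_le_mul_of_nonneg_right ?_ hPP
    exact_mod_cast card_FX_le W (RJ J)
  refine le_trans ?_ (add_le_add le_rfl hcard)
  simp only [Finset.sum_filter]
  rw [← Finset.sum_add_distrib, ← Finset.sum_add_distrib, ← Finset.sum_add_distrib,
    ← Finset.sum_add_distrib]
  refine Finset.sum_le_sum fun x _ => ?_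
  have hw0 : 0 ≤ ((∏ p ∈ x.1, p : ℕ) : ℝ) ^ (-(3 / 4) : ℝ) := by positivity
  have hw1 : ((∏ p ∈ x.1, p : ℕ) : ℝ) ^ (-(3 / 4) : ℝ) ≤ 1 := weight_le_one
  have h1 := hC J (RJ J) (xs x) (norm_xs_le x)
  have h2 : ‖MM (xs x) J (thetaR (RJ J))‖ ≤ ‖MM (xs x) J vonMangoldt‖ +
      (C * (4 / 5) ^ J + (RJ J : ℝ) ^ 2 / 2 ^ J) := by
    have h3 : ‖MM (xs x) J (thetaR (RJ J))‖ ≤ ‖MM (xs x) J vonMangoldt‖ +
        ‖MM (xs x) J vonMangoldt - MM (xs x) J (thetaR (RJ J))‖ := by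
      have h4 := norm_sub_le (MM (xs x) J vonMangoldt)
        (MM (xs x) J vonMangoldt - MM (xs x) J (thetaR (RJ J)))
      rwa [sub_sub_cancel] at h4
    linarith
  have hθ := norm_nonneg (MM (xs x) J (thetaR (RJ J)))
  have hΛ := norm_nonneg (MM (xs x) J vonMangoldt)
  have h5 : ((∏ p ∈ x.1, p : ℕ) : ℝ) ^ (-(3 / 4) : ℝ) * ‖MM (xs x) J (thetaR (RJ J))‖ ≤
      ((∏ p ∈ x.1, p : ℕ) : ℝ) ^ (-(3 / 4) : ℝ) * ‖MM (xs x) J vonMangoldt‖ +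
      (C * (4 / 5) ^ J + (RJ J : ℝ) ^ 2 / 2 ^ J) := by
    calc _ ≤ ((∏ p ∈ x.1, p : ℕ) : ℝ) ^ (-(3 / 4) : ℝ) * (‖MM (xs x) J vonMangoldt‖ +
          (C * (4 / 5) ^ J + (RJ J : ℝ) ^ 2 / 2 ^ J)) := mul_le_mul_of_nonneg_left h2 hw0
      _ = ((∏ p ∈ x.1, p : ℕ) : ℝ) ^ (-(3 / 4) : ℝ) * ‖MM (xs x) J vonMangoldt‖ +
          ((∏ p ∈ x.1, p : ℕ) : ℝ) ^ (-(3 / 4) : ℝ) *
            (C * (4 / 5) ^ J + (RJ J : ℝ) ^ 2 / 2 ^ J) := by ring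
      _ ≤ _ := add_le_add le_rfl (mul_le_of_le_one_left hPP hw1)
  have h6 : ((∏ p ∈ x.1, p : ℕ) : ℝ) ^ (-(3 / 4) : ℝ) * ‖MM (xs x) J vonMangoldt‖ ≤
      ‖MM (xs x) J vonMangoldt‖ := mul_le_of_le_one_left hΛ hw1
  have h7 : 0 ≤ ((∏ p ∈ x.1, p : ℕ) : ℝ) ^ (-(3 / 4) : ℝ) * ‖MM (xs x) J vonMangoldt‖ :=
    mul_nonneg hw0 hΛ
  have h8 : 0 ≤ ((∏ p ∈ x.1, p : ℕ) : ℝ) ^ (-(3 / 4) : ℝ) * ‖MM (xs x) J (thetaR (RJ J))‖ :=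
    mul_nonneg hw0 hθ
  generalize ((∏ p ∈ x.1, p : ℕ) : ℝ) ^ (-(3 / 4) : ℝ) * ‖MM (xs x) J vonMangoldt‖ = a at *
  generalize ((∏ p ∈ x.1, p : ℕ) : ℝ) ^ (-(3 / 4) : ℝ) * ‖MM (xs x) J (thetaR (RJ J))‖ = b at *
  by_cases hne : x.1.Nonempty
  · by_cases hD : ∏ p ∈ x.1, p ≤ D
    · rw [if_pos hne, if_pos ⟨hne, hD⟩]
      split_ifs <;> linarith
    · by_cases hJ : ∏ p ∈ x.1, p ≤ J ^ 5
      · by_cases hr : IsRealCF x.2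
        · rw [if_pos hne, if_pos (show IsRealCF x.2 ∧ D < ∏ p ∈ x.1, p ∧ ∏ p ∈ x.1, p ≤ J ^ 5 from
            ⟨hr, not_le.mp hD, hJ⟩)]
          split_ifs <;> linarith
        · rw [if_pos hne, if_pos (show x.1.Nonempty ∧ ¬ IsRealCF x.2 ∧ ∏ p ∈ x.1, p ≤ J ^ 5 from
            ⟨hne, hr, hJ⟩)]
          split_ifs <;> linarith
      · rw [if_pos hne, if_pos (show x.1.Nonempty ∧ J ^ 5 < ∏ p ∈ x.1, p from
          ⟨hne, not_le.mp hJ⟩)]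
        split_ifs <;> linarith
  · rw [if_neg hne]
    split_ifs <;> linarith

/-- The equidistribution theorem, from the statement on real characters. -/
theorem eq_of (h : RealTailStatement) : EQStatement := by
  intro W _
  obtain ⟨C, hC0, hC⟩ := pp
  refine tendsto_order.2 ⟨fun a ha => Eventually.of_forall fun J => ?_, fun a ha => ?_⟩
  · refine lt_of_lt_of_le ha (Finset.sum_nonneg fun x _ => by positivity)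
  · obtain ⟨D, hD⟩ := h W (a / 2) (by linarith)
    have h1 : Tendsto (fun J : ℕ =>
        ∑ x ∈ (FX W (RJ J)).filter (fun x => x.1.Nonempty ∧ ∏ p ∈ x.1, p ≤ D),
          ‖MM (xs x) J vonMangoldt‖ +
        ∑ x ∈ (FX W (RJ J)).filter
          (fun x => x.1.Nonempty ∧ ¬ IsRealCF x.2 ∧ ∏ p ∈ x.1, p ≤ J ^ 5),
          ‖MM (xs x) J vonMangoldt‖ +
        ∑ x ∈ (FX W (RJ J)).filter (fun x => x.1.Nonempty ∧ J ^ 5 < ∏ p ∈ x.1, p),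
          ((∏ p ∈ x.1, p : ℕ) : ℝ) ^ (-(3 / 4) : ℝ) * ‖MM (xs x) J vonMangoldt‖ +
        ((W * (RJ J) ^ 4 : ℕ) : ℝ) * (C * (4 / 5) ^ J + (RJ J : ℝ) ^ 2 / 2 ^ J))
        atTop (𝓝 (0 + 0 + 0 + 0)) :=
      (((bounded W D).add (complex W)).add (large W)).add (tendsto_pp_total W C)
    have h2 := h1.eventually (gt_mem_nhds (show (0 + 0 + 0 + 0 : ℝ) < a / 2 by linarith))
    filter_upwards [hD, h2] with J h3 h4
    have h5 := eq_split (W := W) hC0 hC D J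
    linarith

end Pool.Agent.Helper11.MT
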