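import Mathlib
import Pool.Agent.Helper11.MT.EQ
import Pool.Agent.Helper11.MT.RealChars

/-!
The equidistribution theorem.
-/

namespace Pool.Agent.Helper11.MT

/-- The equidistribution theorem. -/
theorem eqTheorem : EQStatement := eq_of realTail

end Pool.Agent.Helper11.MT
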