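import Mathlib
import Pool.Agent.Helper11.MT.Final3
import Pool.Agent.Helper11.MT.Optim

/-!
The final assembly of the Maynard-Tao theorem.
-/

open Finset Filter Topology

namespace Pool.Agent.Helper11.MT

section scaling

variable {W R k : ℕ}

lemma EE_smul (c : ℝ) (y : Finset (QT W R × Fin k) → ℝ) :
    EE k (fun U => c * y U) = c ^ 2 * EE k y := by
  unfold EE
  rw [Finset.mul_sum]
  refine Finset.sum_congr rfl fun U _ => ?_
  ring

lemma yj_smul (c : ℝ) (y : Finset (QT W R × Fin k) → ℝ) (j : Fin k) (U : Finset (QT W R × Fin k)) :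
    yj k (fun U => c * y U) j U = c * yj k y j U := by
  unfold yj
  rw [Finset.mul_sum]
  refine Finset.sum_congr rfl fun V _ => ?_
  ring

lemma EEj_smul (c : ℝ) (y : Finset (QT W R × Fin k) → ℝ) (j : Fin k) :
    EEj k (fun U => c * y U) j = c ^ 2 * EEj k y j := by
  unfold EEj
  rw [Finset.mul_sum]
  refine Finset.sum_congr rfl fun U _ => ?_
  rw [yj_smul]
  ring

/-- Normalised optimal weights. -/
lemma optim_normalised (k : ℕ) (hk : 2 ^ 16 ≤ k) (W : ℕ) (hW : 0 < W)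
    (hp : ∀ p : ℕ, p.Prime → p ≤ 2 * k → p ∣ W) :
    ∃ R0 : ℕ, ∀ R : ℕ, R0 ≤ R → ∃ y : Finset (QT W R × Fin k) → ℝ,
      (∀ U, 0 ≤ y U) ∧ (∀ U, y U ≤ 1) ∧ (∀ U V, U ⊆ V → y V ≤ y U) ∧
      (∀ U, R < nn U → y U = 0) ∧ 1 ≤ EE k y ∧
      ((Nat.totient W : ℝ) / W * Real.log R * (Nat.log 2 k / 640)) * EE k y ≤
        ∑ j : Fin k, EEj k y j := by
  obtain ⟨R0, h0⟩ := optim k hk W hW hp
  refine ⟨R0, fun R hR => ?_⟩
  obtain ⟨y, h1, h2, h3, h4, h5, h6⟩ := h0 R hR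
  have hpos : 0 < y ∅ := by
    by_contra hcon
    push Not at hcon
    have hz : ∀ U, y U = 0 := fun U =>
      le_antisymm ((h3 ∅ U (Finset.empty_subset U)).trans hcon) (h1 U)
    have : EE k y = 0 := by
      unfold EE
      refine Finset.sum_eq_zero fun U _ => ?_
      rw [hz U]
      simp
    linarith
  set c : ℝ := (y ∅)⁻¹ with hc
  have hc0 : 0 < c := by rw [hc]; positivity
  refine ⟨fun U => c * y U, fun U => mul_nonneg hc0.le (h1 U), fun U => ?_, fun U V hUV =>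
    mul_le_mul_of_nonneg_left (h3 U V hUV) hc0.le, fun U hU => ?_, ?_, ?_⟩
  · rw [hc, inv_mul_le_iff₀ hpos, mul_one]
    exact h3 ∅ U (Finset.empty_subset U)
  · simp only
    rw [h4 U hU, mul_zero]
  · -- the term of the empty set
    have hg : ∀ U : Finset (QT W R × Fin k), 0 ≤ gg k U := by
      intro U
      unfold gg
      refine Finset.prod_nonneg fun τ _ => ?_
      have h7 := mem_PR.mp τ.1.2
      have h8 : 2 * k < (τ.1 : ℕ) := by
        by_contra h9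
        exact h7.2.2 (hp _ h7.2.1 (not_lt.mp h9))
      have h9 : (2 * (k : ℝ)) ≤ (τ.1 : ℕ) := by exact_mod_cast h8.le
      have h10 : (0 : ℝ) ≤ k := Nat.cast_nonneg _
      linarith
    unfold EE
    have h7 : (fun U => (c * y U) ^ 2 / gg k U) (∅ : Finset (QT W R × Fin k)) = 1 := by
      simp only
      rw [hc, inv_mul_cancel₀ hpos.ne']
      unfold gg
      simp
    rw [← h7]
    exact Finset.single_le_sum (f := fun U => (c * y U) ^ 2 / gg k U)
      (fun U _ => div_nonneg (sq_nonneg _) (hg U)) (Finset.mem_univ _)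
  · rw [EE_smul]
    have h7 : ∑ j : Fin k, EEj k (fun U => c * y U) j = c ^ 2 * ∑ j : Fin k, EEj k y j := by
      rw [Finset.mul_sum]
      exact Finset.sum_congr rfl fun j _ => EEj_smul c y j
    rw [h7]
    calc ((Nat.totient W : ℝ) / W * Real.log R * (Nat.log 2 k / 640)) * (c ^ 2 * EE k y) =
        c ^ 2 * (((Nat.totient W : ℝ) / W * Real.log R * (Nat.log 2 k / 640)) * EE k y) := by ring
      _ ≤ c ^ 2 * ∑ j : Fin k, EEj k y j := mul_le_mul_of_nonneg_left h6 (sq_nonneg c)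

end scaling

lemma exists_large_k (M : ℕ) : ∃ k : ℕ, 2 ^ 16 ≤ k ∧ 50000000 * M + 2 ≤ Nat.log 2 k := by
  refine ⟨2 ^ (50000000 * M + 16), Nat.pow_le_pow_right (by norm_num) (by omega), ?_⟩
  rw [Nat.log_pow (by norm_num)]
  omega

/-- The divisor-sum coefficients. -/
lemma lam_bounds {W k D J : ℕ} (hWp : ∀ p : ℕ, p.Prime → p ≤ D → p ∣ W)
    (hD : 256 * k ^ 2 ≤ D + 1) (hkr : (1 : ℝ) ≤ k) (hg : ∀ q : QT W (RJ J), 1 ≤ gk k q)
    {y : Finset (QT W (RJ J) × Fin k) → ℝ} (hy0 : ∀ U, 0 ≤ y U) (hy1 : ∀ U, y U ≤ 1)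
    (hys : ∀ U, RJ J < nn U → y U = 0) :
    ∃ (lam : Finset (QT W (RJ J) × Fin k) → ℝ) (L : ℝ),
      (∀ Y, AA (gk k) y Y = ∑ D ∈ Y.powerset, lam D) ∧ (∑ D, |lam D|) ^ 2 = L ∧ 0 ≤ L ∧
      L ≤ 4 * (16 / 15) ^ J ∧ ∀ Y, (AA (gk k) y Y) ^ 2 ≤ L := by
  obtain ⟨lam, hlam1, -, hlam3⟩ := lambda (QT W (RJ J)) (Fin k) (gk k) hg y (fun q => (q : ℕ))
    (fun q => by
      unfold gk
      have : (1 : ℝ) ≤ k := hkr
      linarith) (RJ J) (fun U => by rw [abs_of_nonneg (hy0 U)]; exact hy1 U) hys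
  have hDr : 256 * (k : ℝ) ^ 2 ≤ (D : ℝ) + 1 := by exact_mod_cast hD
  have hexp : Real.exp (2 * (Fintype.card (Fin k)) *
      ∑ q : QT W (RJ J), 1 / (((q : ℕ) : ℝ)) ^ 2) ≤ 2 := by
    have h1 := param_sum_inv (R := RJ J) hWp
    rw [Fintype.card_fin]
    have h2 : 2 * (k : ℝ) * ∑ q : QT W (RJ J), 1 / (((q : ℕ) : ℝ)) ^ 2 ≤ 1 / 2 := by
      calc 2 * (k : ℝ) * ∑ q : QT W (RJ J), 1 / (((q : ℕ) : ℝ)) ^ 2 ≤
          2 * (k : ℝ) * (2 / ((D : ℝ) + 1)) := mul_le_mul_of_nonneg_left h1 (by linarith)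
        _ ≤ 1 / 2 := by
          rw [← mul_div_assoc, div_le_div_iff₀ (by positivity) (by norm_num)]
          nlinarith
    refine (Real.exp_le_exp.mpr h2).trans ?_
    have := Real.exp_one_lt_d9
    have h7 : Real.exp (1 / 2 : ℝ) ^ 2 = Real.exp 1 := by
      rw [← Real.exp_nat_mul]; norm_num
    nlinarith [Real.exp_pos (1 / 2 : ℝ)]
  refine ⟨lam, (∑ D, |lam D|) ^ 2, hlam1, rfl, sq_nonneg _, ?_, ?_⟩
  · have h1 : ∑ D, |lam D| ≤ (RJ J : ℝ) ^ 5 * 2 :=
      hlam3.trans (mul_le_mul_of_nonneg_left hexp (by positivity))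
    have h2 : 0 ≤ ∑ D, |lam D| := Finset.sum_nonneg fun D _ => abs_nonneg _
    have h3 := pow_le_pow_left₀ h2 h1 2
    refine h3.trans ?_
    have h4 : ((RJ J : ℝ) ^ 5 * 2) ^ 2 = 4 * (RJ J : ℝ) ^ 10 := by ring
    rw [h4]
    exact mul_le_mul_of_nonneg_left (RJ_pow10_le J) (by norm_num)
  · intro Y
    rw [hlam1 Y, ← sq_abs]
    refine pow_le_pow_left₀ (abs_nonneg _) ?_ 2
    refine (Finset.abs_sum_le_sum_abs _ _).trans ?_
    exact Finset.sum_le_sum_of_subset_of_nonneg (Finset.subset_univ _) fun _ _ _ => abs_nonneg _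

/-- The final inequality is contradictory. -/
lemma final_arith {J M k lk : ℕ} {W φ Cc KK K9 E SE SS S1v L lR : ℝ} (hJ : 1 ≤ J) (hW : 0 < W)
    (hφ : 0 < φ) (hCc : Cc = 4 * (40 * M * KK + k * (1 + 2 * K9))) (hK : 0 ≤ KK) (hK9 : 0 ≤ K9)
    (hE : 1 ≤ E) (hopt : (φ / W * lR * (lk / 640)) * E ≤ SE) (hlow : SE / (4 * φ) ≤ SS)
    (hupp : SS ≤ 10 * M * J * S1v +
      k * L * ((J + 1) * (3 / 4) ^ J + (J + 1) * (2 * (1 / 2) ^ J) * K9))
    (hS1 : S1v ≤ 4 * E / W + L * (4 * ((2 / 3) ^ J * KK))) (hL0 : 0 ≤ L)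
    (hL4 : L ≤ 4 * (16 / 15) ^ J) (hlR : (J : ℝ) / 400 ≤ lR)
    (hsmall : 1024000 * W * (Cc * (((J : ℝ) + 1) * (4 / 5) ^ J)) < 1)
    (hkL : 50000000 * M + 2 ≤ lk) : False := by
  have hJr : (1 : ℝ) ≤ J := by exact_mod_cast hJ
  have hM0 : (0 : ℝ) ≤ M := Nat.cast_nonneg _
  have hk0 : (0 : ℝ) ≤ k := Nat.cast_nonneg _
  have hlk0 : (0 : ℝ) ≤ lk := Nat.cast_nonneg _
  have hCc0 : 0 ≤ Cc := by rw [hCc]; positivity
  have hE0 : 0 < E := by linarith
  have hlow2 : ((J : ℝ) / 400 * (lk / 640)) / (4 * W) * E ≤ SS := by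
    refine le_trans ?_ hlow
    rw [le_div_iff₀ (by positivity)]
    refine le_trans ?_ hopt
    have h1 : ((J : ℝ) / 400 * (lk / 640)) / (4 * W) * E * (4 * φ) =
        (φ / W * (J / 400) * (lk / 640)) * E := by
      field_simp
    rw [h1]
    have h2 : φ / W * ((J : ℝ) / 400) ≤ φ / W * lR :=
      mul_le_mul_of_nonneg_left hlR (by positivity)
    exact mul_le_mul_of_nonneg_right (mul_le_mul_of_nonneg_right h2 (by positivity)) hE0.le
  have hx : ∀ x : ℝ, 0 ≤ x → x ≤ 3 / 4 → L * x ^ J ≤ 4 * (4 / 5) ^ J := by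
    intro x hx0 hx1
    calc L * x ^ J ≤ (4 * (16 / 15) ^ J) * (3 / 4) ^ J :=
          mul_le_mul hL4 (pow_le_pow_left₀ hx0 hx1 J) (by positivity) (by positivity)
      _ = 4 * ((16 / 15) * (3 / 4)) ^ J := by rw [mul_pow]; ring
      _ = 4 * (4 / 5) ^ J := by norm_num
  have e23 := hx (2 / 3) (by norm_num) (by norm_num)
  have e34 := hx (3 / 4) (by norm_num) (by norm_num)
  have e12 := hx (1 / 2) (by norm_num) (by norm_num)
  set t : ℝ := (4 / 5 : ℝ) ^ J with ht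
  have ht0 : 0 ≤ t := by positivity
  have herr : 10 * M * J * (L * (4 * ((2 / 3) ^ J * KK))) +
      k * L * ((J + 1) * (3 / 4) ^ J + (J + 1) * (2 * (1 / 2) ^ J) * K9) ≤
      Cc * (((J : ℝ) + 1) * t) := by
    have h1 : 10 * M * J * (L * (4 * ((2 / 3) ^ J * KK))) ≤
        10 * M * (J + 1) * (4 * KK * (4 * t)) := by
      calc 10 * M * J * (L * (4 * ((2 / 3) ^ J * KK))) =
          (10 * M * J) * (4 * KK * (L * (2 / 3) ^ J)) := by ring
        _ ≤ (10 * M * (J + 1)) * (4 * KK * (4 * t)) := by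
          refine mul_le_mul ?_ ?_ (by positivity) (by positivity)
          · exact mul_le_mul_of_nonneg_left (by linarith) (by positivity)
          · exact mul_le_mul_of_nonneg_left e23 (by positivity)
    have h2 : k * L * ((J + 1) * (3 / 4) ^ J + (J + 1) * (2 * (1 / 2) ^ J) * K9) ≤
        k * (J + 1) * ((4 * t) + 2 * K9 * (4 * t)) := by
      calc k * L * ((J + 1) * (3 / 4) ^ J + (J + 1) * (2 * (1 / 2) ^ J) * K9) =
          k * (J + 1) * ((L * (3 / 4) ^ J) + 2 * K9 * (L * (1 / 2) ^ J)) := by ring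
        _ ≤ _ := by
          refine mul_le_mul_of_nonneg_left ?_ (by positivity)
          exact add_le_add e34 (mul_le_mul_of_nonneg_left e12 (by positivity))
    refine (add_le_add h1 h2).trans (le_of_eq ?_)
    rw [hCc]
    ring
  have hfinal : ((J : ℝ) / 400 * (lk / 640)) / (4 * W) * E ≤
      40 * M * J / W * E + Cc * (((J : ℝ) + 1) * t) := by
    have h1 : 10 * (M : ℝ) * J * S1v ≤
        10 * M * J * (4 * E / W + L * (4 * ((2 / 3) ^ J * KK))) :=
      mul_le_mul_of_nonneg_left hS1 (by positivity)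
    have h2 : 10 * (M : ℝ) * J * (4 * E / W + L * (4 * ((2 / 3) ^ J * KK))) =
        40 * M * J / W * E + 10 * M * J * (L * (4 * ((2 / 3) ^ J * KK))) := by ring
    linarith
  have hδ : Cc * (((J : ℝ) + 1) * t) ≤ Cc * (((J : ℝ) + 1) * t) * E :=
    le_mul_of_one_le_right (by positivity) hE
  have h10 : ((J : ℝ) / 400 * (lk / 640)) / (4 * W) ≤
      40 * M * J / W + Cc * (((J : ℝ) + 1) * t) := by
    have h1 : ((J : ℝ) / 400 * (lk / 640)) / (4 * W) * E ≤
        (40 * M * J / W + Cc * (((J : ℝ) + 1) * t)) * E := by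
      rw [add_mul]; linarith
    exact le_of_mul_le_mul_right h1 hE0
  have h11 : (J : ℝ) * lk ≤ 40960000 * M * J + 1024000 * W * (Cc * (((J : ℝ) + 1) * t)) := by
    have h1 := mul_le_mul_of_nonneg_left h10 (by positivity : (0 : ℝ) ≤ 1024000 * W)
    have h2 : 1024000 * W * (((J : ℝ) / 400 * (lk / 640)) / (4 * W)) = J * lk := by
      field_simp
      ring
    have h3 : 1024000 * W * (40 * M * J / W + Cc * (((J : ℝ) + 1) * t)) =
        40960000 * M * J + 1024000 * W * (Cc * (((J : ℝ) + 1) * t)) := by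
      field_simp
      ring
    rw [h2, h3] at h1
    exact h1
  have h12 : (50000000 * (M : ℝ) + 2) ≤ lk := by exact_mod_cast hkL
  have h13 := mul_le_mul_of_nonneg_left h12 (by linarith : (0 : ℝ) ≤ J)
  have h14 : 0 ≤ (M : ℝ) * J := by positivity
  nlinarith

/-- The Maynard-Tao theorem, from the equidistribution statements. -/
theorem mt_of (hEQ : EQStatement) (hPP : PPStatement) : MTStatement := by
  intro M
  obtain ⟨k, hk16, hkL⟩ := exists_large_k M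
  refine ⟨k, fun h hinj => ?_⟩
  have hk1 : 1 ≤ k := le_trans (by norm_num) hk16
  set H : ℕ := ∑ i, h i with hHdef
  have hH : ∀ i, h i ≤ H := fun i => Finset.single_le_sum (fun _ _ => Nat.zero_le _) (Finset.mem_univ i)
  set B : ℕ := 4 * k * 4 ^ k with hB
  have hBk : 16 * k ≤ B := by
    rw [hB]
    have : 4 ^ 1 ≤ 4 ^ k := Nat.pow_le_pow_right (by norm_num) hk1
    nlinarith
  have hB4 : B ^ 2 ≤ B ^ 4 := Nat.pow_le_pow_right (by omega) (by norm_num)
  have hB2 : 256 * k ^ 2 ≤ B ^ 2 := by nlinarith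
  refine ⟨B ^ 4 + H, fun W hW hWp v hv N => ?_⟩
  by_contra hcon
  push Not at hcon
  have : NeZero W := ⟨hW.ne'⟩
  have hWr : (0 : ℝ) < W := by exact_mod_cast hW
  have hφ : (0 : ℝ) < W.totient := by
    have := Nat.totient_pos.mpr hW
    exact_mod_cast this
  have hkr : (1 : ℝ) ≤ k := by exact_mod_cast hk1
  have hK := K32_nonneg
  have hK9 := K98_nonneg
  have h2k : 2 * k + 1 ≤ B ^ 4 + H := by nlinarith
  obtain ⟨R0, hR0⟩ := optim_normalised k hk16 W hW (fun p hp hpk => hWp p hp (by nlinarith))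
  -- the constant in the error
  set Cc : ℝ := 4 * (40 * M * K32 + k * (1 + 2 * K98)) with hCc
  have hCc0 : 0 ≤ Cc := by rw [hCc]; positivity
  -- eventual conditions
  have ev1 : ∀ᶠ J : ℕ in atTop, ∀ j : Fin k, 3 / 4 / (W.totient : ℝ) ≤ psi0 W (v + h j) (RJ J) J := by
    rw [eventually_all]
    intro j
    have h1 := tendsto_psi0 hPP (hv j)
    have h2 : 3 / 4 / (W.totient : ℝ) < 1 / W.totient := by
      rw [div_lt_div_iff_of_pos_right hφ]; norm_num
    exact (h1.eventually (eventually_gt_nhds h2)).mono fun J hJ => hJ.le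
  have ev2 : ∀ᶠ J : ℕ in atTop, Err W (RJ J) J ≤ 1 / 16 := by
    have h1 := hEQ W
    exact (h1.eventually (eventually_lt_nhds (by norm_num : (0 : ℝ) < 1 / 16))).mono fun J hJ => hJ.le
  have ev3 : ∀ᶠ J : ℕ in atTop, ∑' n, w J n ≤ 2 :=
    (tendsto_Omega.eventually (eventually_lt_nhds (by norm_num : (1 : ℝ) < 2))).mono fun J hJ => hJ.le
  have ev4 : ∀ᶠ J : ℕ in atTop, max R0 H ≤ RJ J := RJ_tendsto.eventually (eventually_ge_atTop _)
  have ev5 : ∀ᶠ J : ℕ in atTop, (N : ℝ) + 8 * H ≤ (3 / 2 : ℝ) ^ J :=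
    (tendsto_pow_atTop_atTop_of_one_lt (by norm_num : (1 : ℝ) < 3 / 2)).eventually
      (eventually_ge_atTop _)
  have ev6 : ∀ᶠ J : ℕ in atTop, 1024000 * W * (Cc * (((J : ℝ) + 1) * (4 / 5) ^ J)) < 1 := by
    have h1 := (tiny_tendsto.const_mul Cc).const_mul (1024000 * (W : ℝ))
    rw [mul_zero, mul_zero] at h1
    exact h1.eventually (eventually_lt_nhds zero_lt_one)
  obtain ⟨J, hJ1, hJ2, hJ3, hJ4, hJ5, hJ6, hJ7, hJ8⟩ := (ev1.and (ev2.and (ev3.and (ev4.and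
    (ev5.and (ev6.and (log_RJ_ge.and (eventually_ge_atTop 1)))))))).exists
  set R : ℕ := RJ J with hR
  obtain ⟨y, hy0, hy1, hya, hys, hEE, hopt⟩ := hR0 R (le_trans (le_max_left _ _) hJ4)
  have hd : Distinct W R h := param_distinct hWp hinj (fun i => (hH i).trans (Nat.le_add_left _ _))
  have hg : ∀ q : QT W R, 1 ≤ gk k q := fun q => (param_gk hWp h2k q).2
  have hsg := param_sum_gk (R := R) (k := k) hWp h2k
  have hDr : 256 * (k : ℝ) ^ 2 ≤ ((B ^ 4 + H : ℕ) : ℝ) + 1 := by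
    have : 256 * k ^ 2 ≤ (B ^ 4 + H) + 1 := by omega
    exact_mod_cast this
  have hsum : (k : ℝ) ^ 2 * ∑ q : QT W R, 1 / (gk k q) ^ 2 ≤ 1 / 32 := by
    calc (k : ℝ) ^ 2 * ∑ q : QT W R, 1 / (gk k q) ^ 2 ≤
        (k : ℝ) ^ 2 * (8 / (((B ^ 4 + H : ℕ) : ℝ) + 1)) := by gcongr
      _ ≤ 1 / 32 := by
        rw [← mul_div_assoc, div_le_div_iff₀ (by positivity) (by norm_num)]
        linarith
  have hbig : ∀ p ∈ PR W R, (k : ℝ) * (2 * 4 ^ k) * (1 / p.totient) ≤ (p : ℝ) ^ (-(3 / 4) : ℝ) :=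
    fun p hp => param_big hWp (by rw [hB]; exact Nat.le_add_right _ _) hp
  have hHR : ∀ j, h j ≤ R := fun j => (hH j).trans (le_trans (le_max_right _ _) hJ4)
  -- lower bound
  have hlow : ∑ j, EEj k y j / (4 * W.totient) ≤ ∑ j, S2 h v (AA (gk k) y) j J :=
    Finset.sum_le_sum fun j _ => S2_ge hd hg v (hv j) (hHR j) hy0 hya hys hbig hsum (hJ1 j) hJ2
  -- lambda
  obtain ⟨lam, L, hlam1, hL, hL0, hL4, hGL⟩ := lam_bounds hWp (by omega) hkr hg hy0 hy1 hys
  have hupp := sum_S2_le (W := W) (R := R) (h := h) (v := v) (M := M) (N := N) (H := H)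
    (fun m hm hmv => (hcon m hm hmv).le) hH hJ8
    (by have : (0 : ℝ) ≤ 8 * H := by positivity
        linarith) (by have : (0 : ℝ) ≤ N := Nat.cast_nonneg _
                      linarith) hGL
  have hS1 := S1_le hd hg v hy0 hya hsum hJ3 hlam1
  rw [hL] at hS1
  have hE1 : ∑ j, EEj k y j / (4 * W.totient) = (∑ j, EEj k y j) / (4 * W.totient) := by
    rw [Finset.sum_div]
  rw [hE1] at hlow
  exact final_arith hJ8 hWr hφ hCc hK hK9 hEE hopt hlow hupp hS1 hL0 hL4 hJ7 hJ6 hkL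

end Pool.Agent.Helper11.MT
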