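import Mathlib

namespace Pool.Agent.Helper11.MT

open Finset Real Filter Topology

/-- The kernel `w i n = (log n)^i / (i! n^2)`. -/
noncomputable def w (i n : ℕ) : ℝ := (Real.log n) ^ i / (i.factorial * (n : ℝ) ^ 2)

lemma w_zero_right (i : ℕ) : w i 0 = 0 := by simp [w]

lemma log_nat_nonneg (n : ℕ) : 0 ≤ Real.log (n : ℝ) := Real.log_natCast_nonneg n

lemma w_nonneg (i n : ℕ) : 0 ≤ w i n := by
  unfold w
  have := log_nat_nonneg n
  positivity

/-- `(log n)^i / i! ≤ n^t / t^i`. -/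
lemma log_pow_div_factorial_le {t : ℝ} (ht : 0 < t) (i : ℕ) {n : ℕ} (hn : 1 ≤ n) :
    (Real.log n) ^ i / i.factorial ≤ (n : ℝ) ^ t / t ^ i := by
  have hn' : (0 : ℝ) < n := by exact_mod_cast hn
  have h1 := Real.pow_div_factorial_le_exp (x := t * Real.log n)
    (mul_nonneg ht.le (log_nat_nonneg n)) i
  have h2 : Real.exp (t * Real.log n) = (n : ℝ) ^ t := by
    rw [Real.rpow_def_of_pos hn', mul_comm]
  rw [h2, mul_pow] at h1
  rw [le_div_iff₀ (by positivity)]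
  calc (Real.log n) ^ i / i.factorial * t ^ i = t ^ i * Real.log n ^ i / i.factorial := by ring
    _ ≤ _ := h1

lemma w_le_rpow {t : ℝ} (ht : 0 < t) (i : ℕ) {n : ℕ} (hn : 1 ≤ n) :
    w i n ≤ (n : ℝ) ^ (t - 2) / t ^ i := by
  have hn' : (0 : ℝ) < n := by exact_mod_cast hn
  have h := log_pow_div_factorial_le ht i hn
  have h3 : w i n = (Real.log n) ^ i / i.factorial / (n : ℝ) ^ 2 := by
    unfold w; rw [div_div]
  rw [h3, Real.rpow_sub hn', div_le_iff₀ (by positivity)]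
  calc (Real.log n) ^ i / i.factorial ≤ (n : ℝ) ^ t / t ^ i := h
    _ = _ := by
      rw [show ((n : ℝ) ^ (2 : ℝ)) = (n : ℝ) ^ 2 by norm_cast]
      field_simp

lemma w_le_one_div (i : ℕ) {n : ℕ} (hn : 1 ≤ n) : w i n ≤ 1 / n := by
  have hn' : (0 : ℝ) < n := by exact_mod_cast hn
  have := w_le_rpow (t := 1) one_pos i hn
  rw [one_pow, div_one, show (1 - 2 : ℝ) = -1 by norm_num, Real.rpow_neg_one] at this
  rwa [one_div]

lemma w_le_two_pow (i n : ℕ) : w i n ≤ 1 / 2 ^ i := by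
  rcases Nat.eq_zero_or_pos n with rfl | hn
  · rw [w_zero_right]; positivity
  · have := w_le_rpow (t := 2) two_pos i hn
    simpa using this

/-- `w i n ≤ (2/3)^i / √n`-type bound. -/
lemma w_le_two_thirds (i : ℕ) {n : ℕ} (hn : 1 ≤ n) :
    w i n ≤ (2 / 3 : ℝ) ^ i * (n : ℝ) ^ (-(1 / 2) : ℝ) := by
  have := w_le_rpow (t := 3 / 2) (by norm_num) i hn
  rw [show (3 / 2 - 2 : ℝ) = -(1 / 2) by norm_num] at this
  rw [show (2 / 3 : ℝ) = (3 / 2)⁻¹ by norm_num, inv_pow]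
  rw [div_eq_inv_mul] at this
  exact this

lemma w_le_summable (i : ℕ) {n : ℕ} (hn : 1 ≤ n) :
    w i n ≤ 2 ^ i * (n : ℝ) ^ (-(3 / 2) : ℝ) := by
  have := w_le_rpow (t := 1 / 2) (by norm_num) i hn
  rw [show (1 / 2 - 2 : ℝ) = -(3 / 2) by norm_num] at this
  rw [div_eq_inv_mul] at this
  rwa [← inv_pow, show ((1 / 2 : ℝ))⁻¹ = 2 by norm_num] at this

lemma summable_rpow_neg_three_half : Summable (fun n : ℕ => (n : ℝ) ^ (-(3 / 2) : ℝ)) := by
  rw [Real.summable_nat_rpow]; norm_num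

lemma summable_w (i : ℕ) : Summable (w i) := by
  refine Summable.of_nonneg_of_le (fun n => w_nonneg i n) (fun n => ?_)
    (summable_rpow_neg_three_half.mul_left (2 ^ i))
  rcases Nat.eq_zero_or_pos n with rfl | hn
  · rw [w_zero_right]; positivity
  · exact w_le_summable i hn

/-- The convolution identity for the kernel. -/
lemma w_mul (J a b : ℕ) :
    w J (a * b) = ∑ ij ∈ antidiagonal J, w ij.1 a * w ij.2 b := by
  rcases Nat.eq_zero_or_pos a with rfl | ha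
  · simp [w_zero_right]
  rcases Nat.eq_zero_or_pos b with rfl | hb
  · simp [w_zero_right]
  have ha' : (a : ℝ) ≠ 0 := by positivity
  have hb' : (b : ℝ) ≠ 0 := by positivity
  have hlog : Real.log ((a * b : ℕ) : ℝ) = Real.log a + Real.log b := by
    push_cast; exact Real.log_mul ha' hb'
  have key : (Real.log a + Real.log b) ^ J / J.factorial
      = ∑ ij ∈ antidiagonal J, (Real.log a ^ ij.1 / ij.1.factorial) *
          (Real.log b ^ ij.2 / ij.2.factorial) := by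
    rw [Finset.Nat.sum_antidiagonal_eq_sum_range_succ_mk, add_pow, Finset.sum_div]
    refine Finset.sum_congr rfl fun k hk => ?_
    have hk' : k ≤ J := Nat.lt_succ_iff.mp (Finset.mem_range.mp hk)
    have h1 : ((J.choose k : ℕ) : ℝ) = J.factorial / (k.factorial * (J - k).factorial) := by
      rw [Nat.choose_eq_factorial_div_factorial hk',
        Nat.cast_div (Nat.factorial_mul_factorial_dvd_factorial hk') (by positivity)]
      push_cast; rfl
    rw [h1]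
    field_simp
  have h2 : w J (a * b) = (Real.log a + Real.log b) ^ J / J.factorial / ((a : ℝ) ^ 2 * (b : ℝ) ^ 2) := by
    unfold w; rw [hlog]; push_cast; field_simp
  rw [h2, key, Finset.sum_div]
  refine Finset.sum_congr rfl fun ij _ => ?_
  unfold w
  field_simp

/-- Abel summation bound. -/
lemma norm_sum_mul_le {ψ : ℕ → ℂ} {Q : ℝ} (hψ : ∀ N, ‖∑ n ∈ range N, ψ n‖ ≤ Q)
    (f : ℕ → ℂ) (N : ℕ) :
    ‖∑ n ∈ range N, ψ n * f n‖ ≤ Q * (‖f N‖ + ∑ n ∈ range N, ‖f (n + 1) - f n‖) := by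
  have hQ : 0 ≤ Q := (norm_nonneg _).trans (hψ 0)
  have key : ∀ N, ∑ n ∈ range N, ψ n * f n = f N * (∑ n ∈ range N, ψ n)
      - ∑ n ∈ range N, (f (n + 1) - f n) * (∑ m ∈ range (n + 1), ψ m) := by
    intro N
    induction N with
    | zero => simp
    | succ N ih =>
      rw [Finset.sum_range_succ, ih, Finset.sum_range_succ (fun n => (f (n + 1) - f n) * _)]
      rw [Finset.sum_range_succ ψ N]
      ring
  rw [key]
  refine (norm_sub_le _ _).trans ?_
  rw [mul_add]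
  refine add_le_add ?_ ?_
  · rw [norm_mul, mul_comm]
    exact mul_le_mul_of_nonneg_right (hψ N) (norm_nonneg _)
  · refine (norm_sum_le _ _).trans ?_
    rw [Finset.mul_sum]
    refine Finset.sum_le_sum fun n _ => ?_
    rw [norm_mul, mul_comm]
    exact mul_le_mul_of_nonneg_right (hψ _) (norm_nonneg _)

/-- Truncated function `f1 n / n^2` for `n ≥ n0`. -/
noncomputable def trunc (n0 : ℕ) (f1 : ℕ → ℝ) (n : ℕ) : ℝ :=
  if n < n0 then 0 else f1 n / (n : ℝ) ^ 2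

lemma trunc_nonneg {n0 : ℕ} {f1 : ℕ → ℝ} (h0 : ∀ n, n0 ≤ n → 0 ≤ f1 n) (n : ℕ) :
    0 ≤ trunc n0 f1 n := by
  unfold trunc
  split_ifs with h
  · exact le_rfl
  · exact div_nonneg (h0 n (not_lt.mp h)) (by positivity)

lemma abs_trunc_sub_le {n0 : ℕ} (hn0 : 1 ≤ n0) {f1 : ℕ → ℝ} (h0 : ∀ n, n0 ≤ n → 0 ≤ f1 n)
    (hmono : ∀ n, n0 ≤ n → f1 n ≤ f1 (n + 1)) (n : ℕ) :
    |trunc n0 f1 (n + 1) - trunc n0 f1 n| ≤
      (trunc n0 f1 (n + 1) - trunc n0 f1 n) + 4 * (trunc n0 f1 n / n) := by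
  rcases lt_or_ge n n0 with h | h
  · have h1 : trunc n0 f1 n = 0 := by simp [trunc, h]
    rw [h1, sub_zero, abs_of_nonneg (trunc_nonneg h0 _)]
    simp
  · have hn : 1 ≤ n := hn0.trans h
    have hn' : (0 : ℝ) < n := by exact_mod_cast hn
    have h1 : trunc n0 f1 n = f1 n / (n : ℝ) ^ 2 := by simp [trunc, not_lt.mpr h]
    have h2 : trunc n0 f1 (n + 1) = f1 (n + 1) / ((n : ℝ) + 1) ^ 2 := by
      have : ¬ (n + 1 < n0) := by omega
      simp [trunc, this]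
    rw [h1, h2]
    have hf := h0 n h
    have hm := hmono n h
    set A := f1 n
    set B := f1 (n + 1)
    -- difference of inverse squares
    have hd : 1 / (n : ℝ) ^ 2 - 1 / ((n : ℝ) + 1) ^ 2 ≤ 2 / (n : ℝ) ^ 3 := by
      rw [div_sub_div _ _ (by positivity) (by positivity), div_le_div_iff₀ (by positivity) (by positivity)]
      nlinarith [pow_pos hn' 2, pow_pos hn' 3, pow_pos hn' 4]
    have hd' : 0 ≤ 1 / (n : ℝ) ^ 2 - 1 / ((n : ℝ) + 1) ^ 2 := by
      rw [sub_nonneg]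
      apply one_div_le_one_div_of_le (by positivity)
      gcongr; linarith
    have e1 : A / (n : ℝ) ^ 2 / n = A / (n : ℝ) ^ 3 := by
      rw [div_div]; ring
    rw [e1]
    rw [abs_le]
    constructor
    · -- -(x) ≤ B/(n+1)^2 - A/n^2 where x = (B/(n+1)^2 - A/n^2) + 4 A/n^3
      have : A * (1 / (n : ℝ) ^ 2 - 1 / ((n : ℝ) + 1) ^ 2) ≤ A * (2 / (n : ℝ) ^ 3) :=
        mul_le_mul_of_nonneg_left hd hf
      have h3 : 0 ≤ (B - A) * (1 / ((n : ℝ) + 1) ^ 2) := mul_nonneg (by linarith) (by positivity)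
      have e2 : B / ((n : ℝ) + 1) ^ 2 - A / (n : ℝ) ^ 2
          = (B - A) * (1 / ((n : ℝ) + 1) ^ 2) - A * (1 / (n : ℝ) ^ 2 - 1 / ((n : ℝ) + 1) ^ 2) := by
        ring
      rw [e2]
      have e3 : 4 * (A / (n : ℝ) ^ 3) = 2 * (A * (2 / (n : ℝ) ^ 3)) := by ring
      rw [e3]
      linarith
    · have : 0 ≤ 4 * (A / (n : ℝ) ^ 3) := by positivity
      linarith

/-- Main estimate for sums of an oscillating function against `f1 n / n^2`. -/
lemma norm_tsum_mul_trunc_le {ψ : ℕ → ℂ} {Q : ℝ} (hψ : ∀ N, ‖∑ n ∈ range N, ψ n‖ ≤ Q)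
    {n0 : ℕ} (hn0 : 1 ≤ n0) {f1 : ℕ → ℝ} (h0 : ∀ n, n0 ≤ n → 0 ≤ f1 n)
    (hmono : ∀ n, n0 ≤ n → f1 n ≤ f1 (n + 1))
    (hlim : Tendsto (trunc n0 f1) atTop (𝓝 0))
    (hs : Summable fun n => ψ n * (trunc n0 f1 n : ℂ)) {G : ℝ}
    (hg : ∀ N, ∑ n ∈ range N, trunc n0 f1 n / n ≤ G) :
    ‖∑' n, ψ n * (trunc n0 f1 n : ℂ)‖ ≤ 4 * Q * G := by
  have hQ : 0 ≤ Q := (norm_nonneg _).trans (hψ 0)
  have hpart : ∀ N, ‖∑ n ∈ range N, ψ n * (trunc n0 f1 n : ℂ)‖
      ≤ Q * (2 * trunc n0 f1 N + 4 * G) := by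
    intro N
    refine (norm_sum_mul_le hψ _ N).trans ?_
    refine mul_le_mul_of_nonneg_left ?_ hQ
    have h1 : ‖((trunc n0 f1 N : ℝ) : ℂ)‖ = trunc n0 f1 N := by
      rw [Complex.norm_real, Real.norm_of_nonneg (trunc_nonneg h0 N)]
    rw [h1]
    have h2 : ∑ n ∈ range N, ‖((trunc n0 f1 (n + 1) : ℝ) : ℂ) - ((trunc n0 f1 n : ℝ) : ℂ)‖
        ≤ trunc n0 f1 N + 4 * G := by
      have : ∀ n ∈ range N, ‖((trunc n0 f1 (n + 1) : ℝ) : ℂ) - ((trunc n0 f1 n : ℝ) : ℂ)‖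
          ≤ (trunc n0 f1 (n + 1) - trunc n0 f1 n) + 4 * (trunc n0 f1 n / n) := by
        intro n _
        rw [← Complex.ofReal_sub, Complex.norm_real, Real.norm_eq_abs]
        exact abs_trunc_sub_le hn0 h0 hmono n
      refine (Finset.sum_le_sum this).trans ?_
      rw [Finset.sum_add_distrib, Finset.sum_range_sub (fun n => trunc n0 f1 n), ← Finset.mul_sum]
      have h00 : trunc n0 f1 0 = 0 := by
        have : (0 : ℕ) < n0 := by omega
        simp [trunc, this]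
      rw [h00, sub_zero]
      have := hg N
      linarith
    linarith
  have hlim2 : Tendsto (fun N => Q * (2 * trunc n0 f1 N + 4 * G)) atTop (𝓝 (Q * (2 * 0 + 4 * G))) :=
    ((hlim.const_mul 2).add_const _).const_mul _
  have hlim3 := (hs.hasSum.tendsto_sum_nat).norm
  have := le_of_tendsto_of_tendsto' hlim3 hlim2 hpart
  calc ‖∑' n, ψ n * (trunc n0 f1 n : ℂ)‖ ≤ Q * (2 * 0 + 4 * G) := this
    _ = 4 * Q * G := by ring

end Pool.Agent.Helper11.MT
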