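import Pool.Agent.Helper11.MT.CharSum

namespace Pool.Agent.Helper11.MT

open Finset Filter Topology Complex DirichletCharacter
open ArithmeticFunction (vonMangoldt)

lemma abscissa_char_lt {N : ℕ} [NeZero N] (χ : DirichletCharacter ℂ N) :
    LSeries.abscissaOfAbsConv (fun n : ℕ => χ n) < 2 := by
  have := absicssaOfAbsConv_eq_one (NeZero.ne N) χ
  rw [this]; norm_num

lemma hasSum_of_eq {α : Type*} [AddCommMonoid α] [TopologicalSpace α] {f g : ℕ → α} {a : α}
    (h : HasSum f a) (hfg : ∀ i, f i = g i) : HasSum g a := by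
  have : f = g := funext hfg
  rwa [← this]

lemma hasSum_LFunction {N : ℕ} [NeZero N] {χ : DirichletCharacter ℂ N} (hχ : χ ≠ 1) (σ τ : ℝ) :
    HasSum (fun i : ℕ => ((σ - 2 : ℝ) : ℂ) ^ i * ((-1) ^ i * ∑' n : ℕ, χ n * wτ τ i n))
      (LFunction χ (σ + τ * I)) := by
  have h := Complex.hasSum_taylorSeries_of_entire (differentiable_LFunction hχ) (2 + τ * I) (σ + τ * I)
  refine hasSum_of_eq h fun i => ?_
  have h1 : iteratedDeriv i (LFunction χ) (2 + τ * I) = iteratedDeriv i (LSeries (fun n : ℕ => χ n)) (2 + τ * I) := by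
    apply Filter.EventuallyEq.iteratedDeriv_eq
    have hopen : IsOpen {s : ℂ | 1 < s.re} := isOpen_lt continuous_const Complex.continuous_re
    filter_upwards [hopen.mem_nhds (show (2 + τ * I : ℂ) ∈ {s : ℂ | 1 < s.re} by simp)] with s hs
    exact LFunction_eq_LSeries χ hs
  have h2 := tsum_eq_iteratedDeriv (abscissa_char_lt χ) i τ
  have h3 : ∑' n : ℕ, χ n * wτ τ i n = (-1) ^ i * (iteratedDeriv i (LSeries fun n : ℕ => χ n) (2 + τ * I)) / i.factorial := by
    rw [← h2]
    refine tsum_congr fun n => ?_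
    unfold wτ; ring
  rw [h1, h3]
  have h4 : (i.factorial : ℂ) ≠ 0 := by exact_mod_cast i.factorial_ne_zero
  have h5 : ((-1 : ℂ) ^ i) * (-1) ^ i = 1 := by rw [← mul_pow]; simp
  have h6 : ((σ - 2 : ℝ) : ℂ) = (σ + τ * I - (2 + τ * I) : ℂ) := by push_cast; ring
  rw [h6]
  simp only [smul_eq_mul]
  field_simp
  linear_combination (-(((σ + τ * I - (2 + τ * I) : ℂ)) ^ i * (iteratedDeriv i (LSeries fun n : ℕ => χ n) (2 + τ * I)))) * h5

/-- Upper bound for L-functions near the line `Re s = 1`. -/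
lemma norm_LFunction_le_aux {B : ℝ} (hB1 : 1 ≤ B) (hB : ∀ i : ℕ, ∑' n, w i n ≤ B)
    {N : ℕ} [NeZero N] {χ : DirichletCharacter ℂ N} (hχ : χ ≠ 1) {l : ℕ} (hl : 8 ≤ l)
    (hN : (N : ℝ) ≤ (4 / 3) ^ l) {σ τ : ℝ} (hσ : |σ - 2| ≤ 1 + 1 / l) (hτ : |τ| ≤ 3) :
    ‖LFunction χ (σ + τ * I)‖ ≤ (3 * B + 28 * K32) * l := by
  have hl' : (8 : ℝ) ≤ l := by exact_mod_cast hl
  have hsum := hasSum_LFunction hχ σ τ
  set b : ℕ → ℝ := fun i => ‖∑' n : ℕ, χ n * wτ τ i n‖ with hb
  have hb1 : ∀ i, b i ≤ B := fun i => norm_tsum_char_wτ_le' hB τ i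
  have hb2 : ∀ i, b i ≤ 7 * K32 * ((4 / 3 : ℝ) ^ l * (2 / 3) ^ i) := by
    intro i
    refine (norm_tsum_char_wτ_le hχ τ i).trans ?_
    have hK := K32_nonneg
    calc (N : ℝ) * ((4 + |τ|) * ((2 / 3) ^ i * K32)) ≤ (4 / 3) ^ l * ((4 + 3) * ((2 / 3) ^ i * K32)) := by
          gcongr
      _ = _ := by ring
  have hb0 : ∀ i, 0 ≤ b i := fun i => norm_nonneg _
  have hx0 : 0 ≤ |σ - 2| := abs_nonneg _
  -- the dominating sequence
  set dom : ℕ → ℝ := fun i => (if i < l then 3 * B else 0) + 7 * K32 * (3 / 4 : ℝ) ^ i * (if i < l then 0 else (4 / 3 : ℝ) ^ l) with hdom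
  have hterm : ∀ i, ‖((σ - 2 : ℝ) : ℂ) ^ i * ((-1) ^ i * ∑' n : ℕ, χ n * wτ τ i n)‖ ≤ dom i := by
    intro i
    rw [norm_mul, norm_mul, norm_pow, norm_pow, norm_neg, norm_one, one_pow, one_mul,
      Complex.norm_real, Real.norm_eq_abs]
    change |σ - 2| ^ i * b i ≤ dom i
    simp only [hdom]
    by_cases hi : i < l
    · rw [if_pos hi, if_pos hi, mul_zero, add_zero]
      have h1 : |σ - 2| ^ i ≤ 3 := by
        calc |σ - 2| ^ i ≤ (1 + 1 / (l : ℝ)) ^ i := by gcongr
          _ ≤ (1 + 1 / (l : ℝ)) ^ l := by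
              apply pow_le_pow_right₀ _ hi.le
              have : 0 ≤ 1 / (l : ℝ) := by positivity
              linarith
          _ ≤ Real.exp (1 / (l : ℝ)) ^ l := by
              gcongr
              have := Real.add_one_le_exp (1 / (l : ℝ))
              linarith
          _ = Real.exp 1 := by
              rw [← Real.exp_nat_mul]; congr 1; field_simp
          _ ≤ 3 := Real.exp_one_lt_three.le
      have := mul_le_mul h1 (hb1 i) (hb0 i) (by norm_num)
      linarith
    · rw [if_neg hi, if_neg hi, zero_add]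
      have h1 : |σ - 2| ≤ 9 / 8 := by
        refine hσ.trans ?_
        have : 1 / (l : ℝ) ≤ 1 / 8 := one_div_le_one_div_of_le (by norm_num) hl'
        linarith
      calc |σ - 2| ^ i * b i ≤ (9 / 8) ^ i * (7 * K32 * ((4 / 3 : ℝ) ^ l * (2 / 3) ^ i)) := by
            gcongr
            exact hb2 i
        _ = 7 * K32 * ((9 / 8) * (2 / 3) : ℝ) ^ i * (4 / 3 : ℝ) ^ l := by rw [mul_pow]; ring
        _ = _ := by norm_num
  -- sum of the dominating sequence
  have hdomsum : HasSum dom (3 * B * l + 28 * K32) := by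
    have h1 : HasSum (fun i : ℕ => if i < l then 3 * B else 0) (3 * B * l) := by
      have : HasSum (fun i : ℕ => if i < l then 3 * B else 0) (∑ i ∈ range l, if i < l then 3 * B else 0) := by
        apply hasSum_sum_of_ne_finset_zero
        intro i hi
        rw [if_neg (by simpa using hi)]
      convert this using 1
      rw [Finset.sum_congr rfl (fun i hi => if_pos (Finset.mem_range.mp hi))]
      simp [mul_comm]
    have h2 : HasSum (fun i : ℕ => 7 * K32 * (3 / 4 : ℝ) ^ i * (if i < l then 0 else (4 / 3 : ℝ) ^ l)) (28 * K32) := by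
      rw [← hasSum_nat_add_iff' l]
      have hz : ∑ i ∈ range l, 7 * K32 * (3 / 4 : ℝ) ^ i * (if i < l then 0 else (4 / 3 : ℝ) ^ l) = 0 := by
        apply Finset.sum_eq_zero
        intro i hi
        rw [if_pos (Finset.mem_range.mp hi), mul_zero]
      rw [hz, sub_zero]
      have hg := (hasSum_geometric_of_lt_one (r := (3 / 4 : ℝ)) (by norm_num) (by norm_num)).mul_left (7 * K32)
      have e1 : 7 * K32 * (1 - 3 / 4 : ℝ)⁻¹ = 28 * K32 := by norm_num; ring
      rw [e1] at hg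
      refine hasSum_of_eq hg fun i => ?_
      rw [if_neg (by omega), pow_add]
      have : (3 / 4 : ℝ) ^ l * (4 / 3) ^ l = 1 := by rw [← mul_pow]; norm_num
      linear_combination -(7 * K32 * (3 / 4 : ℝ) ^ i * this)
    exact h1.add h2
  have hle := tsum_of_norm_bounded hdomsum hterm
  rw [hsum.tsum_eq] at hle
  refine hle.trans ?_
  have hK := K32_nonneg
  nlinarith

end Pool.Agent.Helper11.MT
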