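import Mathlib
import Pool.Agent.Helper11.MT.Final4
import Pool.Agent.Helper11.MT.EQ
import Pool.Agent.Helper11.MT.RealChars
import Pool.Agent.Helper11.MT.PrimePowers

/-!
The Maynard-Tao theorem.
-/

namespace Pool.Agent.Helper11.MT

theorem mt : MTStatement := mt_of (eq_of realTail) pp

end Pool.Agent.Helper11.MT
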