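import Pool.Agent.Helper11.MT.Kernel2

namespace Pool.Agent.Helper11.MT

open Finset Filter Topology Complex

lemma iterate_logMul (a : ℕ → ℂ) (i n : ℕ) :
    (LSeries.logMul^[i] a) n = (Real.log n : ℂ) ^ i * a n := by
  induction i generalizing n with
  | zero => simp
  | succ i ih =>
    rw [Function.iterate_succ_apply', LSeries.logMul, ih, pow_succ, ← Complex.natCast_log]
    ring

lemma w_cast (i n : ℕ) : ((w i n : ℝ) : ℂ) = (Real.log n : ℂ) ^ i / (i.factorial * (n : ℂ) ^ 2) := by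
  unfold w; push_cast; rfl

lemma LSeries_logMul_eq (a : ℕ → ℂ) (i : ℕ) (τ : ℝ) :
    LSeries (LSeries.logMul^[i] a) (2 + τ * I) =
      i.factorial * ∑' n, a n * (n : ℂ) ^ (-(τ * I)) * (w i n : ℂ) := by
  rw [LSeries, ← tsum_mul_left]
  refine tsum_congr fun n => ?_
  rcases Nat.eq_zero_or_pos n with rfl | hn
  · simp [w_zero_right]
  · rw [LSeries.term_of_ne_zero (by omega), iterate_logMul, w_cast]
    have hn' : (n : ℂ) ≠ 0 := by exact_mod_cast (by omega : n ≠ 0)
    rw [Complex.cpow_add _ _ hn', Complex.cpow_neg]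
    have h1 : (n : ℂ) ^ (τ * I : ℂ) ≠ 0 := by
      rw [Complex.cpow_def_of_ne_zero hn']; exact Complex.exp_ne_zero _
    have h2 : (n : ℂ) ^ (2 : ℂ) = (n : ℂ) ^ 2 := by norm_cast
    rw [h2]
    have h3 : (i.factorial : ℂ) ≠ 0 := by exact_mod_cast i.factorial_ne_zero
    field_simp

lemma tsum_eq_iteratedDeriv {a : ℕ → ℂ} (ha : LSeries.abscissaOfAbsConv a < 2) (i : ℕ) (τ : ℝ) :
    ∑' n, a n * (n : ℂ) ^ (-(τ * I)) * (w i n : ℂ) =
      (-1) ^ i * (iteratedDeriv i (LSeries a) (2 + τ * I)) / i.factorial := by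
  have h3 : (i.factorial : ℂ) ≠ 0 := by exact_mod_cast i.factorial_ne_zero
  have ha' : LSeries.abscissaOfAbsConv a < ((2 + τ * I : ℂ).re : EReal) := by
    have : (2 + τ * I : ℂ).re = 2 := by simp
    rw [this]; exact_mod_cast ha
  rw [LSeries_iteratedDeriv i ha', LSeries_logMul_eq]
  have : ((-1 : ℂ) ^ i) * (-1) ^ i = 1 := by rw [← mul_pow]; simp
  field_simp
  linear_combination (-(∑' n, a n * (n : ℂ) ^ (-(τ * I)) * (w i n : ℂ))) * this

lemma tsum_eq_iteratedDeriv' {a : ℕ → ℂ} (ha : LSeries.abscissaOfAbsConv a < 2) (i : ℕ) :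
    ∑' n, a n * (w i n : ℂ) = (-1) ^ i * (iteratedDeriv i (LSeries a) 2) / i.factorial := by
  have := tsum_eq_iteratedDeriv ha i 0
  simpa using this

/-- Taylor coefficients of a function analytic on a closed ball decay. -/
lemma tendsto_iteratedDeriv_div_factorial {g : ℂ → ℂ}
    (hg : AnalyticOnNhd ℂ g (Metric.closedBall 2 1)) :
    Tendsto (fun i : ℕ => iteratedDeriv i g 2 / i.factorial) atTop (𝓝 0) := by
  have hopen : IsOpen {z | AnalyticAt ℂ g z} := isOpen_analyticAt ℂ g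
  obtain ⟨δ, hδ, hsub⟩ := (isCompact_closedBall (2 : ℂ) 1).exists_cthickening_subset_open hopen
    (fun z hz => hg z hz)
  rw [cthickening_closedBall hδ.le zero_le_one] at hsub
  have hdiff : DifferentiableOn ℂ g (Metric.closedBall 2 (1 + δ)) := fun z hz =>
    (hsub (by rwa [add_comm] at hz)).differentiableAt.differentiableWithinAt
  obtain ⟨C, hC⟩ := (isCompact_closedBall (2 : ℂ) (1 + δ)).exists_bound_of_continuousOn
    hdiff.continuousOn
  have hbound : ∀ i : ℕ, ‖iteratedDeriv i g 2 / i.factorial‖ ≤ C / (1 + δ) ^ i := by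
    intro i
    have h1 := Complex.norm_iteratedDeriv_le_of_forall_mem_sphere_norm_le (n := i) (C := C)
      (by positivity : 0 < 1 + δ) (hdiff.diffContOnCl_ball le_rfl)
      (fun z hz => hC z (Metric.sphere_subset_closedBall hz))
    have h3 : (0 : ℝ) < i.factorial := by exact_mod_cast i.factorial_pos
    rw [norm_div, Complex.norm_natCast, div_le_iff₀ h3]
    calc _ ≤ _ := h1
      _ = _ := by ring
  have hlim : Tendsto (fun i : ℕ => C / (1 + δ) ^ i) atTop (𝓝 0) := by
    have : Tendsto (fun i : ℕ => C * ((1 + δ)⁻¹) ^ i) atTop (𝓝 (C * 0)) :=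
      (tendsto_pow_atTop_nhds_zero_of_lt_one (by positivity)
        (inv_lt_one_of_one_lt₀ (by linarith))).const_mul C
    simpa [div_eq_mul_inv] using this
  exact squeeze_zero_norm hbound hlim

lemma iteratedDeriv_inv_sub_one (i : ℕ) :
    iteratedDeriv i (fun s : ℂ => (s - 1)⁻¹) 2 = (-1) ^ i * i.factorial := by
  have h := iteratedDeriv_comp_sub_const i (Inv.inv : ℂ → ℂ) 1
  have h2 := congrFun h 2
  rw [h2, iteratedDeriv_eq_iterate, iter_deriv_inv]
  have : (2 : ℂ) - 1 = 1 := by norm_num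
  rw [this]
  simp

/-- Main Tauberian-type lemma. -/
lemma tendsto_tsum_mul_w {a : ℕ → ℂ} (ha : LSeries.abscissaOfAbsConv a < 2) {c : ℂ} {g : ℂ → ℂ}
    (hg : AnalyticOnNhd ℂ g (Metric.closedBall 2 1))
    (hag : ∀ᶠ s in 𝓝 (2 : ℂ), LSeries a s = c * (s - 1)⁻¹ + g s) :
    Tendsto (fun J : ℕ => ∑' n, a n * (w J n : ℂ)) atTop (𝓝 c) := by
  have hcomp : ∀ J : ℕ, ∑' n, a n * (w J n : ℂ) =
      c + (-1) ^ J * (iteratedDeriv J g 2 / J.factorial) := by
    intro J
    rw [tsum_eq_iteratedDeriv' ha]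
    have h3 : (J.factorial : ℂ) ≠ 0 := by exact_mod_cast J.factorial_ne_zero
    have hg2 : AnalyticAt ℂ g 2 := hg 2 (Metric.mem_closedBall_self zero_le_one)
    have h1 : iteratedDeriv J (LSeries a) 2 =
        c * ((-1) ^ J * J.factorial) + iteratedDeriv J g 2 := by
      rw [Filter.EventuallyEq.iteratedDeriv_eq J hag]
      have hinv : ContDiffAt ℂ J (fun s : ℂ => (s - 1)⁻¹) 2 := by
        apply ContDiffAt.inv
        · fun_prop
        · norm_num
      have e1 : iteratedDeriv J (fun s => c * (s - 1)⁻¹ + g s) 2 =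
          iteratedDeriv J (fun s => c * (s - 1)⁻¹) 2 + iteratedDeriv J g 2 := by
        apply iteratedDeriv_fun_add
        · exact contDiffAt_const.mul hinv
        · exact hg2.contDiffAt.of_le le_top
      rw [e1, iteratedDeriv_const_mul_field, iteratedDeriv_inv_sub_one]
    rw [h1]
    have : ((-1 : ℂ) ^ J) * (-1) ^ J = 1 := by rw [← mul_pow]; simp
    field_simp
    linear_combination c * J.factorial * this
  simp_rw [hcomp]
  have h2 := tendsto_iteratedDeriv_div_factorial hg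
  have h4 : Tendsto (fun J : ℕ => (-1 : ℂ) ^ J * (iteratedDeriv J g 2 / J.factorial)) atTop (𝓝 0) := by
    rw [tendsto_zero_iff_norm_tendsto_zero] at h2 ⊢
    simpa [norm_mul, norm_pow] using h2
  simpa using h4.const_add c

end Pool.Agent.Helper11.MT
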