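import Mathlib
import Pool.Agent.Helper11.MT.App
import Pool.Agent.Helper11.MT.MaynardTao

/-!
Unboundedness of the quotient, unconditionally.
-/

namespace Pool.Agent.Helper11.MT

theorem appStatement : AppStatement := app mt

theorem unbounded (T : ℕ → ℕ) (hT : ∀ i, 1 ≤ i → T i = SS i) :
    ¬ ∃ C : ℝ, ∀ n : ℕ, 1 ≤ n → ∀ a : ℕ, IsLeast {k : ℕ | n < k ∧ T n ∣ T k} a →
      (T a : ℝ) ≤ C * T n := by
  rintro ⟨C, hC⟩
  obtain ⟨n, hn, a, ha, hlt⟩ := appStatement ⌈C⌉₊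
  have hset : {k : ℕ | n < k ∧ T n ∣ T k} = {k : ℕ | n < k ∧ SS n ∣ SS k} := by
    ext k
    constructor
    · rintro ⟨h1, h2⟩
      rw [hT n hn, hT k (by omega)] at h2
      exact ⟨h1, h2⟩
    · rintro ⟨h1, h2⟩
      refine ⟨h1, ?_⟩
      rw [hT n hn, hT k (by omega)]
      exact h2
  have h1 := hC n hn a (by rw [hset]; exact ha)
  have h2 : 1 ≤ a := by
    have := ha.1.1
    omega
  rw [hT n hn, hT a h2] at h1
  have h3 : ((⌈C⌉₊ * SS n : ℕ) : ℝ) < SS a := by exact_mod_cast hlt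
  have h4 : C * SS n ≤ ((⌈C⌉₊ * SS n : ℕ) : ℝ) := by
    push_cast
    exact mul_le_mul_of_nonneg_right (Nat.le_ceil C) (Nat.cast_nonneg _)
  linarith

end Pool.Agent.Helper11.MT
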